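import Pool.Agent.SobEnt.Targets

/-!
# Elementary properties of the entropy of finite partitions (MP_07df6b_an)
-/

open MeasureTheory Filter Topology Set
open scoped ENNReal NNReal

universe u v w

namespace Pool.Agent.SobEnt

namespace EntLib

/-! ### real inequalities -/

lemma point_ineq {p s t r : ℝ} (hp : 0 ≤ p) (hps : p ≤ s) (hpt : p ≤ t) (hpr : p ≤ r) :
    Real.negMulLog p + p * Real.log s + p * Real.log t - p * Real.log r ≤ s * t / r - p := by
  rcases hp.eq_or_lt with h | h
  · subst h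
    simp only [Real.negMulLog_zero, zero_mul, add_zero, sub_zero]
    positivity
  · have hs : 0 < s := h.trans_le hps
    have ht : 0 < t := h.trans_le hpt
    have hr : 0 < r := h.trans_le hpr
    have h1 : Real.negMulLog p + p * Real.log s + p * Real.log t - p * Real.log r =
        p * Real.log (s * t / (p * r)) := by
      rw [Real.log_div (by positivity) (by positivity), Real.log_mul hs.ne' ht.ne',
        Real.log_mul h.ne' hr.ne', Real.negMulLog]
      ring
    have h2 := Real.log_le_sub_one_of_pos (show 0 < s * t / (p * r) by positivity)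
    rw [h1]
    calc p * Real.log (s * t / (p * r)) ≤ p * (s * t / (p * r) - 1) := by gcongr
      _ = s * t / r - p := by field_simp

lemma ssa_real {α β γ : Type*} [Fintype α] [Fintype β] [Fintype γ] (p : α → β → γ → ℝ)
    (hp : ∀ a b c, 0 ≤ p a b c) :
    ∑ a, ∑ b, ∑ c, Real.negMulLog (p a b c) + ∑ c, Real.negMulLog (∑ a, ∑ b, p a b c) ≤
      ∑ a, ∑ c, Real.negMulLog (∑ b, p a b c) + ∑ b, ∑ c, Real.negMulLog (∑ a, p a b c) := by
  set r : γ → ℝ := fun c => ∑ a, ∑ b, p a b c with hr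
  set s : α → γ → ℝ := fun a c => ∑ b, p a b c with hs
  set t : β → γ → ℝ := fun b c => ∑ a, p a b c with ht
  have hps : ∀ a b c, p a b c ≤ s a c := fun a b c =>
    Finset.single_le_sum (f := fun b => p a b c) (fun b _ => hp a b c) (Finset.mem_univ b)
  have hpt : ∀ a b c, p a b c ≤ t b c := fun a b c =>
    Finset.single_le_sum (f := fun a => p a b c) (fun a _ => hp a b c) (Finset.mem_univ a)
  have hs0 : ∀ a c, 0 ≤ s a c := fun a c => Finset.sum_nonneg fun b _ => hp a b c
  have hsr : ∀ a c, s a c ≤ r c := fun a c =>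
    Finset.single_le_sum (f := fun a => s a c) (fun a _ => hs0 a c) (Finset.mem_univ a)
  have key : ∑ a, ∑ b, ∑ c, (Real.negMulLog (p a b c) + p a b c * Real.log (s a c) +
      p a b c * Real.log (t b c) - p a b c * Real.log (r c)) ≤
      ∑ a, ∑ b, ∑ c, (s a c * t b c / r c - p a b c) :=
    Finset.sum_le_sum fun a _ => Finset.sum_le_sum fun b _ => Finset.sum_le_sum fun c _ =>
      point_ineq (hp a b c) (hps a b c) (hpt a b c) ((hps a b c).trans (hsr a c))
  simp only [Finset.sum_sub_distrib, Finset.sum_add_distrib] at key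
  have e1 : ∑ a, ∑ b, ∑ c, p a b c * Real.log (s a c) =
      - ∑ a, ∑ c, Real.negMulLog (s a c) := by
    rw [← Finset.sum_neg_distrib]
    refine Finset.sum_congr rfl fun a _ => ?_
    rw [Finset.sum_comm, ← Finset.sum_neg_distrib]
    refine Finset.sum_congr rfl fun c _ => ?_
    rw [← Finset.sum_mul, Real.negMulLog]
    ring
  have e2 : ∑ a, ∑ b, ∑ c, p a b c * Real.log (t b c) =
      - ∑ b, ∑ c, Real.negMulLog (t b c) := by
    rw [Finset.sum_comm, ← Finset.sum_neg_distrib]
    refine Finset.sum_congr rfl fun b _ => ?_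
    rw [Finset.sum_comm, ← Finset.sum_neg_distrib]
    refine Finset.sum_congr rfl fun c _ => ?_
    rw [← Finset.sum_mul, Real.negMulLog]
    ring
  have hcab : ∀ f : α → β → γ → ℝ, ∑ a, ∑ b, ∑ c, f a b c = ∑ c, ∑ a, ∑ b, f a b c := by
    intro f
    calc ∑ a, ∑ b, ∑ c, f a b c = ∑ a, ∑ c, ∑ b, f a b c :=
          Finset.sum_congr rfl fun a _ => Finset.sum_comm
      _ = ∑ c, ∑ a, ∑ b, f a b c := Finset.sum_comm
  have e3 : ∑ a, ∑ b, ∑ c, p a b c * Real.log (r c) = - ∑ c, Real.negMulLog (r c) := by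
    rw [hcab, ← Finset.sum_neg_distrib]
    refine Finset.sum_congr rfl fun c _ => ?_
    simp_rw [← Finset.sum_mul]
    rw [Real.negMulLog]
    ring
  have e4 : ∑ a, ∑ b, ∑ c, s a c * t b c / r c = ∑ c, r c := by
    rw [hcab]
    refine Finset.sum_congr rfl fun c _ => ?_
    have h1 : ∀ a, ∑ b, s a c * t b c / r c = s a c * (r c / r c) := by
      intro a
      rw [← Finset.sum_div, ← Finset.mul_sum, mul_div_assoc]
      congr 2
      rw [hr]
      exact Finset.sum_comm
    rw [Finset.sum_congr rfl fun a _ => h1 a, ← Finset.sum_mul]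
    change r c * (r c / r c) = r c
    by_cases h : r c = 0
    · rw [h]; simp
    · rw [div_self h, mul_one]
  have e5 : ∑ a, ∑ b, ∑ c, p a b c = ∑ c, r c := hcab _
  rw [e1, e2, e3, e4, e5] at key
  linarith

lemma negMulLog_add_le {x y : ℝ} (hx : 0 ≤ x) (hy : 0 ≤ y) :
    Real.negMulLog (x + y) ≤ Real.negMulLog x + Real.negMulLog y := by
  rcases hx.eq_or_lt with h | h
  · subst h; simp
  rcases hy.eq_or_lt with h' | h'
  · subst h'; simp
  have h1 : Real.log x ≤ Real.log (x + y) := Real.log_le_log h (by linarith)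
  have h2 : Real.log y ≤ Real.log (x + y) := Real.log_le_log h' (by linarith)
  simp only [Real.negMulLog]
  nlinarith

lemma negMulLog_sum_le {ι : Type*} (s : Finset ι) (f : ι → ℝ) (hf : ∀ i, 0 ≤ f i) :
    Real.negMulLog (∑ i ∈ s, f i) ≤ ∑ i ∈ s, Real.negMulLog (f i) := by
  classical
  induction s using Finset.induction_on with
  | empty => simp
  | insert i s hi ih =>
    rw [Finset.sum_insert hi, Finset.sum_insert hi]
    have := negMulLog_add_le (hf i) (Finset.sum_nonneg fun j (_ : j ∈ s) => hf j)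
    linarith

/-- entropy of a vector with at most `N` nonzero entries -/
lemma card_bound {β : Type*} [Fintype β] (q : β → ℝ) (hq : ∀ b, 0 ≤ q b) (N : ℕ) (hN : 1 ≤ N)
    (S : Finset β) (hS : ∀ b, b ∉ S → q b = 0) (hc : S.card ≤ N) :
    ∑ b, Real.negMulLog (q b) ≤ Real.negMulLog (∑ b, q b) + (∑ b, q b) * Real.log N := by
  set r := ∑ b, q b with hr
  have hr0 : 0 ≤ r := Finset.sum_nonneg fun b _ => hq b
  have hN' : (1 : ℝ) ≤ N := by exact_mod_cast hN
  have hqr : ∀ b, q b ≤ r := fun b =>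
    Finset.single_le_sum (f := q) (fun b _ => hq b) (Finset.mem_univ b)
  have hrS : ∑ b ∈ S, q b = r := by
    rw [hr]
    exact Finset.sum_subset (Finset.subset_univ S) fun b _ hb => hS b hb
  have h1 : ∀ b ∈ S, Real.negMulLog (q b) + q b * Real.log r - q b * Real.log N ≤
      r / N - q b := by
    intro b _
    rcases (hq b).eq_or_lt with h | h
    · rw [← h]
      simp only [Real.negMulLog_zero, zero_mul, add_zero, sub_zero]
      positivity
    · have hr1 : 0 < r := h.trans_le (hqr b)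
      have e1 : Real.negMulLog (q b) + q b * Real.log r - q b * Real.log N =
          q b * Real.log (r / (N * q b)) := by
        rw [Real.log_div (by positivity) (by positivity), Real.log_mul (by positivity) h.ne',
          Real.negMulLog]
        ring
      have h2 := Real.log_le_sub_one_of_pos (show 0 < r / (N * q b) by positivity)
      rw [e1]
      calc q b * Real.log (r / (N * q b)) ≤ q b * (r / (N * q b) - 1) := by gcongr
        _ = r / N - q b := by field_simp
  have h2 := Finset.sum_le_sum h1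
  simp only [Finset.sum_sub_distrib, Finset.sum_add_distrib, ← Finset.sum_mul, hrS,
    Finset.sum_const, nsmul_eq_mul] at h2
  have h3 : ∑ b ∈ S, Real.negMulLog (q b) = ∑ b, Real.negMulLog (q b) :=
    Finset.sum_subset (Finset.subset_univ S) fun b _ hb => by rw [hS b hb]; simp
  rw [h3] at h2
  have h4 : (S.card : ℝ) * (r / N) ≤ r := by
    have h5 : (S.card : ℝ) ≤ N := by exact_mod_cast hc
    calc (S.card : ℝ) * (r / N) ≤ N * (r / N) := by gcongr
      _ = r := by field_simp
  have h6 : Real.negMulLog r = - (r * Real.log r) := by rw [Real.negMulLog]; ring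
  rw [h6]
  linarith

/-- uniform continuity of `negMulLog` on `[0, 1]` -/
lemma exists_modulus (ε : ℝ) (hε : 0 < ε) : ∃ δ : ℝ, 0 < δ ∧ ∀ x y : ℝ, 0 ≤ x → x ≤ 1 → 0 ≤ y →
    y ≤ 1 → |x - y| ≤ δ → |Real.negMulLog x - Real.negMulLog y| ≤ ε := by
  have h1 : UniformContinuousOn Real.negMulLog (Icc (0 : ℝ) 1) :=
    isCompact_Icc.uniformContinuousOn_of_continuous Real.continuous_negMulLog.continuousOn
  rw [Metric.uniformContinuousOn_iff] at h1
  obtain ⟨δ, hδ, h⟩ := h1 ε hε
  refine ⟨δ / 2, by positivity, fun x y hx hx' hy hy' hxy => ?_⟩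
  have h2 := h x ⟨hx, hx'⟩ y ⟨hy, hy'⟩ (by rw [Real.dist_eq]; linarith)
  rw [Real.dist_eq] at h2
  exact h2.le

/-! ### entropies -/

section

variable {X : Type*} [MeasurableSpace X] {α β γ : Type*}

/-- all fibres are measurable -/
def FM (P : X → α) : Prop := ∀ a, MeasurableSet (P ⁻¹' {a})

lemma FM.of_measurable {k : ℕ} {P : X → Fin k} (hP : Measurable P) : FM P := fun a =>
  hP (measurableSet_singleton a)

lemma FM.pair {P : X → α} {Q : X → β} (hP : FM P) (hQ : FM Q) : FM (fun x => (P x, Q x)) := by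
  rintro ⟨a, b⟩
  have : (fun x => (P x, Q x)) ⁻¹' {(a, b)} = P ⁻¹' {a} ∩ Q ⁻¹' {b} := by
    ext x; simp [Prod.ext_iff]
  rw [this]
  exact (hP a).inter (hQ b)

lemma FM.map [Finite α] {P : X → α} (hP : FM P) (φ : α → β) : FM (fun x => φ (P x)) := by
  intro b
  have : (fun x => φ (P x)) ⁻¹' {b} = ⋃ a ∈ {a | φ a = b}, P ⁻¹' {a} := by
    ext x; simp
  rw [this]
  exact MeasurableSet.biUnion (Set.to_countable _) fun a _ => hP a

lemma FM.comp {P : X → α} (hP : FM P) {T : X → X} (hT : Measurable T) :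
    FM (fun x => P (T x)) := fun a => hT (hP a)

lemma FM.itin {P : X → α} (hP : FM P) {T : X → X} (hT : Measurable T) (n : ℕ) :
    FM (Pool.Agent.SobEnt.itin T P n) := by
  intro v
  have : Pool.Agent.SobEnt.itin T P n ⁻¹' {v} = ⋂ i : Fin n, T^[i] ⁻¹' (P ⁻¹' {v i}) := by
    ext x
    simp only [mem_preimage, mem_singleton_iff, mem_iInter, Pool.Agent.SobEnt.itin]
    exact funext_iff
  rw [this]
  exact MeasurableSet.iInter fun i => (hT.iterate i) (hP _)

variable (μ : Measure X) [IsFiniteMeasure μ]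

lemma sum_fibre [Fintype β] {Q : X → β} (hQ : FM Q) (s : Set X) (hs : MeasurableSet s) :
    ∑ b, μ.real (s ∩ Q ⁻¹' {b}) = μ.real s := by
  have h1 : s = ⋃ b ∈ (Finset.univ : Finset β), s ∩ Q ⁻¹' {b} := by
    ext x; simp
  conv_rhs => rw [h1]
  rw [measureReal_biUnion_finset]
  · intro b _ c _ hbc
    rw [Function.onFun, Set.disjoint_left]
    rintro x ⟨_, h2⟩ ⟨_, h3⟩
    exact hbc (h2.symm.trans h3)
  · intro b _
    exact hs.inter (hQ b)

lemma Hp_inj [Fintype α] [Fintype β] (P : X → α) (φ : α → β) (hφ : Function.Injective φ) :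
    Hp μ (fun x => φ (P x)) = Hp μ P := by
  classical
  unfold Hp
  have h1 : ∀ b, b ∉ Finset.univ.image φ →
      Real.negMulLog (μ.real ((fun x => φ (P x)) ⁻¹' {b})) = 0 := by
    intro b hb
    have : (fun x => φ (P x)) ⁻¹' {b} = ∅ := by
      ext x
      simp only [mem_preimage, mem_singleton_iff, mem_empty_iff_false, iff_false]
      intro h
      exact hb (Finset.mem_image.2 ⟨P x, Finset.mem_univ _, h⟩)
    rw [this]
    simp
  rw [← Finset.sum_subset (Finset.subset_univ (Finset.univ.image φ)) fun b _ hb => h1 b hb,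
    Finset.sum_image fun a _ b _ h => hφ h]
  refine Finset.sum_congr rfl fun a _ => ?_
  congr 2
  ext x
  simp [hφ.eq_iff]

lemma Hp_comp [Fintype α] {P : X → α} (hP : FM P) {T : X → X} (hT : MeasurePreserving T μ μ) :
    Hp μ (fun x => P (T x)) = Hp μ P := by
  unfold Hp
  refine Finset.sum_congr rfl fun a _ => ?_
  congr 1
  rw [measureReal_def, measureReal_def]
  congr 1
  exact hT.measure_preimage (hP a).nullMeasurableSet

/-- strong subadditivity -/
lemma ssa [Fintype α] [Fintype β] [Fintype γ] {P : X → α} {Q : X → β} {R : X → γ} (hP : FM P)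
    (hQ : FM Q) (hR : FM R) :
    Hp μ (fun x => (P x, Q x, R x)) + Hp μ R ≤
      Hp μ (fun x => (P x, R x)) + Hp μ (fun x => (Q x, R x)) := by
  set p : α → β → γ → ℝ := fun a b c => μ.real (P ⁻¹' {a} ∩ Q ⁻¹' {b} ∩ R ⁻¹' {c}) with hp
  have h := ssa_real p fun a b c => measureReal_nonneg
  have e1 : Hp μ (fun x => (P x, Q x, R x)) = ∑ a, ∑ b, ∑ c, Real.negMulLog (p a b c) := by
    unfold Hp
    rw [Fintype.sum_prod_type]
    refine Finset.sum_congr rfl fun a _ => ?_
    rw [Fintype.sum_prod_type]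
    refine Finset.sum_congr rfl fun b _ => Finset.sum_congr rfl fun c _ => ?_
    congr 2
    ext x
    simp only [mem_preimage, mem_singleton_iff, Prod.ext_iff, mem_inter_iff]
    tauto
  have e2 : Hp μ R = ∑ c, Real.negMulLog (∑ a, ∑ b, p a b c) := by
    unfold Hp
    refine Finset.sum_congr rfl fun c _ => ?_
    congr 1
    rw [← sum_fibre μ hP _ (hR c)]
    refine Finset.sum_congr rfl fun a _ => ?_
    rw [← sum_fibre μ hQ _ ((hR c).inter (hP a))]
    refine Finset.sum_congr rfl fun b _ => ?_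
    rw [hp]
    congr 1
    ext x
    simp only [mem_inter_iff]
    tauto
  have e3 : Hp μ (fun x => (P x, R x)) = ∑ a, ∑ c, Real.negMulLog (∑ b, p a b c) := by
    unfold Hp
    rw [Fintype.sum_prod_type]
    refine Finset.sum_congr rfl fun a _ => Finset.sum_congr rfl fun c _ => ?_
    congr 1
    rw [← sum_fibre μ hQ _ ((hP.pair hR) (a, c))]
    refine Finset.sum_congr rfl fun b _ => ?_
    rw [hp]
    congr 1
    ext x
    simp only [mem_inter_iff, mem_preimage, mem_singleton_iff, Prod.ext_iff]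
    tauto
  have e4 : Hp μ (fun x => (Q x, R x)) = ∑ b, ∑ c, Real.negMulLog (∑ a, p a b c) := by
    unfold Hp
    rw [Fintype.sum_prod_type]
    refine Finset.sum_congr rfl fun b _ => Finset.sum_congr rfl fun c _ => ?_
    congr 1
    rw [← sum_fibre μ hP _ ((hQ.pair hR) (b, c))]
    refine Finset.sum_congr rfl fun a _ => ?_
    rw [hp]
    congr 1
    ext x
    simp only [mem_inter_iff, mem_preimage, mem_singleton_iff, Prod.ext_iff]
    tauto
  rw [e1, e2, e3, e4]
  exact h

/-- entropy of a pair is at least the entropy of a component -/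
lemma Hp_le_pair [Fintype α] [Fintype β] {P : X → α} {Q : X → β} (hP : FM P) (hQ : FM Q) :
    Hp μ P ≤ Hp μ (fun x => (P x, Q x)) := by
  unfold Hp
  rw [Fintype.sum_prod_type]
  refine Finset.sum_le_sum fun a _ => ?_
  rw [← sum_fibre μ hQ _ (hP a)]
  refine (negMulLog_sum_le _ _ fun b => measureReal_nonneg).trans (le_of_eq ?_)
  refine Finset.sum_congr rfl fun b _ => ?_
  congr 2
  ext x
  simp [Prod.ext_iff]

lemma Hp_map_le [Fintype α] [Fintype β] {P : X → α} (hP : FM P) (φ : α → β) :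
    Hp μ (fun x => φ (P x)) ≤ Hp μ P := by
  have h1 := Hp_le_pair μ (hP.map φ) hP
  have h2 := Hp_inj μ P (fun a => (φ a, a)) (fun a b h => (Prod.ext_iff.1 h).2)
  linarith

lemma Hp_pair_comm [Fintype α] [Fintype β] (P : X → α) (Q : X → β) :
    Hp μ (fun x => (P x, Q x)) = Hp μ (fun x => (Q x, P x)) :=
  Hp_inj μ (fun x => (Q x, P x)) Prod.swap Prod.swap_injective

/-- the cocycle `a_(n+1)` -/
lemma Hp_itin_succ [Fintype α] (T : X → X) (P : X → α) (n : ℕ) :
    Hp μ (itin T P (n + 1)) = Hp μ (fun x => (itin T P n x, P (T^[n] x))) := by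
  have h := Hp_inj μ (itin T P (n + 1))
    (fun v : Fin (n + 1) → α => (Fin.init v, v (Fin.last n))) (by
      intro v w h
      rw [Prod.ext_iff] at h
      rw [← Fin.snoc_init_self v, ← Fin.snoc_init_self w]
      simp only at h
      rw [h.1, h.2])
  rw [← h]
  rfl

lemma Hp_nonneg [IsProbabilityMeasure μ] [Fintype α] (P : X → α) : 0 ≤ Hp μ P :=
  Finset.sum_nonneg fun _ _ => Real.negMulLog_nonneg measureReal_nonneg measureReal_le_one

end

/-! ### approximation -/

section approx

variable {X : Type*} [MeasurableSpace X] (μ : Measure X) [IsProbabilityMeasure μ]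

lemma abs_sub_le_ne {α : Type*} {P Q : X → α} (hP : FM P) (hQ : FM Q) (a : α) :
    |μ.real (P ⁻¹' {a}) - μ.real (Q ⁻¹' {a})| ≤ μ.real {x | P x ≠ Q x} := by
  rw [abs_sub_le_iff]
  constructor
  · have h1 : P ⁻¹' {a} ⊆ Q ⁻¹' {a} ∪ {x | P x ≠ Q x} := by
      intro x hx
      by_cases h : P x = Q x
      · left; rw [mem_preimage, ← h]; exact hx
      · right; exact h
    have := (measureReal_mono h1 (measure_ne_top μ _)).trans
      (measureReal_union_le (μ := μ) (Q ⁻¹' {a}) {x | P x ≠ Q x})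
    linarith
  · have h1 : Q ⁻¹' {a} ⊆ P ⁻¹' {a} ∪ {x | P x ≠ Q x} := by
      intro x hx
      by_cases h : P x = Q x
      · left; rw [mem_preimage, h]; exact hx
      · right; exact h
    have := (measureReal_mono h1 (measure_ne_top μ _)).trans
      (measureReal_union_le (μ := μ) (P ⁻¹' {a}) {x | P x ≠ Q x})
    linarith

/-- continuity of the entropy -/
lemma Hp_close {α : Type*} [Fintype α] (ε : ℝ) (hε : 0 < ε) : ∃ δ : ℝ, 0 < δ ∧
    ∀ P Q : X → α, FM P → FM Q → μ.real {x | P x ≠ Q x} ≤ δ → |Hp μ P - Hp μ Q| < ε := by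
  have hc : (0 : ℝ) < Fintype.card α + 1 := by positivity
  obtain ⟨δ, hδ, h⟩ := exists_modulus (ε / (Fintype.card α + 1)) (by positivity)
  refine ⟨δ, hδ, fun P Q hP hQ hPQ => ?_⟩
  unfold Hp
  rw [← Finset.sum_sub_distrib]
  calc |∑ a, (Real.negMulLog (μ.real (P ⁻¹' {a})) - Real.negMulLog (μ.real (Q ⁻¹' {a})))|
      ≤ ∑ a, |Real.negMulLog (μ.real (P ⁻¹' {a})) - Real.negMulLog (μ.real (Q ⁻¹' {a}))| :=
        Finset.abs_sum_le_sum_abs _ _
    _ ≤ ∑ _a : α, ε / (Fintype.card α + 1) := by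
        refine Finset.sum_le_sum fun a _ => ?_
        exact h _ _ measureReal_nonneg measureReal_le_one measureReal_nonneg measureReal_le_one
          ((abs_sub_le_ne μ hP hQ a).trans hPQ)
    _ = Fintype.card α * (ε / (Fintype.card α + 1)) := by
        rw [Finset.sum_const, Finset.card_univ, nsmul_eq_mul]
    _ < ε := by
        rw [← mul_div_assoc, div_lt_iff₀ hc]
        nlinarith

/-- the conditional entropy of close partitions is small -/
lemma cond_close {α : Type*} [Fintype α] (ε : ℝ) (hε : 0 < ε) : ∃ δ : ℝ, 0 < δ ∧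
    ∀ P Q : X → α, FM P → FM Q → μ.real {x | P x ≠ Q x} ≤ δ →
      Hp μ (fun x => (P x, Q x)) - Hp μ Q < ε := by
  obtain ⟨δ, hδ, h⟩ := Hp_close μ (α := α × α) ε hε
  refine ⟨δ, hδ, fun P Q hP hQ hPQ => ?_⟩
  have h1 := h (fun x => (P x, Q x)) (fun x => (Q x, Q x)) (hP.pair hQ) (hQ.pair hQ) (by
    refine le_trans (le_of_eq ?_) hPQ
    congr 1
    ext x
    simp)
  rw [Hp_inj μ Q (fun a => (a, a)) (fun a b h => (Prod.ext_iff.1 h).1)] at h1
  exact (le_abs_self _).trans_lt h1

end approx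

/-- compact cores of the atoms of a partition -/
lemma exists_cores {X : Type*} [MetricSpace X] [CompactSpace X] [MeasurableSpace X]
    [BorelSpace X] (μ : Measure X) [IsFiniteMeasure μ] {k : ℕ} {P : X → Fin k} (hP : Measurable P)
    (η : ℝ) (hη : 0 < η) : ∃ (K : Set X) (c : ℝ), MeasurableSet K ∧ 0 < c ∧ μ.real Kᶜ ≤ η ∧
      ∀ x ∈ K, ∀ y ∈ K, dist x y ≤ c → P x = P y := by
  have h1 : ∀ a : Fin k, ∃ F : Set X, F ⊆ P ⁻¹' {a} ∧ IsClosed F ∧
      μ (P ⁻¹' {a} \ F) < ENNReal.ofReal (η / (k + 1)) := by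
    intro a
    exact (hP (measurableSet_singleton a)).exists_isClosed_diff_lt (measure_ne_top _ _)
      (by positivity)
  choose F hF1 hF2 hF3 using h1
  have h2 : ∀ a b : Fin k, ∃ r : ℝ, 0 < r ∧ (a ≠ b → ∀ x ∈ F a, ∀ y ∈ F b, r < dist x y) := by
    intro a b
    by_cases hab : a = b
    · exact ⟨1, one_pos, fun h => absurd hab h⟩
    · have hd : Disjoint (F a) (F b) := by
        rw [Set.disjoint_left]
        intro x hx hy
        exact hab ((hF1 a hx).symm.trans (hF1 b hy))
      obtain ⟨r, hr, h⟩ := Metric.exists_pos_forall_lt_edist (hF2 a).isCompact (hF2 b) hd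
      refine ⟨r, by exact_mod_cast hr, fun _ x hx y hy => ?_⟩
      have h3 := h x hx y hy
      rw [edist_dist] at h3
      have h4 := (ENNReal.lt_ofReal_iff_toReal_lt (by simp)).1 h3
      simpa using h4
  choose r hr1 hr2 using h2
  obtain ⟨c, hc0, hc⟩ : ∃ c : ℝ, 0 < c ∧ ∀ a b, c ≤ r a b := by
    by_cases hk : Nonempty (Fin k × Fin k)
    · obtain ⟨⟨a, b⟩, hab⟩ := Finite.exists_min (fun p : Fin k × Fin k => r p.1 p.2)
      exact ⟨r a b, hr1 a b, fun a' b' => hab (a', b')⟩
    · exact ⟨1, one_pos, fun a b => absurd ⟨(a, b)⟩ hk⟩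
  refine ⟨⋃ a, F a, c, MeasurableSet.iUnion fun a => (hF2 a).measurableSet, hc0, ?_, ?_⟩
  · have h3 : (⋃ a, F a)ᶜ ⊆ ⋃ a ∈ (Finset.univ : Finset (Fin k)), P ⁻¹' {a} \ F a := by
      intro x hx
      simp only [Finset.mem_univ, iUnion_true, mem_iUnion]
      exact ⟨P x, rfl, fun h => hx (mem_iUnion.2 ⟨_, h⟩)⟩
    calc μ.real (⋃ a, F a)ᶜ ≤ μ.real (⋃ a ∈ (Finset.univ : Finset (Fin k)), P ⁻¹' {a} \ F a) :=
          measureReal_mono h3 (measure_ne_top _ _)
      _ ≤ ∑ a, μ.real (P ⁻¹' {a} \ F a) := measureReal_biUnion_finset_le _ _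
      _ ≤ ∑ _a : Fin k, η / (k + 1) := by
          refine Finset.sum_le_sum fun a _ => ?_
          exact ENNReal.toReal_le_of_le_ofReal (by positivity) (hF3 a).le
      _ = k * (η / (k + 1)) := by simp
      _ ≤ η := by
          rw [← mul_div_assoc, div_le_iff₀ (by positivity)]
          nlinarith
  · intro x hx y hy hxy
    obtain ⟨a, ha⟩ := mem_iUnion.1 hx
    obtain ⟨b, hb⟩ := mem_iUnion.1 hy
    have ha' : P x = a := hF1 a ha
    have hb' : P y = b := hF1 b hb
    rw [ha', hb']
    by_contra hab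
    have := hr2 a b hab x ha y hb
    have := hc a b
    linarith

end EntLib

end Pool.Agent.SobEnt
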