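import Pool.Agent.SobEnt.Targets

/-!
# AMBU (MP_07df6b_an): the ambient derivative is determined locally
-/

open MeasureTheory Filter Topology Set Bundle
open scoped ENNReal NNReal Manifold ContDiff

universe u v w

namespace Pool.Agent.SobEnt

theorem p_AMBU : T_AMBU.{u, v, w} := by
  intro E _ _ _ X _ _ F _ _ _ ι g g' G G' x hG hG' hgg
  have hD : dX E (ι ∘ g) x = dX E (ι ∘ g') x := by
    have h : (ι ∘ g) =ᶠ[𝓝 x] (ι ∘ g') := by
      filter_upwards [hgg] with y hy
      simp [hy]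
    unfold dX
    exact h.mfderiv_eq
  let K : Submodule ℝ F := LinearMap.range (dX E ι x).toLinearMap
  have hK : ∀ z ∈ K, G x z = G' x z := by
    rintro _ ⟨v, rfl⟩
    have h1 := (hG x).1 v
    have h2 := (hG' x).1 v
    rw [hD] at h1
    exact h1.trans h2.symm
  have hKp : ∀ z ∈ Kᗮ, G x z = G' x z := by
    intro z hz
    have hz' : ∀ v : E, inner ℝ z (dX E ι x v) = (0 : ℝ) := fun v =>
      (Submodule.mem_orthogonal' K z).1 hz _ ⟨v, rfl⟩
    rw [(hG x).2 z hz', (hG' x).2 z hz']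
  ext z
  obtain ⟨a, ha, b, hb, hab⟩ := K.exists_add_mem_mem_orthogonal z
  rw [hab, map_add, map_add, hK a ha, hKp b hb]

end Pool.Agent.SobEnt

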