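import Pool.Agent.SobEnt.BILIP
import Pool.Agent.SobEnt.AMBU

/-!
# AMB (MP_07df6b_an): the ambient derivative of a Lipschitz map
-/

open MeasureTheory Filter Topology Set Bundle
open scoped ENNReal NNReal Manifold ContDiff InnerProductSpace

universe u v w

namespace Pool.Agent.SobEnt

namespace AMB

noncomputable section

section Linear

variable {E : Type v} [NormedAddCommGroup E] [InnerProductSpace ℝ E] [FiniteDimensional ℝ E]
  {F : Type w} [NormedAddCommGroup F] [InnerProductSpace ℝ F] [FiniteDimensional ℝ F]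

/-- the pseudo-inverse of an injective map -/
def pinv (J : E →L[ℝ] F) : F →L[ℝ] E :=
  haveI := FiniteDimensional.complete ℝ E
  haveI := FiniteDimensional.complete ℝ F
  (Ring.inverse ((ContinuousLinearMap.adjoint J).comp J)).comp (ContinuousLinearMap.adjoint J)

theorem isUnit_gram [CompleteSpace E] [CompleteSpace F] (J : E →L[ℝ] F)
    (hJ : Function.Injective J) :
    IsUnit ((ContinuousLinearMap.adjoint J).comp J : E →L[ℝ] E) := by
  rw [ContinuousLinearMap.isUnit_iff_bijective]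
  have hinj : Function.Injective ((ContinuousLinearMap.adjoint J).comp J) := by
    rw [injective_iff_map_eq_zero]
    intro v hv
    apply hJ
    rw [map_zero, ← inner_self_eq_zero (𝕜 := ℝ)]
    have : inner ℝ (((ContinuousLinearMap.adjoint J).comp J) v) v = (0 : ℝ) := by
      rw [hv, inner_zero_left]
    rw [ContinuousLinearMap.comp_apply, ContinuousLinearMap.adjoint_inner_left] at this
    exact this
  exact ⟨hinj, (LinearMap.injective_iff_surjective
    (f := ((ContinuousLinearMap.adjoint J).comp J : E →L[ℝ] E).toLinearMap)).1 hinj⟩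

theorem pinv_comp (J : E →L[ℝ] F) (hJ : Function.Injective J) (v : E) : pinv J (J v) = v := by
  have := FiniteDimensional.complete ℝ E
  have := FiniteDimensional.complete ℝ F
  have hu := isUnit_gram J hJ
  have h := Ring.inverse_mul_cancel _ hu
  exact congrArg (fun T : E →L[ℝ] E => T v) h

theorem pinv_orth (J : E →L[ℝ] F) (w : F) (hw : ∀ v, inner ℝ w (J v) = (0 : ℝ)) :
    pinv J w = 0 := by
  have := FiniteDimensional.complete ℝ E
  have := FiniteDimensional.complete ℝ F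
  have h0 : ContinuousLinearMap.adjoint J w = 0 := by
    rw [← inner_self_eq_zero (𝕜 := ℝ), ContinuousLinearMap.adjoint_inner_left]
    exact hw _
  have : pinv J w = (Ring.inverse ((ContinuousLinearMap.adjoint J).comp J))
    (ContinuousLinearMap.adjoint J w) := rfl
  rw [this, h0, map_zero]

theorem pinv_cont (J : E →L[ℝ] F) (hJ : Function.Injective J) :
    ContinuousAt (pinv : (E →L[ℝ] F) → (F →L[ℝ] E)) J := by
  have := FiniteDimensional.complete ℝ E
  have := FiniteDimensional.complete ℝ F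
  have hadj : Continuous (fun J : E →L[ℝ] F => ContinuousLinearMap.adjoint J) :=
    ContinuousLinearMap.adjoint.continuous
  obtain ⟨un, hun⟩ := isUnit_gram J hJ
  have h1 : ContinuousAt (fun J : E →L[ℝ] F =>
      ((ContinuousLinearMap.adjoint J).comp J : E →L[ℝ] E)) J :=
    (hadj.clm_comp continuous_id).continuousAt
  have h2 : ContinuousAt (Ring.inverse : (E →L[ℝ] E) → (E →L[ℝ] E))
      ((ContinuousLinearMap.adjoint J).comp J) := by
    rw [← hun]
    exact NormedRing.inverse_continuousAt un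
  have h3 : ContinuousAt (fun J : E →L[ℝ] F =>
      Ring.inverse ((ContinuousLinearMap.adjoint J).comp J : E →L[ℝ] E)) J :=
    ContinuousAt.comp (f := fun J : E →L[ℝ] F =>
      ((ContinuousLinearMap.adjoint J).comp J : E →L[ℝ] E)) h2 h1
  exact h3.clm_comp hadj.continuousAt

/-- a map is determined on the range of `D` and its orthogonal complement -/
theorem ext_range {A B : F →L[ℝ] F} (D : E →L[ℝ] F) (h1 : ∀ v, A (D v) = B (D v))
    (h2 : ∀ w, (∀ v, inner ℝ w (D v) = (0 : ℝ)) → A w = B w) : A = B := by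
  let K : Submodule ℝ F := LinearMap.range D.toLinearMap
  ext z
  obtain ⟨a, ha, b, hb, hab⟩ := K.exists_add_mem_mem_orthogonal z
  obtain ⟨v, rfl⟩ := ha
  have hb' : A b = B b := h2 b fun v => (Submodule.mem_orthogonal' K b).1 hb _ ⟨v, rfl⟩
  rw [hab, map_add, map_add, hb']
  congr 1
  exact h1 v

end Linear

section Mfd

variable {E : Type v} [NormedAddCommGroup E] [InnerProductSpace ℝ E]
  {X : Type u} [TopologicalSpace X] [ChartedSpace E X] [IsManifold 𝓘(ℝ, E) 1 X]
  {F : Type w} [NormedAddCommGroup F] [InnerProductSpace ℝ F]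

/-- the chain rule in a chart, without differentiability hypothesis -/
theorem dX_chart (x₀ x : X) (hx : x ∈ (chartAt E x₀).source) (h : X → F) :
    dX E h x = (fderiv ℝ (h ∘ (chartAt E x₀).symm) (chartAt E x₀ x)).comp
      (dX E (chartAt E x₀) x) := by
  set e := chartAt E x₀
  have hatlas : e ∈ atlas E X := chart_mem_atlas E x₀
  have he : MDifferentiableAt 𝓘(ℝ, E) 𝓘(ℝ, E) e x := mdifferentiableAt_atlas hatlas hx
  have hes : MDifferentiableAt 𝓘(ℝ, E) 𝓘(ℝ, E) e.symm (e x) :=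
    mdifferentiableAt_atlas_symm hatlas (e.map_source hx)
  have hloc : h =ᶠ[𝓝 x] (h ∘ e.symm) ∘ e := by
    filter_upwards [e.open_source.mem_nhds hx] with y hy
    simp [e.left_inv hy]
  by_cases hd : MDifferentiableAt 𝓘(ℝ, E) 𝓘(ℝ, F) h x
  · have hx' : e.symm (e x) = x := e.left_inv hx
    have hd' : MDifferentiableAt 𝓘(ℝ, E) 𝓘(ℝ, F) h (e.symm (e x)) := by rw [hx']; exact hd
    have h2 : MDifferentiableAt 𝓘(ℝ, E) 𝓘(ℝ, F) (h ∘ e.symm) (e x) := hd'.comp (e x) hes
    unfold dX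
    rw [hloc.mfderiv_eq, mfderiv_comp x h2 he, mfderiv_eq_fderiv]
    rfl
  · have h1 : ¬ DifferentiableAt ℝ (h ∘ e.symm) (e x) := by
      intro hcon
      apply hd
      have h2 : MDifferentiableAt 𝓘(ℝ, E) 𝓘(ℝ, F) (h ∘ e.symm) (e x) :=
        mdifferentiableAt_iff_differentiableAt.2 hcon
      exact (h2.comp x he).congr_of_eventuallyEq hloc
    unfold dX
    rw [mfderiv_zero_of_not_mdifferentiableAt hd, fderiv_zero_of_not_differentiableAt h1]
    rfl

theorem bij_chart [FiniteDimensional ℝ E] (x₀ x : X) (hx : x ∈ (chartAt E x₀).source) (ι : X → F)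
    (hι : Function.Injective (dX E ι x)) :
    Function.Surjective (dX E (chartAt E x₀) x) ∧
      Function.Injective (fderiv ℝ (ι ∘ (chartAt E x₀).symm) (chartAt E x₀ x)) := by
  have h := dX_chart x₀ x hx ι
  have hT : Function.Injective (dX E (chartAt E x₀) x) := by
    intro a b hab
    apply hι
    rw [h, ContinuousLinearMap.comp_apply, ContinuousLinearMap.comp_apply, hab]
  have hTs : Function.Surjective (dX E (chartAt E x₀) x) :=
    (LinearMap.injective_iff_surjective
      (f := (dX E (chartAt E x₀) x : E →L[ℝ] E).toLinearMap)).1 hT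
  refine ⟨hTs, fun a b hab => ?_⟩
  obtain ⟨a', rfl⟩ := hTs a
  obtain ⟨b', rfl⟩ := hTs b
  have : a' = b' := by
    apply hι
    rw [h, ContinuousLinearMap.comp_apply, ContinuousLinearMap.comp_apply]
    exact hab
  rw [this]

theorem formula [FiniteDimensional ℝ E] [FiniteDimensional ℝ F] (x₀ x : X)
    (hx : x ∈ (chartAt E x₀).source) (ι : X → F)
    (hι : Function.Injective (dX E ι x)) (h : X → F) :
    (dX E h x).comp (pinv (dX E ι x)) =
      (fderiv ℝ (h ∘ (chartAt E x₀).symm) (chartAt E x₀ x)).comp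
        (pinv (fderiv ℝ (ι ∘ (chartAt E x₀).symm) (chartAt E x₀ x))) := by
  obtain ⟨hT, hJ⟩ := bij_chart x₀ x hx ι hι
  have e1 := dX_chart x₀ x hx ι
  have e2 := dX_chart x₀ x hx h
  refine ext_range (dX E ι x) (fun v => ?_) (fun w hw => ?_)
  · rw [ContinuousLinearMap.comp_apply, pinv_comp _ hι, ContinuousLinearMap.comp_apply, e1,
      ContinuousLinearMap.comp_apply, pinv_comp _ hJ, e2, ContinuousLinearMap.comp_apply]
  · rw [ContinuousLinearMap.comp_apply, pinv_orth _ w hw, ContinuousLinearMap.comp_apply,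
      pinv_orth _ w (fun v => ?_), map_zero, map_zero]
    obtain ⟨v', rfl⟩ := hT v
    have := hw v'
    rw [e1, ContinuousLinearMap.comp_apply] at this
    exact this

theorem isAmbDer [FiniteDimensional ℝ E] [FiniteDimensional ℝ F] (ι : X → F)
    (hι : ∀ x, Function.Injective (dX E ι x)) (g : X → X) :
    IsAmbDer E ι g fun x => (dX E (ι ∘ g) x).comp (pinv (dX E ι x)) := by
  refine fun x => ⟨fun v => ?_, fun w hw => ?_⟩
  · rw [ContinuousLinearMap.comp_apply, pinv_comp _ (hι x)]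
  · rw [ContinuousLinearMap.comp_apply, pinv_orth _ w hw, map_zero]

end Mfd

section Cont

variable {E : Type v} [NormedAddCommGroup E] [InnerProductSpace ℝ E]
  {X : Type u} [TopologicalSpace X] [ChartedSpace E X] [IsManifold 𝓘(ℝ, E) ∞ X]
  {F : Type w} [NormedAddCommGroup F] [InnerProductSpace ℝ F]

theorem contDiffOn_chart (x₀ : X) (ι : X → F) (hι : ContMDiff 𝓘(ℝ, E) 𝓘(ℝ, F) ∞ ι) :
    ContDiffOn ℝ ∞ (ι ∘ (chartAt E x₀).symm) (chartAt E x₀).target := by
  rw [← contMDiffOn_iff_contDiffOn]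
  exact hι.comp_contMDiffOn (contMDiffOn_chart_symm (n := ∞))

theorem cont_fderiv (x₀ : X) (ι : X → F) (hι : ContMDiff 𝓘(ℝ, E) 𝓘(ℝ, F) ∞ ι) :
    ContinuousOn (fderiv ℝ (ι ∘ (chartAt E x₀).symm)) (chartAt E x₀).target :=
  (contDiffOn_chart x₀ ι hι).continuousOn_fderiv_of_isOpen (chartAt E x₀).open_target (by simp)

/-- the second factor is continuous on the domain of the chart -/
theorem cont_pinv [FiniteDimensional ℝ E] [FiniteDimensional ℝ F] (x₀ : X) (ι : X → F)
    (hι : ContMDiff 𝓘(ℝ, E) 𝓘(ℝ, F) ∞ ι) (hinj : ∀ x, Function.Injective (dX E ι x)) :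
    ContinuousOn (fun x => pinv (fderiv ℝ (ι ∘ (chartAt E x₀).symm) (chartAt E x₀ x)))
      (chartAt E x₀).source := by
  intro x hx
  have h1 : ContinuousWithinAt (fun x => fderiv ℝ (ι ∘ (chartAt E x₀).symm) (chartAt E x₀ x))
      (chartAt E x₀).source x :=
    ((cont_fderiv x₀ ι hι).comp (chartAt E x₀).continuousOn (chartAt E x₀).mapsTo) x hx
  exact ContinuousAt.comp_continuousWithinAt
    (f := fun x => fderiv ℝ (ι ∘ (chartAt E x₀).symm) (chartAt E x₀ x))
    (pinv_cont _ (bij_chart x₀ x hx ι (hinj x)).2) h1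

end Cont

section Meas

variable {E : Type v} [NormedAddCommGroup E] [InnerProductSpace ℝ E] [FiniteDimensional ℝ E]
  {X : Type u} [TopologicalSpace X] [CompactSpace X] [ChartedSpace E X]
  [IsManifold 𝓘(ℝ, E) ∞ X] [MeasurableSpace X] [BorelSpace X]
  {F : Type w} [NormedAddCommGroup F] [InnerProductSpace ℝ F] [FiniteDimensional ℝ F]

theorem measurable_G (ι : X → F) (hι : ContMDiff 𝓘(ℝ, E) 𝓘(ℝ, F) ∞ ι)
    (hinj : ∀ x, Function.Injective (dX E ι x)) (h : X → F) :
    Measurable fun x => (dX E h x).comp (pinv (dX E ι x)) := by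
  borelize E
  have hcF := FiniteDimensional.complete ℝ F
  set G := fun x => (dX E h x).comp (pinv (dX E ι x)) with hG
  obtain ⟨t, ht⟩ := CompactSpace.elim_nhds_subcover (fun x : X => (chartAt E x).source)
    (fun x => chart_source_mem_nhds E x)
  have key : ∀ (x₀ : X) (S : Set (F →L[ℝ] F)), MeasurableSet S →
      MeasurableSet ((chartAt E x₀).source ∩ G ⁻¹' S) := by
    intro x₀ S hS
    have hm : Measurable (fun x : (chartAt E x₀).source => G x) := by
      have h1 : Measurable (fun x : (chartAt E x₀).source =>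
          fderiv ℝ (h ∘ (chartAt E x₀).symm) (chartAt E x₀ x)) := by
        refine (measurable_fderiv ℝ _).comp (Continuous.measurable ?_)
        exact continuousOn_iff_continuous_domRestrict.1 (chartAt E x₀).continuousOn
      have h2 : Measurable (fun x : (chartAt E x₀).source =>
          pinv (fderiv ℝ (ι ∘ (chartAt E x₀).symm) (chartAt E x₀ x))) := by
        refine Continuous.measurable ?_
        exact continuousOn_iff_continuous_domRestrict.1 (cont_pinv x₀ ι hι hinj)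
      have h3 : Continuous (fun p : (E →L[ℝ] F) × (F →L[ℝ] E) => p.1.comp p.2) :=
        continuous_fst.clm_comp continuous_snd
      have h4 := h3.measurable.comp (h1.prodMk h2)
      have h5 : (fun x : (chartAt E x₀).source => G x) = fun x : (chartAt E x₀).source =>
          (fderiv ℝ (h ∘ (chartAt E x₀).symm) (chartAt E x₀ x)).comp
            (pinv (fderiv ℝ (ι ∘ (chartAt E x₀).symm) (chartAt E x₀ x))) := by
        funext x
        exact formula x₀ x x.2 ι (hinj x) h
      rw [h5]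
      exact h4
    have h6 : (chartAt E x₀).source ∩ G ⁻¹' S =
        Subtype.val '' ((fun x : (chartAt E x₀).source => G x) ⁻¹' S) := by
      ext x
      simp [and_comm]
    rw [h6]
    exact (chartAt E x₀).open_source.measurableSet.subtype_image (hm hS)
  intro S hS
  have h7 : G ⁻¹' S = ⋃ x₀ ∈ t, ((chartAt E x₀).source ∩ G ⁻¹' S) := by
    rw [← iUnion₂_inter, ht]
    simp
  rw [h7]
  exact Finset.measurableSet_biUnion t fun x₀ _ => key x₀ S hS

end Meas

section Bound

variable {E : Type v} [NormedAddCommGroup E] [InnerProductSpace ℝ E] [FiniteDimensional ℝ E]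
  {X : Type u} [MetricSpace X] [CompactSpace X] [ChartedSpace E X]
  [RiemannianBundle (fun x : X => TangentSpace 𝓘(ℝ, E) x)] [GoodManifold E X]
  {F : Type w} [NormedAddCommGroup F] [InnerProductSpace ℝ F] [FiniteDimensional ℝ F]

omit [CompactSpace X] [FiniteDimensional ℝ F] in
theorem loc_lip (ι : X → F) (hι : ContMDiff 𝓘(ℝ, E) 𝓘(ℝ, F) ∞ ι) (z : X) :
    ∃ L : ℝ, 0 ≤ L ∧ ∀ᶠ p : X × X in 𝓝 (z, z), dist (ι p.1) (ι p.2) ≤ L * dist p.1 p.2 := by
  have := (inferInstance : GoodManifold E X).isManifold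
  obtain ⟨C, hC1, hC⟩ := p_BILIP E X z
  have hcd : ContDiffAt ℝ 1 (ι ∘ (chartAt E z).symm) (chartAt E z z) :=
    ((contDiffOn_chart z ι hι).contDiffAt
      ((chartAt E z).open_target.mem_nhds (mem_chart_target E z))).of_le (by simp)
  obtain ⟨K, s, hs, hK⟩ := hcd.exists_lipschitzOnWith
  have hs' : ∀ᶠ y in 𝓝 z, chartAt E z y ∈ s ∧ y ∈ (chartAt E z).source := by
    have h1 : ContinuousAt (chartAt E z) z :=
      (chartAt E z).continuousAt (mem_chart_source E z)
    filter_upwards [h1.preimage_mem_nhds hs, chart_source_mem_nhds E z] with y hy h'y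
    exact ⟨hy, h'y⟩
  refine ⟨K * C, by positivity, ?_⟩
  have h2 : ∀ᶠ p : X × X in 𝓝 (z, z), (chartAt E z p.1 ∈ s ∧ p.1 ∈ (chartAt E z).source) ∧
      (chartAt E z p.2 ∈ s ∧ p.2 ∈ (chartAt E z).source) := by
    rw [nhds_prod_eq]
    exact hs'.prod_mk hs'
  filter_upwards [hC, h2] with p hp hp2
  have h3 := hK.dist_le_mul _ hp2.1.1 _ hp2.2.1
  simp only [Function.comp_apply, (chartAt E z).left_inv hp2.1.2,
    (chartAt E z).left_inv hp2.2.2] at h3
  calc dist (ι p.1) (ι p.2) ≤ K * dist (chartAt E z p.1) (chartAt E z p.2) := h3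
    _ ≤ K * (C * dist p.1 p.2) := by gcongr; exact hp.2
    _ = K * C * dist p.1 p.2 := by ring

omit [FiniteDimensional ℝ F] in
theorem unif_lip (ι : X → F) (hι : ContMDiff 𝓘(ℝ, E) 𝓘(ℝ, F) ∞ ι) :
    ∃ L : ℝ, 0 ≤ L ∧ ∀ z : X, ∀ᶠ p : X × X in 𝓝 (z, z),
      dist (ι p.1) (ι p.2) ≤ L * dist p.1 p.2 := by
  have h := isCompact_univ.induction_on (X := X)
    (p := fun s => ∃ L : ℝ, 0 ≤ L ∧ ∀ z ∈ s, ∀ᶠ p : X × X in 𝓝 (z, z),
      dist (ι p.1) (ι p.2) ≤ L * dist p.1 p.2) ⟨0, le_rfl, fun z hz => absurd hz (by simp)⟩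
    (fun s t hst ⟨L, hL, h⟩ => ⟨L, hL, fun z hz => h z (hst hz)⟩)
    (fun s t ⟨L, hL, h⟩ ⟨L', hL', h'⟩ => ⟨max L L', le_max_of_le_left hL, fun z hz => by
      rcases hz with hz | hz
      · filter_upwards [h z hz] with p hp
        exact hp.trans (by gcongr; exact le_max_left _ _)
      · filter_upwards [h' z hz] with p hp
        exact hp.trans (by gcongr; exact le_max_right _ _)⟩)
    (fun z _ => by
      obtain ⟨L, hL, h⟩ := loc_lip ι hι z
      have h1 := h.eventually_nhds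
      have h2 : ∀ᶠ y in 𝓝 z, ∀ᶠ p : X × X in 𝓝 (y, y),
          dist (ι p.1) (ι p.2) ≤ L * dist p.1 p.2 := by
        have hd : Tendsto (fun y : X => (y, y)) (𝓝 z) (𝓝 (z, z)) :=
          (continuous_id.prodMk continuous_id).tendsto z
        exact hd.eventually h1
      exact ⟨_, mem_nhdsWithin_of_mem_nhds h2, L, hL, fun y hy => hy⟩)
  obtain ⟨L, hL, h⟩ := h
  exact ⟨L, hL, fun z => h z (mem_univ z)⟩

theorem loc_bound (ι : X → F) (hι : ContMDiff 𝓘(ℝ, E) 𝓘(ℝ, F) ∞ ι)
    (hinj : ∀ x, Function.Injective (dX E ι x)) (L : ℝ) (hL : 0 ≤ L)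
    (hLip : ∀ z : X, ∀ᶠ p : X × X in 𝓝 (z, z), dist (ι p.1) (ι p.2) ≤ L * dist p.1 p.2)
    (x₀ : X) : ∃ C : ℝ, 0 ≤ C ∧ ∀ᶠ x in 𝓝 x₀, ∀ (g : X → X) (K : ℝ≥0), LipschitzWith K g →
      ‖(dX E (ι ∘ g) x).comp (pinv (dX E ι x))‖ ≤ C * K := by
  have := (inferInstance : GoodManifold E X).isManifold
  obtain ⟨C, hC1, hC⟩ := p_BILIP E X x₀
  set e := chartAt E x₀ with he
  have hcont : ContinuousAt (fun x => pinv (fderiv ℝ (ι ∘ e.symm) (e x))) x₀ :=
    (cont_pinv x₀ ι hι hinj).continuousAt (chart_source_mem_nhds E x₀)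
  set B := ‖pinv (fderiv ℝ (ι ∘ e.symm) (e x₀))‖ + 1 with hB
  have hB0 : 0 ≤ B := by positivity
  have hbd : ∀ᶠ x in 𝓝 x₀, ‖pinv (fderiv ℝ (ι ∘ e.symm) (e x))‖ ≤ B := by
    have := hcont.norm.eventually (ge_mem_nhds (lt_add_one _))
    exact this
  have hC' : ∀ᶠ x in 𝓝 x₀, ∀ᶠ p : X × X in 𝓝 (x, x), dist p.1 p.2 ≤ C * dist (e p.1) (e p.2) := by
    have h1 := (hC.mono fun p hp => hp.1).eventually_nhds
    have hd : Tendsto (fun y : X => (y, y)) (𝓝 x₀) (𝓝 (x₀, x₀)) :=
      (continuous_id.prodMk continuous_id).tendsto x₀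
    exact hd.eventually h1
  refine ⟨L * C * B, by positivity, ?_⟩
  filter_upwards [hbd, hC', chart_source_mem_nhds E x₀] with x hx1 hx2 hx3 g K hg
  rw [formula x₀ x hx3 ι (hinj x)]
  have hH : ‖fderiv ℝ ((ι ∘ g) ∘ e.symm) (e x)‖ ≤ L * K * C := by
    refine norm_fderiv_le_of_lip' ℝ (by positivity) ?_
    have hsymm : ContinuousAt e.symm (e x) := e.continuousAt_symm (e.map_source hx3)
    have hxx : e.symm (e x) = x := e.left_inv hx3
    have ht : Tendsto e.symm (𝓝 (e x)) (𝓝 x) := by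
      have := hsymm.tendsto
      rwa [hxx] at this
    have h1 : ∀ᶠ y in 𝓝 (e x), dist (e.symm y) x ≤ C * dist (e (e.symm y)) (e x) := by
      have hp : Tendsto (fun y => (e.symm y, x)) (𝓝 (e x)) (𝓝 (x, x)) :=
        ht.prodMk_nhds tendsto_const_nhds
      exact hp.eventually hx2
    have h2 : ∀ᶠ y in 𝓝 (e x), dist (ι (g (e.symm y))) (ι (g x)) ≤
        L * dist (g (e.symm y)) (g x) := by
      have hp : Tendsto (fun y => (g (e.symm y), g x)) (𝓝 (e x)) (𝓝 (g x, g x)) :=
        ((hg.continuous.tendsto x).comp ht).prodMk_nhds tendsto_const_nhds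
      exact hp.eventually (hLip (g x))
    filter_upwards [h1, h2, e.open_target.mem_nhds (e.map_source hx3)] with y h1 h2 hy
    rw [e.right_inv hy] at h1
    simp only [Function.comp_apply, hxx]
    rw [← dist_eq_norm, ← dist_eq_norm]
    calc dist (ι (g (e.symm y))) (ι (g x)) ≤ L * dist (g (e.symm y)) (g x) := h2
      _ ≤ L * (K * dist (e.symm y) x) := by gcongr; exact hg.dist_le_mul _ _
      _ ≤ L * (K * (C * dist y (e x))) := by gcongr
      _ = L * K * C * dist y (e x) := by ring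
  calc _ ≤ ‖fderiv ℝ ((ι ∘ g) ∘ e.symm) (e x)‖ * ‖pinv (fderiv ℝ (ι ∘ e.symm) (e x))‖ :=
        ContinuousLinearMap.opNorm_comp_le _ _
    _ ≤ (L * K * C) * B := by gcongr
    _ = L * C * B * K := by ring

theorem unif_bound (ι : X → F) (hι : ContMDiff 𝓘(ℝ, E) 𝓘(ℝ, F) ∞ ι)
    (hinj : ∀ x, Function.Injective (dX E ι x)) :
    ∃ C : ℝ, ∀ (x : X) (g : X → X) (K : ℝ≥0), LipschitzWith K g →
      ‖(dX E (ι ∘ g) x).comp (pinv (dX E ι x))‖ ≤ C * K := by
  obtain ⟨L, hL, hLip⟩ := unif_lip ι hι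
  have h := isCompact_univ.induction_on (X := X)
    (p := fun s => ∃ C : ℝ, 0 ≤ C ∧ ∀ x ∈ s, ∀ (g : X → X) (K : ℝ≥0), LipschitzWith K g →
      ‖(dX E (ι ∘ g) x).comp (pinv (dX E ι x))‖ ≤ C * K)
    ⟨0, le_rfl, fun z hz => absurd hz (by simp)⟩
    (fun s t hst ⟨L, hL, h⟩ => ⟨L, hL, fun z hz => h z (hst hz)⟩)
    (fun s t ⟨L, hL, h⟩ ⟨L', hL', h'⟩ => ⟨max L L', le_max_of_le_left hL, fun z hz g K hg => by
      rcases hz with hz | hz
      · exact (h z hz g K hg).trans (by gcongr; exact le_max_left _ _)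
      · exact (h' z hz g K hg).trans (by gcongr; exact le_max_right _ _)⟩)
    (fun z _ => by
      obtain ⟨C, hC0, hC⟩ := loc_bound ι hι hinj L hL hLip z
      exact ⟨_, mem_nhdsWithin_of_mem_nhds hC, C, hC0, fun y hy => hy⟩)
  obtain ⟨C, -, h⟩ := h
  exact ⟨C, fun x => h x (mem_univ x)⟩

end Bound

end

end AMB

theorem p_AMB : T_AMB.{u, v, w} := by
  intro E _ _ _ X _ _ _ _ hG _ _ F _ _ _ ι hι hinj
  have := hG.isManifold
  obtain ⟨C, hC⟩ := AMB.unif_bound ι hι hinj
  exact ⟨C, fun g K hg => ⟨fun x => (dX E (ι ∘ g) x).comp (AMB.pinv (dX E ι x)),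
    AMB.measurable_G ι hι hinj _, fun x => hC x g K hg, AMB.isAmbDer ι hinj g⟩⟩

end Pool.Agent.SobEnt

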