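import Pool.Agent.SobEnt.Targets

/-!
# ATLAS: finite atlases of volume preserving bi-Lipschitz charts (MP_07df6b_an)
-/

open MeasureTheory Filter Topology Set Bundle
open scoped ENNReal NNReal Manifold ContDiff

universe u v w

namespace Pool.Agent.SobEnt

namespace ATLAS

/-- a volume preserving bi-Lipschitz chart near one point -/
lemma local_chart (hST : T_STRAIGHT) (hBI : T_BILIP.{u, v}) (hGR : T_GRAM.{u, v})
    (E : Type v) [NormedAddCommGroup E] [InnerProductSpace ℝ E]
    [FiniteDimensional ℝ E] [MeasurableSpace E] [BorelSpace E] (X : Type u) [MetricSpace X]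
    [CompactSpace X] [ChartedSpace E X]
    [RiemannianBundle (fun x : X => TangentSpace 𝓘(ℝ, E) x)] [GoodManifold E X]
    [MeasurableSpace X] [BorelSpace X] (lam : Measure X) (hd : 1 ≤ Module.finrank ℝ E)
    (hlam : IsRiemannianVolume E lam) (x₀ : X) :
    ∃ (a : EN (Module.finrank ℝ E)) (R : ℝ) (c : EN (Module.finrank ℝ E) → X) (K : ℝ),
      1 ≤ K ∧ 0 < R ∧
      (∀ x ∈ Metric.ball a R, ∀ y ∈ Metric.ball a R,
        dist x y ≤ K * dist (c x) (c y) ∧ dist (c x) (c y) ≤ K * dist x y) ∧
      (∀ s ⊆ Metric.ball a R, IsOpen s → IsOpen (c '' s)) ∧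
      (∀ s ⊆ Metric.ball a R, MeasurableSet s → lam (c '' s) = volume s) ∧
      x₀ ∈ c '' Metric.ball a R := by
  set d := Module.finrank ℝ E with hdd
  let L : E ≃ₗᵢ[ℝ] EN d := (stdOrthonormalBasis ℝ E).repr
  set e := chartAt E x₀ with he
  have hx₀ : x₀ ∈ e.source := mem_chart_source E x₀
  obtain ⟨hG1, hG2⟩ := hGR E X x₀
  set O : Set (EN d) := L.symm ⁻¹' e.target with hO
  have hOopen : IsOpen O := e.open_target.preimage L.symm.continuous
  set ρ : EN d → ℝ := fun y => Real.sqrt (gramDet E x₀ (L.symm y)) with hρ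
  have hρ1 : ContDiffOn ℝ 1 ρ O := by
    refine ContDiffOn.sqrt ?_ (fun y hy => (hG2 _ hy).ne')
    exact hG1.comp (L.symm.contDiff.contDiffOn) (fun y hy => hy)
  have hρ2 : ∀ y ∈ O, 0 < ρ y := fun y hy => Real.sqrt_pos.mpr (hG2 _ hy)
  have hy₀ : L (e x₀) ∈ O := by
    show L.symm (L (e x₀)) ∈ e.target
    rw [LinearIsometryEquiv.symm_apply_apply]
    exact e.map_source hx₀
  obtain ⟨h, C, hys, hsO, hC, hbil, hvol⟩ := hST d O ρ (L (e x₀)) hd hOopen hy₀ hρ1 hρ2
  obtain ⟨C₂, hC₂, hbi2⟩ := hBI E X x₀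
  rw [nhds_prod_eq] at hbi2
  obtain ⟨N, hN, hNN'⟩ := mem_prod_self_iff.mp hbi2
  have hNN : ∀ p ∈ N, ∀ q ∈ N, dist p q ≤ C₂ * dist (e p) (e q) ∧
      dist (e p) (e q) ≤ C₂ * dist p q := fun p hp q hq => hNN' (mk_mem_prod hp hq)
  set c : EN d → X := fun z => e.symm (L.symm (h.symm z)) with hc
  set a : EN d := h (L (e x₀)) with ha
  have hat : a ∈ h.target := h.map_source hys
  have hca : c a = x₀ := by
    rw [hc, ha]
    simp only
    rw [h.left_inv hys, LinearIsometryEquiv.symm_apply_apply, e.left_inv hx₀]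
  have htar : ∀ z ∈ h.target, L.symm (h.symm z) ∈ e.target := fun z hz =>
    hsO (h.map_target hz)
  have hcont : ContinuousOn c h.target := by
    refine e.continuousOn_symm.comp (L.symm.continuous.comp_continuousOn h.continuousOn_symm) ?_
    exact fun z hz => htar z hz
  have hnear : ∀ᶠ z in 𝓝 a, z ∈ h.target ∧ c z ∈ N := by
    have h1 : ∀ᶠ z in 𝓝 a, z ∈ h.target := h.open_target.mem_nhds hat
    have h2 : ContinuousAt c a := hcont.continuousAt (h.open_target.mem_nhds hat)
    have h3 : ∀ᶠ z in 𝓝 a, c z ∈ N := by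
      apply h2.eventually
      rw [hca]
      exact hN
    exact h1.and h3
  obtain ⟨R, hR, hball⟩ := Metric.eventually_nhds_iff_ball.mp hnear
  have hec : ∀ z ∈ h.target, e (c z) = L.symm (h.symm z) := fun z hz =>
    e.right_inv (htar z hz)
  refine ⟨a, R, c, C * C₂, ?_, hR, ?_, ?_, ?_, ?_⟩
  · nlinarith
  · intro z hz w hw
    obtain ⟨hz1, hz2⟩ := hball z hz
    obtain ⟨hw1, hw2⟩ := hball w hw
    have hb1 := hbil _ (h.map_target hz1) _ (h.map_target hw1)
    rw [h.right_inv hz1, h.right_inv hw1] at hb1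
    have hb2 := hNN (c z) hz2 (c w) hw2
    rw [hec z hz1, hec w hw1, LinearIsometryEquiv.dist_map] at hb2
    have hC0 : 0 ≤ C := by linarith
    have hC20 : 0 ≤ C₂ := by linarith
    constructor
    · calc dist z w ≤ C * dist (h.symm z) (h.symm w) := hb1.2
        _ ≤ C * (C₂ * dist (c z) (c w)) := mul_le_mul_of_nonneg_left hb2.2 hC0
        _ = C * C₂ * dist (c z) (c w) := by ring
    · calc dist (c z) (c w) ≤ C₂ * dist (h.symm z) (h.symm w) := hb2.1
        _ ≤ C₂ * (C * dist z w) := mul_le_mul_of_nonneg_left hb1.1 hC20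
        _ = C * C₂ * dist z w := by ring
  · intro s hs hso
    have hst : s ⊆ h.target := fun z hz => (hball z (hs hz)).1
    have h1 : IsOpen (h.symm '' s) := h.symm.isOpen_image_of_subset_source hso hst
    have h2 : IsOpen (L.symm '' (h.symm '' s)) := L.symm.toHomeomorph.isOpenMap _ h1
    have h3 : L.symm '' (h.symm '' s) ⊆ e.symm.source := by
      rintro _ ⟨_, ⟨z, hz, rfl⟩, rfl⟩
      exact htar z (hst hz)
    have h4 := e.symm.isOpen_image_of_subset_source h2 h3
    rw [image_image, image_image] at h4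
    exact h4
  · intro s hs hsm
    have hst : s ⊆ h.target := fun z hz => (hball z (hs hz)).1
    have hinj : InjOn c h.target := by
      intro z hz w hw hzw
      have h1 : e (c z) = e (c w) := by rw [hzw]
      rw [hec z hz, hec w hw] at h1
      exact h.symm.injOn hz hw (L.symm.injective h1)
    have hAm : MeasurableSet (c '' s) :=
      hsm.image_of_continuousOn_injOn (hcont.mono hst) (hinj.mono hst)
    have hAs : c '' s ⊆ (chartAt E x₀).source := by
      rintro _ ⟨z, hz, rfl⟩
      exact e.map_target (htar z (hst hz))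
    rw [hlam x₀ (c '' s) hAm hAs]
    set B : Set (EN d) := h.symm '' s with hB
    have hBm : MeasurableSet B :=
      hsm.image_of_continuousOn_injOn (h.continuousOn_symm.mono hst) (h.symm.injOn.mono hst)
    have hBs : B ⊆ h.source := by
      rintro _ ⟨z, hz, rfl⟩
      exact h.map_target (hst hz)
    have heA : (chartAt E x₀) '' (c '' s) = L.symm '' B := by
      rw [hB, image_image, image_image]
      exact image_congr (fun z hz => hec z (hst hz))
    rw [heA]
    have hmp : MeasurePreserving L.symm volume volume := LinearIsometryEquiv.measurePreserving L.symm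
    have hemb : MeasurableEmbedding L.symm := L.symm.toHomeomorph.measurableEmbedding
    have h1 : ∫⁻ y in L.symm '' B, ENNReal.ofReal (Real.sqrt (gramDet E x₀ y)) =
        ∫⁻ z in B, ENNReal.ofReal (ρ z) := by
      have h2 := hmp.setLIntegral_comp_emb hemb
        (fun y => ENNReal.ofReal (Real.sqrt (gramDet E x₀ y))) B
      exact h2.symm
    rw [h1, ← hvol B hBs hBm]
    congr 1
    rw [hB, image_image]
    ext z
    constructor
    · rintro ⟨w, hw, rfl⟩
      show h (h.symm w) ∈ s
      rw [h.right_inv (hst hw)]; exact hw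
    · intro hz
      exact ⟨z, hz, h.right_inv (hst hz)⟩
  · exact ⟨a, Metric.mem_ball_self hR, hca⟩

end ATLAS

theorem p_ATLAS (hST : T_STRAIGHT) (hBI : T_BILIP.{u, v}) (hGR : T_GRAM.{u, v}) :
    T_ATLAS.{u, v} := by
  classical
  intro E _ _ _ _ _ X _ _ _ _ _ _ _ lam hd hlam
  choose a R c K hK hR hbil hopen hvol hx using
    ATLAS.local_chart hST hBI hGR E X lam hd hlam
  obtain ⟨t, ht⟩ := isCompact_univ.elim_finite_subcover
    (fun x : X => c x '' Metric.ball (a x) (R x))
    (fun x => hopen x _ Subset.rfl Metric.isOpen_ball)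
    (fun x _ => mem_iUnion.mpr ⟨x, hx x⟩)
  let f : Fin t.card → X := fun i => (t.equivFin.symm i : X)
  have hf : ∀ x ∈ t, ∃ i, f i = x := by
    intro x hx
    exact ⟨t.equivFin ⟨x, hx⟩, by simp [f]⟩
  let K' : ℝ := 1 + ∑ i, K (f i)
  have hK0 : ∀ i, 0 ≤ K (f i) := fun i => by linarith [hK (f i)]
  have hK' : ∀ i, K (f i) ≤ K' := by
    intro i
    have := Finset.single_le_sum (f := fun i => K (f i)) (fun i _ => hK0 i) (Finset.mem_univ i)
    show K (f i) ≤ 1 + ∑ i, K (f i)
    linarith
  refine ⟨{ n := t.card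
            ctr := fun i => a (f i)
            rad := fun i => R (f i)
            c := fun i => c (f i)
            K := K'
            one_le_K := ?_
            rad_pos := fun i => hR (f i)
            bilip := ?_
            isOpen_image := fun i => hopen (f i)
            vol := fun i => hvol (f i)
            cover := ?_ }⟩
  · have : 0 ≤ ∑ i, K (f i) := Finset.sum_nonneg (fun i _ => hK0 i)
    show 1 ≤ 1 + ∑ i, K (f i)
    linarith
  · intro i x hx y hy
    obtain ⟨h1, h2⟩ := hbil (f i) x hx y hy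
    exact ⟨h1.trans (mul_le_mul_of_nonneg_right (hK' i) dist_nonneg),
      h2.trans (mul_le_mul_of_nonneg_right (hK' i) dist_nonneg)⟩
  · intro x
    have := ht (mem_univ x)
    rw [mem_iUnion₂] at this
    obtain ⟨y, hy, hxy⟩ := this
    obtain ⟨i, hi⟩ := hf y hy
    refine ⟨i, ?_⟩
    rw [hi]
    exact hxy

end Pool.Agent.SobEnt
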