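import Pool.Agent.SobEnt.Targets

/-!
# BILIP (MP_07df6b_an): the charts of a Riemannian manifold are locally bi-Lipschitz
-/

open MeasureTheory Filter Topology Set Bundle Metric Manifold
open scoped ENNReal NNReal Manifold ContDiff

universe u v w

namespace Pool.Agent.SobEnt

namespace BILIP

noncomputable section

variable
  {E : Type v} [NormedAddCommGroup E] [NormedSpace ℝ E]
  {H : Type*} [TopologicalSpace H] (I : ModelWithCorners ℝ E H)
  {M : Type u} [TopologicalSpace M] [ChartedSpace H M]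
  [RiemannianBundle (fun (x : M) ↦ TangentSpace I x)]
  [IsManifold I 1 M] [IsContinuousRiemannianBundle E (fun (x : M) ↦ TangentSpace I x)]

attribute [local instance] normedAddCommGroupTangentSpaceVectorSpace
attribute [local instance] normedSpaceTangentSpaceVectorSpace

set_option backward.isDefEq.respectTransparency false in
/-- The inverse of the extended chart is Lipschitz near the centre. -/
theorem riem_le (x : M) :
    ∃ C > (0 : ℝ≥0), ∀ᶠ p : M × M in 𝓝 (x, x),
    riemannianEDist I p.1 p.2 ≤ C * edist (extChartAt I x p.1) (extChartAt I x p.2) := by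
  rcases eventually_enorm_mfderivWithin_symm_extChartAt_lt I x with ⟨C, C_pos, hC⟩
  refine ⟨C, C_pos, ?_⟩
  obtain ⟨r, r_pos, hr⟩ : ∃ r > 0,
      ball (extChartAt I x x) r ∩ range I ⊆ (extChartAt I x).target ∩
        {y | ‖mfderiv[range I] (extChartAt I x).symm y‖ₑ < C} :=
    mem_nhdsWithin_iff.1 (inter_mem (extChartAt_target_mem_nhdsWithin x) hC)
  have A : (extChartAt I x) ⁻¹' (ball (extChartAt I x x) r ∩ range I) ∈ 𝓝 x := by
    apply extChartAt_preimage_mem_nhds_of_mem_nhdsWithin (by simp)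
    rw [inter_comm]
    exact inter_mem_nhdsWithin _ (ball_mem_nhds _ r_pos)
  have A' : ∀ᶠ y in 𝓝 x, y ∈ (extChartAt I x) ⁻¹' (ball (extChartAt I x x) r ∩ range I) ∧
      y ∈ (chartAt H x).source := by
    filter_upwards [A, chart_source_mem_nhds H x] with y hy h'y using ⟨hy, h'y⟩
  rw [nhds_prod_eq]
  filter_upwards [A'.prod_mk A'] with p hp
  obtain ⟨⟨hy, h'y⟩, ⟨hz, h'z⟩⟩ := hp
  let η := ContinuousAffineMap.lineMap (R := ℝ) (extChartAt I x p.1) (extChartAt I x p.2)
  set γ := (extChartAt I x).symm ∘ η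
  have hη : Icc 0 1 ⊆ ⇑η ⁻¹' ((extChartAt I x).target ∩
        {y | ‖mfderiv[range I] (extChartAt I x).symm y‖ₑ < C}) := by
    simp only [← image_subset_iff, ContinuousAffineMap.coe_lineMap_eq,
     ← segment_eq_image_lineMap, η]
    apply Subset.trans _ hr
    exact ((convex_ball _ _).inter I.convex_range).segment_subset hy hz
  simp only [preimage_inter, subset_inter_iff] at hη
  have η_smooth : CMDiff[Icc 0 1] 1 η := by
    apply ContMDiff.contMDiffOn
    rw [contMDiff_iff_contDiff]
    exact ContinuousAffineMap.contDiff _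
  refine le_trans (riemannianEDist_le_pathELength (γ := γ) (a := 0) (b := 1)
    ((contMDiffOn_extChartAt_symm x).comp η_smooth hη.1)
    (by simp [γ, η, ContinuousAffineMap.coe_lineMap_eq, h'y])
    (by simp [γ, η, ContinuousAffineMap.coe_lineMap_eq, h'z]) zero_le_one) ?_
  rw [← lintegral_fderiv_lineMap_eq_edist, Manifold.pathELength_eq_lintegral_mfderivWithin_Icc,
    ← lintegral_const_mul' _ _ ENNReal.coe_ne_top]
  apply setLIntegral_mono' measurableSet_Icc (fun t ht ↦ ?_)
  have : mfderiv[Icc 0 1] γ t =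
      (mfderiv[range I] (extChartAt I x).symm (η t)) ∘L (mfderiv[Icc 0 1] η t) := by
    apply mfderivWithin_comp
    · exact mdifferentiableWithinAt_extChartAt_symm (hη.1 ht)
    · exact η_smooth.mdifferentiableOn one_ne_zero t ht
    · exact hη.1.trans (preimage_mono (extChartAt_target_subset_range x))
    · rw [uniqueMDiffWithinAt_iff_uniqueDiffWithinAt]
      exact uniqueDiffOn_Icc zero_lt_one t ht
  have : mfderiv[Icc 0 1] γ t 1 =
      (mfderiv[range I] (extChartAt I x).symm (η t)) (mfderiv[Icc 0 1] η t 1) := congr($this 1)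
  rw [this]
  apply (ContinuousLinearMap.le_opENorm _ _).trans
  gcongr
  · exact (hη.2 ht).le
  · simp only [mfderivWithin_eq_fderivWithin]
    exact le_of_eq rfl

set_option backward.isDefEq.respectTransparency false in
/-- The extended chart is Lipschitz near the centre. -/
theorem le_riem [RegularSpace M] (x : M) :
    ∃ C > (0 : ℝ≥0), ∀ᶠ p : M × M in 𝓝 (x, x),
    edist (extChartAt I x p.1) (extChartAt I x p.2) ≤ C * riemannianEDist I p.1 p.2 := by
  rcases eventually_enorm_mfderiv_extChartAt_lt I x with ⟨C, C_pos, hC⟩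
  refine ⟨C, C_pos, ?_⟩
  obtain ⟨c, c_pos, hc⟩ := setOfPred_riemannianEDist_lt_subset_nhds I
    (Filter.inter_mem hC (extChartAt_source_mem_nhds (I := I) x))
  have c3 : (0 : ℝ≥0∞) < c / 3 := ENNReal.div_pos (by simpa using c_pos.ne') (by simp)
  have A := eventually_riemannianEDist_lt I x c3
  rw [nhds_prod_eq]
  filter_upwards [A.prod_mk A] with p hp
  obtain ⟨h1, h2⟩ := hp
  have h12 : riemannianEDist I p.1 p.2 < c / 3 + c / 3 := by
    refine (Manifold.riemannianEDist_triangle (y := x)).trans_lt ?_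
    rw [Manifold.riemannianEDist_comm]
    exact ENNReal.add_lt_add h1 h2
  have key : ∀ r : ℝ≥0∞, riemannianEDist I p.1 p.2 < r → r ≤ c / 3 + c / 3 →
      edist (extChartAt I x p.1) (extChartAt I x p.2) ≤ C * r := by
    intro r hr hrc
    rcases Manifold.exists_lt_locally_constant_of_riemannianEDist_lt hr zero_lt_one
      with ⟨γ, hγx, hγy, γ_smooth, hγ, -⟩
    have hmem : ∀ t ∈ Icc (0 : ℝ) 1, γ t ∈ {y | ‖mfderiv% (extChartAt I x) y‖ₑ < C} ∩
        (extChartAt I x).source := by
      intro t ht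
      apply hc
      have e1 : riemannianEDist I p.1 (γ t) ≤ Manifold.pathELength I γ 0 t :=
        Manifold.riemannianEDist_le_pathELength γ_smooth.contMDiffOn hγx rfl ht.1
      have e2 : Manifold.pathELength I γ 0 t ≤ Manifold.pathELength I γ 0 1 :=
        Manifold.pathELength_mono le_rfl ht.2
      have e3 : riemannianEDist I x (γ t) < c / 3 + (c / 3 + c / 3) :=
        Manifold.riemannianEDist_triangle.trans_lt
          (ENNReal.add_lt_add h1 (((e1.trans e2).trans_lt hγ).trans_le hrc))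
      have e4 : (c / 3 + (c / 3 + c / 3) : ℝ≥0∞) = c := by
        rw [← add_assoc]; exact ENNReal.add_thirds _
      rw [e4] at e3
      exact e3
    let γ' := extChartAt I x ∘ γ
    have hC : CMDiff[Icc 0 1] 1 γ' :=
      contMDiffOn_extChartAt.comp (I' := I) (t := (chartAt H x).source)
        γ_smooth.contMDiffOn (fun t' ht' ↦ by simpa using (hmem t' ht').2)
    have : edist (extChartAt I x p.1) (extChartAt I x p.2) = ‖γ' 1 - γ' 0‖ₑ := by
      rw [edist_comm, edist_eq_enorm_sub]
      simp [γ', hγx, hγy]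
    rw [this]
    calc
      ‖γ' 1 - γ' 0‖ₑ
    _ ≤ ∫⁻ t' in Icc 0 1, ‖derivWithin γ' (Icc 0 1) t'‖ₑ := by
      apply enorm_sub_le_lintegral_derivWithin_Icc_of_contDiffOn_Icc _ zero_le_one
      rwa [← contMDiffOn_iff_contDiffOn]
    _ = ∫⁻ t' in Icc 0 1, ‖mfderiv[Icc 0 1] γ' t' 1‖ₑ := by
      simp_rw [← fderivWithin_derivWithin, mfderivWithin_eq_fderivWithin]
      rfl
    _ ≤ ∫⁻ t' in Icc 0 1, C * ‖mfderiv[Icc 0 1] γ t' 1‖ₑ := by
      apply setLIntegral_mono' measurableSet_Icc (fun t' ht' ↦ ?_)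
      have : mfderiv[Icc 0 1] γ' t' =
          (mfderiv% (extChartAt I x) (γ t')) ∘L (mfderiv[Icc 0 1] γ t') := by
        apply mfderiv_comp_mfderivWithin
        · refine mdifferentiableAt_extChartAt ?_
          simpa using (hmem t' ht').2
        · exact (γ_smooth.mdifferentiable one_ne_zero).mdifferentiableOn _ ht'
        · rw [uniqueMDiffWithinAt_iff_uniqueDiffWithinAt]
          exact uniqueDiffOn_Icc zero_lt_one _ ht'
      have : mfderiv[Icc 0 1] γ' t' 1 =
          (mfderiv% (extChartAt I x) (γ t')) (mfderiv[Icc 0 1] γ t' 1) :=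
        congr($this 1)
      rw [this]
      apply (ContinuousLinearMap.le_opENorm _ _).trans
      gcongr
      exact (hmem t' ht').1.le
    _ = C * Manifold.pathELength I γ 0 1 := by
      rw [lintegral_const_mul' _ _ ENNReal.coe_ne_top,
          Manifold.pathELength_eq_lintegral_mfderivWithin_Icc]
    _ ≤ C * r := by gcongr
  by_contra hcon
  push Not at hcon
  have hC0 : (C : ℝ≥0∞) ≠ 0 := by simpa using C_pos.ne'
  have h3 : riemannianEDist I p.1 p.2 <
      edist (extChartAt I x p.1) (extChartAt I x p.2) / C := by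
    rw [ENNReal.lt_div_iff_mul_lt (Or.inl hC0) (Or.inl ENNReal.coe_ne_top), mul_comm]
    exact hcon
  obtain ⟨r, hr1, hr2⟩ := exists_between (lt_min h3 h12)
  have h4 := key r hr1 (hr2.le.trans (min_le_right _ _))
  have h5 : (C : ℝ≥0∞) * r < edist (extChartAt I x p.1) (extChartAt I x p.2) := by
    have := hr2.trans_le (min_le_left _ _)
    rwa [ENNReal.lt_div_iff_mul_lt (Or.inl hC0) (Or.inl ENNReal.coe_ne_top), mul_comm] at this
  exact absurd (h4.trans_lt h5) (lt_irrefl _)

end

end BILIP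

theorem p_BILIP : T_BILIP.{u, v} := by
  intro E _ _ _ X _ _ _ hG x₀
  have := hG.isManifold
  have := hG.isCont
  have := hG.isRiem
  have hM : IsManifold 𝓘(ℝ, E) 1 X := inferInstance
  have hR : IsContinuousRiemannianBundle E (fun x : X => TangentSpace 𝓘(ℝ, E) x) := by
    obtain ⟨g, g_smooth, hg⟩ := hG.isCont.exists_contMDiff
    exact ⟨g, g_smooth.continuous, hg⟩
  obtain ⟨C₁, h1, H1⟩ := BILIP.riem_le 𝓘(ℝ, E) x₀
  obtain ⟨C₂, h2, H2⟩ := BILIP.le_riem 𝓘(ℝ, E) x₀
  refine ⟨max 1 (max C₁ C₂ : ℝ≥0), le_max_left _ _, ?_⟩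
  filter_upwards [H1, H2] with p hp1 hp2
  rw [← IsRiemannianManifold.out] at hp1 hp2
  simp only [extChartAt_coe, Function.comp_apply, modelWithCornersSelf_coe, id] at hp1 hp2
  have e1 : dist p.1 p.2 ≤ C₁ * dist (chartAt E x₀ p.1) (chartAt E x₀ p.2) := by
    rw [dist_edist, dist_edist, ← ENNReal.coe_toReal C₁, ← ENNReal.toReal_mul]
    exact ENNReal.toReal_mono (ENNReal.mul_ne_top ENNReal.coe_ne_top (edist_ne_top _ _)) hp1
  have e2 : dist (chartAt E x₀ p.1) (chartAt E x₀ p.2) ≤ C₂ * dist p.1 p.2 := by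
    rw [dist_edist, dist_edist, ← ENNReal.coe_toReal C₂, ← ENNReal.toReal_mul]
    exact ENNReal.toReal_mono (ENNReal.mul_ne_top ENNReal.coe_ne_top (edist_ne_top _ _)) hp2
  refine ⟨e1.trans ?_, e2.trans ?_⟩
  · gcongr
    exact (le_max_left C₁ C₂ |> NNReal.coe_le_coe.2).trans (le_max_right _ _)
  · gcongr
    exact (le_max_right C₁ C₂ |> NNReal.coe_le_coe.2).trans (le_max_right _ _)

end Pool.Agent.SobEnt

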