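import Pool.Agent.SobEnt.Targets

/-!
# BLOCK: a subadditive process and a tower
-/

open MeasureTheory Filter Topology Set
open scoped ENNReal NNReal

universe u

namespace Pool.Agent.SobEnt

namespace BLOCK

variable {X : Type u}

/-- the process grows at most linearly -/
lemma le_mul {g : X → X} {β : ℕ → X → ℝ} {C : ℝ} (h0 : ∀ x, β 0 x = 0)
    (hs : ∀ m n x, β (n + m) x ≤ β n x + β m (g^[n] x)) (h1 : ∀ x, β 1 x ≤ C) (n : ℕ) (x : X) :
    β n x ≤ n * C := by
  induction n generalizing x with
  | zero => rw [h0]; simp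
  | succ n ih =>
    have h2 := hs 1 n x
    have h3 := ih x
    have h4 := h1 (g^[n] x)
    push_cast
    linarith

/-- pointwise estimate at the points of `A ∪ E` -/
lemma pointwise {g : X → X} (hg : Function.Injective g) {β : ℕ → X → ℝ} {C : ℝ} (hC : 0 ≤ C)
    (hβ : ∀ n x, 0 ≤ β n x) (h0 : ∀ x, β 0 x = 0)
    (hs : ∀ m n x, β (n + m) x ≤ β n x + β m (g^[n] x)) (h1 : ∀ x, β 1 x ≤ C) {τ : ℕ}
    (hτ : 1 ≤ τ) {A X' : Set X} (hAX : A ⊆ X') (hX : g ⁻¹' X' = X')
    (hd : ∀ i j : ℕ, i < j → j < τ → Disjoint (g^[i] '' A) (g^[j] '' A)) (φ : X → ℝ)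
    (hφ0 : ∀ x, 0 ≤ φ x) (hφA : ∀ x ∈ A, β τ x ≤ φ x)
    (hφE : ∀ x ∈ X' \ ⋃ i ∈ Finset.range τ, g^[i] '' A, C ≤ φ x) (n : ℕ) :
    ∀ x, x ∈ A ∪ (X' \ ⋃ i ∈ Finset.range τ, g^[i] '' A) →
      β n x ≤ ∑ t ∈ Finset.range n, φ (g^[t] x) + τ * C := by
  have hX1 : ∀ x ∈ X', g x ∈ X' := fun x hx => by
    have : x ∈ g ⁻¹' X' := by rw [hX]; exact hx
    exact this
  have hXn : ∀ (m : ℕ), ∀ x ∈ X', g^[m] x ∈ X' := by
    intro m
    induction m with
    | zero => intro x hx; simpa using hx
    | succ m ih => intro x hx; rw [Function.iterate_succ_apply']; exact hX1 _ (ih x hx)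
  induction n using Nat.strong_induction_on with
  | _ n ih =>
    intro x hx
    have hsum0 : 0 ≤ ∑ t ∈ Finset.range n, φ (g^[t] x) := Finset.sum_nonneg fun t _ => hφ0 _
    rcases hx with hx | hx
    · rcases lt_or_ge n τ with hn | hn
      · have h2 := le_mul h0 hs h1 n x
        have h3 : (n : ℝ) * C ≤ τ * C := by
          apply mul_le_mul_of_nonneg_right _ hC
          exact_mod_cast hn.le
        linarith
      · have h2 := hs (n - τ) τ x
        rw [show τ + (n - τ) = n by omega] at h2
        have hmem : g^[τ] x ∈ A ∪ (X' \ ⋃ i ∈ Finset.range τ, g^[i] '' A) := by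
          by_cases hU : g^[τ] x ∈ ⋃ i ∈ Finset.range τ, g^[i] '' A
          · rw [Set.mem_iUnion₂] at hU
            obtain ⟨i, hi, a, ha, hia⟩ := hU
            rw [Finset.mem_range] at hi
            rcases Nat.eq_zero_or_pos i with hi0 | hi0
            · subst hi0
              left
              rw [← hia]
              simpa using ha
            · exfalso
              have h3 : g^[i] a = g^[i] (g^[τ - i] x) := by
                rw [hia, ← Function.iterate_add_apply]
                congr 2
                omega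
              have h4 : a = g^[τ - i] x := hg.iterate i h3
              exact Set.disjoint_left.1 (hd 0 (τ - i) (by omega) (by omega)) ⟨a, ha, rfl⟩
                ⟨x, hx, by rw [h4]; rfl⟩
          · exact Or.inr ⟨hXn τ x (hAX hx), hU⟩
        have h3 := ih (n - τ) (by omega) (g^[τ] x) hmem
        have h4 := hφA x hx
        have h5 : φ x + ∑ t ∈ Finset.range (n - τ), φ (g^[t] (g^[τ] x)) ≤
            ∑ t ∈ Finset.range n, φ (g^[t] x) := by
          have h6 : ∑ t ∈ Finset.range n, φ (g^[t] x) =
              ∑ t ∈ Finset.range τ, φ (g^[t] x) +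
                ∑ t ∈ Finset.range (n - τ), φ (g^[τ + t] x) := by
            rw [← Finset.sum_range_add]
            congr 2
            omega
          have h7 : φ x ≤ ∑ t ∈ Finset.range τ, φ (g^[t] x) :=
            Finset.single_le_sum (f := fun t => φ (g^[t] x)) (fun t _ => hφ0 _)
              (Finset.mem_range.2 (by omega : 0 < τ))
          have h8 : ∑ t ∈ Finset.range (n - τ), φ (g^[t] (g^[τ] x)) =
              ∑ t ∈ Finset.range (n - τ), φ (g^[τ + t] x) := by
            apply Finset.sum_congr rfl
            intro t _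
            rw [← Function.iterate_add_apply, add_comm]
          rw [h6, h8]
          linarith
        linarith
    · rcases Nat.eq_zero_or_pos n with hn | hn
      · subst hn
        rw [h0]
        simp only [Finset.range_zero, Finset.sum_empty, zero_add]
        positivity
      · have h2 := hs (n - 1) 1 x
        rw [show 1 + (n - 1) = n by omega] at h2
        have hmem : g^[1] x ∈ A ∪ (X' \ ⋃ i ∈ Finset.range τ, g^[i] '' A) := by
          by_cases hU : g^[1] x ∈ ⋃ i ∈ Finset.range τ, g^[i] '' A
          · rw [Set.mem_iUnion₂] at hU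
            obtain ⟨i, hi, a, ha, hia⟩ := hU
            rw [Finset.mem_range] at hi
            rcases Nat.eq_zero_or_pos i with hi0 | hi0
            · subst hi0
              left
              rw [← hia]
              simpa using ha
            · exfalso
              have h3 : g (g^[i - 1] a) = g x := by
                rw [← Function.iterate_succ_apply' g (i - 1) a, Nat.succ_eq_add_one,
                  Nat.sub_add_cancel hi0, hia]
                rfl
              have h4 := hg h3
              apply hx.2
              rw [Set.mem_iUnion₂]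
              exact ⟨i - 1, Finset.mem_range.2 (by omega), a, ha, h4⟩
          · exact Or.inr ⟨hXn 1 x hx.1, hU⟩
        have h3 := ih (n - 1) (by omega) (g^[1] x) hmem
        have h4 := hφE x hx
        have h5 := h1 x
        have h6 : ∑ t ∈ Finset.range n, φ (g^[t] x) =
            φ x + ∑ t ∈ Finset.range (n - 1), φ (g^[t] (g^[1] x)) := by
          obtain ⟨m, rfl⟩ : ∃ m, n = m + 1 := ⟨n - 1, by omega⟩
          rw [Finset.sum_range_succ', add_comm]
          rfl
        linarith

/-- pointwise estimate at all points of `X'` -/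
lemma pointwise' {g : X → X} (hg : Function.Injective g) {β : ℕ → X → ℝ} {C : ℝ} (hC : 0 ≤ C)
    (hβ : ∀ n x, 0 ≤ β n x) (h0 : ∀ x, β 0 x = 0)
    (hs : ∀ m n x, β (n + m) x ≤ β n x + β m (g^[n] x)) (h1 : ∀ x, β 1 x ≤ C) {τ : ℕ}
    (hτ : 1 ≤ τ) {A X' : Set X} (hAX : A ⊆ X') (hX : g ⁻¹' X' = X')
    (hd : ∀ i j : ℕ, i < j → j < τ → Disjoint (g^[i] '' A) (g^[j] '' A)) (φ : X → ℝ)
    (hφ0 : ∀ x, 0 ≤ φ x) (hφA : ∀ x ∈ A, β τ x ≤ φ x)
    (hφE : ∀ x ∈ X' \ ⋃ i ∈ Finset.range τ, g^[i] '' A, C ≤ φ x) (n : ℕ) (x : X) (hx : x ∈ X') :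
    β n x ≤ ∑ t ∈ Finset.range n, φ (g^[t] x) + 2 * τ * C := by
  have hτC : 0 ≤ (τ : ℝ) * C := by positivity
  have hX1 : ∀ x ∈ X', g x ∈ X' := fun x hx => by
    have : x ∈ g ⁻¹' X' := by rw [hX]; exact hx
    exact this
  have hXn : ∀ (m : ℕ), ∀ x ∈ X', g^[m] x ∈ X' := by
    intro m
    induction m with
    | zero => intro x hx; simpa using hx
    | succ m ih => intro x hx; rw [Function.iterate_succ_apply']; exact hX1 _ (ih x hx)
  by_cases hU : x ∈ ⋃ i ∈ Finset.range τ, g^[i] '' A
  · rw [Set.mem_iUnion₂] at hU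
    obtain ⟨i, hi, a, ha, hia⟩ := hU
    rw [Finset.mem_range] at hi
    rcases Nat.eq_zero_or_pos i with hi0 | hi0
    · subst hi0
      have hxA : x ∈ A := by rw [← hia]; simpa using ha
      have := pointwise hg hC hβ h0 hs h1 hτ hAX hX hd φ hφ0 hφA hφE n x (Or.inl hxA)
      linarith
    · have hsum0 : 0 ≤ ∑ t ∈ Finset.range n, φ (g^[t] x) := Finset.sum_nonneg fun t _ => hφ0 _
      rcases lt_or_ge n (τ - i) with hn | hn
      · have h2 := le_mul h0 hs h1 n x
        have h3 : (n : ℝ) * C ≤ τ * C := by
          apply mul_le_mul_of_nonneg_right _ hC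
          have : n ≤ τ := by omega
          exact_mod_cast this
        linarith
      · have h2 := hs (n - (τ - i)) (τ - i) x
        rw [show τ - i + (n - (τ - i)) = n by omega] at h2
        have hmem : g^[τ - i] x ∈ A ∪ (X' \ ⋃ i ∈ Finset.range τ, g^[i] '' A) := by
          by_cases hU : g^[τ - i] x ∈ ⋃ i ∈ Finset.range τ, g^[i] '' A
          · rw [Set.mem_iUnion₂] at hU
            obtain ⟨j, hj, b, hb, hjb⟩ := hU
            rw [Finset.mem_range] at hj
            rcases Nat.eq_zero_or_pos j with hj0 | hj0
            · subst hj0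
              left
              rw [← hjb]
              simpa using hb
            · exfalso
              have h3 : g^[j] b = g^[j] (g^[τ - j] a) := by
                rw [hjb, ← hia, ← Function.iterate_add_apply, ← Function.iterate_add_apply,
                  show τ - i + i = j + (τ - j) by omega]
              have h4 : b = g^[τ - j] a := hg.iterate j h3
              exact Set.disjoint_left.1 (hd 0 (τ - j) (by omega) (by omega)) ⟨b, hb, rfl⟩
                ⟨a, ha, by rw [h4]; rfl⟩
          · exact Or.inr ⟨hXn _ x hx, hU⟩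
        have h3 := pointwise hg hC hβ h0 hs h1 hτ hAX hX hd φ hφ0 hφA hφE (n - (τ - i)) _ hmem
        have h4 := le_mul h0 hs h1 (τ - i) x
        have h5 : ((τ - i : ℕ) : ℝ) * C ≤ τ * C := by
          apply mul_le_mul_of_nonneg_right _ hC
          have : τ - i ≤ τ := by omega
          exact_mod_cast this
        have h6 : ∑ t ∈ Finset.range (n - (τ - i)), φ (g^[t] (g^[τ - i] x)) ≤
            ∑ t ∈ Finset.range n, φ (g^[t] x) := by
          have h6 : ∑ t ∈ Finset.range n, φ (g^[t] x) =
              ∑ t ∈ Finset.range (τ - i), φ (g^[t] x) +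
                ∑ t ∈ Finset.range (n - (τ - i)), φ (g^[(τ - i) + t] x) := by
            rw [← Finset.sum_range_add]
            congr 2
            omega
          have h7 : 0 ≤ ∑ t ∈ Finset.range (τ - i), φ (g^[t] x) :=
            Finset.sum_nonneg fun t _ => hφ0 _
          have h8 : ∑ t ∈ Finset.range (n - (τ - i)), φ (g^[t] (g^[τ - i] x)) =
              ∑ t ∈ Finset.range (n - (τ - i)), φ (g^[(τ - i) + t] x) := by
            apply Finset.sum_congr rfl
            intro t _
            rw [← Function.iterate_add_apply, add_comm]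
          rw [h6, h8]
          linarith
        linarith
  · have := pointwise hg hC hβ h0 hs h1 hτ hAX hX hd φ hφ0 hφA hφE n x (Or.inr ⟨hx, hU⟩)
    linarith

/-- invariance of the integral over an invariant set -/
lemma setIntegral_iterate [MeasurableSpace X] {μ : Measure X} (g : X ≃ᵐ X)
    (hg : MeasurePreserving g μ μ) {X' : Set X} (hX : g ⁻¹' X' = X') (φ : X → ℝ) (t : ℕ) :
    ∫ x in X', φ (g^[t] x) ∂μ = ∫ x in X', φ x ∂μ := by
  induction t with
  | zero => rfl
  | succ t ih =>
    rw [← ih]
    have h := hg.setIntegral_preimage_emb g.measurableEmbedding (fun y => φ (g^[t] y)) X'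
    rw [hX] at h
    rw [← h]
    rfl

end BLOCK

theorem p_BLOCK : T_BLOCK.{u} := by
  intro X _ μ _ g hg β C τ A X' hβm hβ0 h0 hs h1 hτ hA hX' hAX hX hd n
  rcases isEmpty_or_nonempty X with hE | ⟨⟨x0⟩⟩
  · have hμ : μ = 0 := Measure.eq_zero_of_isEmpty μ
    subst hμ
    simp
  have hC : 0 ≤ C := (hβ0 1 x0).trans (h1 x0)
  set E : Set X := X' \ ⋃ i ∈ Finset.range τ, g^[i] '' A with hEdef
  have himg : ∀ i : ℕ, MeasurableSet ((g : X → X)^[i] '' A) := by
    intro i
    induction i with
    | zero => simpa using hA
    | succ i ih =>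
      have : (g : X → X)^[i + 1] '' A = g '' ((g : X → X)^[i] '' A) := by
        rw [Set.image_image]
        apply Set.image_congr
        intro a _
        rw [Function.iterate_succ_apply']
      rw [this]
      exact (g.measurableEmbedding.measurableSet_image).2 ih
  have hEm : MeasurableSet E := hX'.diff (Finset.measurableSet_biUnion _ fun i _ => himg i)
  set φ : X → ℝ := fun x => A.indicator (β τ) x + E.indicator (fun _ => C) x with hφ
  have hφA0 : ∀ x, 0 ≤ A.indicator (β τ) x := fun x =>
    Set.indicator_nonneg (fun y _ => hβ0 τ y) x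
  have hφE0 : ∀ x, 0 ≤ E.indicator (fun _ => C) x := fun x =>
    Set.indicator_nonneg (fun y _ => hC) x
  have hbound : ∀ n x, β n x ≤ n * C := fun n x => BLOCK.le_mul h0 hs h1 n x
  have hint : ∀ n, Integrable (β n) μ := by
    intro n
    refine Integrable.of_bound (hβm n).aestronglyMeasurable (n * C) ?_
    filter_upwards with x
    rw [Real.norm_of_nonneg (hβ0 n x)]
    exact hbound n x
  have hiA : Integrable (A.indicator (β τ)) μ := (hint τ).indicator hA
  have hiE : Integrable (E.indicator (fun _ => C)) μ := (integrable_const C).indicator hEm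
  have hiφ : Integrable φ μ := hiA.add hiE
  have hiφt : ∀ t : ℕ, Integrable (fun x => φ ((g : X → X)^[t] x)) μ := by
    intro t
    induction t with
    | zero => exact hiφ
    | succ t ih =>
      have := hg.integrable_comp_of_integrable ih
      exact this
  have hpt := BLOCK.pointwise' g.injective hC hβ0 h0 hs h1 hτ hAX hX hd φ
    (fun x => add_nonneg (hφA0 x) (hφE0 x))
    (fun x hx => by
      have h2 : A.indicator (β τ) x = β τ x := Set.indicator_of_mem hx _
      have h3 := hφE0 x
      show β τ x ≤ A.indicator (β τ) x + E.indicator (fun _ => C) x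
      linarith)
    (fun x hx => by
      have h2 : E.indicator (fun _ => C) x = C := Set.indicator_of_mem hx _
      have h3 := hφA0 x
      show C ≤ A.indicator (β τ) x + E.indicator (fun _ => C) x
      linarith) n
  have hI1 : ∫ x in X', β n x ∂μ ≤
      ∫ x in X', (∑ t ∈ Finset.range n, φ ((g : X → X)^[t] x) + 2 * τ * C) ∂μ := by
    apply setIntegral_mono_on (hint n).integrableOn _ hX' hpt
    apply Integrable.integrableOn
    apply Integrable.add _ (integrable_const _)
    exact integrable_finsetSum _ fun t _ => hiφt t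
  have hI2 : ∫ x in X', (∑ t ∈ Finset.range n, φ ((g : X → X)^[t] x) + 2 * τ * C) ∂μ =
      n * ∫ x in X', φ x ∂μ + 2 * τ * C * μ.real X' := by
    rw [integral_add]
    · rw [integral_finsetSum]
      · rw [Finset.sum_congr rfl (fun t _ => BLOCK.setIntegral_iterate g hg hX φ t),
          Finset.sum_const, Finset.card_range, nsmul_eq_mul, setIntegral_const, smul_eq_mul]
        ring
      · intro t _
        exact (hiφt t).integrableOn
    · exact (integrable_finsetSum _ fun t _ => hiφt t).integrableOn
    · exact (integrable_const _).integrableOn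
  have hI3 : ∫ x in X', φ x ∂μ = ∫ x in A, β τ x ∂μ + C * μ.real E := by
    show ∫ x in X', (A.indicator (β τ) x + E.indicator (fun _ => C) x) ∂μ = _
    rw [integral_add hiA.integrableOn hiE.integrableOn, setIntegral_indicator hA,
      setIntegral_indicator hEm, setIntegral_const, smul_eq_mul,
      Set.inter_eq_self_of_subset_right hAX,
      Set.inter_eq_self_of_subset_right (Set.sdiff_subset : E ⊆ X')]
    ring
  rw [hI2, hI3] at hI1
  exact hI1

end Pool.Agent.SobEnt
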