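import Pool.Agent.SobEnt.PHI

/-!
# CD: chain rule and dilation for derivatives in charts (MP_07df6b_an)
-/

open MeasureTheory Filter Topology Set Bundle
open scoped ENNReal NNReal Manifold ContDiff

universe u v w

namespace Pool.Agent.SobEnt

noncomputable section

namespace CD

open PHI

variable {X : Type u} [MetricSpace X]

theorem lipAt_le_of_eventually {T : X → X} {x : X} {c : ℝ} (hc : 0 ≤ c)
    (h : ∀ᶠ y in 𝓝 x, dist (T x) (T y) ≤ c * dist x y) : lipAt T x ≤ ENNReal.ofReal c := by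
  obtain ⟨ε, hε, hball⟩ := Metric.eventually_nhds_iff_ball.1 h
  unfold lipAt
  refine limsup_le_of_le (by isBoundedDefault) ?_
  obtain ⟨N, hN⟩ := exists_nat_one_div_lt hε
  filter_upwards [eventually_ge_atTop N] with n hn
  have hn1 : (0 : ℝ) < (n : ℝ) + 1 := by positivity
  have h1 : 1 / ((n : ℝ) + 1) < ε := by
    refine lt_of_le_of_lt ?_ hN
    exact one_div_le_one_div_of_le (by positivity) (by exact_mod_cast Nat.succ_le_succ hn)
  have h2 : (⨆ y ∈ Metric.ball x (1 / ((n : ℝ) + 1)), edist (T x) (T y)) ≤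
      ENNReal.ofReal (c * (1 / ((n : ℝ) + 1))) := by
    refine iSup₂_le fun y hy => ?_
    have hy' : dist y x < 1 / ((n : ℝ) + 1) := hy
    rw [edist_dist]
    refine ENNReal.ofReal_le_ofReal ((hball y (hy'.trans h1)).trans ?_)
    rw [dist_comm x y]
    exact mul_le_mul_of_nonneg_left hy'.le hc
  have h3 : ((n : ℝ≥0∞) + 1) = ENNReal.ofReal ((n : ℝ) + 1) := by
    rw [ENNReal.ofReal_add (by positivity) zero_le_one, ENNReal.ofReal_natCast,
      ENNReal.ofReal_one]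
  calc ((n : ℝ≥0∞) + 1) * ⨆ y ∈ Metric.ball x (1 / ((n : ℝ) + 1)), edist (T x) (T y)
      ≤ ((n : ℝ≥0∞) + 1) * ENNReal.ofReal (c * (1 / ((n : ℝ) + 1))) := by gcongr
    _ = ENNReal.ofReal (((n : ℝ) + 1) * (c * (1 / ((n : ℝ) + 1)))) := by
        rw [h3, ENNReal.ofReal_mul hn1.le]
    _ = ENNReal.ofReal c := by
        congr 1
        field_simp

variable [MeasurableSpace X] {lam : Measure X} {d : ℕ}

theorem continuousAt_c (V : VAtlas X lam d) {i : Fin V.n} {x : X} (hx : x ∈ V.U i) :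
    ContinuousAt (V.c i) (V.inv i x) :=
  (continuousOn_c V i).continuousAt ((isOpen_dom V i).mem_nhds (inv_mem V hx))

theorem tendsto_c (V : VAtlas X lam d) {i : Fin V.n} {x : X} (hx : x ∈ V.U i) :
    Tendsto (V.c i) (𝓝 (V.inv i x)) (𝓝 x) := by
  have := continuousAt_c V hx
  rwa [ContinuousAt, c_inv V hx] at this

theorem chain (V : VAtlas X lam d) {i j k : Fin V.n} {S T : X → X} {x : X}
    {D D' : EN d →L[ℝ] EN d} (h1 : V.HasCD i j T x D) (h2 : V.HasCD j k S (T x) D') :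
    V.HasCD i k (S ∘ T) x (D'.comp D) := by
  obtain ⟨hx, hTx, hTc, hD⟩ := h1
  obtain ⟨-, hSTx, hSc, hD'⟩ := h2
  refine ⟨hx, hSTx, hSc.comp hTc, ?_⟩
  have h3 : HasFDerivAt (fun y => V.inv k (S (V.c j y))) D'
      ((fun y => V.inv j (T (V.c i y))) (V.inv i x)) := by
    simp only [c_inv V hx]
    exact hD'
  refine (h3.comp (V.inv i x) hD).congr_of_eventuallyEq ?_
  have h4 : ∀ᶠ y in 𝓝 (V.inv i x), T (V.c i y) ∈ V.U j :=
    (hTc.tendsto.comp (tendsto_c V hx)).eventually ((isOpen_U V j).mem_nhds hTx)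
  filter_upwards [h4] with y hy
  simp only [Function.comp_apply]
  rw [c_inv V hy]

theorem congr (V : VAtlas X lam d) {i j : Fin V.n} {S T : X → X} {x : X}
    {D : EN d →L[ℝ] EN d} (h : ∀ᶠ y in 𝓝 x, S y = T y) (h1 : V.HasCD i j T x D) :
    V.HasCD i j S x D := by
  obtain ⟨hx, hTx, hTc, hD⟩ := h1
  refine ⟨hx, ?_, hTc.congr (h.mono fun y hy => hy.symm), ?_⟩
  · rw [h.self_of_nhds]; exact hTx
  · refine hD.congr_of_eventuallyEq ?_
    filter_upwards [(tendsto_c V hx).eventually h] with y hy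
    rw [hy]

theorem uniq (V : VAtlas X lam d) {i j : Fin V.n} {T : X → X} {x : X}
    {D D' : EN d →L[ℝ] EN d} (h1 : V.HasCD i j T x D) (h2 : V.HasCD i j T x D') : D = D' :=
  h1.2.2.2.unique h2.2.2.2

theorem dil (V : VAtlas X lam d) {i j : Fin V.n} {T : X → X} {x : X}
    {D : EN d →L[ℝ] EN d} (h1 : V.HasCD i j T x D) {ε : ℝ} (hε : 0 < ε) :
    ∀ᶠ y in 𝓝 x, dist (T x) (T y) ≤ V.K ^ 2 * (‖D‖ + ε) * dist x y := by
  obtain ⟨hx, hTx, hTc, hD⟩ := h1
  have hK := K_pos V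
  have h2 := (hasFDerivAt_iff_isLittleO.1 hD).def hε
  have h3 : ∀ᶠ y in 𝓝 x, y ∈ V.U i := (isOpen_U V i).mem_nhds hx
  have h4 : ∀ᶠ y in 𝓝 x, T y ∈ V.U j := hTc.eventually ((isOpen_U V j).mem_nhds hTx)
  have h5 : Tendsto (V.inv i) (𝓝 x) (𝓝 (V.inv i x)) :=
    (continuousOn_inv V i).continuousAt ((isOpen_U V i).mem_nhds hx)
  filter_upwards [h3, h4, h5.eventually h2] with y hy hTy hd
  rw [c_inv V hy, c_inv V hx] at hd
  have h6 : ‖V.inv j (T y) - V.inv j (T x)‖ ≤ (‖D‖ + ε) * ‖V.inv i y - V.inv i x‖ := by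
    calc ‖V.inv j (T y) - V.inv j (T x)‖
        = ‖(V.inv j (T y) - V.inv j (T x) - D (V.inv i y - V.inv i x)) +
            D (V.inv i y - V.inv i x)‖ := by rw [sub_add_cancel]
      _ ≤ ‖V.inv j (T y) - V.inv j (T x) - D (V.inv i y - V.inv i x)‖ +
            ‖D (V.inv i y - V.inv i x)‖ := norm_add_le _ _
      _ ≤ ε * ‖V.inv i y - V.inv i x‖ + ‖D‖ * ‖V.inv i y - V.inv i x‖ :=
          add_le_add hd (D.le_opNorm _)
      _ = (‖D‖ + ε) * ‖V.inv i y - V.inv i x‖ := by ring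
  have h7 : dist (T y) (T x) ≤ V.K * dist (V.inv j (T y)) (V.inv j (T x)) := by
    have := (V.bilip j _ (inv_mem V hTy) _ (inv_mem V hTx)).2
    rwa [c_inv V hTy, c_inv V hTx] at this
  have h8 : dist (V.inv i y) (V.inv i x) ≤ V.K * dist y x := dist_inv_le V hy hx
  rw [← dist_eq_norm, ← dist_eq_norm] at h6
  have hDε : 0 ≤ ‖D‖ + ε := by positivity
  calc dist (T x) (T y) = dist (T y) (T x) := dist_comm _ _
    _ ≤ V.K * dist (V.inv j (T y)) (V.inv j (T x)) := h7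
    _ ≤ V.K * ((‖D‖ + ε) * dist (V.inv i y) (V.inv i x)) :=
        mul_le_mul_of_nonneg_left h6 hK.le
    _ ≤ V.K * ((‖D‖ + ε) * (V.K * dist y x)) :=
        mul_le_mul_of_nonneg_left (mul_le_mul_of_nonneg_left h8 hDε) hK.le
    _ = V.K ^ 2 * (‖D‖ + ε) * dist x y := by rw [dist_comm x y]; ring

theorem lipAt_le (V : VAtlas X lam d) {i j : Fin V.n} {T : X → X} {x : X}
    {D : EN d →L[ℝ] EN d} (h1 : V.HasCD i j T x D) :
    lipAt T x ≤ ENNReal.ofReal (V.K ^ 2 * ‖D‖) := by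
  have h2 : Tendsto (fun ε : ℝ => ENNReal.ofReal (V.K ^ 2 * (‖D‖ + ε))) (𝓝[>] 0)
      (𝓝 (ENNReal.ofReal (V.K ^ 2 * ‖D‖))) := by
    have h3 : Continuous fun ε : ℝ => ENNReal.ofReal (V.K ^ 2 * (‖D‖ + ε)) :=
      ENNReal.continuous_ofReal.comp (by fun_prop)
    have h4 := (h3.tendsto 0).mono_left (nhdsWithin_le_nhds (s := Ioi 0))
    simpa using h4
  refine ge_of_tendsto h2 ?_
  filter_upwards [self_mem_nhdsWithin] with ε hε
  have hε' : (0 : ℝ) < ε := hε
  exact lipAt_le_of_eventually (by positivity) (dil V h1 hε')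

end CD

/-- CD: chain rule and dilation for derivatives in charts -/
theorem p_CD : T_CD.{u} := by
  intro X _ _ _ lam d V
  exact ⟨fun i j k S T x D D' h1 h2 => CD.chain V h1 h2, fun i j S T x D h h1 => CD.congr V h h1,
    fun i j T x D D' h1 h2 => CD.uniq V h1 h2, fun i j T x D h1 => CD.lipAt_le V h1⟩

end

end Pool.Agent.SobEnt
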