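import Pool.Agent.SobEnt.Targets

/-!
# CDAE (MP_07df6b_an)

Lipschitz measure preserving injections are differentiable almost everywhere in the charts.
-/

open MeasureTheory Filter Topology Set Bundle
open scoped ENNReal NNReal Manifold ContDiff

universe u

namespace Pool.Agent.SobEnt

noncomputable section

namespace CDAE

variable {X : Type u} [MetricSpace X] [MeasurableSpace X] {lam : Measure X} {d : ℕ}

lemma injOn_c (V : VAtlas X lam d) (i : Fin V.n) : InjOn (V.c i) (V.dom i) := by
  intro x hx y hy hxy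
  have h := (V.bilip i x hx y hy).1
  rw [hxy, dist_self, mul_zero] at h
  exact dist_le_zero.mp h

lemma inv_mem (V : VAtlas X lam d) {i : Fin V.n} {x : X} (hx : x ∈ V.U i) :
    V.inv i x ∈ V.dom i := by
  obtain ⟨y, hy, hyx⟩ := hx
  exact Function.invFunOn_mem ⟨y, hy, hyx⟩

lemma c_inv (V : VAtlas X lam d) {i : Fin V.n} {x : X} (hx : x ∈ V.U i) :
    V.c i (V.inv i x) = x := by
  obtain ⟨y, hy, hyx⟩ := hx
  exact Function.invFunOn_eq ⟨y, hy, hyx⟩

lemma inv_c (V : VAtlas X lam d) {i : Fin V.n} {y : EN d} (hy : y ∈ V.dom i) :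
    V.inv i (V.c i y) = y := by
  have h : V.c i y ∈ V.U i := ⟨y, hy, rfl⟩
  exact injOn_c V i (inv_mem V h) hy (c_inv V h)

lemma K_pos (V : VAtlas X lam d) : 0 < V.K := lt_of_lt_of_le one_pos V.one_le_K

lemma continuousOn_c (V : VAtlas X lam d) (i : Fin V.n) : ContinuousOn (V.c i) (V.dom i) := by
  have : LipschitzOnWith (Real.toNNReal V.K) (V.c i) (V.dom i) := by
    refine LipschitzOnWith.of_dist_le_mul fun x hx y hy => ?_
    rw [Real.coe_toNNReal _ (K_pos V).le]
    exact (V.bilip i x hx y hy).2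
  exact this.continuousOn

/-- the map in the charts -/
def F (V : VAtlas X lam d) (T : X → X) (i j : Fin V.n) (y : EN d) : EN d :=
  V.inv j (T (V.c i y))

/-- the set on which the map is defined in the charts -/
def O (V : VAtlas X lam d) (T : X → X) (i j : Fin V.n) : Set (EN d) :=
  V.dom i ∩ (fun y => T (V.c i y)) ⁻¹' V.U j

lemma isOpen_U (V : VAtlas X lam d) (i : Fin V.n) : IsOpen (V.U i) :=
  V.isOpen_image i _ subset_rfl Metric.isOpen_ball

lemma isOpen_O (V : VAtlas X lam d) {T : X → X} (hT : Continuous T) (i j : Fin V.n) :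
    IsOpen (O V T i j) :=
  (hT.comp_continuousOn (continuousOn_c V i)).isOpen_inter_preimage Metric.isOpen_ball
    (isOpen_U V j)

lemma lipschitzOn_F (V : VAtlas X lam d) {T : X → X} {L : ℝ≥0} (hT : LipschitzWith L T)
    (i j : Fin V.n) :
    LipschitzOnWith (Real.toNNReal (V.K ^ 2 * L)) (F V T i j) (O V T i j) := by
  refine LipschitzOnWith.of_dist_le_mul fun x hx y hy => ?_
  have hK := K_pos V
  rw [Real.coe_toNNReal _ (by positivity)]
  have h1 := (V.bilip j _ (inv_mem V hx.2) _ (inv_mem V hy.2)).1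
  rw [c_inv V hx.2, c_inv V hy.2] at h1
  have h2 := hT.dist_le_mul (V.c i x) (V.c i y)
  have h3 := (V.bilip i x hx.1 y hy.1).2
  calc dist (F V T i j x) (F V T i j y) ≤ V.K * dist (T (V.c i x)) (T (V.c i y)) := h1
    _ ≤ V.K * (L * (V.K * dist x y)) := by gcongr; exact h2.trans (by gcongr)
    _ = V.K ^ 2 * L * dist x y := by ring

lemma injOn_F (V : VAtlas X lam d) {T : X → X} (hT : Function.Injective T) (i j : Fin V.n) :
    InjOn (F V T i j) (O V T i j) := by
  intro x hx y hy hxy
  have h : V.c j (V.inv j (T (V.c i x))) = V.c j (V.inv j (T (V.c i y))) := congrArg _ hxy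
  rw [c_inv V hx.2, c_inv V hy.2] at h
  exact injOn_c V i hx.1 hy.1 (hT h)

lemma image_F (V : VAtlas X lam d) {T : X → X} {i j : Fin V.n} {s : Set (EN d)}
    (hs : s ⊆ O V T i j) : V.c j '' (F V T i j '' s) = T '' (V.c i '' s) := by
  ext z
  constructor
  · rintro ⟨_, ⟨y, hy, rfl⟩, rfl⟩
    exact ⟨V.c i y, ⟨y, hy, rfl⟩, (c_inv V (hs hy).2).symm⟩
  · rintro ⟨_, ⟨y, hy, rfl⟩, rfl⟩
    exact ⟨F V T i j y, ⟨y, hy, rfl⟩, c_inv V (hs hy).2⟩

lemma F_image_sub (V : VAtlas X lam d) {T : X → X} {i j : Fin V.n} {s : Set (EN d)}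
    (hs : s ⊆ O V T i j) : F V T i j '' s ⊆ V.dom j := by
  rintro _ ⟨y, hy, rfl⟩
  exact inv_mem V (hs hy).2

/-- the measure of images under an injective measure preserving map -/
lemma measure_image [CompactSpace X] [BorelSpace X] {T : X → X} (hTc : Continuous T)
    (hTi : Function.Injective T) (hTm : MeasurePreserving T lam lam) {A : Set X}
    (hA : MeasurableSet A) : lam (T '' A) = lam A := by
  have h1 : MeasurableSet (T '' A) :=
    (hTc.isClosedEmbedding hTi).measurableEmbedding.measurableSet_image.mpr hA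
  rw [← hTm.measure_preimage h1.nullMeasurableSet, preimage_image_eq _ hTi]

lemma volume_image [CompactSpace X] [BorelSpace X] (V : VAtlas X lam d) {T : X → X}
    (hmeas : ∀ i, ∀ s ⊆ V.dom i, MeasurableSet s → MeasurableSet (V.c i '' s))
    (hTc : Continuous T) (hTi : Function.Injective T) (hTm : MeasurePreserving T lam lam)
    {L : ℝ≥0} (hTL : LipschitzWith L T)
    {i j : Fin V.n} {s : Set (EN d)} (hs : s ⊆ O V T i j) (hsm : MeasurableSet s) :
    volume (F V T i j '' s) = volume s := by
  have h1 : MeasurableSet (F V T i j '' s) :=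
    hsm.image_of_continuousOn_injOn ((lipschitzOn_F V hTL i j).continuousOn.mono hs)
      ((injOn_F V hTi i j).mono hs)
  have hsd : s ⊆ V.dom i := fun y hy => (hs hy).1
  rw [← V.vol j _ (F_image_sub V hs) h1, image_F V hs,
    measure_image hTc hTi hTm (hmeas i s hsd hsm), V.vol i s hsd hsm]

/-- the good points in the chart -/
lemma ae_good [CompactSpace X] [BorelSpace X] (V : VAtlas X lam d) {T : X → X}
    (hmeas : ∀ i, ∀ s ⊆ V.dom i, MeasurableSet s → MeasurableSet (V.c i '' s))
    (hTi : Function.Injective T) (hTm : MeasurePreserving T lam lam)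
    {L : ℝ≥0} (hTL : LipschitzWith L T) (i j : Fin V.n) :
    ∀ᵐ y ∂(volume : Measure (EN d)), y ∈ O V T i j →
      DifferentiableAt ℝ (F V T i j) y ∧ |(fderiv ℝ (F V T i j) y).det| = 1 := by
  have hTc : Continuous T := hTL.continuous
  have hO : IsOpen (O V T i j) := isOpen_O V hTc i j
  have hdiff : ∀ᵐ y ∂(volume : Measure (EN d)), y ∈ O V T i j →
      DifferentiableAt ℝ (F V T i j) y := by
    filter_upwards [(lipschitzOn_F V hTL i j).ae_differentiableWithinAt_of_mem
      (μ := (volume : Measure (EN d)))] with y hy hyO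
    exact (hy hyO).differentiableAt (hO.mem_nhds hyO)
  set A : Set (EN d) := O V T i j ∩ {y | DifferentiableAt ℝ (F V T i j) y} with hA
  have hAm : MeasurableSet A := hO.measurableSet.inter (measurableSet_of_differentiableAt ℝ _)
  have hdet : ∀ᵐ y ∂((volume : Measure (EN d)).restrict A),
      ENNReal.ofReal |(fderiv ℝ (F V T i j) y).det| = 1 := by
    refine ae_eq_of_forall_setLIntegral_eq_of_sigmaFinite ?_ measurable_const ?_
    · exact (ENNReal.measurable_ofReal.comp
        ((ContinuousLinearMap.continuous_det.measurable.comp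
          (measurable_fderiv ℝ (F V T i j))).norm))
    · intro s hs _
      rw [Measure.restrict_restrict hs]
      have h2 : s ∩ A ⊆ O V T i j := fun y hy => hy.2.1
      have h3 := lintegral_abs_det_fderiv_eq_addHaar_image (volume : Measure (EN d))
        (hs.inter hAm) (f := F V T i j) (f' := fun y => fderiv ℝ (F V T i j) y)
        (fun y hy => hy.2.2.hasFDerivAt.hasFDerivWithinAt) ((injOn_F V hTi i j).mono h2)
      rw [h3, volume_image V hmeas hTc hTi hTm hTL h2 (hs.inter hAm)]
      simp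
  rw [ae_restrict_iff' hAm] at hdet
  filter_upwards [hdiff, hdet] with y h1 h2 hyO
  refine ⟨h1 hyO, ?_⟩
  have h3 := h2 ⟨hyO, h1 hyO⟩
  have h4 : ENNReal.ofReal |(fderiv ℝ (F V T i j) y).det| = ENNReal.ofReal 1 := by
    rw [h3, ENNReal.ofReal_one]
  rwa [ENNReal.ofReal_eq_ofReal_iff (abs_nonneg _) zero_le_one] at h4

/-- null sets in the chart give null sets -/
lemma null_image (V : VAtlas X lam d) (i : Fin V.n) {N : Set (EN d)} (hN : N ⊆ V.dom i)
    (h0 : volume N = 0) : lam (V.c i '' N) = 0 := by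
  have h1 : N ⊆ toMeasurable volume N ∩ V.dom i :=
    subset_inter (subset_toMeasurable _ _) hN
  have h2 : volume (toMeasurable volume N ∩ V.dom i) = 0 :=
    measure_mono_null inter_subset_left (by rw [measure_toMeasurable, h0])
  have h3 := V.vol i (toMeasurable volume N ∩ V.dom i) inter_subset_right
    ((measurableSet_toMeasurable _ _).inter Metric.isOpen_ball.measurableSet)
  rw [h2] at h3
  exact measure_mono_null (image_mono h1) h3

end CDAE

open CDAE

theorem p_CDAE (h1 : T_VBAS.{u}) : T_CDAE.{u} := by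
  intro X _ _ _ _ lam d V idx hd hidx hU T L hTL hTi hTm
  obtain ⟨-, -, -, -, hmeas, -, -, hinvc⟩ := h1 X lam d V hd
  classical
  -- the derivative
  set inv' : Fin V.n → X → EN d := fun i x => if x ∈ V.U i then V.inv i x else 0 with hinv'
  have hinvm : ∀ i, Measurable (inv' i) := by
    intro i
    have := ContinuousOn.measurable_piecewise (s := V.U i) (f := V.inv i) (g := fun _ => 0)
      (hinvc i) continuousOn_const (isOpen_U V i).measurableSet
    exact this
  set G : (Fin V.n × Fin V.n) × X → (EN d →L[ℝ] EN d) := fun p =>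
    fderiv ℝ (F V T p.1.1 p.1.2) (inv' p.1.1 p.2) with hG
  have hGm : Measurable G := by
    refine measurable_from_prod_countable_right fun q => ?_
    exact (measurable_fderiv ℝ (F V T q.1 q.2)).comp (hinvm q.1)
  refine ⟨fun x => G ((idx x, idx (T x)), x), ?_, ?_⟩
  · exact hGm.comp ((hidx.prodMk (hidx.comp hTm.measurable)).prodMk measurable_id)
  · have hae : ∀ i j : Fin V.n, ∀ᵐ x ∂lam, idx x = i → idx (T x) = j →
        DifferentiableAt ℝ (F V T i j) (V.inv i x) ∧
          |(fderiv ℝ (F V T i j) (V.inv i x)).det| = 1 := by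
      intro i j
      have h2 := ae_good V hmeas hTi hTm hTL i j
      set N : Set (EN d) := {y | y ∈ V.dom i ∧ ¬ (y ∈ O V T i j →
        DifferentiableAt ℝ (F V T i j) y ∧ |(fderiv ℝ (F V T i j) y).det| = 1)} with hN
      have h3 : volume N = 0 := measure_mono_null (fun y hy => hy.2) (ae_iff.mp h2)
      have h4 : lam (V.c i '' N) = 0 := null_image V i (fun y hy => hy.1) h3
      rw [ae_iff]
      refine measure_mono_null (fun x hx => ?_) h4
      simp only [mem_ofPred_eq, Classical.not_imp] at hx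
      obtain ⟨hxi, hxj, hxb⟩ := hx
      have hxU : x ∈ V.U i := hxi ▸ hU x
      have hTU : T x ∈ V.U j := hxj ▸ hU (T x)
      refine ⟨V.inv i x, ⟨inv_mem V hxU, ?_⟩, c_inv V hxU⟩
      intro h5
      exact hxb (h5 ⟨inv_mem V hxU, by rw [mem_preimage, c_inv V hxU]; exact hTU⟩)
    have hall : ∀ᵐ x ∂lam, ∀ i j : Fin V.n, idx x = i → idx (T x) = j →
        DifferentiableAt ℝ (F V T i j) (V.inv i x) ∧
          |(fderiv ℝ (F V T i j) (V.inv i x)).det| = 1 :=
      ae_all_iff.mpr fun i => ae_all_iff.mpr fun j => hae i j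
    filter_upwards [hall] with x hx
    obtain ⟨h2, h3⟩ := hx _ _ rfl rfl
    have hxU : x ∈ V.U (idx x) := hU x
    have hTU : T x ∈ V.U (idx (T x)) := hU (T x)
    have h4 : G ((idx x, idx (T x)), x) =
        fderiv ℝ (F V T (idx x) (idx (T x))) (V.inv (idx x) x) := by
      simp only [hG, hinv']
      rw [if_pos hxU]
    rw [h4]
    have h5 : HasFDerivAt (F V T (idx x) (idx (T x)))
        (fderiv ℝ (F V T (idx x) (idx (T x))) (V.inv (idx x) x)) (V.inv (idx x) x) :=
      h2.hasFDerivAt
    refine ⟨⟨hxU, hTU, hTL.continuous.continuousAt, h5⟩, h3, ?_⟩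
    have hmem : V.inv (idx x) x ∈ O V T (idx x) (idx (T x)) :=
      ⟨inv_mem V hxU, by rw [mem_preimage, c_inv V hxU]; exact hTU⟩
    have h6 := h5.le_of_lipschitzOn
      ((isOpen_O V hTL.continuous (idx x) (idx (T x))).mem_nhds hmem)
      (lipschitzOn_F V hTL (idx x) (idx (T x)))
    rwa [Real.coe_toNNReal _ (by have := K_pos V; positivity)] at h6

end

end Pool.Agent.SobEnt
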