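import Pool.Agent.SobEnt.Targets2

/-!
# CFACT: measure estimates for the covering by chart balls (MP_07df6b_an)
-/

open MeasureTheory Filter Topology Set
open scoped ENNReal NNReal

universe u

namespace Pool.Agent.SobEnt

namespace CFACT

variable {X : Type u} [MetricSpace X] [MeasurableSpace X] {lam : Measure X} {d : ℕ}

theorem continuousOn_c (V : VAtlas X lam d) (i : Fin V.n) : ContinuousOn (V.c i) (V.dom i) := by
  have h : LipschitzOnWith (Real.toNNReal V.K) (V.c i) (V.dom i) := by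
    refine LipschitzOnWith.of_dist_le_mul fun x hx y hy => ?_
    rw [Real.coe_toNNReal _ (le_trans zero_le_one V.one_le_K)]
    exact (V.bilip i x hx y hy).2
  exact h.continuousOn

theorem isCompact_S {V : VAtlas X lam d} (b : CBall V) : IsCompact b.S :=
  (isCompact_closedBall b.p b.r).image_of_continuousOn
    ((continuousOn_c V b.i).mono b.sub)

theorem inner_sub {V : VAtlas X lam d} (b : CBall V) {κ : ℝ} (hκ : 0 ≤ κ) :
    Metric.ball b.p ((1 - κ) * b.r) ⊆ Metric.closedBall b.p b.r := by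
  refine Metric.ball_subset_closedBall.trans (Metric.closedBall_subset_closedBall ?_)
  nlinarith [b.pos]

theorem inner_subset_S {V : VAtlas X lam d} (b : CBall V) {κ : ℝ} (hκ : 0 ≤ κ) :
    b.inner κ ⊆ b.S := image_mono (inner_sub b hκ)

theorem isOpen_inner {V : VAtlas X lam d} (b : CBall V) {κ : ℝ} (hκ : 0 ≤ κ) :
    IsOpen (b.inner κ) :=
  V.isOpen_image b.i _ ((inner_sub b hκ).trans b.sub) Metric.isOpen_ball

theorem real_S {V : VAtlas X lam d} (b : CBall V) :
    lam.real b.S = b.r ^ d * (volume (Metric.ball (0 : EN d) 1)).toReal := by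
  unfold Measure.real CBall.S
  rw [V.vol b.i _ b.sub measurableSet_closedBall,
    Measure.addHaar_closedBall _ _ b.pos.le, ENNReal.toReal_mul,
    ENNReal.toReal_ofReal (pow_nonneg b.pos.le _)]
  simp

theorem real_inner (hd : 1 ≤ d) {V : VAtlas X lam d} (b : CBall V) {κ : ℝ} (hκ : 0 ≤ κ)
    (hκ1 : κ ≤ 1) :
    lam.real (b.inner κ) =
      ((1 - κ) * b.r) ^ d * (volume (Metric.ball (0 : EN d) 1)).toReal := by
  have h0 : 0 ≤ (1 - κ) * b.r := mul_nonneg (by linarith) b.pos.le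
  have : Nonempty (Fin d) := ⟨⟨0, hd⟩⟩
  unfold Measure.real CBall.inner
  rw [V.vol b.i _ ((inner_sub b hκ).trans b.sub) measurableSet_ball,
    Measure.addHaar_ball _ _ h0, ENNReal.toReal_mul,
    ENNReal.toReal_ofReal (pow_nonneg h0 _)]
  simp

theorem real_S_diff_inner [BorelSpace X] [IsFiniteMeasure lam] (hd : 1 ≤ d) {V : VAtlas X lam d}
    (b : CBall V) {κ : ℝ} (hκ : 0 ≤ κ) (hκ1 : κ ≤ 1) :
    lam.real (b.S \ b.inner κ) ≤ d * κ * lam.real b.S := by
  rw [measureReal_sdiff (inner_subset_S b hκ) (isOpen_inner b hκ).measurableSet,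
    real_S b, real_inner hd b hκ hκ1, mul_pow]
  have hB : 1 - d * κ ≤ (1 - κ) ^ d := by
    have := one_add_mul_le_pow (a := -κ) (by linarith) d
    calc 1 - d * κ = 1 + d * -κ := by ring
      _ ≤ (1 + -κ) ^ d := this
      _ = (1 - κ) ^ d := by ring
  have hv : 0 ≤ b.r ^ d * (volume (Metric.ball (0 : EN d) 1)).toReal :=
    mul_nonneg (pow_nonneg b.pos.le _) ENNReal.toReal_nonneg
  nlinarith

end CFACT

open CFACT

theorem p_CFACT (h1 : T_VBAS.{u}) : T_CFACT.{u} := by
  intro X _ _ _ _ lam d V hd m b r ℓ Z G κ κ₁ hdisj hZ hZd hG hGZ hκ hκ2 hκ₁ hκ₁2 hSG hZS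
  have : IsFiniteMeasure lam := ⟨(h1 X lam d V hd).1⟩
  have hScl : ∀ j, IsClosed (b j).S := fun j => (isCompact_S (b j)).isClosed
  have hSm : ∀ j, MeasurableSet (b j).S := fun j => (hScl j).measurableSet
  have hin : ∀ j, (b j).inner κ₁ ⊆ (b j).S := fun j => inner_subset_S (b j) hκ₁.le
  have hinm : ∀ j, MeasurableSet ((b j).inner κ₁) :=
    fun j => (isOpen_inner (b j) hκ₁.le).measurableSet
  -- total measure of the balls
  have hsum : ∑ j, lam.real (b j).S ≤ lam.real univ := by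
    rw [← measureReal_iUnion_fintype (fun i j hij => hdisj i j hij) hSm]
    exact measureReal_mono (subset_univ _)
  have hsumF : ∀ s : Finset (Fin m), ∑ j ∈ s, lam.real (b j).S ≤ lam.real univ := fun s =>
    (Finset.sum_le_univ_sum_of_nonneg fun j => measureReal_nonneg).trans hsum
  have hhalf : ∀ j, lam.real (b j).S ≤ 2 * lam.real ((b j).S ∩ G j) := by
    intro j
    have h := measureReal_inter_add_sdiff (μ := lam) (s := (b j).S) (hG j)
    have h2 := hSG j
    have h3 : 0 ≤ lam.real (b j).S := measureReal_nonneg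
    nlinarith
  have hhalfZ : ∀ j, lam.real (b j).S ≤ 2 * lam.real ((b j).S ∩ Z (ℓ j)) := by
    intro j
    refine (hhalf j).trans ?_
    have : lam.real ((b j).S ∩ G j) ≤ lam.real ((b j).S ∩ Z (ℓ j)) :=
      measureReal_mono (inter_subset_inter_right _ (hGZ j))
    linarith
  have hcol : ∀ l, ∑ j ∈ Finset.univ.filter (fun j => ℓ j = l), lam.real (b j).S ≤
      2 * lam.real (Z l) := by
    intro l
    have h1 : ∑ j ∈ Finset.univ.filter (fun j => ℓ j = l), lam.real (b j).S ≤
        ∑ j ∈ Finset.univ.filter (fun j => ℓ j = l), 2 * lam.real ((b j).S ∩ Z l) := by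
      refine Finset.sum_le_sum fun j hj => ?_
      have := (Finset.mem_filter.mp hj).2
      rw [← this]
      exact hhalfZ j
    refine h1.trans ?_
    rw [← Finset.mul_sum]
    have h2 : ∑ j ∈ Finset.univ.filter (fun j => ℓ j = l), lam.real ((b j).S ∩ Z l) =
        lam.real (⋃ j ∈ Finset.univ.filter (fun j => ℓ j = l), ((b j).S ∩ Z l)) := by
      rw [measureReal_biUnion_finset]
      · intro i _ j _ hij
        exact (hdisj i j hij).mono inter_subset_left inter_subset_left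
      · intro j _
        exact (hSm j).inter (hZ l)
    rw [h2]
    have h3 : lam.real (⋃ j ∈ Finset.univ.filter (fun j => ℓ j = l), ((b j).S ∩ Z l)) ≤
        lam.real (Z l) :=
      measureReal_mono (iUnion₂_subset fun j _ => inter_subset_right)
    linarith
  have hSGsum : ∀ s : Finset (Fin m), ∑ j ∈ s, lam.real ((b j).S \ G j) ≤
      κ * lam.real univ := by
    intro s
    calc ∑ j ∈ s, lam.real ((b j).S \ G j) ≤ ∑ j ∈ s, κ * lam.real (b j).S :=
          Finset.sum_le_sum fun j _ => hSG j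
      _ = κ * ∑ j ∈ s, lam.real (b j).S := by rw [Finset.mul_sum]
      _ ≤ κ * lam.real univ := mul_le_mul_of_nonneg_left (hsumF s) hκ.le
  have h8 : lam.real (⋃ j, ((b j).S \ G j)) ≤ κ * lam.real univ :=
    (measureReal_iUnion_fintype_le _).trans (hSGsum Finset.univ)
  refine ⟨isClosed_iUnion_of_finite hScl, hSm, hinm, hin, ?_, ?_, ?_, h8, ?_, ?_⟩
  · refine (measureReal_iUnion_fintype_le _).trans ?_
    rw [Finset.mul_sum]
    calc ∑ j, lam.real (b j).S
        = ∑ l, ∑ j ∈ Finset.univ.filter (fun j => ℓ j = l), lam.real (b j).S :=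
          (Finset.sum_fiberwise _ _ _).symm
      _ ≤ ∑ l, 2 * lam.real (Z l) := Finset.sum_le_sum fun l _ => hcol l
  · intro T _ hTZ
    refine le_trans (measureReal_mono ?_) h8
    rintro x ⟨hxT, hx⟩
    obtain ⟨j, hj⟩ := mem_iUnion.mp hx
    refine mem_iUnion.mpr ⟨j, hj, fun hxG => ?_⟩
    exact (Set.disjoint_left.mp (hTZ (ℓ j)) hxT) (hGZ j hxG)
  · intro l
    have hsub : Z l \ ⋃ j ∈ {j | ℓ j = l}, ((b j).S ∩ G j) ⊆
        (Z l \ ⋃ j ∈ {j | ℓ j = l}, (b j).S) ∪ ⋃ j, ((b j).S \ G j) := by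
      rintro x ⟨hxZ, hx⟩
      by_cases hxS : x ∈ ⋃ j ∈ {j | ℓ j = l}, (b j).S
      · right
        obtain ⟨j, hj, hxj⟩ := mem_iUnion₂.mp hxS
        refine mem_iUnion.mpr ⟨j, hxj, fun hxG => hx ?_⟩
        exact mem_iUnion₂.mpr ⟨j, hj, hxj, hxG⟩
      · exact Or.inl ⟨hxZ, hxS⟩
    calc lam.real (Z l \ ⋃ j ∈ {j | ℓ j = l}, ((b j).S ∩ G j))
        ≤ lam.real ((Z l \ ⋃ j ∈ {j | ℓ j = l}, (b j).S) ∪ ⋃ j, ((b j).S \ G j)) :=
          measureReal_mono hsub
      _ ≤ lam.real (Z l \ ⋃ j ∈ {j | ℓ j = l}, (b j).S) + lam.real (⋃ j, ((b j).S \ G j)) :=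
          measureReal_union_le _ _
      _ ≤ κ + κ * lam.real univ := add_le_add (hZS l) h8
      _ = κ * (1 + lam.real univ) := by ring
  · intro l
    have hsub : (⋃ j ∈ {j | ℓ j = l}, ((b j).S \ (b j).inner κ₁)) ⊆
        ⋃ j ∈ Finset.univ.filter (fun j => ℓ j = l), ((b j).S \ (b j).inner κ₁) := by
      intro x hx
      obtain ⟨j, hj, hxj⟩ := mem_iUnion₂.mp hx
      exact mem_iUnion₂.mpr ⟨j, Finset.mem_filter.mpr ⟨Finset.mem_univ _, hj⟩, hxj⟩
    calc lam.real (⋃ j ∈ {j | ℓ j = l}, ((b j).S \ (b j).inner κ₁))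
        ≤ lam.real (⋃ j ∈ Finset.univ.filter (fun j => ℓ j = l),
            ((b j).S \ (b j).inner κ₁)) := measureReal_mono hsub (measure_ne_top _ _)
      _ ≤ ∑ j ∈ Finset.univ.filter (fun j => ℓ j = l),
            lam.real ((b j).S \ (b j).inner κ₁) := measureReal_biUnion_finset_le _ _
      _ ≤ ∑ j ∈ Finset.univ.filter (fun j => ℓ j = l), d * κ₁ * lam.real (b j).S :=
          Finset.sum_le_sum fun j _ => real_S_diff_inner hd (b j) hκ₁.le (by linarith)
      _ = d * κ₁ * ∑ j ∈ Finset.univ.filter (fun j => ℓ j = l), lam.real (b j).S := by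
          rw [Finset.mul_sum]
      _ ≤ d * κ₁ * (2 * lam.real (Z l)) :=
          mul_le_mul_of_nonneg_left (hcol l) (by positivity)
      _ = 2 * d * κ₁ * lam.real (Z l) := by ring
  · rintro j x ⟨x', hx', rfl⟩ y ⟨y', hy', rfl⟩
    have h := (V.bilip (b j).i x' ((b j).sub hx') y' ((b j).sub hy')).2
    have h2 : dist x' y' ≤ 2 * (b j).r := by
      have := dist_triangle_right x' y' (b j).p
      have h3 := Metric.mem_closedBall.mp hx'
      have h4 := Metric.mem_closedBall.mp hy'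
      linarith
    have hK : 0 ≤ V.K := le_trans zero_le_one V.one_le_K
    calc dist (V.c (b j).i x') (V.c (b j).i y') ≤ V.K * dist x' y' := h
      _ ≤ V.K * (2 * (b j).r) := mul_le_mul_of_nonneg_left h2 hK
      _ = 2 * V.K * (b j).r := by ring

end Pool.Agent.SobEnt
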