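import Pool.Agent.SobEnt.Targets2

/-!
# CHAIN: the dilation of `(f ∘ φ)^(dM)` at a point with a good itinerary (MP_07df6b_an)
-/

open MeasureTheory Filter Topology Set Bundle
open scoped ENNReal NNReal Manifold ContDiff

universe u v w

namespace Pool.Agent.SobEnt

noncomputable section

/-- CHAIN: the dilation of `(f ∘ φ)^(dM)` at a point with a good itinerary -/
theorem p_CHAIN (h1 : T_LOC.{u}) (h2 : T_CD.{u}) : T_CHAIN.{u} := by
  intro X _ _ _ lam d V idx f φ M W x D R hf hφc hd hM hW hφ hx hit hD hR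
  obtain ⟨hchain, hcongr, -, hlip⟩ := h2 X lam d V
  have key : ∀ i < d, V.HasCD (idx x) (idx (f^[M] ((fun z => φ (f^[M] z))^[i] x)))
      (f^[M] ∘ (fun z => φ (f^[M] z))^[i]) x (chainL D R i) := by
    intro i
    induction i with
    | zero =>
      intro hi
      exact hD 0 hi
    | succ i ih =>
      intro hi
      have h3 := ih (by omega)
      have h4 := hchain _ _ _ φ _ x _ _ h3 (hR i hi)
      have h5 : (φ ∘ (f^[M] ∘ (fun z => φ (f^[M] z))^[i])) = (fun z => φ (f^[M] z))^[i + 1] := by
        funext z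
        rw [Function.iterate_succ_apply']
        rfl
      rw [h5] at h4
      exact hchain _ _ _ (f^[M]) _ x _ _ h4 (hD (i + 1) hi)
  have h6 := key (d - 1) (by omega)
  have h7 := h1 X f φ hf hφc d M W x hd hM hW hφ hx hit
  have h8 := hcongr _ _ ((fun z => f (φ z))^[d * M]) _ x _ h7 h6
  exact hlip _ _ _ _ _ h8

end

end Pool.Agent.SobEnt
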