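import Pool.Agent.SobEnt.Targets

/-!
# COCY: the derivative cocycle and its volume growth on consecutive blocks (MP_07df6b_an)
-/

open MeasureTheory Filter Topology Set Bundle
open scoped ENNReal NNReal Manifold ContDiff

universe u v w

namespace Pool.Agent.SobEnt

noncomputable section

namespace COCY

/-- the sum of the logarithms of the first entries is bounded -/
lemma abs_sum_log_le {d : ℕ} {Λ : ℝ} (hΛ : 1 ≤ Λ) {s : Fin d → ℝ} (hs : IsSV Λ s) (k : ℕ) :
    |∑ j ∈ Finset.univ.filter (fun j : Fin d => (j : ℕ) < k), Real.log (s j)| ≤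
      d * Real.log Λ := by
  have hlogΛ : 0 ≤ Real.log Λ := Real.log_nonneg hΛ
  have hle : ∀ j, Real.log (s j) ≤ Real.log Λ := fun j =>
    Real.log_le_log (hs.2.1 j).1 (hs.2.1 j).2
  have hup : ∀ t : Finset (Fin d), ∑ j ∈ t, Real.log (s j) ≤ d * Real.log Λ := by
    intro t
    calc ∑ j ∈ t, Real.log (s j) ≤ ∑ _j ∈ t, Real.log Λ := Finset.sum_le_sum fun j _ => hle j
      _ = t.card * Real.log Λ := by rw [Finset.sum_const, nsmul_eq_mul]
      _ ≤ d * Real.log Λ := by
          apply mul_le_mul_of_nonneg_right _ hlogΛ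
          have := Finset.card_le_univ t
          rw [Fintype.card_fin] at this
          exact_mod_cast this
  have htot : ∑ j, Real.log (s j) = 0 := by
    rw [← Real.log_prod (fun j _ => (hs.2.1 j).1.ne'), hs.2.2, Real.log_one]
  rw [abs_le]
  refine ⟨?_, hup _⟩
  have hsplit := Finset.sum_filter_add_sum_filter_not Finset.univ
    (fun j : Fin d => (j : ℕ) < k) (fun j => Real.log (s j))
  rw [htot] at hsplit
  have := hup (Finset.univ.filter (fun j : Fin d => ¬ (j : ℕ) < k))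
  linarith

/-- positivity and bound of the gauges -/
lemma gauge_bound (h4 : T_SVD) (h5 : T_LAB) {d : ℕ} (hd : 1 ≤ d)
    {Vk : ℕ → (EN d →L[ℝ] EN d) → ℝ} {C : ℝ} (hV : IsGauge d Vk C) :
    ∃ C' : ℝ, 0 < C' ∧ ∀ (Λ : ℝ) (D : EN d →L[ℝ] EN d), 1 ≤ Λ → |D.det| = 1 → ‖D‖ ≤ Λ →
      ∀ k ≤ d, 0 < Vk k D ∧ |Real.log (Vk k D)| ≤ C' + d * Real.log Λ := by
  obtain ⟨C', hC', hlab⟩ := h5 d Vk C hd hV
  refine ⟨C', hC', fun Λ D hΛ hdet hD k hk => ?_⟩
  obtain ⟨η, hη, hl⟩ := hlab Λ hΛ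
  obtain ⟨U, W, s, hs, hsvd⟩ := h4 d Λ η hΛ hη
  obtain ⟨n, hn⟩ := hsvd D hdet hD
  obtain ⟨hpos, hb⟩ := hl D (U n) (W n) (s n) (hs n) hn.le k hk
  refine ⟨hpos, ?_⟩
  have h1 := abs_sum_log_le hΛ (hs n) k
  rw [abs_le] at hb h1 ⊢
  constructor <;> linarith [hb.1, hb.2, h1.1, h1.2]

end COCY

open COCY in
theorem p_COCY (h1 : T_CD.{u}) (h2 : T_CDAE.{u}) (h3 : T_COMP.{u}) (h4 : T_SVD) (h5 : T_LAB)
    (h6 : T_VBAS.{u}) : T_COCY.{u} := by
  intro X _ _ _ _ lam d V idx hd hidx hU f L hf hinj hfm hL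
  have hfin : IsFiniteMeasure lam := ⟨(h6 X lam d V hd).1⟩
  obtain ⟨hchain, -, huniq, -⟩ := h1 X lam d V
  choose D hDm hD using fun M : ℕ =>
    h2 X lam d V idx hd hidx hU f^[M] (L ^ M) (hf.iterate M) (hinj.iterate M) (hfm.iterate M)
  have hbound : ∀ M, ∀ᵐ x ∂lam, V.HasCD (idx x) (idx (f^[M] x)) f^[M] x (D M x) ∧
      |(D M x).det| = 1 ∧ ‖D M x‖ ≤ V.K ^ 2 * L ^ M := by
    intro M
    filter_upwards [hD M] with x hx
    refine ⟨hx.1, hx.2.1, ?_⟩
    have := hx.2.2
    rwa [NNReal.coe_pow] at this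
  refine ⟨D, hDm, hbound, fun Vk C hV δ N₀ hδ => ?_⟩
  obtain ⟨C', hC', hg⟩ := gauge_bound h4 h5 hd hV
  have hK : (1 : ℝ) ≤ V.K := V.one_le_K
  have hLr : (1 : ℝ) ≤ L := by exact_mod_cast hL
  have hlogK : 0 ≤ Real.log V.K := Real.log_nonneg hK
  have hlogL : 0 ≤ Real.log L := Real.log_nonneg hLr
  have hlogC : 0 ≤ Real.log C := Real.log_nonneg hV.1
  have hΛ : ∀ n : ℕ, 1 ≤ V.K ^ 2 * (L : ℝ) ^ n := fun n =>
    one_le_mul_of_one_le_of_one_le (one_le_pow₀ hK) (one_le_pow₀ hLr)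
  have hlogΛ : ∀ n : ℕ, Real.log (V.K ^ 2 * (L : ℝ) ^ n) = 2 * Real.log V.K + n * Real.log L := by
    intro n
    rw [Real.log_mul (by positivity) (by positivity), Real.log_pow, Real.log_pow]
    norm_num
  have hgb : ∀ n, ∀ᵐ x ∂lam, ∀ k ≤ d, 0 < Vk k (D n x) ∧
      |Real.log (Vk k (D n x))| ≤ C' + d * (2 * Real.log V.K + n * Real.log L) := by
    intro n
    filter_upwards [hbound n] with x hx k hk
    have := hg _ (D n x) (hΛ n) hx.2.1 hx.2.2 k hk
    rwa [hlogΛ] at this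
  have hmeas : ∀ k n, Measurable fun x => Real.log (Vk k (D n x)) := fun k n =>
    Real.measurable_log.comp ((hV.2.1 k).measurable.comp (hDm n))
  let w : Fin (d + 1) → ℕ → X → ℝ := fun i n x => Real.log C + Real.log (Vk i (D n x))
  have hcomp := h3 X lam f hfm (d + 1) w
    (Real.log C + C' + d * (2 * Real.log V.K) + d * Real.log L) ?_ ?_ ?_ δ N₀ hδ
  · obtain ⟨M, hM₀, hM1, hM⟩ := hcomp
    refine ⟨M, hM₀, hM1, fun k hk => ?_⟩
    have hm2 : Measurable fun x => Real.log (Vk k (D M (f^[M] x))) :=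
      (hmeas k M).comp (hfm.iterate M).measurable
    have hb2 : ∀ᵐ x ∂lam, ∀ k ≤ d, 0 < Vk k (D M (f^[M] x)) ∧
      |Real.log (Vk k (D M (f^[M] x)))| ≤ C' + d * (2 * Real.log V.K + M * Real.log L) :=
      (hfm.iterate M).quasiMeasurePreserving.ae (hgb M)
    constructor
    · refine Integrable.sub ?_ ?_
      · refine Integrable.of_bound (hmeas k M).aestronglyMeasurable
          (C' + d * (2 * Real.log V.K + M * Real.log L)) ?_
        filter_upwards [hgb M] with x hx using (hx k hk).2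
      · refine Integrable.of_bound hm2.aestronglyMeasurable
          (C' + d * (2 * Real.log V.K + M * Real.log L)) ?_
        filter_upwards [hb2] with x hx using (hx k hk).2
    · have := hM ⟨k, by omega⟩
      refine le_trans (le_of_eq ?_) this
      refine integral_congr_ae (Eventually.of_forall fun x => ?_)
      simp only [w, add_sub_add_left_eq_sub]
  · intro i n
    exact (hmeas i n).const_add _
  · intro i n
    filter_upwards [hgb n] with x hx
    have h := (hx i (by omega)).2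
    simp only [w]
    have hn : (0 : ℝ) ≤ n := Nat.cast_nonneg n
    have hd0 : (0 : ℝ) ≤ d := Nat.cast_nonneg d
    calc |Real.log C + Real.log (Vk i (D n x))| ≤ |Real.log C| + |Real.log (Vk i (D n x))| :=
          abs_add_le _ _
      _ ≤ Real.log C + (C' + d * (2 * Real.log V.K + n * Real.log L)) := by
          rw [abs_of_nonneg hlogC]; linarith
      _ ≤ _ := by
          have e1 : 0 ≤ (Real.log C + C' + d * (2 * Real.log V.K)) * n := by positivity
          have e2 : 0 ≤ d * Real.log L := by positivity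
          nlinarith
  · intro i m n
    have hi : (i : ℕ) ≤ d := by omega
    have hn' : ∀ᵐ x ∂lam, V.HasCD (idx (f^[n] x)) (idx (f^[m] (f^[n] x))) f^[m] (f^[n] x)
        (D m (f^[n] x)) ∧ |(D m (f^[n] x)).det| = 1 ∧ ‖D m (f^[n] x)‖ ≤ V.K ^ 2 * L ^ m :=
      (hfm.iterate n).quasiMeasurePreserving.ae (hbound m)
    have hgb' : ∀ᵐ x ∂lam, ∀ k ≤ d, 0 < Vk k (D m (f^[n] x)) ∧
        |Real.log (Vk k (D m (f^[n] x)))| ≤ C' + d * (2 * Real.log V.K + m * Real.log L) :=
      (hfm.iterate n).quasiMeasurePreserving.ae (hgb m)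
    filter_upwards [hbound n, hbound (n + m), hn', hgb n, hgb (n + m), hgb'] with x a1 a2 a3 a4 a5 a6
    have e1 : f^[m] ∘ f^[n] = f^[n + m] := by
      rw [← Function.iterate_add, add_comm]
    have hc := hchain _ _ _ f^[m] f^[n] x _ _ a1.1 a3.1
    have e2 : f^[m] (f^[n] x) = f^[n + m] x := congrFun e1 x
    rw [e1, e2] at hc
    have heq := huniq _ _ _ _ _ _ a2.1 hc
    have hsub := hV.2.2.2.1 i (D m (f^[n] x)) (D n x)
    simp only [w]
    rw [heq]
    have p1 := (a4 i hi).1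
    have p2 := (a6 i hi).1
    have p3 := (a5 i hi).1
    rw [heq] at p3
    have hC0 : 0 < C := lt_of_lt_of_le one_pos hV.1
    have := Real.log_le_log p3 hsub
    rw [Real.log_mul (by positivity) p1.ne', Real.log_mul hC0.ne' p2.ne'] at this
    linarith

end

end Pool.Agent.SobEnt
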