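import Pool.Agent.SobEnt.Targets

/-!
# COMP: a subadditive process takes nearly the same value on consecutive long blocks
-/

open MeasureTheory Filter Topology Set
open scoped ENNReal NNReal

universe u

namespace Pool.Agent.SobEnt

namespace COMP

variable {X : Type u} [MeasurableSpace X] {μ : Measure X}

theorem memLp_bsum {T : X → X} (hT : MeasurePreserving T μ μ) {h : X → ℝ} (hh : MemLp h 2 μ)
    (m : ℕ) : MemLp (birkhoffSum T h m) 2 μ := by
  induction m with
  | zero => simp [birkhoffSum_zero']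
  | succ m ih =>
    have e : birkhoffSum T h (m + 1) = birkhoffSum T h m + h ∘ T^[m] := by
      funext x; simp [birkhoffSum_succ]
    rw [e]
    exact ih.add (hh.comp_measurePreserving (hT.iterate m))

theorem bsum_toLp {T : X → X} (hT : MeasurePreserving T μ μ) {h : X → ℝ} (hh : MemLp h 2 μ)
    (m : ℕ) :
    birkhoffSum (Lp.compMeasurePreserving (E := ℝ) (p := 2) T hT) id m (hh.toLp h) =
      (memLp_bsum hT hh m).toLp (birkhoffSum T h m) := by
  induction m with
  | zero =>
    rw [birkhoffSum_zero]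
    symm
    apply Lp.ext
    refine (MemLp.coeFn_toLp _).trans ?_
    refine (Filter.EventuallyEq.symm ?_)
    refine (Lp.coeFn_zero _ _ _).trans (ae_of_all _ fun x => ?_)
    simp [birkhoffSum_zero]
  | succ m ih =>
    have e : birkhoffSum T h (m + 1) = birkhoffSum T h m + h ∘ T^[m] := by
      funext x; simp [birkhoffSum_succ]
    rw [birkhoffSum_succ, ih, id, Lp.compMeasurePreserving_iterate,
      Lp.toLp_compMeasurePreserving, ← MemLp.toLp_add]
    congr 1
    exact e.symm

/-- the integral of the absolute value in terms of the norm in `L²` -/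
theorem integral_abs_le [IsFiniteMeasure μ] {F : X → ℝ} (hF : MemLp F 2 μ) :
    ∫ x, |F x| ∂μ ≤ ‖hF.toLp F‖ * (μ univ ^ (1 / (1 : ℝ≥0∞).toReal - 1 / (2 : ℝ≥0∞).toReal)).toReal := by
  have h1 := eLpNorm_le_eLpNorm_mul_rpow_measure_univ (μ := μ) (f := F) (p := 1) (q := 2)
    (by norm_num) hF.1
  have hfin : eLpNorm F 2 μ * μ univ ^ (1 / (1 : ℝ≥0∞).toReal - 1 / (2 : ℝ≥0∞).toReal) ≠ ⊤ := by
    apply ENNReal.mul_ne_top hF.2.ne
    apply ENNReal.rpow_ne_top_of_nonneg
    · norm_num
    · exact measure_ne_top μ univ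
  have h2 := ENNReal.toReal_mono hfin h1
  rw [ENNReal.toReal_mul] at h2
  rw [Lp.norm_toLp]
  refine le_trans (le_of_eq ?_) h2
  rw [eLpNorm_one_eq_lintegral_enorm, ← integral_norm_eq_lintegral_enorm hF.1]
  rfl

/-- the averages of `h` over two consecutive long blocks nearly agree -/
theorem tendsto_blocks [IsFiniteMeasure μ] {T : X → X} (hT : MeasurePreserving T μ μ) {h : X → ℝ}
    (hh : MemLp h 2 μ) :
    Tendsto (fun m : ℕ => (m : ℝ)⁻¹ *
      ∫ x, |birkhoffSum T h m x - birkhoffSum T h m (T^[m] x)| ∂μ) atTop (𝓝 0) := by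
  set V := Lp.compMeasurePreserving (E := ℝ) (p := 2) T hT with hV
  set U : Lp ℝ 2 μ →L[ℝ] Lp ℝ 2 μ :=
    (Lp.compMeasurePreservingₗᵢ ℝ T hT).toContinuousLinearMap with hU
  have hUV : ∀ y, U y = V y := fun y => rfl
  have hfun : (⇑U : Lp ℝ 2 μ → Lp ℝ 2 μ) = ⇑V := funext hUV
  have hn : ‖U‖ ≤ 1 := LinearIsometry.norm_toContinuousLinearMap_le _
  have hlim := U.tendsto_birkhoffAverage_orthogonalProjection hn (hh.toLp h)
  set g := hh.toLp h with hg
  set A : ℕ → Lp ℝ 2 μ := fun m => birkhoffAverage ℝ U id m g with hA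
  obtain ⟨P, hlim'⟩ : ∃ P, Tendsto A atTop (𝓝 P) := ⟨_, hlim⟩
  have hB : ∀ m, birkhoffSum U id m g = (memLp_bsum hT hh m).toLp (birkhoffSum T h m) := by
    intro m; rw [hfun]; exact bsum_toLp hT hh m
  have hd : ∀ m : ℕ, MemLp (fun x => birkhoffSum T h m x - birkhoffSum T h m (T^[m] x)) 2 μ :=
    fun m => (memLp_bsum hT hh m).sub ((memLp_bsum hT hh m).comp_measurePreserving (hT.iterate m))
  have hdd : ∀ m : ℕ, (hd m).toLp _ = birkhoffSum U id m g - U^[m] (birkhoffSum U id m g) := by
    intro m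
    rw [hB, hfun, hV, Lp.compMeasurePreserving_iterate, Lp.toLp_compMeasurePreserving,
      ← MemLp.toLp_sub]
    rfl
  -- U^[m] is additive
  have hsum2 : ∀ m : ℕ, birkhoffSum U id (m + m) g =
      birkhoffSum U id m g + U^[m] (birkhoffSum U id m g) := by
    intro m
    rw [birkhoffSum_add]
    congr 1
    have : ∀ n : ℕ, U^[n] (birkhoffSum U id m g) = birkhoffSum U id m (U^[n] g) := by
      intro n
      induction n with
      | zero => rfl
      | succ n ih =>
        rw [Function.iterate_succ_apply', ih, Function.iterate_succ_apply']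
        simp only [birkhoffSum, id, map_sum]
        refine Finset.sum_congr rfl fun k _ => ?_
        exact (Function.Commute.self_iterate U k).eq _
    exact (this m).symm
  have hkey : ∀ m : ℕ, 1 ≤ m → (m : ℝ)⁻¹ • ((hd m).toLp _ : Lp ℝ 2 μ) = (2 : ℝ) • (A m - A (m + m)) := by
    intro m hm
    have hm0 : (m : ℝ) ≠ 0 := by positivity
    rw [hdd]
    have e1 : U^[m] (birkhoffSum U id m g) = birkhoffSum U id (m + m) g - birkhoffSum U id m g := by
      rw [hsum2]; abel
    rw [e1]
    simp only [hA, birkhoffAverage]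
    have e2 : (2 : ℝ) • (((m + m : ℕ) : ℝ)⁻¹ • birkhoffSum U id (m + m) g) =
        (m : ℝ)⁻¹ • birkhoffSum U id (m + m) g := by
      rw [smul_smul]
      congr 1
      push_cast; field_simp; ring
    rw [smul_sub, smul_sub, smul_sub, e2, two_smul]
    abel
  have hA2 : Tendsto (fun m : ℕ => ‖(2 : ℝ) • (A m - A (m + m))‖) atTop (𝓝 0) := by
    have h2 : Tendsto (fun m : ℕ => A (m + m)) atTop (𝓝 P) :=
      hlim'.comp (tendsto_atTop_mono (fun m => Nat.le_add_left m m) tendsto_id)
    have := ((hlim'.sub h2).const_smul (2 : ℝ)).norm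
    simpa using this
  set c := (μ univ ^ (1 / (1 : ℝ≥0∞).toReal - 1 / (2 : ℝ≥0∞).toReal)).toReal with hc
  have hfinal : Tendsto (fun m : ℕ => ‖(2 : ℝ) • (A m - A (m + m))‖ * c) atTop (𝓝 0) := by
    simpa using hA2.mul_const c
  refine squeeze_zero' (Eventually.of_forall fun m => ?_) ?_ hfinal
  · exact mul_nonneg (by positivity) (integral_nonneg fun x => abs_nonneg _)
  · filter_upwards [eventually_ge_atTop 1] with m hm
    have h1 := integral_abs_le (hd m)
    rw [← hkey m hm, norm_smul, norm_inv, Real.norm_natCast, mul_assoc]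
    exact mul_le_mul_of_nonneg_left h1 (by positivity)

end COMP

theorem p_COMP : T_COMP.{u} := by
  intro X _ μ _ f hf r w C hmeas hbd hsub δ N₀ hδ
  -- basic facts
  have hbd' : ∀ i n, ∀ᵐ x ∂μ, |w i n x| ≤ |C| * (n + 1) := by
    intro i n
    filter_upwards [hbd i n] with x hx
    exact hx.trans (mul_le_mul_of_nonneg_right (le_abs_self C) (by positivity))
  have hmem : ∀ i n, MemLp (w i n) 2 μ := by
    intro i n
    refine MemLp.of_bound (hmeas i n).aestronglyMeasurable (|C| * (n + 1)) ?_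
    filter_upwards [hbd' i n] with x hx using hx
  have hint : ∀ i n, Integrable (w i n) μ := fun i n => (hmem i n).integrable (by norm_num)
  have hint' : ∀ i n m, Integrable (fun x => w i m (f^[n] x)) μ := fun i n m =>
    (((hmem i m).comp_measurePreserving (hf.iterate n)).integrable (by norm_num))
  set a : Fin r → ℕ → ℝ := fun i n => ∫ x, w i n x ∂μ with ha
  have hpush : ∀ (n : ℕ) (h : X → ℝ), Measurable h → ∫ x, h (f^[n] x) ∂μ = ∫ x, h x ∂μ := by
    intro n h hh
    have h1 := integral_map (hf.iterate n).measurable.aemeasurable (μ := μ)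
      (f := h) (hh.aestronglyMeasurable)
    rw [(hf.iterate n).map_eq] at h1
    exact h1.symm
  have hcomp : ∀ i n m, ∫ x, w i m (f^[n] x) ∂μ = a i m := fun i n m => hpush n _ (hmeas i m)
  have hsa : ∀ i, Subadditive (a i) := by
    intro i n m
    have h1 : ∫ x, w i (n + m) x ∂μ ≤ ∫ x, (w i n x + w i m (f^[n] x)) ∂μ :=
      integral_mono_ae (hint i _) ((hint i n).add (hint' i n m)) (hsub i m n)
    rw [integral_add (hint i n) (hint' i n m), hcomp] at h1
    exact h1
  have hbb : ∀ i, BddBelow (range fun n : ℕ => a i n / n) := by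
    intro i
    refine ⟨-(2 * |C| * μ.real univ), ?_⟩
    rintro _ ⟨n, rfl⟩
    rcases Nat.eq_zero_or_pos n with rfl | hn
    · simp only [Nat.cast_zero, div_zero, Left.neg_nonpos_iff]
      positivity
    · have hn' : (1 : ℝ) ≤ n := by exact_mod_cast hn
      have h1 : ∫ x, -(|C| * (n + 1)) ∂μ ≤ ∫ x, w i n x ∂μ := by
        refine integral_mono_ae (integrable_const _) (hint i n) ?_
        filter_upwards [hbd' i n] with x hx
        exact neg_le_of_abs_le hx
      rw [integral_const, smul_eq_mul] at h1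
      show _ ≤ a i n / n
      rw [le_div_iff₀ (by linarith)]
      refine le_trans ?_ h1
      have h2 : (0 : ℝ) ≤ μ.real univ * |C| := by positivity
      nlinarith
  have hlim : ∀ i, Tendsto (fun n : ℕ => a i n / n) atTop (𝓝 (hsa i).lim) :=
    fun i => (hsa i).tendsto_lim (hbb i)
  have hle : ∀ i (n : ℕ), n ≠ 0 → (hsa i).lim ≤ a i n / n :=
    fun i n hn => (hsa i).lim_le_div (hbb i) hn
  -- choice of N
  have hδ3 : 0 < δ / 3 := by linarith
  obtain ⟨N, hN1, hN⟩ : ∃ N : ℕ, 1 ≤ N ∧ ∀ i, a i N / N < (hsa i).lim + δ / 3 := by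
    have h1 : ∀ᶠ n : ℕ in atTop, ∀ i, a i n / n < (hsa i).lim + δ / 3 := by
      rw [eventually_all]
      intro i
      exact (hlim i).eventually_lt_const (by linarith)
    obtain ⟨N, h, h'⟩ := ((eventually_ge_atTop 1).and h1).exists
    exact ⟨N, h, h'⟩
  have hN0 : (0 : ℝ) < N := by exact_mod_cast hN1
  -- choice of m
  obtain ⟨m, hm1, hmN, hm⟩ : ∃ m : ℕ, 1 ≤ m ∧ N₀ ≤ m ∧ ∀ i, (m : ℝ)⁻¹ *
      ∫ x, |birkhoffSum f^[N] (w i N) m x - birkhoffSum f^[N] (w i N) m ((f^[N])^[m] x)| ∂μ <
        δ / 3 := by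
    have h1 : ∀ᶠ m : ℕ in atTop, ∀ i, (m : ℝ)⁻¹ *
        ∫ x, |birkhoffSum f^[N] (w i N) m x - birkhoffSum f^[N] (w i N) m ((f^[N])^[m] x)| ∂μ <
        δ / 3 := by
      rw [eventually_all]
      intro i
      exact (COMP.tendsto_blocks (hf.iterate N) (hmem i N)).eventually_lt_const hδ3
    obtain ⟨m, h, h', h''⟩ := ((eventually_ge_atTop 1).and ((eventually_ge_atTop N₀).and h1)).exists
    exact ⟨m, h, h', h''⟩
  have hm0 : (0 : ℝ) < m := by exact_mod_cast hm1
  refine ⟨N * m, ?_, Nat.mul_pos hN1 hm1, ?_⟩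
  · exact hmN.trans (Nat.le_mul_of_pos_left m hN1)
  intro i
  set S : X → ℝ := birkhoffSum f^[N] (w i N) m with hS
  have hSmem : MemLp S 2 μ := COMP.memLp_bsum (hf.iterate N) (hmem i N) m
  have hSint : Integrable S μ := hSmem.integrable (by norm_num)
  have hSmeas : Measurable S := by
    rw [hS]
    unfold birkhoffSum
    exact Finset.measurable_sum _ fun k _ =>
      (hmeas i N).comp ((hf.iterate N).iterate k).measurable
  -- domination
  have hdom : ∀ k : ℕ, ∀ᵐ x ∂μ, w i (N * (k + 1)) x ≤ birkhoffSum f^[N] (w i N) (k + 1) x := by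
    intro k
    induction k with
    | zero => exact ae_of_all _ fun x => by simp [birkhoffSum_one]
    | succ k ih =>
      filter_upwards [ih, hsub i N (N * (k + 1))] with x h1 h2
      rw [birkhoffSum_succ]
      have e : N * (k + 1 + 1) = N * (k + 1) + N := by ring
      rw [e]
      refine h2.trans ?_
      rw [← Function.iterate_mul]
      linarith
  have hdom' : ∀ᵐ x ∂μ, w i (N * m) x ≤ S x := by
    obtain ⟨k, rfl⟩ : ∃ k, m = k + 1 := ⟨m - 1, by omega⟩
    exact hdom k
  have hSi : ∫ x, S x ∂μ = m * a i N := by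
    rw [hS]
    unfold birkhoffSum
    rw [integral_finsetSum]
    · have : ∀ k ∈ Finset.range m, ∫ x, w i N ((f^[N])^[k] x) ∂μ = a i N := by
        intro k _
        rw [← Function.iterate_mul]
        exact hcomp i _ _
      rw [Finset.sum_congr rfl this, Finset.sum_const, Finset.card_range, nsmul_eq_mul]
    · intro k _
      rw [← Function.iterate_mul]
      exact hint' i _ _
  -- first estimate
  have hest : ∫ x, |S x - w i (N * m) x| ∂μ ≤ δ / 3 * (N * m) := by
    have h1 : ∫ x, |S x - w i (N * m) x| ∂μ = ∫ x, (S x - w i (N * m) x) ∂μ := by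
      refine integral_congr_ae ?_
      filter_upwards [hdom'] with x hx
      exact abs_of_nonneg (by linarith)
    rw [h1, integral_sub hSint (hint i _), hSi]
    have h2 := hle i (N * m) (by positivity)
    rw [le_div_iff₀ (by positivity)] at h2
    have h3 := (hN i).le
    rw [div_le_iff₀ hN0] at h3
    push_cast at h2
    have h4 : (m : ℝ) * a i N ≤ m * (((hsa i).lim + δ / 3) * N) :=
      mul_le_mul_of_nonneg_left h3 hm0.le
    show (m : ℝ) * a i N - a i (N * m) ≤ _
    nlinarith
  have hest2 : ∫ x, |S (f^[N * m] x) - w i (N * m) (f^[N * m] x)| ∂μ ≤ δ / 3 * (N * m) := by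
    rw [hpush (N * m) (fun x => |S x - w i (N * m) x|)
      ((hSmeas.sub (hmeas i _)).abs)]
    exact hest
  have hest3 : ∫ x, |S x - S (f^[N * m] x)| ∂μ ≤ δ / 3 * m := by
    have h1 := (hm i).le
    rw [← Function.iterate_mul, inv_mul_le_iff₀ hm0] at h1
    linarith
  have hi1 : Integrable (fun x => |S x - w i (N * m) x|) μ := (hSint.sub (hint i _)).abs
  have hSc : Integrable (fun x => S (f^[N * m] x)) μ :=
    (hSmem.comp_measurePreserving (hf.iterate (N * m))).integrable (by norm_num)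
  have hi2 : Integrable (fun x => |S (f^[N * m] x) - w i (N * m) (f^[N * m] x)|) μ :=
    (hSc.sub (hint' i _ _)).abs
  have hi3 : Integrable (fun x => |S x - S (f^[N * m] x)|) μ := (hSint.sub hSc).abs
  have hfin : ∫ x, |w i (N * m) x - w i (N * m) (f^[N * m] x)| ∂μ ≤
      ∫ x, (|S x - w i (N * m) x| + (|S x - S (f^[N * m] x)| +
        |S (f^[N * m] x) - w i (N * m) (f^[N * m] x)|)) ∂μ := by
    refine integral_mono ((hint i _).sub (hint' i _ _)).abs (hi1.add (hi3.add hi2)) fun x => ?_
    show |w i (N * m) x - w i (N * m) (f^[N * m] x)| ≤ |S x - w i (N * m) x| +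
      (|S x - S (f^[N * m] x)| + |S (f^[N * m] x) - w i (N * m) (f^[N * m] x)|)
    have e : w i (N * m) x - w i (N * m) (f^[N * m] x) =
      -(S x - w i (N * m) x) + ((S x - S (f^[N * m] x)) +
        (S (f^[N * m] x) - w i (N * m) (f^[N * m] x))) := by ring
    rw [e]
    refine (abs_add_le _ _).trans ?_
    rw [abs_neg]
    exact add_le_add_right (abs_add_le _ _) _
  have e6 : ∫ x, (|S x - w i (N * m) x| + (|S x - S (f^[N * m] x)| +
        |S (f^[N * m] x) - w i (N * m) (f^[N * m] x)|)) ∂μ =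
      ∫ x, |S x - w i (N * m) x| ∂μ + (∫ x, |S x - S (f^[N * m] x)| ∂μ +
        ∫ x, |S (f^[N * m] x) - w i (N * m) (f^[N * m] x)| ∂μ) := by
    rw [← integral_add hi3 hi2]
    exact integral_add hi1 (hi3.add hi2)
  rw [e6] at hfin
  have hN1' : (1 : ℝ) ≤ N := by exact_mod_cast hN1
  have h5 : δ / 3 * (m : ℝ) ≤ δ / 3 * (N * m) := by
    apply mul_le_mul_of_nonneg_left _ hδ3.le
    nlinarith
  push_cast
  linarith

end Pool.Agent.SobEnt
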