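import Pool.Agent.SobEnt.EntLib

/-!
# CONT: continuity of the entropy of finite joins (MP_07df6b_an)
-/

open MeasureTheory Filter Topology Set
open scoped ENNReal NNReal

universe u v w

namespace Pool.Agent.SobEnt

namespace CONT

open EntLib

lemma iter_close {X : Type*} [MetricSpace X] [CompactSpace X] (f : X → X) (hf : Continuous f)
    (i : ℕ) : ∀ c : ℝ, 0 < c → ∃ δ : ℝ, 0 < δ ∧ ∀ g : X → X, (∀ x, dist (g x) (f x) < δ) →
      ∀ x, dist (g^[i] x) (f^[i] x) < c := by
  induction i with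
  | zero => intro c hc; exact ⟨1, one_pos, fun g _ x => by simpa using hc⟩
  | succ i ih =>
    intro c hc
    have huc := CompactSpace.uniformContinuous_of_continuous hf
    rw [Metric.uniformContinuous_iff] at huc
    obtain ⟨c', hc', h1⟩ := huc (c / 2) (by positivity)
    obtain ⟨δ, hδ, h2⟩ := ih c' hc'
    refine ⟨min δ (c / 2), by positivity, fun g hg x => ?_⟩
    have h3 := h2 g (fun x => (hg x).trans_le (min_le_left _ _)) x
    have h4 := h1 h3
    have h5 := (hg (g^[i] x)).trans_le (min_le_right _ _)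
    rw [Function.iterate_succ_apply', Function.iterate_succ_apply']
    calc dist (g (g^[i] x)) (f (f^[i] x)) ≤ dist (g (g^[i] x)) (f (g^[i] x)) +
          dist (f (g^[i] x)) (f (f^[i] x)) := dist_triangle _ _ _
      _ < c / 2 + c / 2 := add_lt_add h5 h4
      _ = c := by ring

lemma iter_close_all {X : Type*} [MetricSpace X] [CompactSpace X] (f : X → X)
    (hf : Continuous f) (n : ℕ) (c : ℝ) (hc : 0 < c) : ∃ δ : ℝ, 0 < δ ∧ ∀ g : X → X,
      (∀ x, dist (g x) (f x) < δ) → ∀ i < n, ∀ x, dist (g^[i] x) (f^[i] x) < c := by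
  induction n with
  | zero => exact ⟨1, one_pos, fun g _ i hi => absurd hi (Nat.not_lt_zero i)⟩
  | succ n ih =>
    obtain ⟨δ, hδ, h⟩ := ih
    obtain ⟨δ', hδ', h'⟩ := iter_close f hf n c hc
    refine ⟨min δ δ', by positivity, fun g hg i hi x => ?_⟩
    rcases Nat.lt_succ_iff_lt_or_eq.1 hi with h1 | h1
    · exact h g (fun x => (hg x).trans_le (min_le_left _ _)) i h1 x
    · subst h1
      exact h' g (fun x => (hg x).trans_le (min_le_right _ _)) x

end CONT

open EntLib CONT in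
theorem p_CONT : T_CONT.{u} := by
  intro X _ _ _ _ μ _ f hf hfμ k P hPm n ε hε
  have hP : FM P := FM.of_measurable hPm
  obtain ⟨η, hη, hclose⟩ := Hp_close (α := Fin n → Fin k) μ ε hε
  obtain ⟨K, c, hKm, hc, hKc, hK⟩ := exists_cores μ hPm (η / (2 * n + 1)) (by positivity)
  obtain ⟨δ, hδ, hiter⟩ := iter_close_all f hf n c hc
  refine ⟨δ, hδ, fun g hgμ hg => ?_⟩
  apply hclose _ _ (hP.itin hgμ.measurable n) (hP.itin hfμ.measurable n)
  have h1 : {x | itin g P n x ≠ itin f P n x} ⊆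
      ⋃ i ∈ Finset.range n, ((f^[i] ⁻¹' Kᶜ) ∪ (g^[i] ⁻¹' Kᶜ)) := by
    intro x hx
    by_contra hcon
    apply hx
    funext i
    simp only [mem_iUnion, mem_union, mem_preimage, not_exists, not_or, mem_compl_iff,
      not_not] at hcon
    obtain ⟨h2, h3⟩ := hcon i (Finset.mem_range.2 i.2)
    exact hK _ h3 _ h2 (hiter g hg i i.2 x).le
  have h2 : ∀ g : X → X, MeasurePreserving g μ μ → ∀ i, μ.real (g^[i] ⁻¹' Kᶜ) = μ.real Kᶜ := by
    intro g hg i
    rw [measureReal_def, measureReal_def,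
      (hg.iterate i).measure_preimage hKm.compl.nullMeasurableSet]
  calc μ.real {x | itin g P n x ≠ itin f P n x}
      ≤ μ.real (⋃ i ∈ Finset.range n, ((f^[i] ⁻¹' Kᶜ) ∪ (g^[i] ⁻¹' Kᶜ))) :=
        measureReal_mono h1 (measure_ne_top _ _)
    _ ≤ ∑ i ∈ Finset.range n, μ.real ((f^[i] ⁻¹' Kᶜ) ∪ (g^[i] ⁻¹' Kᶜ)) :=
        measureReal_biUnion_finset_le _ _
    _ ≤ ∑ i ∈ Finset.range n, (2 * μ.real Kᶜ) := by
        refine Finset.sum_le_sum fun i _ => ?_
        refine (measureReal_union_le _ _).trans ?_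
        rw [h2 f hfμ i, h2 g hgμ i]
        linarith
    _ = n * (2 * μ.real Kᶜ) := by simp
    _ ≤ n * (2 * (η / (2 * n + 1))) := by gcongr
    _ ≤ η := by
        have h3 : (0 : ℝ) < 2 * n + 1 := by positivity
        have e : (n : ℝ) * (2 * (η / (2 * n + 1))) = (2 * n * η) / (2 * n + 1) := by ring
        rw [e, div_le_iff₀ h3]
        nlinarith

end Pool.Agent.SobEnt
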