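import Pool.Agent.SobEnt.Targets

/-!
# COV: covering most of the sets `Z l` by small chart balls (MP_07df6b_an)
-/

open MeasureTheory Filter Topology Set
open scoped ENNReal NNReal

universe u

namespace Pool.Agent.SobEnt

namespace COV

variable {d : ℕ}

/-- points of density give small closed balls -/
lemma density (L G : Set (EN d)) (hL : MeasurableSet L) (hG : IsOpen G) (hLG : L ⊆ G)
    (κ ρ : ℝ) (hκ : 0 < κ) (hρ : 0 < ρ) (x : EN d) (hx : x ∈ L)
    (hd : Tendsto (fun r => volume (L ∩ Metric.closedBall x r) / volume (Metric.closedBall x r))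
      (𝓝[>] 0) (𝓝 1)) (δ : ℝ) (hδ : 0 < δ) :
    ({r : ℝ | r ≤ ρ ∧ Metric.closedBall x r ⊆ G ∧
      volume (Metric.closedBall x r \ L) ≤ ENNReal.ofReal κ * volume (Metric.closedBall x r)} ∩
        Ioo 0 δ).Nonempty := by
  have h1 : ∀ᶠ r in 𝓝[>] (0 : ℝ), r ∈ Ioo 0 (min δ ρ) := Ioo_mem_nhdsGT (lt_min hδ hρ)
  have h2 : ∀ᶠ r in 𝓝[>] (0 : ℝ), Metric.closedBall x r ⊆ G := by
    obtain ⟨ε, hε, hεG⟩ := Metric.isOpen_iff.mp hG x (hLG hx)
    have : ∀ᶠ r in 𝓝[>] (0 : ℝ), r ∈ Ioo 0 ε := Ioo_mem_nhdsGT hε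
    filter_upwards [this] with r hr
    exact (Metric.closedBall_subset_ball hr.2).trans hεG
  have h3 : ∀ᶠ r in 𝓝[>] (0 : ℝ), 1 - ENNReal.ofReal κ <
      volume (L ∩ Metric.closedBall x r) / volume (Metric.closedBall x r) := by
    refine hd.eventually (lt_mem_nhds ?_)
    exact ENNReal.sub_lt_self ENNReal.one_ne_top one_ne_zero (by simpa using hκ)
  obtain ⟨r, hr1, hr2, hr3⟩ := (h1.and (h2.and h3)).exists
  refine ⟨r, ⟨(hr1.2.trans_le (min_le_right _ _)).le, hr2, ?_⟩, hr1.1,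
    hr1.2.trans_le (min_le_left _ _)⟩
  set B := Metric.closedBall x r with hB
  have hBfin : volume B ≠ ⊤ := Metric.isBounded_closedBall.measure_lt_top.ne
  have hB0 : volume B ≠ 0 := (Metric.measure_closedBall_pos volume x hr1.1).ne'
  have h4 : (1 - ENNReal.ofReal κ) * volume B ≤ volume (L ∩ B) :=
    ((ENNReal.lt_div_iff_mul_lt (Or.inl hB0) (Or.inl hBfin)).mp hr3).le
  have h5 : volume (B \ L) + volume (L ∩ B) = volume B := by
    rw [inter_comm]
    have := measure_inter_add_sdiff B hL (μ := volume)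
    rw [add_comm]; exact this
  have h6 : volume (L ∩ B) ≠ ⊤ := measure_ne_top_of_subset inter_subset_right hBfin
  have h7 : volume B ≤ (1 - ENNReal.ofReal κ) * volume B + ENNReal.ofReal κ * volume B := by
    rw [← add_mul]
    calc volume B = 1 * volume B := (one_mul _).symm
      _ ≤ _ := mul_le_mul_left (le_tsub_add) _
  have h8 : volume (B \ L) + volume (L ∩ B) ≤ volume (L ∩ B) + ENNReal.ofReal κ * volume B := by
    rw [h5]
    exact h7.trans (add_le_add_left h4 _)
  rw [add_comm] at h8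
  exact (ENNReal.add_le_add_iff_left h6).mp h8

/-- covering most of a set by small balls -/
lemma besi (L G : Set (EN d)) (hL : MeasurableSet L) (hG : IsOpen G) (hLG : L ⊆ G)
    (hfin : volume L ≠ ⊤) (κ ρ : ℝ) (hκ : 0 < κ) (hρ : 0 < ρ) (ε : ℝ≥0∞) (hε : 0 < ε) :
    ∃ (t : Finset (EN d)) (rad : EN d → ℝ), (∀ y ∈ t, 0 < rad y ∧ rad y ≤ ρ ∧
      Metric.closedBall y (rad y) ⊆ G ∧
      volume (Metric.closedBall y (rad y) \ L) ≤
        ENNReal.ofReal κ * volume (Metric.closedBall y (rad y))) ∧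
      (∀ y ∈ t, ∀ y' ∈ t, y ≠ y' →
        Disjoint (Metric.closedBall y (rad y)) (Metric.closedBall y' (rad y'))) ∧
      volume (L \ ⋃ y ∈ t, Metric.closedBall y (rad y)) ≤ ε := by
  classical
  let dens : Set (EN d) := {x | x ∈ L ∧
    Tendsto (fun r => volume (L ∩ Metric.closedBall x r) / volume (Metric.closedBall x r))
      (𝓝[>] 0) (𝓝 1)}
  have hae : volume (L \ dens) = 0 := by
    have h := Besicovitch.ae_tendsto_measure_inter_div (volume : Measure (EN d)) L
    rw [ae_restrict_iff' hL] at h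
    rw [← nonpos_iff_eq_zero]
    refine (measure_mono ?_).trans (le_of_eq h)
    rintro x ⟨hx, hx2⟩
    intro hcon
    exact hx2 ⟨hx, hcon hx⟩
  obtain ⟨t, rad, htc, hts, htr, htm, htd⟩ :=
    Besicovitch.exists_disjoint_closedBall_covering_ae (volume : Measure (EN d))
      (fun x => {r : ℝ | r ≤ ρ ∧ Metric.closedBall x r ⊆ G ∧
        volume (Metric.closedBall x r \ L) ≤ ENNReal.ofReal κ * volume (Metric.closedBall x r)})
      dens (fun x hx δ hδ => density L G hL hG hLG κ ρ hκ hρ x hx.1 hx.2 δ hδ)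
      (fun _ => 1) (fun _ _ => one_pos)
  have htm' : volume (L \ ⋃ x ∈ t, Metric.closedBall x (rad x)) = 0 := by
    rw [← nonpos_iff_eq_zero]
    calc volume (L \ ⋃ x ∈ t, Metric.closedBall x (rad x))
        ≤ volume ((L \ dens) ∪ (dens \ ⋃ x ∈ t, Metric.closedBall x (rad x))) := by
          refine measure_mono ?_
          rintro x ⟨hx, hx2⟩
          by_cases hxd : x ∈ dens
          · exact Or.inr ⟨hxd, hx2⟩
          · exact Or.inl ⟨hx, hxd⟩
      _ ≤ _ := measure_union_le _ _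
      _ = 0 := by rw [hae, htm, add_zero]
  have hprop : ∀ y ∈ t, 0 < rad y ∧ rad y ≤ ρ ∧ Metric.closedBall y (rad y) ⊆ G ∧
      volume (Metric.closedBall y (rad y) \ L) ≤
        ENNReal.ofReal κ * volume (Metric.closedBall y (rad y)) := fun y hy =>
    ⟨(htr y hy).2.1, (htr y hy).1.1, (htr y hy).1.2.1, (htr y hy).1.2.2⟩
  rcases t.eq_empty_or_nonempty with ht | ht
  · subst ht
    refine ⟨∅, rad, by simp, by simp, ?_⟩
    have : volume L = 0 := by simpa using htm'
    simp [this]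
  obtain ⟨f, hf⟩ := htc.exists_eq_range ht
  have hft : ∀ k, f k ∈ t := fun k => hf ▸ mem_range_self k
  let D : ℕ → Set (EN d) := fun n => L \ ⋃ k ∈ Finset.range n, Metric.closedBall (f k) (rad (f k))
  have hDm : ∀ n, MeasurableSet (D n) := fun n =>
    hL.diff (Finset.measurableSet_biUnion _ (fun k _ => Metric.isClosed_closedBall.measurableSet))
  have hDanti : Antitone D := by
    intro n m hnm
    refine sdiff_subset_sdiff_right ?_
    intro x hx
    simp only [mem_iUnion, Finset.mem_range] at hx ⊢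
    obtain ⟨k, hk, hxk⟩ := hx
    exact ⟨k, hk.trans_le hnm, hxk⟩
  have hDI : volume (⋂ n, D n) = 0 := by
    rw [← nonpos_iff_eq_zero]
    refine (measure_mono ?_).trans (le_of_eq htm')
    intro x hx
    rw [mem_iInter] at hx
    refine ⟨(hx 0).1, ?_⟩
    intro hcon
    rw [mem_iUnion₂] at hcon
    obtain ⟨y, hy, hxy⟩ := hcon
    rw [hf] at hy
    obtain ⟨k, rfl⟩ := hy
    apply (hx (k + 1)).2
    simp only [mem_iUnion, Finset.mem_range]
    exact ⟨k, Nat.lt_succ_self k, hxy⟩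
  have hlim : Tendsto (fun n => volume (D n)) atTop (𝓝 (volume (⋂ n, D n))) :=
    tendsto_measure_iInter_atTop (fun n => (hDm n).nullMeasurableSet) hDanti
      ⟨0, by simpa [D] using hfin⟩
  rw [hDI] at hlim
  obtain ⟨n, hn⟩ := (hlim.eventually (ge_mem_nhds hε)).exists
  refine ⟨(Finset.range n).image f, rad, ?_, ?_, ?_⟩
  · intro y hy
    obtain ⟨k, _, rfl⟩ := Finset.mem_image.mp hy
    exact hprop _ (hft k)
  · intro y hy y' hy' hne
    obtain ⟨k, _, rfl⟩ := Finset.mem_image.mp hy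
    obtain ⟨k', _, rfl⟩ := Finset.mem_image.mp hy'
    exact htd (hft k) (hft k') hne
  · refine le_trans (measure_mono ?_) hn
    refine sdiff_subset_sdiff_right ?_
    intro x hx
    simp only [mem_iUnion, Finset.mem_range, Finset.mem_image] at hx ⊢
    obtain ⟨k, hk, hxk⟩ := hx
    exact ⟨f k, ⟨k, hk, rfl⟩, hxk⟩

/-- separating finitely many disjoint compact sets -/
lemma separate {X : Type u} [MetricSpace X] {ι : Type*} [Finite ι] (K : ι → Set X)
    (hK : ∀ a, IsCompact (K a)) (hd : ∀ a a', a ≠ a' → Disjoint (K a) (K a')) :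
    ∃ δ : ℝ, 0 < δ ∧ ∀ a a', a ≠ a' →
      Disjoint (Metric.thickening δ (K a)) (Metric.thickening δ (K a')) := by
  classical
  have := Fintype.ofFinite ι
  have h : ∀ p : ι × ι, ∃ δ : ℝ, 0 < δ ∧ (p.1 ≠ p.2 →
      Disjoint (Metric.thickening δ (K p.1)) (Metric.thickening δ (K p.2))) := by
    intro p
    by_cases hp : p.1 = p.2
    · exact ⟨1, one_pos, fun h => absurd hp h⟩
    · obtain ⟨δ, hδ, h⟩ := (hd p.1 p.2 hp).exists_thickenings (hK p.1) (hK p.2).isClosed
      exact ⟨δ, hδ, fun _ => h⟩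
  choose δ hδ hδd using h
  by_cases hne : Nonempty (ι × ι)
  · refine ⟨Finset.univ.inf' Finset.univ_nonempty δ, ?_, ?_⟩
    · rw [Finset.lt_inf'_iff]
      exact fun p _ => hδ p
    · intro a a' haa
      refine (hδd (a, a') haa).mono ?_ ?_
      · exact Metric.thickening_mono (Finset.inf'_le _ (Finset.mem_univ (a, a'))) _
      · exact Metric.thickening_mono (Finset.inf'_le _ (Finset.mem_univ (a, a'))) _
  · exact ⟨1, one_pos, fun a a' _ => absurd ⟨(a, a')⟩ hne⟩

end COV

open COV in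
theorem p_COV (hV : T_VBAS.{u}) : T_COV.{u} := by
  classical
  intro X _ _ _ _ lam d V idx hd hidx hidxU r Z Θ O κ ρ hΘ hZ hZO hO hZd hκ hρ
  obtain ⟨hfin, -, -, -, himg, hinv, hUopen, hinvc⟩ := hV X lam d V hd
  have hlamfin : IsFiniteMeasure lam := ⟨hfin⟩
  -- truncate `Θ`
  obtain ⟨T, hT⟩ : ∃ T : ℕ, lam (Θ ⁻¹' Ici T) ≤ ENNReal.ofReal (κ / 3) := by
    have hanti : Antitone (fun T : ℕ => Θ ⁻¹' Ici T) := fun a b hab x hx => le_trans hab hx
    have hI : (⋂ T : ℕ, Θ ⁻¹' Ici T) = ∅ := by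
      ext x
      simp only [mem_iInter, mem_preimage, mem_Ici, mem_empty_iff_false, iff_false, not_forall]
      exact ⟨Θ x + 1, by omega⟩
    have hlim : Tendsto (fun T : ℕ => lam (Θ ⁻¹' Ici T)) atTop (𝓝 (lam (⋂ T : ℕ, Θ ⁻¹' Ici T))) :=
      tendsto_measure_iInter_atTop (fun n => (hΘ measurableSet_Ici).nullMeasurableSet) hanti
        ⟨0, measure_ne_top _ _⟩
    rw [hI, measure_empty] at hlim
    exact (hlim.eventually (ge_mem_nhds (by simpa using by positivity))).exists
  let I : Type := Fin r × Fin T × Fin V.n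
  let A : I → Set X := fun a => Z a.1 ∩ Θ ⁻¹' {(a.2.1 : ℕ)} ∩ idx ⁻¹' {a.2.2}
  have hAm : ∀ a, MeasurableSet (A a) := fun a =>
    ((hZ a.1).inter (hΘ (measurableSet_singleton _))).inter (hidx (measurableSet_singleton _))
  have hAd : ∀ a a', a ≠ a' → Disjoint (A a) (A a') := by
    intro a a' haa
    rw [Set.disjoint_left]
    rintro x ⟨⟨h1, h2⟩, h3⟩ ⟨⟨h1', h2'⟩, h3'⟩
    apply haa
    have e1 : a.1 = a'.1 := by
      by_contra hne
      exact (Set.disjoint_left.mp (hZd _ _ hne)) h1 h1'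
    have e2 : a.2.1 = a'.2.1 := Fin.ext (h2.symm.trans h2')
    have e3 : a.2.2 = a'.2.2 := h3.symm.trans h3'
    exact Prod.ext e1 (Prod.ext e2 e3)
  set η : ℝ := κ / (3 * ((Fintype.card I : ℝ) + 1)) with hη
  have hη0 : 0 < η := by positivity
  -- compact subsets
  have hex : ∀ a, ∃ K ⊆ A a, IsCompact K ∧ lam (A a \ K) ≤ ENNReal.ofReal η := by
    intro a
    obtain ⟨K, hKA, hK, hlt⟩ := (hAm a).exists_isCompact_sdiff_lt (μ := lam) (measure_ne_top _ _)
      (ε := ENNReal.ofReal η) (by simpa using hη0)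
    exact ⟨K, hKA, hK, hlt.le⟩
  choose K hKA hK hKlt using hex
  obtain ⟨δ, hδ, hδd⟩ := separate K hK (fun a a' haa => (hAd a a' haa).mono (hKA a) (hKA a'))
  let Gx : I → Set X := fun a => Metric.thickening δ (K a) ∩ O ∩ V.U a.2.2
  have hGx : ∀ a, IsOpen (Gx a) := fun a =>
    (Metric.isOpen_thickening.inter hO).inter (hUopen _)
  have hKG : ∀ a, K a ⊆ Gx a := by
    intro a x hx
    have hxA := hKA a hx
    refine ⟨⟨Metric.self_subset_thickening hδ _ hx, hZO _ hxA.1.1⟩, ?_⟩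
    have : idx x = a.2.2 := hxA.2
    rw [← this]
    exact hidxU x
  -- the charts
  let L : I → Set (EN d) := fun a => V.inv a.2.2 '' K a
  let G : I → Set (EN d) := fun a => V.inv a.2.2 '' Gx a
  have hcinv : ∀ i, ∀ x ∈ V.U i, V.inv i x ∈ V.dom i ∧ V.c i (V.inv i x) = x := by
    rintro i x ⟨y, hy, rfl⟩
    rw [hinv i y hy]
    exact ⟨hy, rfl⟩
  have hcc : ∀ i, ContinuousOn (V.c i) (V.dom i) := by
    intro i
    have : LipschitzOnWith (Real.toNNReal V.K) (V.c i) (V.dom i) := by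
      refine LipschitzOnWith.of_dist_le_mul (fun x hx y hy => ?_)
      rw [Real.coe_toNNReal _ (by linarith [V.one_le_K])]
      exact (V.bilip i x hx y hy).2
    exact this.continuousOn
  have hLcomp : ∀ a, IsCompact (L a) := fun a =>
    (hK a).image_of_continuousOn ((hinvc a.2.2).mono (fun x hx => (hKG a hx).2))
  have hGeq : ∀ a, G a = V.dom a.2.2 ∩ V.c a.2.2 ⁻¹' (Gx a) := by
    intro a
    ext y
    constructor
    · rintro ⟨x, hx, rfl⟩
      have h := hcinv _ x hx.2
      refine ⟨h.1, ?_⟩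
      rw [mem_preimage, h.2]
      exact hx
    · rintro ⟨hy, hy2⟩
      exact ⟨_, hy2, hinv _ y hy⟩
  have hGopen : ∀ a, IsOpen (G a) := by
    intro a
    rw [hGeq]
    exact (hcc a.2.2).isOpen_inter_preimage Metric.isOpen_ball (hGx a)
  have hLG : ∀ a, L a ⊆ G a := fun a => image_mono (hKG a)
  have hcL : ∀ a, V.c a.2.2 '' L a = K a := by
    intro a
    rw [← image_comp]
    ext x
    constructor
    · rintro ⟨y, hy, rfl⟩
      rw [Function.comp_apply, (hcinv _ y (hKG a hy).2).2]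
      exact hy
    · intro hx
      exact ⟨x, hx, (hcinv _ x (hKG a hx).2).2⟩
  have hLdom : ∀ a, L a ⊆ V.dom a.2.2 := fun a y hy => ((hGeq a) ▸ (hLG a hy)).1
  have hbes := fun a => besi (L a) (G a) (hLcomp a).measurableSet (hGopen a) (hLG a)
    (hLcomp a).measure_lt_top.ne κ ρ hκ hρ (ENNReal.ofReal η) (by simpa using hη0)
  choose t rad ht htd htL using hbes
  -- index set
  let J : Type := (a : I) × (t a)
  have hGdom : ∀ a, G a ⊆ V.dom a.2.2 := fun a y hy => ((hGeq a) ▸ hy).1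
  let bb : J → CBall V := fun j =>
    { i := j.1.2.2
      p := j.2.1
      r := rad j.1 j.2.1
      pos := (ht j.1 j.2.1 j.2.2).1
      sub := (ht j.1 j.2.1 j.2.2).2.2.1.trans (hGdom j.1) }
  let eJ := Fintype.equivFin J
  have hinj : ∀ i, InjOn (V.c i) (V.dom i) := by
    intro i x hx y hy hxy
    rw [← hinv i x hx, hxy, hinv i y hy]
  have hbG : ∀ j : J, (bb j).S ⊆ Gx j.1 := by
    intro j
    rintro _ ⟨y, hy, rfl⟩
    have hyG : y ∈ G j.1 := (ht j.1 j.2.1 j.2.2).2.2.1 hy
    rw [hGeq] at hyG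
    exact hyG.2
  have hSm : ∀ j : J, MeasurableSet (bb j).S := fun j =>
    himg _ _ (bb j).sub Metric.isClosed_closedBall.measurableSet
  have hSvol : ∀ j : J, lam (bb j).S = volume (Metric.closedBall j.2.1 (rad j.1 j.2.1)) :=
    fun j => V.vol _ _ (bb j).sub Metric.isClosed_closedBall.measurableSet
  refine ⟨Fintype.card J, fun j => bb (eJ.symm j), fun j => (eJ.symm j).1.1,
    fun j => ((eJ.symm j).1.2.1 : ℕ), ?_, ?_, ?_, ?_⟩
  · intro j
    exact ⟨fun x hx => (hbG _ hx).1.2, (ht _ _ (eJ.symm j).2.2).2.1⟩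
  · intro j j' hjj
    have hne0 : eJ.symm j ≠ eJ.symm j' := fun h => hjj (eJ.symm.injective h)
    suffices hsuff : ∀ a a' : J, a ≠ a' → Disjoint (bb a).S (bb a').S from hsuff _ _ hne0
    intro a a' hne
    by_cases haa : a.1 = a'.1
    · obtain ⟨a, y⟩ := a
      obtain ⟨a', y'⟩ := a'
      simp only at haa
      subst haa
      have hyy : (y : EN d) ≠ y' := by
        intro h
        exact hne (by rw [Subtype.ext h])
      have hdis := htd a y.1 y.2 y'.1 y'.2 hyy
      rw [Set.disjoint_left]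
      rintro x ⟨z, hz, hzx⟩ ⟨z', hz', hzx'⟩
      have hz1 : z ∈ V.dom a.2.2 := (bb ⟨a, y⟩).sub hz
      have hz2 : z' ∈ V.dom a.2.2 := (bb ⟨a, y'⟩).sub hz'
      have hzz : z' = z := hinj a.2.2 hz2 hz1 (hzx'.trans hzx.symm)
      rw [hzz] at hz'
      exact (Set.disjoint_left.mp hdis) hz hz'
    · refine (hδd _ _ haa).mono ?_ ?_
      · exact fun x hx => (hbG a hx).1.1
      · exact fun x hx => (hbG a' hx).1.1
  · intro j
    suffices hsuff : ∀ a : J, lam.real ((bb a).S \ (A a.1)) ≤ κ * lam.real (bb a).S from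
      hsuff (eJ.symm j)
    intro a
    have h1 : (bb a).S \ (A a.1) ⊆ V.c a.1.2.2 ''
        (Metric.closedBall a.2.1 (rad a.1 a.2.1) \ L a.1) := by
      rintro _ ⟨⟨y, hy, rfl⟩, hyA⟩
      refine ⟨y, ⟨hy, ?_⟩, rfl⟩
      intro hyL
      apply hyA
      apply hKA a.1
      rw [← hcL a.1]
      exact ⟨y, hyL, rfl⟩
    have h2 : lam ((bb a).S \ (A a.1)) ≤ ENNReal.ofReal κ * lam (bb a).S := by
      refine (measure_mono h1).trans ?_
      rw [V.vol _ _ (sdiff_subset.trans (bb a).sub)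
        (Metric.isClosed_closedBall.measurableSet.diff (hLcomp a.1).measurableSet), hSvol]
      exact (ht a.1 a.2.1 a.2.2).2.2.2
    rw [Measure.real, Measure.real]
    have h3 := ENNReal.toReal_mono (ENNReal.mul_ne_top ENNReal.ofReal_ne_top (measure_ne_top _ _)) h2
    rwa [ENNReal.toReal_mul, ENNReal.toReal_ofReal hκ.le] at h3
  · intro l
    have hKb : ∀ a, lam (K a \ ⋃ y ∈ t a, V.c a.2.2 '' Metric.closedBall y (rad a y)) ≤
        ENNReal.ofReal η := by
      intro a
      have h1 : K a \ ⋃ y ∈ t a, V.c a.2.2 '' Metric.closedBall y (rad a y) ⊆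
          V.c a.2.2 '' (L a \ ⋃ y ∈ t a, Metric.closedBall y (rad a y)) := by
        rintro x ⟨hx, hx2⟩
        rw [← hcL a] at hx
        obtain ⟨z, hz, rfl⟩ := hx
        refine ⟨z, ⟨hz, ?_⟩, rfl⟩
        intro hcon
        apply hx2
        rw [mem_iUnion₂] at hcon ⊢
        obtain ⟨y, hy, hzy⟩ := hcon
        exact ⟨y, hy, z, hzy, rfl⟩
      refine (measure_mono h1).trans ?_
      rw [V.vol _ _ (sdiff_subset.trans (hLdom a)) ((hLcomp a).measurableSet.diff
        (Finset.measurableSet_biUnion _ (fun y _ => Metric.isClosed_closedBall.measurableSet)))]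
      exact htL a
    have hsub : Z l \ ⋃ j ∈ {j | (eJ.symm j).1.1 = l}, (bb (eJ.symm j)).S ⊆
        Θ ⁻¹' Ici T ∪ ⋃ a : I, ((A a \ K a) ∪
          (K a \ ⋃ y ∈ t a, V.c a.2.2 '' Metric.closedBall y (rad a y))) := by
      rintro x ⟨hx, hx2⟩
      by_cases hxT : T ≤ Θ x
      · exact Or.inl hxT
      · right
        rw [mem_iUnion]
        refine ⟨(l, ⟨Θ x, not_le.mp hxT⟩, idx x), ?_⟩
        set a : I := (l, ⟨Θ x, not_le.mp hxT⟩, idx x) with ha
        have hxA : x ∈ A a := ⟨⟨hx, rfl⟩, rfl⟩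
        by_cases hxK : x ∈ K a
        · right
          refine ⟨hxK, ?_⟩
          intro hcon
          rw [mem_iUnion₂] at hcon
          obtain ⟨y, hy, hxy⟩ := hcon
          apply hx2
          rw [mem_iUnion₂]
          refine ⟨eJ ⟨a, y, hy⟩, ?_, ?_⟩
          · rw [mem_ofPred_eq, Equiv.symm_apply_apply]
          · rw [Equiv.symm_apply_apply]
            exact hxy
        · exact Or.inl ⟨hxA, hxK⟩
    have hmeas : lam (Z l \ ⋃ j ∈ {j | (eJ.symm j).1.1 = l}, (bb (eJ.symm j)).S) ≤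
        ENNReal.ofReal (κ / 3) + ∑ _a : I, (ENNReal.ofReal η + ENNReal.ofReal η) := by
      refine (measure_mono hsub).trans ((measure_union_le _ _).trans (add_le_add hT ?_))
      refine (measure_iUnion_fintype_le _ _).trans (Finset.sum_le_sum (fun a _ => ?_))
      exact (measure_union_le _ _).trans (add_le_add (hKlt a) (hKb a))
    have hfinal : ENNReal.ofReal (κ / 3) + ∑ _a : I, (ENNReal.ofReal η + ENNReal.ofReal η) ≤
        ENNReal.ofReal κ := by
      rw [← ENNReal.ofReal_add hη0.le hη0.le, Finset.sum_const, Finset.card_univ, nsmul_eq_mul,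
        ← ENNReal.ofReal_natCast, ← ENNReal.ofReal_mul (Nat.cast_nonneg _),
        ← ENNReal.ofReal_add (by positivity) (by positivity)]
      apply ENNReal.ofReal_le_ofReal
      have hc : (0 : ℝ) ≤ Fintype.card I := Nat.cast_nonneg _
      have : (Fintype.card I : ℝ) * (η + η) ≤ 2 * κ / 3 := by
        rw [hη]
        have h3 : (Fintype.card I : ℝ) * (κ / (3 * ((Fintype.card I : ℝ) + 1)) +
            κ / (3 * ((Fintype.card I : ℝ) + 1))) =
            (2 * κ / 3) * ((Fintype.card I : ℝ) / ((Fintype.card I : ℝ) + 1)) := by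
          field_simp; ring
        rw [h3]
        have h4 : (Fintype.card I : ℝ) / ((Fintype.card I : ℝ) + 1) ≤ 1 := by
          rw [div_le_one (by linarith)]; linarith
        have h5 : 0 ≤ 2 * κ / 3 := by positivity
        nlinarith
      linarith
    rw [Measure.real]
    exact ENNReal.toReal_le_of_le_ofReal hκ.le (hmeas.trans hfinal)

end Pool.Agent.SobEnt
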