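import Pool.Agent.SobEnt.Targets

/-!
# DYN: the orbits of `f ∘ φ`
-/

open MeasureTheory Filter Topology Set
open scoped ENNReal NNReal

universe u

namespace Pool.Agent.SobEnt

namespace DYN

variable {X : Type u} [MeasurableSpace X]

lemma measurableSet_iterate_image (f : X ≃ᵐ X) {B : Set X} (hB : MeasurableSet B) (n : ℕ) :
    MeasurableSet (f^[n] '' B) := by
  induction n with
  | zero => simpa using hB
  | succ n ih =>
    rw [Function.iterate_succ', Set.image_comp]
    exact (f.measurableSet_image).2 ih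

omit [MeasurableSpace X] in
/-- the orbit of `f ∘ φ` follows the orbit of `f` between the marked times -/
lemma orbit (f φ : X → X) (d M : ℕ) (W : Set X) (P : ℕ → Set X) (hM : 1 ≤ M)
    (hφ : ∀ x, x ∉ W → φ x = x) (h0 : ∀ y ∈ P 0, y ∉ W)
    (hW : ∀ i < d, ∀ y ∈ P i, ∀ m : ℕ, 0 < m → m < M → f^[m] y ∉ W) {x : X}
    (hx : ∀ i < d, (fun z => φ (f^[M] z))^[i] x ∈ P i) :
    ∀ i < d, ∀ m : ℕ, 1 ≤ m → m ≤ M →
      (fun z => f (φ z))^[i * M + m] x = f^[m] ((fun z => φ (f^[M] z))^[i] x) := by
  intro i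
  induction i with
  | zero =>
    intro hi m hm1
    induction m, hm1 using Nat.le_induction with
    | base =>
      intro _
      have h1 : φ x = x := hφ x (h0 x (by simpa using hx 0 hi))
      simp [h1]
    | succ m hm ih =>
      intro hm2
      have h1 := ih (by omega)
      rw [← add_assoc, Function.iterate_succ_apply', h1, Function.iterate_succ_apply' f]
      have h2 := hφ _ (hW 0 hi _ (hx 0 hi) m (by omega) (by omega))
      show f (φ (f^[m] _)) = _
      rw [h2]
  | succ i ihi =>
    intro hi m hm1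
    induction m, hm1 using Nat.le_induction with
    | base =>
      intro _
      have h1 := ihi (by omega) M hM le_rfl
      rw [Function.iterate_succ_apply', Nat.succ_mul, h1]
      show f (φ (f^[M] _)) = f ((fun z => φ (f^[M] z))^[i + 1] x)
      rw [Function.iterate_succ_apply' (fun z => φ (f^[M] z))]
    | succ m hm ih =>
      intro hm2
      have h1 := ih (by omega)
      rw [← add_assoc, Function.iterate_succ_apply', h1, Function.iterate_succ_apply' f]
      have h2 := hφ _ (hW (i + 1) hi _ (hx (i + 1) hi) m (by omega) (by omega))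
      show f (φ (f^[m] _)) = _
      rw [h2]

end DYN

theorem p_DYN : T_DYN.{u} := by
  intro X _ μ _ f φ hf hφm d M B W P hd hM hB hP _ hφ hPB h0 hW hstep
  set Ψ : X → X := fun z => φ (f^[M] z) with hΨ
  have hΨmp : MeasurePreserving Ψ μ μ := by
    have h1 : MeasurePreserving (f^[M]) μ μ := hf.iterate M
    exact hφm.comp h1
  have horb : ∀ x ∈ {x | x ∈ B ∧ ∀ i < d, Ψ^[i] x ∈ P i}, ∀ i < d, ∀ m : ℕ, 1 ≤ m → m ≤ M →
      (fun z => f (φ z))^[i * M + m] x = f^[m] (Ψ^[i] x) := by
    intro x hx
    exact DYN.orbit f φ d M W P hM hφ h0 hW hx.2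
  refine ⟨?_, horb, ?_, ?_⟩
  · have h1 : {x | x ∈ B ∧ ∀ i < d, Ψ^[i] x ∈ P i} =
        B ∩ ⋂ i ∈ Finset.range d, Ψ^[i] ⁻¹' P i := by
      ext x
      simp
    rw [h1]
    refine hB.inter (Finset.measurableSet_biInter _ fun i _ => ?_)
    exact (hΨmp.measurable.iterate i) (hP i)
  · rintro j hj _ ⟨x, hx, rfl⟩
    rcases Nat.eq_zero_or_pos j with rfl | hj0
    · exact ⟨x, hx.1, rfl⟩
    · have hi : (j - 1) / M < d := by
        rw [Nat.div_lt_iff_lt_mul (by omega)]
        omega
      have hm : (j - 1) % M + 1 ≤ M := by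
        have := Nat.mod_lt (j - 1) (show 0 < M by omega)
        omega
      have hjj : (j - 1) / M * M + ((j - 1) % M + 1) = j := by
        have := Nat.div_add_mod (j - 1) M
        have h2 : M * ((j - 1) / M) = (j - 1) / M * M := Nat.mul_comm _ _
        omega
      have h1 := horb x hx ((j - 1) / M) hi ((j - 1) % M + 1) (by omega) hm
      rw [hjj] at h1
      obtain ⟨b, hb, hbe⟩ := hPB _ hi (hx.2 _ hi)
      refine ⟨b, hb, ?_⟩
      rw [h1, ← hbe, ← Function.iterate_add_apply]
      congr 1
      rw [Nat.add_comm, hjj]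
  · have hsub : B \ {x | x ∈ B ∧ ∀ i < d, Ψ^[i] x ∈ P i} ⊆
        ⋃ i ∈ Finset.range d, Ψ^[i] ⁻¹' ((f^[i * M] '' B) \ P i) := by
      rintro x ⟨hxB, hxS⟩
      have hex : ∃ i, i < d ∧ Ψ^[i] x ∉ P i := by
        by_contra hc
        push Not at hc
        exact hxS ⟨hxB, hc⟩
      classical
      obtain ⟨hid, hiP⟩ := Nat.find_spec hex
      set i := Nat.find hex with hi
      have hmin : ∀ k, k < i → Ψ^[k] x ∈ P k := by
        intro k hk
        by_contra hc
        exact Nat.find_min hex hk ⟨by omega, hc⟩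
      simp only [Set.mem_iUnion, Finset.mem_range, Set.mem_preimage, Set.mem_sdiff, exists_prop]
      refine ⟨i, hid, ?_, hiP⟩
      rcases Nat.eq_zero_or_pos i with h0' | hpos
      · rw [h0']
        simpa using hxB
      · obtain ⟨k, hk⟩ : ∃ k, i = k + 1 := ⟨i - 1, by omega⟩
        rw [hk, Function.iterate_succ_apply']
        exact hstep k (by omega) _ (hmin k (by omega))
    calc μ.real (B \ {x | x ∈ B ∧ ∀ i < d, Ψ^[i] x ∈ P i})
        ≤ μ.real (⋃ i ∈ Finset.range d, Ψ^[i] ⁻¹' ((f^[i * M] '' B) \ P i)) :=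
          measureReal_mono hsub (measure_ne_top _ _)
      _ ≤ ∑ i ∈ Finset.range d, μ.real (Ψ^[i] ⁻¹' ((f^[i * M] '' B) \ P i)) :=
          measureReal_biUnion_finset_le _ _
      _ = ∑ i ∈ Finset.range d, μ.real ((f^[i * M] '' B) \ P i) := by
          refine Finset.sum_congr rfl fun i _ => ?_
          have h1 : MeasurableSet ((f^[i * M] '' B) \ P i) :=
            (DYN.measurableSet_iterate_image f hB _).diff (hP i)
          unfold Measure.real
          rw [(hΨmp.iterate i).measure_preimage h1.nullMeasurableSet]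

end Pool.Agent.SobEnt
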