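import Pool.Agent.SobEnt.Targets2

/-!
# ENTB: entropy bound from a tower off a closed set of periodic points (MP_07df6b_an)
-/

open MeasureTheory Filter Topology Set Bundle
open scoped ENNReal NNReal Manifold ContDiff

universe u v w

namespace Pool.Agent.SobEnt

noncomputable section

namespace ENTB

variable {X : Type u} [MetricSpace X]

lemma logLip_nonneg (T : X → X) (x : X) : 0 ≤ logLip T x := Real.log_nonneg (le_max_left _ _)

lemma logLip_of_le_one {T : X → X} {x : X} (h : lipAt T x ≤ 1) : logLip T x = 0 := by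
  unfold logLip
  have : (lipAt T x).toReal ≤ 1 := by
    have := ENNReal.toReal_mono (by simp) h
    simpa using this
  rw [max_eq_left this, Real.log_one]

lemma logLip_le_of_le {T : X → X} {x : X} {K : ℝ≥0} (h : lipAt T x ≤ K) :
    logLip T x ≤ Real.log (max 1 (K : ℝ)) := by
  unfold logLip
  apply Real.log_le_log (lt_of_lt_of_le one_pos (le_max_left _ _))
  have : (lipAt T x).toReal ≤ K := by
    have := ENNReal.toReal_mono (by simp) h
    simpa using this
  exact max_le_max le_rfl this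

lemma logLip_comp_le {S T : X → X} {x : X} {K L : ℝ≥0} (hS : lipAt S (T x) ≤ K)
    (hT : lipAt T x ≤ L) (h : lipAt (S ∘ T) x ≤ lipAt S (T x) * lipAt T x) :
    logLip (S ∘ T) x ≤ logLip T x + logLip S (T x) := by
  have hS' : lipAt S (T x) ≠ ⊤ := ne_top_of_le_ne_top (by simp) hS
  have hT' : lipAt T x ≠ ⊤ := ne_top_of_le_ne_top (by simp) hT
  have h1 : (lipAt (S ∘ T) x).toReal ≤ (lipAt S (T x)).toReal * (lipAt T x).toReal := by
    rw [← ENNReal.toReal_mul]
    exact ENNReal.toReal_mono (ENNReal.mul_ne_top hS' hT') h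
  unfold logLip
  rw [← Real.log_mul (by positivity) (by positivity)]
  apply Real.log_le_log (lt_of_lt_of_le one_pos (le_max_left _ _))
  have a1 : (1 : ℝ) ≤ max 1 (lipAt T x).toReal := le_max_left _ _
  have a2 : (1 : ℝ) ≤ max 1 (lipAt S (T x)).toReal := le_max_left _ _
  have a3 : (lipAt T x).toReal ≤ max 1 (lipAt T x).toReal := le_max_right _ _
  have a4 : (lipAt S (T x)).toReal ≤ max 1 (lipAt S (T x)).toReal := le_max_right _ _
  refine max_le (one_le_mul_of_one_le_of_one_le a1 a2) (h1.trans ?_)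
  rw [mul_comm]
  exact mul_le_mul a3 a4 ENNReal.toReal_nonneg (by positivity)

end ENTB

open ENTB in
theorem p_ENTB (h1 : T_POW.{u}) (h2 : T_RUELLE.{u}) (h3 : T_BLOCK.{u}) (h4 : T_FIX.{u})
    (h5 : T_LIPM.{u}) (h6 : T_VBAS.{u}) : T_ENTB.{u} := by
  intro X _ _ _ _ lam d V hd hX g L hg hgm Y q hY hgY hq hper C τ A hC hτ hA hAY hdisj
  obtain ⟨hfin, hpos, -⟩ := h6 X lam d V hd
  have hpos := hpos hX
  have hfinm : IsFiniteMeasure lam := ⟨hfin⟩
  have hprob : IsProbabilityMeasure (nrm lam) := by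
    refine ⟨?_⟩
    unfold nrm
    rw [Measure.smul_apply, smul_eq_mul, ENNReal.inv_mul_cancel hpos.ne' hfin.ne]
  have hΛ : 0 < lam.real univ := ENNReal.toReal_pos hpos.ne' hfin.ne
  obtain ⟨hLm, hLle, hLcomp, -, hLid⟩ := h5 X
  obtain ⟨CR, hCR, hruelle⟩ := h2 X lam d V hd hX
  let β : ℕ → X → ℝ := fun n => logLip (g : X → X)^[n]
  have hβm : ∀ n, Measurable (β n) := fun n =>
    Real.measurable_log.comp (measurable_const.max (hLm _ (g.continuous.iterate n)).ennreal_toReal)
  have hβ0 : ∀ n x, 0 ≤ β n x := fun n x => logLip_nonneg _ x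
  have hβz : ∀ x, β 0 x = 0 := fun x => logLip_of_le_one (by
    have := hLid x
    simpa [β] using this)
  have hβs : ∀ m n x, β (n + m) x ≤ β n x + β m (g^[n] x) := by
    intro m n x
    have e1 : (g : X → X)^[m] ∘ (g : X → X)^[n] = (g : X → X)^[n + m] := by
      rw [← Function.iterate_add, add_comm]
    have hc := logLip_comp_le (hLle _ _ (hg.iterate m) _) (hLle _ _ (hg.iterate n) x)
      (hLcomp _ _ _ _ (hg.iterate m) (hg.iterate n) x)
    rw [e1] at hc
    exact hc
  have hβ1 : ∀ x, β 1 x ≤ C := fun x => by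
    have := hC x
    simpa [β] using this
  have hgY' : g ⁻¹' Yᶜ = Yᶜ := by rw [preimage_compl, hgY]
  set I : ℝ := ∫ x in A, β τ x ∂lam +
    C * lam.real (Yᶜ \ ⋃ i ∈ Finset.range τ, (g : X → X)^[i] '' A) with hI
  have hblock : ∀ n : ℕ, ∫ x in Yᶜ, β n x ∂lam ≤ n * I + 2 * τ * C * lam.real Yᶜ := fun n =>
    h3 X lam g.toMeasurableEquiv hgm β C τ A Yᶜ hβm hβ0 hβz hβs hβ1 hτ hA hY.measurableSet.compl
      hAY hgY' hdisj n
  have hβi : ∀ n, Integrable (β n) lam := by
    intro n
    refine Integrable.of_bound (hβm n).aestronglyMeasurable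
      (Real.log (max 1 ((L ^ n : ℝ≥0) : ℝ))) (Eventually.of_forall fun x => ?_)
    rw [Real.norm_of_nonneg (hβ0 n x)]
    exact logLip_le_of_le (hLle _ _ (hg.iterate n) x)
  have hperk : ∀ k : ℕ, ∀ y ∈ Y, (g : X → X)^[q * k] y = y := by
    intro k y hy
    induction k with
    | zero => simp
    | succ k ih => rw [mul_add, mul_one, Function.iterate_add_apply, hper y hy, ih]
  have hint : ∀ k : ℕ, ∫ x, β (q * k) x ∂lam ≤ (q * k : ℕ) * I + 2 * τ * C * lam.real Yᶜ := by
    intro k
    rw [← integral_add_compl hY.measurableSet (hβi _)]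
    have hz : ∫ x in Y, β (q * k) x ∂lam = 0 := by
      apply integral_eq_zero_of_ae
      rw [EventuallyEq, ae_restrict_iff' hY.measurableSet]
      filter_upwards [h4 X lam d V hd _ _ Y (hg.iterate (q * k)) hY (hperk k)] with x hx hxY
      exact logLip_of_le_one (hx hxY)
    rw [hz, zero_add]
    exact hblock _
  have hkey : ∀ k : ℕ, 1 ≤ k → ksEntropy (nrm lam) g ≤
      ENNReal.ofReal ((CR + d / lam.real univ * (2 * τ * C * lam.real Yᶜ)) / (q * k : ℕ) +
        d / lam.real univ * I) := by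
    intro k hk
    have hn1 : 1 ≤ q * k := Nat.one_le_iff_ne_zero.2 (by positivity)
    have hnr : (0 : ℝ) < (q * k : ℕ) := by exact_mod_cast hn1
    have e1 := h1 X (nrm lam) g (hgm.smul_measure _) (q * k) hn1
    have e2 := hruelle (g : X → X)^[q * k] _ (hg.iterate (q * k)) (hgm.iterate (q * k))
    have e3 : ∫ x, logLip (g : X → X)^[q * k] x ∂(nrm lam) =
        (lam.real univ)⁻¹ * ∫ x, β (q * k) x ∂lam := by
      unfold nrm
      rw [integral_smul_measure, ENNReal.toReal_inv, smul_eq_mul]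
      rfl
    have e4 := e1.trans e2
    rw [e3, mul_comm, ← ENNReal.le_div_iff_mul_le (Or.inl (by positivity))
      (Or.inl (ENNReal.natCast_ne_top _))] at e4
    refine e4.trans ?_
    rw [← ENNReal.ofReal_natCast, ← ENNReal.ofReal_div_of_pos hnr]
    apply ENNReal.ofReal_le_ofReal
    have hdΛ : 0 ≤ (d : ℝ) / lam.real univ := by positivity
    calc (CR + d * ((lam.real univ)⁻¹ * ∫ x, β (q * k) x ∂lam)) / (q * k : ℕ)
        = (CR + d / lam.real univ * ∫ x, β (q * k) x ∂lam) / (q * k : ℕ) := by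
          rw [div_eq_mul_inv (d : ℝ), mul_assoc]
      _ ≤ (CR + d / lam.real univ * ((q * k : ℕ) * I + 2 * τ * C * lam.real Yᶜ)) /
            (q * k : ℕ) := by
          gcongr
          exact hint k
      _ = _ := by
          field_simp
          ring
  have hlim : Tendsto (fun k : ℕ => ENNReal.ofReal
      ((CR + d / lam.real univ * (2 * τ * C * lam.real Yᶜ)) / (q * k : ℕ) +
        d / lam.real univ * I)) atTop (𝓝 (ENNReal.ofReal (0 + d / lam.real univ * I))) := by
    apply ENNReal.tendsto_ofReal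
    apply Tendsto.add_const
    apply Tendsto.div_atTop tendsto_const_nhds
    refine tendsto_natCast_atTop_atTop.comp ?_
    exact tendsto_id.const_mul_atTop' (by omega)
  rw [zero_add] at hlim
  refine ge_of_tendsto hlim ?_
  filter_upwards [eventually_ge_atTop 1] with k hk using hkey k hk

end

end Pool.Agent.SobEnt
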