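import Pool.Agent.SobEnt.CD

/-!
# FIX: a Lipschitz map which is the identity on a closed set (MP_07df6b_an)
-/

open MeasureTheory Filter Topology Set Bundle
open scoped ENNReal NNReal Manifold ContDiff

universe u v w

namespace Pool.Agent.SobEnt

noncomputable section

namespace FIX

variable {X : Type u} [MetricSpace X] [MeasurableSpace X] [BorelSpace X] {lam : Measure X}
  [IsFiniteMeasure lam] {d : ℕ} {C r₀ : ℝ}

/-- Ahlfors regularity of the measure -/
def Ahl (lam : Measure X) (d : ℕ) (C r₀ : ℝ) : Prop := ∀ (x : X) (r : ℝ), 0 < r → r ≤ r₀ →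
    C⁻¹ * r ^ d ≤ lam.real (Metric.ball x r) ∧ lam.real (Metric.ball x r) ≤ C * r ^ d

theorem doubling (hr₀ : 0 < r₀) (hC : 1 ≤ C) (h : Ahl lam d C r₀) :
    IsUnifLocDoublingMeasure lam := by
  have hC0 : 0 < C := by linarith
  refine ⟨⟨Real.toNNReal (C ^ 2 * 4 ^ d), ?_⟩⟩
  have h1 : Ioc (0 : ℝ) (r₀ / 4) ∈ 𝓝[>] (0 : ℝ) := Ioc_mem_nhdsGT (by positivity)
  filter_upwards [h1] with ε hε x
  have hε0 : 0 < ε := hε.1
  have hε1 : ε ≤ r₀ / 4 := hε.2
  have h2 : lam.real (Metric.closedBall x (2 * ε)) ≤ C * (4 * ε) ^ d := by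
    calc lam.real (Metric.closedBall x (2 * ε)) ≤ lam.real (Metric.ball x (4 * ε)) :=
          measureReal_mono (Metric.closedBall_subset_ball (by linarith))
      _ ≤ C * (4 * ε) ^ d := (h x (4 * ε) (by linarith) (by linarith)).2
  have h3 : C⁻¹ * ε ^ d ≤ lam.real (Metric.closedBall x ε) :=
    ((h x ε hε0 (by linarith)).1).trans (measureReal_mono Metric.ball_subset_closedBall)
  have h4 : lam.real (Metric.closedBall x (2 * ε)) ≤
      C ^ 2 * 4 ^ d * lam.real (Metric.closedBall x ε) := by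
    refine h2.trans ?_
    calc C * (4 * ε) ^ d = C ^ 2 * 4 ^ d * (C⁻¹ * ε ^ d) := by
          rw [mul_pow]; field_simp
      _ ≤ C ^ 2 * 4 ^ d * lam.real (Metric.closedBall x ε) :=
          mul_le_mul_of_nonneg_left h3 (by positivity)
  rw [← ofReal_measureReal (μ := lam) (s := Metric.closedBall x (2 * ε)),
    ← ofReal_measureReal (μ := lam) (s := Metric.closedBall x ε)]
  calc ENNReal.ofReal (lam.real (Metric.closedBall x (2 * ε)))
      ≤ ENNReal.ofReal (C ^ 2 * 4 ^ d * lam.real (Metric.closedBall x ε)) :=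
        ENNReal.ofReal_le_ofReal h4
    _ = ENNReal.ofReal (C ^ 2 * 4 ^ d) * ENNReal.ofReal (lam.real (Metric.closedBall x ε)) :=
        ENNReal.ofReal_mul (by positivity)
    _ = _ := rfl

/-- near a density point of `Y` every point is relatively close to `Y` -/
theorem near (hr₀ : 0 < r₀) (hC : 1 ≤ C) (h : Ahl lam d C r₀) {Y : Set X} (hY : IsClosed Y)
    {x : X} (hx : Tendsto (fun δ : ℝ => lam (Y ∩ Metric.closedBall x δ) /
      lam (Metric.closedBall x δ)) (𝓝[>] 0) (𝓝 1)) {ε : ℝ} (hε : 0 < ε) (hε1 : ε ≤ 1) :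
    ∀ᶠ y in 𝓝 x, y ≠ x → ∃ z ∈ Y, dist y z < ε * dist x y := by
  have hC0 : 0 < C := by linarith
  set c : ℝ := (C ^ 2)⁻¹ * (ε / 4) ^ d with hc
  have hc0 : 0 < c := by positivity
  have hc1 : c ≤ 1 := by
    have h2 : (C ^ 2)⁻¹ ≤ 1 := inv_le_one_of_one_le₀ (one_le_pow₀ hC)
    have h3 : (ε / 4) ^ d ≤ 1 := pow_le_one₀ (by positivity) (by linarith)
    exact mul_le_one₀ h2 (by positivity) h3
  have h2 : ENNReal.ofReal (1 - c) < 1 := by
    rw [ENNReal.ofReal_lt_one]; linarith
  have h3 := hx.eventually (lt_mem_nhds h2)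
  obtain ⟨η, hη, h4⟩ : ∃ η : ℝ, 0 < η ∧ ∀ δ : ℝ, 0 < δ → δ < η →
      ENNReal.ofReal (1 - c) < lam (Y ∩ Metric.closedBall x δ) / lam (Metric.closedBall x δ) := by
    obtain ⟨η, hη, h5⟩ := mem_nhdsGT_iff_exists_Ioo_subset.1 h3
    exact ⟨η, hη, fun δ h0 h1 => h5 ⟨h0, h1⟩⟩
  have h5 : ∀ᶠ y in 𝓝 x, dist y x < min (η / 2) (r₀ / 4) :=
    Metric.ball_mem_nhds x (by positivity)
  filter_upwards [h5] with y hy hne
  by_contra hno
  push Not at hno
  set ρ := dist x y with hρ
  have hρ0 : 0 < ρ := dist_pos.2 hne.symm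
  have hρ' : dist y x = ρ := dist_comm _ _
  have hρη : 2 * ρ < η := by
    have := hy.trans_le (min_le_left _ _)
    rw [hρ'] at this; linarith
  have hρr : 4 * ρ < r₀ := by
    have := hy.trans_le (min_le_right _ _)
    rw [hρ'] at this; linarith
  have h6 := h4 (2 * ρ) (by linarith) hρη
  set m := lam (Metric.closedBall x (2 * ρ)) with hm
  have hmt : m ≠ ⊤ := measure_ne_top _ _
  have hm0 : m ≠ 0 := by
    intro h0
    have h7 := (h x (2 * ρ) (by linarith) (by linarith)).1
    have h8 : lam.real (Metric.ball x (2 * ρ)) ≤ lam.real (Metric.closedBall x (2 * ρ)) :=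
      measureReal_mono Metric.ball_subset_closedBall
    have h9 : lam.real (Metric.closedBall x (2 * ρ)) = 0 := by
      rw [measureReal_def, ← hm, h0]; rfl
    have h10 : 0 < C⁻¹ * (2 * ρ) ^ d := by positivity
    linarith
  have h7 : ENNReal.ofReal (1 - c) * m < lam (Y ∩ Metric.closedBall x (2 * ρ)) :=
    (ENNReal.lt_div_iff_mul_lt (Or.inl hm0) (Or.inl hmt)).1 h6
  have h8 : (1 - c) * m.toReal < lam.real (Y ∩ Metric.closedBall x (2 * ρ)) := by
    have := (ENNReal.toReal_lt_toReal (ENNReal.mul_ne_top ENNReal.ofReal_ne_top hmt)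
      (measure_ne_top _ _)).2 h7
    rwa [ENNReal.toReal_mul, ENNReal.toReal_ofReal (by linarith)] at this
  have hεpos : 0 < ε * ρ := by positivity
  have hdis : Disjoint (Y ∩ Metric.closedBall x (2 * ρ)) (Metric.ball y (ε * ρ)) := by
    rw [disjoint_left]
    rintro z ⟨hzY, -⟩ hz
    have h9 := hno z hzY
    rw [Metric.mem_ball, dist_comm] at hz
    linarith
  have hsub : (Y ∩ Metric.closedBall x (2 * ρ)) ∪ Metric.ball y (ε * ρ) ⊆
      Metric.closedBall x (2 * ρ) := by
    refine union_subset inter_subset_right fun z hz => ?_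
    have h9 : dist z y < ε * ρ := hz
    have h10 : ε * ρ ≤ ρ := by nlinarith
    rw [Metric.mem_closedBall]
    linarith [dist_triangle z y x]
  have h9 : lam.real (Y ∩ Metric.closedBall x (2 * ρ)) + lam.real (Metric.ball y (ε * ρ)) ≤
      m.toReal := by
    rw [← measureReal_union hdis Metric.isOpen_ball.measurableSet]
    exact measureReal_mono hsub
  have h10 : C⁻¹ * (ε * ρ) ^ d ≤ lam.real (Metric.ball y (ε * ρ)) := by
    have h11 : ε * ρ ≤ ρ := by nlinarith
    exact (h y (ε * ρ) hεpos (by linarith)).1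
  have h11 : m.toReal ≤ C * (4 * ρ) ^ d := by
    have h12 : lam.real (Metric.closedBall x (2 * ρ)) ≤ lam.real (Metric.ball x (4 * ρ)) :=
      measureReal_mono (Metric.closedBall_subset_ball (by linarith))
    exact h12.trans (h x (4 * ρ) (by linarith) hρr.le).2
  have h12 : c * (C * (4 * ρ) ^ d) = C⁻¹ * (ε * ρ) ^ d := by
    rw [hc, mul_pow, mul_pow, div_pow]
    field_simp
  have h13 : c * m.toReal ≤ C⁻¹ * (ε * ρ) ^ d := by
    rw [← h12]
    exact mul_le_mul_of_nonneg_left h11 hc0.le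
  linarith

end FIX

/-- FIX: a Lipschitz map which is the identity on `Y` has local dilation `≤ 1` a.e. on `Y` -/
theorem p_FIX (h1 : T_VBAS.{u}) : T_FIX.{u} := by
  intro X _ _ _ _ lam d V hd T L Y hT hY hfix
  obtain ⟨hfin, -, ⟨C, r₀, hC, hr₀, hA⟩, -⟩ := h1 X lam d V hd
  have : IsFiniteMeasure lam := ⟨hfin⟩
  have : IsUnifLocDoublingMeasure lam := FIX.doubling hr₀ hC hA
  have h2 := IsUnifLocDoublingMeasure.ae_tendsto_measure_inter_div lam Y 1
  rw [ae_restrict_iff' hY.measurableSet] at h2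
  filter_upwards [h2] with x hx hxY
  have h3 : Tendsto (fun δ : ℝ => lam (Y ∩ Metric.closedBall x δ) /
      lam (Metric.closedBall x δ)) (𝓝[>] 0) (𝓝 1) := by
    refine hx hxY (fun _ : ℝ => x) (fun δ : ℝ => δ) tendsto_id ?_
    filter_upwards [self_mem_nhdsWithin] with δ hδ
    have hδ' : (0 : ℝ) < δ := hδ
    rw [one_mul]
    exact Metric.mem_closedBall_self hδ'.le
  have hL0 : (0 : ℝ) ≤ L := L.2
  have key : ∀ ε : ℝ, 0 < ε → ε ≤ 1 → lipAt T x ≤ ENNReal.ofReal (1 + ε * (1 + L)) := by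
    intro ε hε hε1
    refine CD.lipAt_le_of_eventually (by positivity) ?_
    filter_upwards [FIX.near hr₀ hC hA hY h3 hε hε1] with y hy
    rcases eq_or_ne y x with rfl | hne
    · simp
    obtain ⟨z, hzY, hz⟩ := hy hne
    have h4 : dist (T x) (T z) = dist x z := by rw [hfix x hxY, hfix z hzY]
    have h5 : dist (T z) (T y) ≤ L * dist z y := hT.dist_le_mul z y
    have h6 : dist x z ≤ dist x y + dist y z := dist_triangle _ _ _
    have h7 : dist z y = dist y z := dist_comm _ _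
    have h8 : (1 + L) * dist y z ≤ (1 + L) * (ε * dist x y) :=
      mul_le_mul_of_nonneg_left hz.le (by positivity)
    calc dist (T x) (T y) ≤ dist (T x) (T z) + dist (T z) (T y) := dist_triangle _ _ _
      _ ≤ (dist x y + dist y z) + L * dist y z := by
          rw [h4]
          rw [h7] at h5
          exact add_le_add h6 h5
      _ = dist x y + (1 + L) * dist y z := by ring
      _ ≤ dist x y + (1 + L) * (ε * dist x y) := by linarith
      _ = (1 + ε * (1 + L)) * dist x y := by ring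
  have h4 : Tendsto (fun ε : ℝ => ENNReal.ofReal (1 + ε * (1 + L))) (𝓝[>] 0) (𝓝 1) := by
    have h5 : Continuous fun ε : ℝ => ENNReal.ofReal (1 + ε * (1 + L)) :=
      ENNReal.continuous_ofReal.comp (by fun_prop)
    have h6 := (h5.tendsto 0).mono_left (nhdsWithin_le_nhds (s := Ioi 0))
    simpa using h6
  refine ge_of_tendsto h4 ?_
  filter_upwards [Ioc_mem_nhdsGT (zero_lt_one' ℝ)] with ε hε
  exact key ε hε.1 hε.2

end

end Pool.Agent.SobEnt
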