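import Pool.Agent.SobEnt.EntLib

/-!
# GEN: partitions with small mesh give the entropy (MP_07df6b_an)
-/

open MeasureTheory Filter Topology Set
open scoped ENNReal NNReal

universe u v w

namespace Pool.Agent.SobEnt

namespace GEN

open EntLib

variable {X : Type*} [MeasurableSpace X] (μ : Measure X) [IsFiniteMeasure μ]

lemma four {α β γ δ : Type*} [Fintype α] [Fintype β] [Fintype γ] [Fintype δ]
    {A : X → α} {B : X → β} {C : X → γ} {D : X → δ} (hA : FM A) (hB : FM B) (hC : FM C)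
    (hD : FM D) :
    Hp μ (fun x => ((A x, C x), (B x, D x))) - Hp μ (fun x => (B x, D x)) ≤
      (Hp μ (fun x => (A x, B x)) - Hp μ B) + (Hp μ (fun x => (C x, D x)) - Hp μ D) := by
  -- (A, B), C | D
  have h1 := ssa μ (hA.pair hB) hC hD
  have e1 : Hp μ (fun x => ((A x, B x), C x, D x)) = Hp μ (fun x => ((A x, C x), (B x, D x))) :=
    (Hp_inj μ (fun x => ((A x, B x), C x, D x))
      (fun v : (α × β) × γ × δ => ((v.1.1, v.2.1), (v.1.2, v.2.2))) (by
        rintro ⟨⟨a, b⟩, c, d⟩ ⟨⟨a', b'⟩, c', d'⟩ h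
        simp only [Prod.mk.injEq] at h ⊢
        tauto)).symm
  -- A, D | B
  have h2 := ssa μ hA hD hB
  have e2 : Hp μ (fun x => (A x, D x, B x)) = Hp μ (fun x => ((A x, B x), D x)) :=
    (Hp_inj μ (fun x => (A x, D x, B x))
      (fun v : α × δ × β => ((v.1, v.2.2), v.2.1)) (by
        rintro ⟨a, d, b⟩ ⟨a', d', b'⟩ h
        simp only [Prod.mk.injEq] at h ⊢
        tauto)).symm
  have e3 := Hp_pair_comm μ D B
  rw [e1] at h1
  rw [e2, e3] at h2
  linarith

lemma main {α β : Type*} [Fintype α] [Fintype β] {Q : X → α} {P : X → β} (hQ : FM Q) (hP : FM P)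
    {T : X → X} (hT : MeasurePreserving T μ μ) (n : ℕ) :
    Hp μ (fun x => (itin T Q n x, itin T P n x)) - Hp μ (itin T P n) ≤
      n * (Hp μ (fun x => (Q x, P x)) - Hp μ P) := by
  induction n with
  | zero =>
    have h := Hp_inj μ (itin T P 0) (fun v : Fin 0 → β => ((fun i => i.elim0 : Fin 0 → α), v))
      (fun v w h => (Prod.ext_iff.1 h).2)
    have h2 : (fun x => (itin T Q 0 x, itin T P 0 x)) =
        fun x => ((fun i => i.elim0 : Fin 0 → α), itin T P 0 x) := by
      funext x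
      congr 1
      funext i
      exact i.elim0
    rw [h2, h]
    simp
  | succ n ih =>
    have hTn := hT.iterate n
    have h1 := four μ (hQ.itin hT.measurable n) (hP.itin hT.measurable n) (hQ.comp hTn.measurable)
      (hP.comp hTn.measurable)
    have h2 : Hp μ (fun x => (Q (T^[n] x), P (T^[n] x))) = Hp μ (fun x => (Q x, P x)) :=
      Hp_comp μ (hQ.pair hP) hTn
    have h3 := Hp_comp μ hP hTn
    have h4 := Hp_itin_succ μ T P n
    have h5 : Hp μ (fun x => (itin T Q (n + 1) x, itin T P (n + 1) x)) =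
        Hp μ (fun x => ((itin T Q n x, Q (T^[n] x)), (itin T P n x, P (T^[n] x)))) := by
      have h := Hp_inj μ (fun x => (itin T Q (n + 1) x, itin T P (n + 1) x))
        (fun v : (Fin (n + 1) → α) × (Fin (n + 1) → β) =>
          ((Fin.init v.1, v.1 (Fin.last n)), (Fin.init v.2, v.2 (Fin.last n)))) (by
          rintro ⟨v, v'⟩ ⟨w, w'⟩ h
          simp only [Prod.mk.injEq] at h ⊢
          rw [← Fin.snoc_init_self v, ← Fin.snoc_init_self w, ← Fin.snoc_init_self v',
            ← Fin.snoc_init_self w', h.1.1, h.1.2, h.2.1, h.2.2]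
          exact ⟨rfl, rfl⟩)
      rw [← h]
      rfl
    rw [h2, h3] at h1
    rw [h4, h5]
    push_cast
    linarith

end GEN

open EntLib GEN in
theorem p_GEN : T_GEN.{u} := by
  intro X _ _ _ _ μ _ T hT κ P hPm hmesh c hc
  classical
  refine iSup_le fun k => iSup_le fun Q => iSup_le fun hQm => ?_
  have hQ : FM Q := FM.of_measurable hQm
  have hne : Nonempty X := by
    by_contra h
    rw [not_nonempty_iff] at h
    have h1 : μ univ = 0 := by rw [Set.univ_eq_empty_iff.2 h]; simp
    rw [measure_univ] at h1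
    exact one_ne_zero h1
  obtain ⟨x₀⟩ := hne
  refine ENNReal.le_of_forall_pos_le_add fun ε hε _ => ?_
  obtain ⟨δ, hδ, hclose⟩ := cond_close (α := Fin k) μ (ε : ℝ) (by exact_mod_cast hε)
  obtain ⟨K, r, hKm, hr, hKc, hK⟩ := exists_cores μ hQm δ hδ
  obtain ⟨j, hj1, hj2⟩ := (hc.and_eventually (hmesh r hr)).exists
  have hP : FM (P j) := FM.of_measurable (hPm j)
  -- the approximation of `Q` by a function of `P j`
  have hφ : ∃ φ : Fin (κ j) → Fin k, ∀ x ∈ K, φ (P j x) = Q x := by
    refine ⟨fun b => if h : ∃ y ∈ K, P j y = b then Q h.choose else Q x₀, fun x hx => ?_⟩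
    have h : ∃ y ∈ K, P j y = P j x := ⟨x, hx, rfl⟩
    simp only [dif_pos h]
    exact hK _ h.choose_spec.1 _ hx (hj2 _ _ h.choose_spec.2)
  obtain ⟨φ, hφ⟩ := hφ
  have h1 := hclose Q (fun x => φ (P j x)) hQ (hP.map φ) (by
    refine (measureReal_mono ?_ (measure_ne_top _ _)).trans hKc
    intro x hx hxK
    exact hx (hφ x hxK).symm)
  -- H(Q | P j) ≤ H(Q | φ P j)
  have h2 : Hp μ (fun x => (Q x, P j x)) - Hp μ (P j) ≤ ε := by
    have h3 := ssa μ hQ hP (hP.map φ)
    have e1 : Hp μ (fun x => (Q x, P j x, φ (P j x))) = Hp μ (fun x => (Q x, P j x)) :=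
      Hp_inj μ (fun x => (Q x, P j x)) (fun v : Fin k × Fin (κ j) => (v.1, v.2, φ v.2)) (by
        rintro ⟨a, b⟩ ⟨a', b'⟩ h
        simp only [Prod.mk.injEq] at h ⊢
        exact ⟨h.1, h.2.1⟩)
    have e2 : Hp μ (fun x => (P j x, φ (P j x))) = Hp μ (P j) :=
      Hp_inj μ (P j) (fun b => (b, φ b)) (fun b b' h => (Prod.ext_iff.1 h).1)
    rw [e1, e2] at h3
    linarith
  -- compare the entropies
  have h3 : ∀ n : ℕ, Hp μ (itin T Q n) ≤ Hp μ (itin T (P j) n) + n * ε := by
    intro n
    have h4 := main μ hQ hP hT n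
    have h5 := Hp_le_pair μ (hQ.itin hT.measurable n) (hP.itin hT.measurable n)
    have h6 : (n : ℝ) * (Hp μ (fun x => (Q x, P j x)) - Hp μ (P j)) ≤ n * ε := by gcongr
    linarith
  have h4 : hPart μ T Q ≤ hPart μ T (P j) + ε := by
    unfold hPart
    have h5 : ∀ᶠ n : ℕ in atTop, ENNReal.ofReal (Hp μ (itin T Q n) / n) ≤
        ENNReal.ofReal (Hp μ (itin T (P j) n) / n) + ε := by
      filter_upwards [eventually_ge_atTop 1] with n hn
      have hn' : (0 : ℝ) < n := by exact_mod_cast hn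
      rw [← ENNReal.ofReal_coe_nnreal, ← ENNReal.ofReal_add
        (div_nonneg (Hp_nonneg μ _) hn'.le) (by positivity)]
      apply ENNReal.ofReal_le_ofReal
      rw [div_le_iff₀ hn']
      have e : (Hp μ (itin T (P j) n) / n + ε) * n = Hp μ (itin T (P j) n) + n * ε := by
        field_simp
      rw [e]
      exact h3 n
    refine (limsup_le_limsup h5).trans (le_of_eq ?_)
    exact limsup_add_const atTop _ _ (by isBoundedDefault) (by isBoundedDefault)
  calc hPart μ T Q ≤ hPart μ T (P j) + ε := h4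
    _ ≤ c + ε := by gcongr

end Pool.Agent.SobEnt
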