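import Pool.Agent.SobEnt.Targets2

/-!
# KLOG: choice of a small relative width
-/

open MeasureTheory Filter Topology Set

namespace Pool.Agent.SobEnt

theorem p_KLOG : T_KLOG := by
  intro a c ε m ha _ hε
  have hlim : Tendsto (fun κ : ℝ => c * (Real.log a * κ - m * (Real.log κ * κ))) (𝓝[>] 0)
      (𝓝 (c * (Real.log a * 0 - m * 0))) := by
    refine Tendsto.const_mul _ (Tendsto.sub (Tendsto.const_mul _ ?_) (Tendsto.const_mul _ ?_))
    · exact tendsto_nhdsWithin_of_tendsto_nhds tendsto_id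
    · have hc : Continuous fun x : ℝ => x * Real.log x := Real.continuous_mul_log
      have h5 := hc.tendsto 0
      simp only [zero_mul] at h5
      refine (tendsto_nhdsWithin_of_tendsto_nhds h5).congr fun x => ?_
      ring
  have h0 : c * (Real.log a * 0 - m * 0) = 0 := by ring
  rw [h0] at hlim
  have h1 : ∀ᶠ κ : ℝ in 𝓝[>] 0, c * (Real.log a * κ - m * (Real.log κ * κ)) < ε :=
    hlim.eventually (gt_mem_nhds hε)
  have h2 : ∀ᶠ κ : ℝ in 𝓝[>] 0, κ < 1 / 2 := by
    exact mem_nhdsWithin_of_mem_nhds (gt_mem_nhds (by norm_num))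
  have h3 : ∀ᶠ κ : ℝ in 𝓝[>] 0, 0 < κ := self_mem_nhdsWithin
  obtain ⟨κ, hκ1, hκ2, hκ3⟩ := (h1.and (h2.and h3)).exists
  refine ⟨κ, hκ3, hκ2, ?_⟩
  have hlog : Real.log (a / κ ^ m) = Real.log a - m * Real.log κ := by
    rw [Real.log_div (by linarith) (by positivity), Real.log_pow]
  rw [hlog]
  have : c * κ * (Real.log a - m * Real.log κ) =
      c * (Real.log a * κ - m * (Real.log κ * κ)) := by ring
  rw [this]
  exact hκ1.le

end Pool.Agent.SobEnt
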