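import Pool.Agent.SobEnt.Targets2

/-!
# LABX: the singular values of neighbouring pieces are close
-/

open MeasureTheory Filter Topology Set

namespace Pool.Agent.SobEnt

namespace LABX

lemma sum_succ {d : ℕ} (g : Fin d → ℝ) (j : Fin d) :
    ∑ l ∈ Finset.univ.filter (fun l : Fin d => (l : ℕ) < (j : ℕ) + 1), g l =
      ∑ l ∈ Finset.univ.filter (fun l : Fin d => (l : ℕ) < (j : ℕ)), g l + g j := by
  have h1 : Finset.univ.filter (fun l : Fin d => (l : ℕ) < (j : ℕ) + 1) =
      insert j (Finset.univ.filter (fun l : Fin d => (l : ℕ) < (j : ℕ))) := by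
    ext l
    simp only [Finset.mem_filter, Finset.mem_univ, true_and, Finset.mem_insert]
    constructor
    · intro h
      rcases Nat.lt_succ_iff_lt_or_eq.1 h with h2 | h2
      · exact Or.inr h2
      · exact Or.inl (Fin.ext h2)
    · rintro (rfl | h)
      · exact Nat.lt_succ_self _
      · omega
  rw [h1, Finset.sum_insert (by simp), add_comm]

end LABX

theorem p_LABX : T_LABX := by
  intro d v v' s a C' ha hC h1 h2 h3
  have step : ∀ i, i + 1 < d → ∀ j, |Real.log (s (i + 1) j) - Real.log (s i j)| ≤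
      2 * a + 4 * C' := by
    intro i hi j
    have hj1 : (j : ℕ) ≤ d := j.2.le
    have hj2 : (j : ℕ) + 1 ≤ d := j.2
    have e1 := abs_le.1 (h1 i (by omega) j hj1)
    have e2 := abs_le.1 (h1 i (by omega) (j + 1) hj2)
    have e3 := abs_le.1 (h2 i hi j hj1)
    have e4 := abs_le.1 (h2 i hi (j + 1) hj2)
    have e5 := abs_le.1 (h3 i hi j hj1)
    have e6 := abs_le.1 (h3 i hi (j + 1) hj2)
    rw [LABX.sum_succ (fun l => Real.log (s i l)) j] at e2
    rw [LABX.sum_succ (fun l => Real.log (s (i + 1) l)) j] at e4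
    rw [abs_le]
    constructor <;> linarith [e1.1, e1.2, e2.1, e2.2, e3.1, e3.2, e4.1, e4.2, e5.1, e5.2, e6.1, e6.2]
  have tel : ∀ i, i < d → ∀ j, |Real.log (s i j) - Real.log (s 0 j)| ≤ i * (2 * a + 4 * C') := by
    intro i
    induction i with
    | zero => intro _ j; simp
    | succ i ih =>
      intro hi j
      have e1 := abs_le.1 (ih (by omega) j)
      have e2 := abs_le.1 (step i hi j)
      rw [abs_le]
      push_cast
      constructor <;> linarith [e1.1, e1.2, e2.1, e2.2]
  intro i hi j
  refine (tel i hi j).trans ?_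
  refine mul_le_mul_of_nonneg_right ?_ (by positivity)
  exact_mod_cast hi.le

end Pool.Agent.SobEnt
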