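import Pool.Agent.SobEnt.CD

/-!
# LIPM: elementary properties of the local dilation (MP_07df6b_an)
-/

open MeasureTheory Filter Topology Set Bundle
open scoped ENNReal NNReal Manifold ContDiff

universe u v w

namespace Pool.Agent.SobEnt

noncomputable section

namespace LIPM

open CD

variable {X : Type u} [MetricSpace X]

/-- the supremum at the scale `n` -/
def F (T : X → X) (n : ℕ) (x : X) : ℝ≥0∞ :=
  ⨆ y ∈ Metric.ball x (1 / ((n : ℝ) + 1)), edist (T x) (T y)

theorem lipAt_eq (T : X → X) (x : X) :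
    lipAt T x = limsup (fun n : ℕ => ((n : ℝ≥0∞) + 1) * F T n x) atTop := rfl

theorem lsc_F {T : X → X} (hT : Continuous T) (n : ℕ) : LowerSemicontinuous (F T n) := by
  intro x₀ a ha
  simp only [F, lt_iSup_iff] at ha
  obtain ⟨y, hy, hay⟩ := ha
  have h1 : ∀ᶠ x in 𝓝 x₀, a < edist (T x) (T y) :=
    (hT.edist continuous_const).continuousAt.eventually (lt_mem_nhds hay)
  have h2 : ∀ᶠ x in 𝓝 x₀, y ∈ Metric.ball x (1 / ((n : ℝ) + 1)) := by
    have h3 : Continuous fun x : X => dist y x := continuous_const.dist continuous_id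
    exact h3.continuousAt.eventually (gt_mem_nhds hy)
  filter_upwards [h1, h2] with x hx1 hx2
  simp only [F, lt_iSup_iff]
  exact ⟨y, hx2, hx1⟩

theorem measurable_lipAt [MeasurableSpace X] [BorelSpace X] {T : X → X} (hT : Continuous T) :
    Measurable (lipAt T) := by
  have h1 : lipAt T = fun x => limsup (fun n : ℕ => ((n : ℝ≥0∞) + 1) * F T n x) atTop := rfl
  rw [h1]
  exact Measurable.limsup fun n => (lsc_F hT n).measurable.const_mul _

theorem lipAt_le_lip {T : X → X} {K : ℝ≥0} (hT : LipschitzWith K T) (x : X) : lipAt T x ≤ K := by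
  have h1 := lipAt_le_of_eventually (T := T) (x := x) (c := K) K.2
    (Eventually.of_forall fun y => hT.dist_le_mul x y)
  rwa [ENNReal.ofReal_coe_nnreal] at h1

theorem eventually_of_lipAt_lt {T : X → X} {x : X} {c : ℝ} (hc : 0 < c)
    (h : lipAt T x < ENNReal.ofReal c) : ∀ᶠ y in 𝓝 x, dist (T x) (T y) ≤ c * dist x y := by
  -- an intermediate number
  obtain ⟨a, ha, hac, hla⟩ : ∃ a : ℝ, 0 < a ∧ a < c ∧ lipAt T x < ENNReal.ofReal a := by
    obtain ⟨m, hm1, hm2⟩ := exists_between h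
    have hmt : m ≠ ⊤ := ne_top_of_lt hm2
    have hm0 : 0 < m := lt_of_le_of_lt bot_le hm1
    refine ⟨m.toReal, ENNReal.toReal_pos hm0.ne' hmt, ?_, ?_⟩
    · rw [← ENNReal.ofReal_lt_ofReal_iff hc, ENNReal.ofReal_toReal hmt]
      exact hm2
    · rw [ENNReal.ofReal_toReal hmt]
      exact hm1
  have h1 : ∀ᶠ n : ℕ in atTop, ((n : ℝ≥0∞) + 1) * F T n x < ENNReal.ofReal a :=
    eventually_lt_of_limsup_lt (by rwa [← lipAt_eq])
  -- the ratio of consecutive scales
  have h2 : ∀ᶠ n : ℕ in atTop, a * (((n : ℝ) + 2) / ((n : ℝ) + 1)) ≤ c := by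
    have h3 : Tendsto (fun n : ℕ => a * (1 + 1 / ((n : ℝ) + 1))) atTop (𝓝 (a * (1 + 0))) :=
      (tendsto_one_div_add_atTop_nhds_zero_nat.const_add 1).const_mul a
    have h4 : a * (1 + 0) < c := by simpa using hac
    filter_upwards [h3.eventually (gt_mem_nhds h4)] with n hn
    have h5 : ((n : ℝ) + 2) / ((n : ℝ) + 1) = 1 + 1 / ((n : ℝ) + 1) := by
      field_simp; ring
    rw [h5]
    exact hn.le
  obtain ⟨M, hM⟩ := eventually_atTop.1 (h1.and h2)
  have h6 : ∀ᶠ y in 𝓝 x, dist y x < 1 / ((M : ℝ) + 1) := Metric.ball_mem_nhds x (by positivity)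
  filter_upwards [h6] with y hy
  rcases eq_or_ne x y with rfl | hxy
  · simp
  have hδ : 0 < dist x y := dist_pos.2 hxy
  obtain ⟨m₀, hm₀⟩ := exists_nat_one_div_lt hδ
  classical
  have hex : ∃ m : ℕ, 1 / ((m : ℝ) + 1) ≤ dist x y := ⟨m₀, hm₀.le⟩
  set m := Nat.find hex with hm
  have hm1 : 1 / ((m : ℝ) + 1) ≤ dist x y := Nat.find_spec hex
  have hmM : M < m := by
    by_contra hle
    have h7 : 1 / ((M : ℝ) + 1) ≤ 1 / ((m : ℝ) + 1) :=
      one_div_le_one_div_of_le (by positivity) (by exact_mod_cast Nat.succ_le_succ (not_lt.1 hle))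
    rw [dist_comm] at hy
    linarith
  obtain ⟨n, hn⟩ : ∃ n, m = n + 1 := ⟨m - 1, by omega⟩
  have hn2 : dist x y < 1 / ((n : ℝ) + 1) := by
    have := Nat.find_min hex (m := n) (by omega)
    exact not_le.1 this
  obtain ⟨hn3, hn4⟩ := hM n (by omega)
  have hn5 : 1 / ((n : ℝ) + 2) ≤ dist x y := by
    rw [hn] at hm1
    have : ((n + 1 : ℕ) : ℝ) + 1 = (n : ℝ) + 2 := by push_cast; ring
    rwa [this] at hm1
  have h8 : edist (T x) (T y) ≤ F T n x := by
    refine le_iSup₂_of_le y ?_ le_rfl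
    rw [Metric.mem_ball']
    exact hn2
  have h9 : ((n : ℝ≥0∞) + 1) * edist (T x) (T y) < ENNReal.ofReal a := by
    refine lt_of_le_of_lt ?_ hn3
    gcongr
  have h10 : ((n : ℝ) + 1) * dist (T x) (T y) < a := by
    have h11 : ((n : ℝ≥0∞) + 1) * edist (T x) (T y) =
        ENNReal.ofReal (((n : ℝ) + 1) * dist (T x) (T y)) := by
      rw [ENNReal.ofReal_mul (by positivity), edist_dist, ENNReal.ofReal_add (by positivity)
        zero_le_one, ENNReal.ofReal_natCast, ENNReal.ofReal_one]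
    rw [h11, ENNReal.ofReal_lt_ofReal_iff ha] at h9
    exact h9
  have hn1 : (0 : ℝ) < (n : ℝ) + 1 := by positivity
  calc dist (T x) (T y) = ((n : ℝ) + 1) * dist (T x) (T y) / ((n : ℝ) + 1) := by field_simp
    _ ≤ a / ((n : ℝ) + 1) := by gcongr
    _ = a * (((n : ℝ) + 2) / ((n : ℝ) + 1)) * (1 / ((n : ℝ) + 2)) := by field_simp
    _ ≤ c * (1 / ((n : ℝ) + 2)) := by gcongr
    _ ≤ c * dist x y := mul_le_mul_of_nonneg_left hn5 hc.le

theorem lipAt_comp_le {S T : X → X} {K L : ℝ≥0} (hS : LipschitzWith K S) (hT : LipschitzWith L T)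
    (x : X) : lipAt (S ∘ T) x ≤ lipAt S (T x) * lipAt T x := by
  have hAt : lipAt T x ≠ ⊤ := ne_top_of_le_ne_top ENNReal.coe_ne_top (lipAt_le_lip hT x)
  have hBt : lipAt S (T x) ≠ ⊤ := ne_top_of_le_ne_top ENNReal.coe_ne_top (lipAt_le_lip hS (T x))
  set A := (lipAt T x).toReal with hA
  set B := (lipAt S (T x)).toReal with hB
  have hA0 : 0 ≤ A := ENNReal.toReal_nonneg
  have hB0 : 0 ≤ B := ENNReal.toReal_nonneg
  have key : ∀ ε : ℝ, 0 < ε → lipAt (S ∘ T) x ≤ ENNReal.ofReal ((B + ε) * (A + ε)) := by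
    intro ε hε
    have h1 : lipAt T x < ENNReal.ofReal (A + ε) := by
      rw [← ENNReal.ofReal_toReal hAt, ENNReal.ofReal_lt_ofReal_iff (by positivity)]
      linarith
    have h2 : lipAt S (T x) < ENNReal.ofReal (B + ε) := by
      rw [← ENNReal.ofReal_toReal hBt, ENNReal.ofReal_lt_ofReal_iff (by positivity)]
      linarith
    have h3 := eventually_of_lipAt_lt (by positivity) h1
    have h4 := (hT.continuous.tendsto x).eventually (eventually_of_lipAt_lt (by positivity) h2)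
    refine lipAt_le_of_eventually (by positivity) ?_
    filter_upwards [h3, h4] with y hy1 hy2
    calc dist ((S ∘ T) x) ((S ∘ T) y) ≤ (B + ε) * dist (T x) (T y) := hy2
      _ ≤ (B + ε) * ((A + ε) * dist x y) := mul_le_mul_of_nonneg_left hy1 (by positivity)
      _ = (B + ε) * (A + ε) * dist x y := by ring
  have h5 : Tendsto (fun ε : ℝ => ENNReal.ofReal ((B + ε) * (A + ε))) (𝓝[>] 0)
      (𝓝 (lipAt S (T x) * lipAt T x)) := by
    have h3 : Continuous fun ε : ℝ => ENNReal.ofReal ((B + ε) * (A + ε)) :=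
      ENNReal.continuous_ofReal.comp (by fun_prop)
    have h4 := (h3.tendsto 0).mono_left (nhdsWithin_le_nhds (s := Ioi 0))
    simp only [add_zero] at h4
    rwa [ENNReal.ofReal_mul hB0, hA, hB, ENNReal.ofReal_toReal hAt, ENNReal.ofReal_toReal hBt]
      at h4
  refine ge_of_tendsto h5 ?_
  filter_upwards [self_mem_nhdsWithin] with ε hε
  exact key ε hε

theorem lipAt_congr {S T : X → X} {x : X} (h : ∀ᶠ y in 𝓝 x, S y = T y) :
    lipAt S x = lipAt T x := by
  rw [lipAt_eq, lipAt_eq]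
  refine limsup_congr ?_
  obtain ⟨ε, hε, hball⟩ := Metric.eventually_nhds_iff_ball.1 h
  obtain ⟨N, hN⟩ := exists_nat_one_div_lt hε
  filter_upwards [eventually_ge_atTop N] with n hn
  have h1 : 1 / ((n : ℝ) + 1) < ε := by
    refine lt_of_le_of_lt ?_ hN
    exact one_div_le_one_div_of_le (by positivity) (by exact_mod_cast Nat.succ_le_succ hn)
  unfold F
  congr 1
  refine iSup_congr fun y => iSup_congr fun hy => ?_
  have hy' : dist y x < 1 / ((n : ℝ) + 1) := hy
  rw [hball y (hy'.trans h1), h.self_of_nhds]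

theorem lipAt_id (x : X) : lipAt (id : X → X) x ≤ 1 := by
  have h1 := lipAt_le_lip (T := (id : X → X)) (K := 1) LipschitzWith.id x
  simpa using h1

end LIPM

/-- LIPM: elementary properties of the local dilation -/
theorem p_LIPM : T_LIPM.{u} := by
  intro X _ _ _
  exact ⟨fun T hT => LIPM.measurable_lipAt hT, fun T K hT x => LIPM.lipAt_le_lip hT x,
    fun S T K L hS hT x => LIPM.lipAt_comp_le hS hT x, fun S T x h => LIPM.lipAt_congr h,
    fun x => LIPM.lipAt_id x⟩

end

end Pool.Agent.SobEnt
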