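import Pool.Agent.SobEnt.Targets

/-!
# LOC: the orbits of `f ∘ φ` in a neighbourhood (MP_07df6b_an)
-/

open MeasureTheory Filter Topology Set Bundle
open scoped ENNReal NNReal Manifold ContDiff

universe u v w

namespace Pool.Agent.SobEnt

noncomputable section

namespace LOC

/-- the orbit of a point with a good itinerary -/
theorem orbit {X : Type u} {f φ : X → X} {d M : ℕ} {W : Set X} {x : X}
    (hφ : ∀ z, z ∉ W → φ z = z) (hx : x ∉ W)
    (h : ∀ i < d, ∀ m : ℕ, 0 < m → m < M → f^[m] ((fun z => φ (f^[M] z))^[i] x) ∉ W) :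
    ∀ i < d, ∀ m : ℕ, 1 ≤ m → m ≤ M →
      (fun z => f (φ z))^[i * M + m] x = f^[m] ((fun z => φ (f^[M] z))^[i] x) := by
  intro i
  induction i with
  | zero =>
    intro hi m hm
    induction m, hm using Nat.le_induction with
    | base =>
      intro _
      simp only [zero_mul, zero_add, Function.iterate_one, Function.iterate_zero, id]
      rw [hφ x hx]
    | succ m hm ih =>
      intro hmM
      have h1 := ih (by omega)
      rw [← add_assoc, Function.iterate_succ_apply', h1, hφ _ (h 0 hi m (by omega) (by omega)),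
        Function.iterate_succ_apply']
  | succ i ihi =>
    intro hi m hm
    induction m, hm using Nat.le_induction with
    | base =>
      intro hM
      have h1 := ihi (by omega) M (by omega) le_rfl
      rw [Function.iterate_succ_apply', Nat.succ_mul, h1, Function.iterate_one,
        Function.iterate_succ_apply' (fun z => φ (f^[M] z))]
    | succ m hm ih =>
      intro hmM
      have h1 := ih (by omega)
      rw [← add_assoc, Function.iterate_succ_apply', h1,
        hφ _ (h (i + 1) hi m (by omega) (by omega)), Function.iterate_succ_apply' f m]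

end LOC

/-- LOC: the same identity in a neighbourhood -/
theorem p_LOC : T_LOC.{u} := by
  intro X _ f φ hf hφc d M W x hd hM hW hφ hx h
  have hΨ : Continuous (fun z => φ (f^[M] z)) := hφc.comp (hf.iterate M)
  have h1 : ∀ᶠ x' in 𝓝 x, x' ∉ W := hW.isOpen_compl.mem_nhds hx
  have h2 : ∀ᶠ x' in 𝓝 x, ∀ i ∈ Finset.range d, ∀ m ∈ Finset.range M, 0 < m →
      f^[m] ((fun z => φ (f^[M] z))^[i] x') ∉ W := by
    rw [eventually_all_finset]
    intro i hi
    rw [eventually_all_finset]
    intro m hm
    by_cases hm0 : 0 < m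
    · have h3 : Continuous (fun x' => f^[m] ((fun z => φ (f^[M] z))^[i] x')) :=
        (hf.iterate m).comp (hΨ.iterate i)
      have h4 : ∀ᶠ x' in 𝓝 x, f^[m] ((fun z => φ (f^[M] z))^[i] x') ∉ W :=
        h3.continuousAt.eventually (hW.isOpen_compl.mem_nhds
          (h i (Finset.mem_range.1 hi) m hm0 (Finset.mem_range.1 hm)))
      exact h4.mono fun x' hx' _ => hx'
    · exact Eventually.of_forall fun x' h0 => absurd h0 hm0
  filter_upwards [h1, h2] with x' hx1 hx2
  have h3 := LOC.orbit (d := d) (M := M) hφ hx1
    (fun i hi m hm hmM => hx2 i (Finset.mem_range.2 hi) m (Finset.mem_range.2 hmM) hm)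
    (d - 1) (by omega) M hM le_rfl
  have h4 : (d - 1) * M + M = d * M := by
    obtain ⟨e, rfl⟩ : ∃ e, d = e + 1 := ⟨d - 1, by omega⟩
    rw [Nat.add_sub_cancel, Nat.succ_mul]
  rwa [h4] at h3

end

end Pool.Agent.SobEnt
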