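import Pool.Agent.SobEnt.Targets2

/-!
# MAIN, second part: the local dilation along good itineraries (MP_07df6b_an)
-/

open MeasureTheory Filter Topology Set
open scoped ENNReal NNReal

universe u

namespace Pool.Agent.SobEnt

namespace MAIN

/-- The dilation of the `dM`-th iterate along a good itinerary. -/
theorem ptwise (hCH : T_CHAIN.{u}) (hLX : T_LABX) {X : Type u} [MetricSpace X]
    [MeasurableSpace X] [BorelSpace X] {lam : Measure X} {d : ℕ} (V : VAtlas X lam d)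
    (idx : X → Fin V.n) (f φ : X ≃ₜ X) (M : ℕ) (hd : 1 ≤ d) (hM : 1 ≤ M)
    (D : X → (EN d →L[ℝ] EN d)) (Λ η C' a : ℝ) (ha : 0 ≤ a) (hC' : 0 ≤ C')
    (Us Ws : ℕ → (EN d ≃ₗᵢ[ℝ] EN d)) (ss : ℕ → Fin d → ℝ) (hss : ∀ n, IsSV Λ (ss n))
    (lab : X → ℕ) (N : Set X)
    (hN : ∀ x ∈ N, V.HasCD (idx x) (idx (f^[M] x)) f^[M] x (D x) ∧
      ‖D x - usw (Us (lab x)) (ss (lab x)) (Ws (lab x))‖ ≤ η ∧
      ‖D (f^[M] x) - usw (Us (lab (f^[M] x))) (ss (lab (f^[M] x))) (Ws (lab (f^[M] x)))‖ ≤ η)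
    (Vk : ℕ → (EN d →L[ℝ] EN d) → ℝ)
    (hLab : ∀ (E : EN d →L[ℝ] EN d) (n : ℕ), ‖E - usw (Us n) (ss n) (Ws n)‖ ≤ η → ∀ k ≤ d,
      |Real.log (Vk k E) -
        ∑ j ∈ Finset.univ.filter (fun j : Fin d => (j : ℕ) < k), Real.log (ss n j)| ≤ C')
    (hPR : ∀ (γ : ℝ) (D : ℕ → (EN d →L[ℝ] EN d)) (U W Q : ℕ → (EN d ≃ₗᵢ[ℝ] EN d))
      (s : ℕ → Fin d → ℝ), 0 ≤ γ → (∀ i < d, IsSV Λ (s i)) →
      (∀ i < d, ‖D i - usw (U i) (s i) (W i)‖ ≤ η) →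
      (∀ i < d, ∀ j, |Real.log (s i j) - Real.log (s 0 j)| ≤ γ) → (∀ i < d, IsShift (Q i)) →
      ‖chainL D (fun i => isoL (((U (i - 1)).symm.trans (Q i)).trans (W i).symm)) (d - 1)‖ ≤
        Real.exp (d * γ) + 1)
    (Zb : Set X) (hZb : ∀ x, x ∉ Zb → ∀ k ≤ d,
      |Real.log (Vk k (D x)) - Real.log (Vk k (D (f^[M] x)))| ≤ a)
    {m : ℕ} (b : Fin m → CBall V) (θ : Fin m → ℕ) (R Q : Fin m → (EN d ≃ₗᵢ[ℝ] EN d))
    (hQ : ∀ j, IsShift (Q j)) (hR : ∀ j, R j =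
      (((Us (θ j).unpair.2).symm.trans (Q j)).trans (Ws (θ j).unpair.1).symm))
    (Q₀ : EN d ≃ₗᵢ[ℝ] EN d) (hQ₀ : IsShift Q₀) (κ₁ : ℝ)
    (hφR : ∀ j, ∀ x ∈ (b j).inner κ₁, V.HasCD (b j).i (b j).i φ x (isoL (R j)))
    (W : Set X) (hW : IsClosed W) (hφid : ∀ x, x ∉ W → φ x = x)
    (x : X) (hxW : x ∉ W)
    (hx : ∀ i < d, (fun z => φ (f^[M] z))^[i] x ∈ N ∧ (fun z => φ (f^[M] z))^[i] x ∉ Zb ∧
      (∀ n : ℕ, 0 < n → n < M → f^[n] ((fun z => φ (f^[M] z))^[i] x) ∉ W) ∧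
      (i + 1 < d → ∃ j : Fin m, f^[M] ((fun z => φ (f^[M] z))^[i] x) ∈ (b j).inner κ₁ ∧
        idx (f^[M] ((fun z => φ (f^[M] z))^[i] x)) = (b j).i ∧
        idx ((fun z => φ (f^[M] z))^[i + 1] x) = (b j).i ∧
        lab (f^[M] ((fun z => φ (f^[M] z))^[i] x)) = (θ j).unpair.1 ∧
        lab ((fun z => φ (f^[M] z))^[i] x) = (θ j).unpair.2 ∧
        lab ((fun z => φ (f^[M] z))^[i + 1] x) = (θ j).unpair.1)) :
    lipAt ((fun z => f (φ z))^[d * M]) x ≤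
      ENNReal.ofReal (V.K ^ 2 * (Real.exp (d * (d * (2 * a + 4 * C'))) + 1)) := by
  classical
  set y : ℕ → X := fun i => (fun z => φ (f^[M] z))^[i] x with hy
  have hx' : ∀ i < d, y i ∈ N ∧ y i ∉ Zb ∧ (∀ n : ℕ, 0 < n → n < M → f^[n] (y i) ∉ W) ∧
      (i + 1 < d → ∃ j : Fin m, f^[M] (y i) ∈ (b j).inner κ₁ ∧
        idx (f^[M] (y i)) = (b j).i ∧ idx (y (i + 1)) = (b j).i ∧
        lab (f^[M] (y i)) = (θ j).unpair.1 ∧ lab (y i) = (θ j).unpair.2 ∧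
        lab (y (i + 1)) = (θ j).unpair.1) := hx
  have hy1 : ∀ i, y (i + 1) = φ (f^[M] (y i)) := fun i => Function.iterate_succ_apply' _ _ _
  -- the shifts
  have hex : ∀ i : ℕ, ∃ Qi : EN d ≃ₗᵢ[ℝ] EN d, IsShift Qi ∧ (i + 1 < d → ∃ j : Fin m,
      Qi = Q j ∧ f^[M] (y i) ∈ (b j).inner κ₁ ∧
        idx (f^[M] (y i)) = (b j).i ∧ idx (y (i + 1)) = (b j).i ∧
        lab (f^[M] (y i)) = (θ j).unpair.1 ∧ lab (y i) = (θ j).unpair.2 ∧
        lab (y (i + 1)) = (θ j).unpair.1) := by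
    intro i
    by_cases hi : i + 1 < d
    · obtain ⟨j, hj⟩ := (hx' i (by omega)).2.2.2 hi
      exact ⟨Q j, hQ j, fun _ => ⟨j, rfl, hj⟩⟩
    · exact ⟨Q₀, hQ₀, fun h => absurd h hi⟩
  choose Q' hQ'1 hQ'2 using hex
  set Qs : ℕ → (EN d ≃ₗᵢ[ℝ] EN d) := fun i => Q' (i - 1) with hQs
  set U : ℕ → (EN d ≃ₗᵢ[ℝ] EN d) := fun i => Us (lab (y i)) with hU
  set W' : ℕ → (EN d ≃ₗᵢ[ℝ] EN d) := fun i => Ws (lab (y i)) with hW'
  set s : ℕ → Fin d → ℝ := fun i => ss (lab (y i)) with hs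
  have hlog : ∀ i < d, ∀ j, |Real.log (s i j) - Real.log (s 0 j)| ≤ d * (2 * a + 4 * C') := by
    refine hLX d (fun i k => Real.log (Vk k (D (y i))))
      (fun i k => Real.log (Vk k (D (f^[M] (y i))))) s a C' ha hC' ?_ ?_ ?_
    · intro i hi k hk
      exact hLab _ _ (hN _ (hx' i hi).1).2.1 k hk
    · intro i hi k hk
      obtain ⟨j, -, -, -, -, e1, -, e3⟩ := hQ'2 i hi
      have h1 := hLab _ _ (hN _ (hx' i (by omega)).1).2.2 k hk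
      rw [e1, ← e3] at h1
      exact h1
    · intro i hi k hk
      exact hZb _ (hx' i (by omega)).2.1 k hk
  have hγ0 : (0 : ℝ) ≤ d * (2 * a + 4 * C') := by positivity
  have hprod := hPR (d * (2 * a + 4 * C')) (fun i => D (y i)) U W' Qs s hγ0
    (fun i _ => hss _) (fun i hi => (hN _ (hx' i hi).1).2.1) hlog (fun i _ => hQ'1 _)
  have hchain := hCH X lam d V idx f φ M W x (fun i => D (y i))
    (fun i => isoL (((U (i - 1)).symm.trans (Qs i)).trans (W' i).symm)) f.continuous φ.continuous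
    hd hM hW hφid hxW (fun i hi n hn hn' => (hx' i hi).2.2.1 n hn hn')
    (fun i hi => (hN _ (hx' i hi).1).1) (by
      intro i hi
      obtain ⟨j, e0, e1, e2, e3, e4, e5, e6⟩ := hQ'2 i hi
      have h1 := hφR j _ e1
      change V.HasCD (idx (f^[M] (y i))) (idx (y (i + 1))) φ (f^[M] (y i))
        (isoL (((U (i + 1 - 1)).symm.trans (Qs (i + 1))).trans (W' (i + 1)).symm))
      have e7 : ((U (i + 1 - 1)).symm.trans (Qs (i + 1))).trans (W' (i + 1)).symm = R j := by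
        rw [hR j]
        simp only [hU, hQs, hW', Nat.add_sub_cancel, e0, e5, e6]
      rw [e7, e2, e3]
      exact h1)
  refine hchain.trans (ENNReal.ofReal_le_ofReal ?_)
  exact mul_le_mul_of_nonneg_left hprod (by positivity)

end MAIN

end Pool.Agent.SobEnt
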