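import Pool.Agent.SobEnt.MAINA
import Pool.Agent.SobEnt.MAINB

/-!
# MAIN: the dynamical part of the theorem (MP_07df6b_an)
-/

open MeasureTheory Filter Topology Set
open scoped ENNReal NNReal

universe u

namespace Pool.Agent.SobEnt

namespace MAIN

theorem exists_lab {X : Type u} [MeasurableSpace X] {d : ℕ} (D : X → (EN d →L[ℝ] EN d))
    (hD : Measurable D) (E : ℕ → (EN d →L[ℝ] EN d)) (η : ℝ) :
    ∃ lab : X → ℕ, Measurable lab ∧ ∀ x, (∃ n, ‖D x - E n‖ < η) → ‖D x - E (lab x)‖ < η := by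
  classical
  have hp : ∀ x, ∃ n, ‖D x - E n‖ < η ∨ ∀ k, ¬ ‖D x - E k‖ < η := by
    intro x
    by_cases h : ∃ n, ‖D x - E n‖ < η
    · obtain ⟨n, hn⟩ := h
      exact ⟨n, Or.inl hn⟩
    · exact ⟨0, Or.inr fun k hk => h ⟨k, hk⟩⟩
  have hm0 : ∀ n, MeasurableSet {x | ‖D x - E n‖ < η} := fun n =>
    measurableSet_lt (hD.sub_const _).norm measurable_const
  have hm : ∀ n, MeasurableSet {x | ‖D x - E n‖ < η ∨ ∀ k, ¬ ‖D x - E k‖ < η} := by
    intro n
    have : {x | ‖D x - E n‖ < η ∨ ∀ k, ¬ ‖D x - E k‖ < η} =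
        {x | ‖D x - E n‖ < η} ∪ ⋂ k, {x | ‖D x - E k‖ < η}ᶜ := by
      ext x; simp
    rw [this]
    exact (hm0 n).union (MeasurableSet.iInter fun k => (hm0 k).compl)
  refine ⟨fun x => Nat.find (hp x), measurable_find hp hm, fun x hx => ?_⟩
  rcases Nat.find_spec (hp x) with h | h
  · exact h
  · obtain ⟨n, hn⟩ := hx
    exact absurd hn (h n)

theorem exists_conull {X : Type u} [MeasurableSpace X] {μ : Measure X} {P : X → Prop}
    (h : ∀ᵐ x ∂μ, P x) : ∃ N : Set X, MeasurableSet N ∧ μ Nᶜ = 0 ∧ ∀ x ∈ N, P x := by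
  refine ⟨(toMeasurable μ {x | ¬ P x})ᶜ, (measurableSet_toMeasurable _ _).compl, ?_, ?_⟩
  · rw [compl_compl, measure_toMeasurable]
    exact h
  · intro x hx
    by_contra hP
    exact hx (subset_toMeasurable μ _ hP)

theorem markov {X : Type u} [MeasurableSpace X] {μ : Measure X} [IsFiniteMeasure μ] {g : X → ℝ}
    (hg : Integrable g μ) {t c : ℝ} (ht : 0 < t) (hc : ∫ x, |g x| ∂μ ≤ c) :
    μ.real {x | t < |g x|} ≤ c / t := by
  have h1 := mul_meas_ge_le_integral_of_nonneg (μ := μ) (f := fun x => |g x|)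
    (Eventually.of_forall fun x => abs_nonneg _) hg.abs t
  have h2 : μ.real {x | t < |g x|} ≤ μ.real {x | t ≤ |g x|} :=
    measureReal_mono fun x hx => by
      simp only [mem_ofPred_eq] at hx ⊢
      exact hx.le
  rw [le_div_iff₀ ht]
  calc μ.real {x | t < |g x|} * t ≤ μ.real {x | t ≤ |g x|} * t := by gcongr
    _ = t * μ.real {x | t ≤ |g x|} := mul_comm _ _
    _ ≤ _ := h1
    _ ≤ c := hc

theorem logLip_le {X : Type u} [MetricSpace X] {T : X → X} {x : X} {r : ℝ} (hr : 1 ≤ r)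
    (h : lipAt T x ≤ ENNReal.ofReal r) : logLip T x ≤ Real.log r := by
  unfold logLip
  have h1 : (lipAt T x).toReal ≤ r := by
    have := ENNReal.toReal_mono ENNReal.ofReal_ne_top h
    rwa [ENNReal.toReal_ofReal (by linarith)] at this
  exact Real.log_le_log (by positivity) (max_le hr h1)

theorem logLip_nonneg {X : Type u} [MetricSpace X] (T : X → X) (x : X) : 0 ≤ logLip T x :=
  Real.log_nonneg (le_max_left _ _)

/-- the numerical choice at the end -/
theorem numeric {d M : ℕ} (hd : 1 ≤ d) (hM : 1 ≤ M) {Λ0 lB lA lU lYc I Sb lZb C₁ e₀ κ₁ κc ε δ₁ C' lK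
    : ℝ} (hΛ0 : 0 < Λ0) (hC₁ : 0 ≤ C₁) (hε : 0 < ε) (hκ₁ : 0 < κ₁)
    (he₀ : e₀ = ε * Λ0 / (12 * d * (C₁ + 1))) (hδ₁ : δ₁ = ε / (8 * d ^ 2))
    (hκlog : 2 * d ^ 3 * κ₁ * C₁ ≤ ε / 4)
    (hκc : (d * M) * (d * (κc * (M + 4) * (1 + Λ0))) ≤ e₀)
    (hlB : d * M * lB ≤ Λ0)
    (hAB : lB - lA ≤ Sb + d * (2 * d * κ₁ * lB) + d * (κc * (M + 4) * (1 + Λ0)))
    (hAB' : lA ≤ lB) (hSb : d * M * Sb ≤ d ^ 2 * lZb) (hZb : d ^ 2 * lZb ≤ e₀)
    (hY : lYc - d * M * lB ≤ e₀) (hU : lU ≤ lYc - d * M * lA)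
    (hI : I ≤ (lK + d * (d * (2 * (δ₁ * M) + 4 * C'))) * lA)
    (hlK : 0 ≤ lK) (hC' : 0 ≤ C') (hMbig : 4 * (lK + 4 * d ^ 2 * C') / ε ≤ M) :
    d / Λ0 * (I + C₁ * lU) ≤ ε := by
  have hd' : (1 : ℝ) ≤ d := by exact_mod_cast hd
  have hM' : (1 : ℝ) ≤ M := by exact_mod_cast hM
  have hd0 : (0 : ℝ) < d := by linarith
  have hM0 : (0 : ℝ) < M := by linarith
  have hδ0 : 0 < δ₁ := by rw [hδ₁]; positivity
  -- the measure of the uncovered part
  have h1 : lU ≤ 3 * e₀ + 2 * d ^ 2 * κ₁ * Λ0 := by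
    have a1 : d * M * (lB - lA) ≤ d * M * (Sb + d * (2 * d * κ₁ * lB) +
        d * (κc * (M + 4) * (1 + Λ0))) := by gcongr
    have a2 : d * M * (d * (2 * d * κ₁ * lB)) ≤ 2 * d ^ 2 * κ₁ * Λ0 := by
      calc d * M * (d * (2 * d * κ₁ * lB)) = 2 * d ^ 2 * κ₁ * (d * M * lB) := by ring
        _ ≤ 2 * d ^ 2 * κ₁ * Λ0 := by gcongr
    nlinarith
  -- the first term
  have h2 : d / Λ0 * (C₁ * lU) ≤ ε / 4 + ε / 4 := by
    have b1 : d / Λ0 * (C₁ * lU) ≤ d / Λ0 * (C₁ * (3 * e₀ + 2 * d ^ 2 * κ₁ * Λ0)) := by gcongr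
    have b2 : d / Λ0 * (C₁ * (3 * e₀ + 2 * d ^ 2 * κ₁ * Λ0)) =
        3 * d * C₁ * e₀ / Λ0 + 2 * d ^ 3 * κ₁ * C₁ := by
      field_simp
    have b3 : 3 * d * C₁ * e₀ / Λ0 ≤ ε / 4 := by
      rw [he₀]
      have : 3 * d * C₁ * (ε * Λ0 / (12 * d * (C₁ + 1))) / Λ0 = ε / 4 * (C₁ / (C₁ + 1)) := by
        field_simp
        ring
      rw [this]
      have h3 : C₁ / (C₁ + 1) ≤ 1 := by
        rw [div_le_one (by linarith)]; linarith
      have h4 : 0 < ε / 4 := by positivity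
      nlinarith
    linarith
  -- the second term
  have h3 : d / Λ0 * I ≤ ε / 4 + ε / 4 := by
    set c₂ := lK + d * (d * (2 * (δ₁ * M) + 4 * C')) with hc₂
    have hc0 : 0 ≤ c₂ := by positivity
    have c1 : lA ≤ Λ0 / (d * M) := by
      rw [le_div_iff₀ (by positivity)]
      calc lA * (d * M) ≤ lB * (d * M) := by gcongr
        _ = d * M * lB := by ring
        _ ≤ Λ0 := hlB
    have c2 : d / Λ0 * I ≤ c₂ / M := by
      calc d / Λ0 * I ≤ d / Λ0 * (c₂ * lA) := by gcongr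
        _ ≤ d / Λ0 * (c₂ * (Λ0 / (d * M))) := by gcongr
        _ = c₂ / M := by field_simp
    have c3 : c₂ / M = (lK + 4 * d ^ 2 * C') / M + 2 * d ^ 2 * δ₁ := by
      rw [hc₂]; field_simp; ring
    have c4 : 2 * d ^ 2 * δ₁ = ε / 4 := by
      rw [hδ₁]; field_simp; ring
    have c5 : (lK + 4 * d ^ 2 * C') / M ≤ ε / 4 := by
      rw [div_le_iff₀ hM0]
      rw [div_le_iff₀ hε] at hMbig
      linarith
    linarith
  calc d / Λ0 * (I + C₁ * lU) = d / Λ0 * I + d / Λ0 * (C₁ * lU) := by ring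
    _ ≤ ε := by linarith

end MAIN

open MAIN in
theorem p_MAIN (hVB : T_VBAS.{u}) (hTW : T_TOWER.{u}) (hSH : T_SHIFT.{u}) (hCO : T_COCY.{u})
    (hSV : T_SVD) (hVK : T_VK) (hLA : T_LAB) (hLX : T_LABX) (hPR : T_PROD) (hPI : T_PI)
    (hCV : T_COV.{u}) (hPH : T_PHI.{u}) (hCF : T_CFACT.{u}) (hDY : T_DYN.{u}) (hCH : T_CHAIN.{u})
    (hKL : T_KLOG) (hEB : T_ENTB.{u}) (hLM : T_LIPM.{u}) : T_MAIN.{u} := by
  intro X _ _ _ _ lam d V hd hne f L₀ hfL₀ hfm ε hε
  classical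
  have h1d : 1 ≤ d := by omega
  obtain ⟨hfin, hpos, -, ⟨idx, hidx, hidx'⟩, -, -, -, -⟩ := hVB X lam d V h1d
  have : IsFiniteMeasure lam := ⟨hfin⟩
  have hpos' := hpos hne
  set Λ0 : ℝ := lam.real univ with hΛ0
  have hΛ0p : 0 < Λ0 := ENNReal.toReal_pos hpos'.ne' hfin.ne
  set L : ℝ≥0 := max L₀ 1 with hL
  have hfL : LipschitzWith L f := hfL₀.weaken (le_max_left _ _)
  have hL1 : 1 ≤ L := le_max_right _ _
  have hL1' : (1 : ℝ) ≤ L := by exact_mod_cast hL1
  obtain ⟨Cφ, mφ, ρ₀, hCφ, hρ₀, hφex⟩ := hPH X lam d V h1d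
  obtain ⟨Vk, CV, hG⟩ := hVK d
  obtain ⟨C', hC', hLab⟩ := hLA d Vk CV h1d hG
  have hK1 := V.one_le_K
  obtain ⟨κ₁, hκ₁, hκ₁', hκlog⟩ := hKL (L * Cφ) (2 * d ^ 3) (ε / 4) mφ
    (by nlinarith) (by positivity) (by positivity)
  have hκpow : 0 < κ₁ ^ mφ := by positivity
  have hκpow1 : κ₁ ^ mφ ≤ 1 := pow_le_one₀ hκ₁.le (by linarith)
  set C₁ : ℝ := Real.log (L * Cφ / κ₁ ^ mφ) with hC₁
  have hbig : 1 ≤ L * Cφ / κ₁ ^ mφ := by
    rw [le_div_iff₀ hκpow]; nlinarith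
  have hC₁0 : 0 ≤ C₁ := Real.log_nonneg hbig
  refine ⟨Real.toNNReal (Cφ / κ₁ ^ mφ), fun ρ δ hρ hδ => ?_⟩
  set e₀ : ℝ := ε * Λ0 / (12 * d * (C₁ + 1)) with he₀
  have hd0 : (0 : ℝ) < d := by exact_mod_cast (by omega : 0 < d)
  have he₀p : 0 < e₀ := by positivity
  set δ₁ : ℝ := ε / (8 * d ^ 2) with hδ₁
  have hδ₁p : 0 < δ₁ := by positivity
  set lK : ℝ := 2 * Real.log V.K + Real.log 2 with hlK
  have hlK0 : 0 ≤ lK := by
    have h1 := Real.log_nonneg hK1
    have h2 := Real.log_nonneg (by norm_num : (1 : ℝ) ≤ 2)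
    positivity
  set N₀ : ℕ := max ⌈4 * (lK + 4 * d ^ 2 * C') / ε⌉₊ ⌈2 * Λ0 / δ⌉₊ with hN₀
  obtain ⟨D, hDm, hDae, hDg⟩ := hCO X lam d V idx h1d hidx hidx' f L hfL f.injective hfm hL1
  obtain ⟨M, hMN, hM1, hMint⟩ := hDg Vk CV hG (e₀ * δ₁ / (d ^ 2 * (d + 1))) N₀ (by positivity)
  have hM0 : (0 : ℝ) < M := by exact_mod_cast (by omega : 0 < M)
  have hMbig : 4 * (lK + 4 * d ^ 2 * C') / ε ≤ M :=
    (Nat.le_ceil _).trans (by exact_mod_cast (le_max_left _ _).trans hMN)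
  have hMδ : 2 * Λ0 / δ ≤ M :=
    (Nat.le_ceil _).trans (by exact_mod_cast (le_max_right _ _).trans hMN)
  -- labels
  set Λ : ℝ := V.K ^ 2 * L ^ M with hΛ
  have hΛ1 : 1 ≤ Λ := by
    have h1 : (1 : ℝ) ≤ V.K ^ 2 := one_le_pow₀ hK1
    have h2 : (1 : ℝ) ≤ (L : ℝ) ^ M := one_le_pow₀ hL1'
    nlinarith
  obtain ⟨η₁, hη₁, hLab⟩ := hLab Λ hΛ1
  obtain ⟨η₂, hη₂, hPR⟩ := hPR d Λ h1d hΛ1
  set η : ℝ := min η₁ η₂ with hη
  have hηp : 0 < η := lt_min hη₁ hη₂
  obtain ⟨Us, Ws, ss, hss, hSV⟩ := hSV d Λ η hΛ1 hηp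
  obtain ⟨lab, hlabm, hlab⟩ := exists_lab (D M) (hDm M) (fun n => usw (Us n) (ss n) (Ws n)) η
  have hlab' : ∀ x, |(D M x).det| = 1 → ‖D M x‖ ≤ Λ →
      ‖D M x - usw (Us (lab x)) (ss (lab x)) (Ws (lab x))‖ ≤ η := fun x h1 h2 =>
    (hlab x (hSV _ h1 h2)).le
  have hfMm : MeasurePreserving f^[M] lam lam := hfm.iterate M
  obtain ⟨N, hNm, hN0, hN⟩ := exists_conull ((hDae M).and
    (hfMm.quasiMeasurePreserving.ae (hDae M)))
  -- the bad set
  set Zb : Set X := ⋃ k ∈ Finset.range (d + 1), {x | δ₁ * M <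
    |Real.log (Vk k (D M x)) - Real.log (Vk k (D M (f^[M] x)))|} with hZb
  have hVkm : ∀ k, Measurable fun x => Real.log (Vk k (D M x)) := fun k =>
    Real.measurable_log.comp ((hG.2.1 k).measurable.comp (hDm M))
  have hZbm : MeasurableSet Zb := by
    refine MeasurableSet.biUnion (Finset.countable_toSet _) fun k _ => ?_
    exact measurableSet_lt measurable_const
      ((hVkm k).sub ((hVkm k).comp hfMm.measurable)).abs
  have hZbl : d ^ 2 * lam.real Zb ≤ e₀ := by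
    have h1 : lam.real Zb ≤ ∑ k ∈ Finset.range (d + 1), e₀ / (d ^ 2 * (d + 1)) := by
      refine (measureReal_biUnion_finset_le _ _).trans (Finset.sum_le_sum fun k hk => ?_)
      rw [Finset.mem_range] at hk
      obtain ⟨hi, hi'⟩ := hMint k (by omega)
      have h2 := markov hi (by positivity : 0 < δ₁ * M) hi'
      refine h2.trans (le_of_eq ?_)
      field_simp
    rw [Finset.sum_const, Finset.card_range, nsmul_eq_mul] at h1
    have h2 : ((d + 1 : ℕ) : ℝ) * (e₀ / (d ^ 2 * (d + 1))) = e₀ / d ^ 2 := by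
      push_cast; field_simp
    rw [h2] at h1
    rw [le_div_iff₀ (by positivity)] at h1
    linarith
  have hZb' : ∀ x, x ∉ Zb → ∀ k ≤ d,
      |Real.log (Vk k (D M x)) - Real.log (Vk k (D M (f^[M] x)))| ≤ δ₁ * M := by
    intro x hx k hk
    by_contra hlt
    apply hx
    simp only [hZb, mem_iUnion, exists_prop, mem_ofPred_eq]
    exact ⟨k, Finset.mem_range.2 (by omega), not_le.1 hlt⟩
  -- the tower
  have hdM : 1 ≤ d * M := Nat.mul_pos (by omega) (by omega)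
  obtain ⟨Y, q, B₀, hYc, hfY, hq, hYq, hB₀m, hB₀Y, hB₀d, hB₀κ⟩ :=
    hTW X lam f hfm (d * M) e₀ hdM he₀p
  obtain ⟨B, hBm, hBY, hBd, hYB, hBΛ, hlevm, hlevY, hlevl, hBZ⟩ :=
    hSH X lam f.toMeasurableEquiv hfm d M Y B₀ Zb e₀ h1d hM1 hYc.measurableSet hfY hB₀m hZbm hB₀Y
      hB₀d hB₀κ
  have hlevm' : ∀ i, MeasurableSet (f^[i] '' B) := hlevm
  have hlevY' : ∀ i, f^[i] '' B ⊆ Yᶜ := hlevY
  have hlevl' : ∀ i, lam.real (f^[i] '' B) = lam.real B := hlevl
  have hBd' : ∀ i j : ℕ, i < j → j < d * M → Disjoint (f^[i] '' B) (f^[j] '' B) := hBd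
  -- the covering
  set Z : Fin (d - 1) → Set X := fun l => f^[((l : ℕ) + 1) * M] '' B with hZ
  set Θ : X → ℕ := fun z => Nat.pair (lab z) (lab (f.symm^[M] z)) with hΘ
  have hΘm : Measurable Θ := by
    have h1 : Measurable fun z => (lab z, lab (f.symm^[M] z)) :=
      hlabm.prodMk (hlabm.comp (f.symm.continuous.iterate M).measurable)
    exact (Measurable.of_discrete (f := fun p : ℕ × ℕ => Nat.pair p.1 p.2)).comp h1
  obtain ⟨κc, hκcp, hκc2, hκcM⟩ : ∃ κc : ℝ, 0 < κc ∧ κc ≤ 1 / 2 ∧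
      (d * M) * (d * (κc * (M + 4) * (1 + Λ0))) ≤ e₀ := by
    have hden : 0 < (d : ℝ) * M * (d * ((M + 4) * (1 + Λ0))) := by positivity
    refine ⟨min (1 / 2) (e₀ / (d * M * (d * ((M + 4) * (1 + Λ0))))), by positivity,
      min_le_left _ _, ?_⟩
    calc (d : ℝ) * M * (d * (min (1 / 2) (e₀ / (d * M * (d * ((M + 4) * (1 + Λ0))))) *
            (M + 4) * (1 + Λ0)))
        = min (1 / 2) (e₀ / (d * M * (d * ((M + 4) * (1 + Λ0))))) *
          (d * M * (d * ((M + 4) * (1 + Λ0)))) := by ring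
      _ ≤ e₀ / (d * M * (d * ((M + 4) * (1 + Λ0)))) *
          (d * M * (d * ((M + 4) * (1 + Λ0)))) := by
          gcongr; exact min_le_right _ _
      _ = e₀ := by field_simp
  have hKp : 0 < V.K := by linarith
  have hZd : ∀ l l', l ≠ l' → Disjoint (Z l) (Z l') := by
    intro l l' hll
    have h1 : ((l : ℕ) + 1) * M ≠ ((l' : ℕ) + 1) * M := by
      intro h
      apply hll
      have := Nat.eq_of_mul_eq_mul_right (by omega) h
      exact Fin.ext (by omega)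
    have hlt : ∀ l : Fin (d - 1), ((l : ℕ) + 1) * M < d * M := fun l =>
      Nat.mul_lt_mul_of_pos_right (by have := l.2; omega) (by omega)
    rcases lt_or_gt_of_ne h1 with h | h
    · exact hBd' _ _ h (hlt l')
    · exact (hBd' _ _ h (hlt l)).symm
  obtain ⟨m, b, ℓ, θ, hb1, hb2, hb3, hb4⟩ := hCV X lam d V idx h1d hidx hidx' (d - 1) Z Θ Yᶜ κc
    (min ρ₀ (ρ / (2 * V.K))) hΘm (fun l => hlevm' _) (fun l => hlevY' _) hYc.isOpen_compl hZd hκcp
    (by positivity)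
  set G : Fin m → Set X := fun j => Z (ℓ j) ∩ Θ ⁻¹' {θ j} ∩ idx ⁻¹' {(b j).i} with hGdef
  have hGm : ∀ j, MeasurableSet (G j) := fun j =>
    ((hlevm' _).inter (hΘm (measurableSet_singleton _))).inter (hidx (measurableSet_singleton _))
  -- the rotations
  have hQex : ∀ j : Fin m, ∃ Q : EN d ≃ₗᵢ[ℝ] EN d, IsShift Q ∧
      (isoL (((Us (θ j).unpair.2).symm.trans Q).trans (Ws (θ j).unpair.1).symm)).det = 1 :=
    fun j => hPI d _ _ h1d
  choose Q hQ hQdet using hQex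
  obtain ⟨Q₀, hQ₀, -⟩ := hPI d (Us 0) (Ws 0) h1d
  obtain ⟨φ, hφL, -, hφm, hφid, hφS, hφR⟩ := hφex κ₁ hκ₁ hκ₁' m b
    (fun j => ((Us (θ j).unpair.2).symm.trans (Q j)).trans (Ws (θ j).unpair.1).symm)
    (fun j => (hb1 j).2.trans (min_le_left _ _)) hb2 hQdet
  obtain ⟨hWc, hSm, hIm, hIS, hWl, hc1, hc2, hc3, hc4, hdiam⟩ := hCF X lam d V h1d m b (d - 1) ℓ Z
    G κc κ₁ hb2 (fun l => hlevm' _) hZd hGm (fun j => by
      intro x hx; exact hx.1.1) hκcp hκc2 hκ₁ hκ₁' hb3 hb4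
  set W : Set X := ⋃ j, (b j).S with hW
  have hZl : ∀ l, lam.real (Z l) = lam.real B := fun l => hlevl' _
  have hlBnn : 0 ≤ lam.real B := measureReal_nonneg
  -- good itineraries
  obtain ⟨A, hAm, hAB, hAlev, hBA, hAx⟩ := goodItin hDY f φ hfm hφm M h1d hM1 B hBm hBd'
    (fun j => (b j).S) G (fun j => (b j).inner κ₁) ℓ hSm hGm hIm hb2 hφS hφid N Zb hNm hN0 hZbm
    κc (2 * d * κ₁ * lam.real B) hκcp.le (by positivity) hc1 hc2 hc3
    (fun l => (hc4 l).trans (le_of_eq (by rw [hZl]))) (fun j x hx => hx.1.1)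
  refine ⟨φ, W, hφL, hφm, ?_, hWc, ?_, hφid, ?_⟩
  · -- distance to the identity
    intro x
    by_cases hx : x ∈ W
    · simp only [hW, mem_iUnion] at hx
      obtain ⟨j, hj⟩ := hx
      have h1 : φ x ∈ (b j).S := by
        rw [← hφS j]; exact mem_image_of_mem _ hj
      have h2 := hdiam j _ h1 _ hj
      have h3 : (b j).r ≤ ρ / (2 * V.K) := (hb1 j).2.trans (min_le_right _ _)
      calc dist (φ x) x ≤ 2 * V.K * (b j).r := h2
        _ ≤ 2 * V.K * (ρ / (2 * V.K)) := by gcongr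
        _ = ρ := by field_simp
    · rw [hφid x hx, dist_self]; exact hρ.le
  · -- measure of W
    refine hWl.trans ?_
    have h1 : ∑ l : Fin (d - 1), lam.real (Z l) = ((d - 1 : ℕ) : ℝ) * lam.real B := by
      rw [Finset.sum_congr rfl fun l _ => hZl l, Finset.sum_const, Finset.card_univ,
        Fintype.card_fin, nsmul_eq_mul]
    rw [h1]
    have h2 : ((d - 1 : ℕ) : ℝ) ≤ d := by exact_mod_cast Nat.sub_le d 1
    have h3 : (d : ℝ) * M * lam.real B ≤ Λ0 := by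
      have := hBΛ
      push_cast at this
      exact this
    have h4 : M * (2 * (((d - 1 : ℕ) : ℝ) * lam.real B)) ≤ M * δ := by
      calc M * (2 * (((d - 1 : ℕ) : ℝ) * lam.real B)) ≤ M * (2 * (d * lam.real B)) := by gcongr
        _ = 2 * (d * M * lam.real B) := by ring
        _ ≤ 2 * Λ0 := by gcongr
        _ ≤ M * δ := by rwa [div_le_iff₀ hδ] at hMδ
    exact le_of_mul_le_mul_left h4 hM0
  · -- entropy
    set g : X ≃ₜ X := φ.trans f with hg
    have hgc : (g : X → X) = fun z => f (φ z) := rfl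
    set Lg : ℝ≥0 := L * Real.toNNReal (Cφ / κ₁ ^ mφ) with hLg
    have hgL : LipschitzWith Lg g := hfL.comp hφL
    have hgm : MeasurePreserving g lam lam := hfm.comp hφm
    have hLgr : (Lg : ℝ) = L * Cφ / κ₁ ^ mφ := by
      rw [hLg, NNReal.coe_mul, Real.coe_toNNReal _ (by positivity)]
      ring
    have hlip1 : ∀ x, logLip g x ≤ C₁ := by
      intro x
      refine logLip_le hbig ?_
      have := (hLM X).2.1 g Lg hgL x
      rw [← hLgr, ENNReal.ofReal_coe_nnreal]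
      exact this
    have hφY : ∀ y ∈ Y, φ y = y := by
      intro y hy
      apply hφid
      intro hyW
      simp only [hW, mem_iUnion] at hyW
      obtain ⟨j, hj⟩ := hyW
      exact (hb1 j).1 hj hy
    have hφY' : ∀ x, φ x ∈ Y ↔ x ∈ Y := by
      intro x
      constructor
      · intro h
        have h1 := hφY _ h
        have h2 := φ.injective h1
        rwa [h2] at h
      · intro h
        rw [hφY x h]; exact h
    have hgY : g ⁻¹' Y = Y := by
      ext x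
      have h1 : g x ∈ Y ↔ φ x ∈ Y := by
        have : φ x ∈ f ⁻¹' Y ↔ φ x ∈ Y := by rw [hfY]
        exact this
      rw [mem_preimage, h1, hφY']
    have hfYm : ∀ y ∈ Y, f y ∈ Y := by
      intro y hy
      have : y ∈ f ⁻¹' Y := by rw [hfY]; exact hy
      exact this
    have hgq : ∀ n : ℕ, ∀ y ∈ Y, g^[n] y = f^[n] y := by
      intro n
      induction n with
      | zero => intro y _; rfl
      | succ n ih =>
        intro y hy
        rw [Function.iterate_succ_apply, Function.iterate_succ_apply]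
        have h1 : g y = f y := by
          change f (φ y) = f y
          rw [hφY y hy]
        rw [h1]
        exact ih _ (hfYm y hy)
    have hAY : A ⊆ Yᶜ := hAB.trans hBY
    have hAlev' : ∀ j < d * M, g^[j] '' A ⊆ f^[j] '' B := hAlev
    have hAdisj : ∀ i j : ℕ, i < j → j < d * M → Disjoint (g^[i] '' A) (g^[j] '' A) :=
      fun i j hij hj => (hBd' i j hij hj).mono (hAlev' i (by omega)) (hAlev' j hj)
    have hent := hEB X lam d V h1d hne g Lg hgL hgm Y q hYc hgY hq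
      (fun y hy => by rw [hgq q y hy]; exact hYq y hy) C₁ (d * M) A hlip1 hdM hAm hAY hAdisj
    refine hent.trans (ENNReal.ofReal_le_ofReal ?_)
    -- the integral over A
    set r : ℝ := V.K ^ 2 * (Real.exp (d * (d * (2 * (δ₁ * M) + 4 * C'))) + 1) with hr
    have hexp1 : 1 ≤ Real.exp (d * (d * (2 * (δ₁ * M) + 4 * C'))) :=
      Real.one_le_exp (by positivity)
    have hr1 : 1 ≤ r := by
      have h1 : (1 : ℝ) ≤ V.K ^ 2 := one_le_pow₀ hK1
      nlinarith
    have hlogr : Real.log r ≤ lK + d * (d * (2 * (δ₁ * M) + 4 * C')) := by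
      have h1 : r ≤ V.K ^ 2 * (2 * Real.exp (d * (d * (2 * (δ₁ * M) + 4 * C')))) := by
        rw [hr]; gcongr; linarith
      refine (Real.log_le_log (by linarith) h1).trans (le_of_eq ?_)
      rw [Real.log_mul (by positivity) (by positivity), Real.log_mul (by norm_num)
        (Real.exp_pos _).ne', Real.log_exp, Real.log_pow, hlK]
      push_cast
      ring
    have hpt : ∀ x ∈ A, logLip g^[d * M] x ≤ lK + d * (d * (2 * (δ₁ * M) + 4 * C')) := by
      intro x hx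
      refine (logLip_le hr1 ?_).trans hlogr
      obtain ⟨hxW, hx'⟩ := hAx x hx
      refine ptwise hCH hLX V idx f φ M h1d hM1 (D M) Λ η C' (δ₁ * M) (by positivity) hC'.le
        Us Ws ss hss lab N ?_ Vk ?_ ?_ Zb hZb' b θ
        (fun j => ((Us (θ j).unpair.2).symm.trans (Q j)).trans (Ws (θ j).unpair.1).symm) Q hQ
        (fun j => rfl) Q₀ hQ₀ κ₁ hφR W hWc hφid x hxW ?_
      · intro z hz
        obtain ⟨h1, h2⟩ := hN z hz
        exact ⟨h1.1, hlab' _ h1.2.1 h1.2.2, hlab' _ h2.2.1 h2.2.2⟩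
      · intro E n hE k hk
        exact (hLab E (Us n) (Ws n) (ss n) (hss n) (hE.trans (min_le_left _ _)) k hk).2
      · intro γ D' U' W' Q' s' h1 h2 h3 h4 h5
        exact hPR γ D' U' W' Q' s' h1 h2 (fun i hi => (h3 i hi).trans (min_le_right _ _)) h4 h5
      · intro i hi
        obtain ⟨p1, p2, p3, p4⟩ := hx' i hi
        refine ⟨p1, p2, p3, fun hid => ?_⟩
        obtain ⟨j, hj, ⟨⟨-, hjG⟩, hjI⟩, ⟨-, hjG'⟩⟩ := p4 hid
        have e1 : Θ (f^[M] ((fun z => φ (f^[M] z))^[i] x)) = θ j := hjG.1.2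
        have e2 : Θ ((fun z => φ (f^[M] z))^[i + 1] x) = θ j := hjG'.1.2
        have hinv : f.symm^[M] (f^[M] ((fun z => φ (f^[M] z))^[i] x)) =
            (fun z => φ (f^[M] z))^[i] x :=
          Function.LeftInverse.iterate (fun x => f.symm_apply_apply x) M _
        refine ⟨j, hjI, hjG.2, hjG'.2, ?_, ?_, ?_⟩
        · rw [← e1]; simp [hΘ]
        · rw [← e1]; simp only [hΘ, Nat.unpair_pair]; rw [hinv]
        · rw [← e2]; simp [hΘ]
    have hI : ∫ x in A, logLip g^[d * M] x ∂lam ≤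
        (lK + d * (d * (2 * (δ₁ * M) + 4 * C'))) * lam.real A := by
      have := norm_setIntegral_le_of_norm_le_const (μ := lam) (s := A)
        (f := fun x => logLip g^[d * M] x) (C := lK + d * (d * (2 * (δ₁ * M) + 4 * C')))
        (measure_lt_top _ _) (fun x hx => by
          rw [Real.norm_eq_abs, abs_of_nonneg (logLip_nonneg _ _)]
          exact hpt x hx)
      exact (le_abs_self _).trans this
    -- the uncovered part
    have hgi : ∀ i, MeasurableSet (g^[i] '' A) := fun i => level_meas g i hAm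
    have hgi' : ∀ i, lam.real (g^[i] '' A) = lam.real A := fun i => level_real g hgm i hAm
    have hUm : lam.real (⋃ i ∈ Finset.range (d * M), g^[i] '' A) = (d * M) * lam.real A := by
      rw [measureReal_biUnion_finset]
      · rw [Finset.sum_congr rfl fun i _ => hgi' i, Finset.sum_const, Finset.card_range,
          nsmul_eq_mul]
        push_cast; ring
      · intro i hi j hj hij
        have hi' := Finset.mem_range.1 hi
        have hj' := Finset.mem_range.1 hj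
        rcases lt_or_gt_of_ne hij with h | h
        · exact hAdisj i j h hj'
        · exact (hAdisj j i h hi').symm
      · intro i _; exact hgi i
    have hUsub : (⋃ i ∈ Finset.range (d * M), g^[i] '' A) ⊆ Yᶜ := by
      intro y hy
      simp only [mem_iUnion, exists_prop] at hy
      obtain ⟨i, hi, hy⟩ := hy
      exact hlevY' i (hAlev' i (Finset.mem_range.1 hi) hy)
    have hU : lam.real (Yᶜ \ ⋃ i ∈ Finset.range (d * M), g^[i] '' A) ≤
        lam.real Yᶜ - d * M * lam.real A := by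
      rw [measureReal_sdiff hUsub (MeasurableSet.biUnion (Finset.countable_toSet _)
        fun i _ => hgi i), hUm]
    have hABl : lam.real (B \ A) = lam.real B - lam.real A := measureReal_sdiff hAB hAm
    rw [hABl] at hBA
    have hAB' : lam.real A ≤ lam.real B := measureReal_mono hAB
    refine numeric (lB := lam.real B) (lA := lam.real A) (lYc := lam.real Yᶜ)
      (Sb := ∑ i ∈ Finset.range d, lam.real (f^[i * M] '' B ∩ Zb)) (lZb := lam.real Zb)
      (κ₁ := κ₁) (κc := κc) (δ₁ := δ₁) (C' := C') (lK := lK) (e₀ := e₀) h1d hM1 hΛ0p hC₁0 hε hκ₁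
      he₀ hδ₁ hκlog hκcM ?_ ?_ hAB' ?_ hZbl ?_ hU hI hlK0 hC'.le hMbig
    · have := hBΛ; push_cast at this; exact this
    · exact hBA
    · have := hBZ; push_cast at this; exact this
    · have := hYB; push_cast at this; exact this

end Pool.Agent.SobEnt
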