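import Pool.Agent.SobEnt.Targets2

/-!
# MESH: finite partitions with small mesh
-/

open MeasureTheory Filter Topology Set
open scoped ENNReal NNReal

universe u

namespace Pool.Agent.SobEnt

namespace MESH

/-- one partition -/
lemma one {X : Type u} [MetricSpace X] [CompactSpace X] [MeasurableSpace X] [BorelSpace X]
    (ε : ℝ) (hε : 0 < ε) : ∃ (k : ℕ) (P : X → Fin k), Measurable P ∧
      ∀ x y, P x = P y → dist x y ≤ 2 * ε := by
  classical
  obtain ⟨t, -, ht⟩ := (isCompact_univ (X := X)).finite_cover_balls hε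
  obtain ⟨htf, htc⟩ := ht
  set l : List X := htf.toFinset.toList with hl
  have hcov : ∀ x : X, ∃ n : ℕ, ∃ h : n < l.length, dist x (l[n]) < ε := by
    intro x
    have hx := htc (Set.mem_univ x)
    rw [Set.mem_iUnion₂] at hx
    obtain ⟨y, hy, hxy⟩ := hx
    have hy' : y ∈ l := by
      rw [hl, Finset.mem_toList]
      exact htf.mem_toFinset.2 hy
    obtain ⟨n, hn, hn'⟩ := List.getElem_of_mem hy'
    exact ⟨n, hn, by rw [hn']; exact hxy⟩
  refine ⟨l.length, fun x => ⟨Nat.find (hcov x), (Nat.find_spec (hcov x)).1⟩, ?_, ?_⟩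
  · apply measurable_to_countable'
    intro i
    have h : (fun x => (⟨Nat.find (hcov x), (Nat.find_spec (hcov x)).1⟩ : Fin l.length)) ⁻¹' {i} =
        Metric.ball (l[i.1]'i.2) ε \ ⋃ j : {j : Fin l.length // j < i},
          Metric.ball (l[j.1.1]'j.1.2) ε := by
      ext x
      simp only [Set.mem_preimage, Set.mem_singleton_iff, Set.mem_sdiff, Metric.mem_ball,
        Set.mem_iUnion, not_exists, not_lt, Subtype.forall, Fin.ext_iff]
      rw [Nat.find_eq_iff]
      constructor
      · rintro ⟨⟨_, h1⟩, h2⟩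
        refine ⟨h1, fun j hj => ?_⟩
        by_contra h3
        exact h2 j.1 hj ⟨j.2, not_le.1 h3⟩
      · rintro ⟨h1, h2⟩
        refine ⟨⟨i.2, h1⟩, fun n hn h3 => ?_⟩
        obtain ⟨h4, h5⟩ := h3
        exact absurd h5 (not_lt.2 (h2 ⟨n, h4⟩ hn))
    rw [h]
    exact Metric.isOpen_ball.measurableSet.diff
      (MeasurableSet.iUnion fun _ => Metric.isOpen_ball.measurableSet)
  · intro x y hxy
    have h1 := (Nat.find_spec (hcov x)).2
    have h2 := (Nat.find_spec (hcov y)).2
    have h3 : Nat.find (hcov x) = Nat.find (hcov y) := congrArg Fin.val hxy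
    have h4 : l[Nat.find (hcov x)]'(Nat.find_spec (hcov x)).1 =
        l[Nat.find (hcov y)]'(Nat.find_spec (hcov y)).1 := by
      congr 1
    have h5 := dist_triangle_right x y (l[Nat.find (hcov x)]'(Nat.find_spec (hcov x)).1)
    rw [h4] at h5 h1
    linarith

end MESH

theorem p_MESH : T_MESH.{u} := by
  intro X _ _ _ _
  have h : ∀ j : ℕ, ∃ (k : ℕ) (P : X → Fin k), Measurable P ∧
      ∀ x y, P x = P y → dist x y ≤ 2 * (1 / ((j : ℝ) + 1)) := fun j =>
    MESH.one _ (by positivity)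
  choose κ P hP hPd using h
  refine ⟨κ, P, hP, fun δ hδ => ?_⟩
  have h1 : Tendsto (fun j : ℕ => 2 * (1 / ((j : ℝ) + 1))) atTop (𝓝 (2 * 0)) :=
    tendsto_one_div_add_atTop_nhds_zero_nat.const_mul 2
  rw [mul_zero] at h1
  filter_upwards [h1.eventually (ge_mem_nhds hδ)] with j hj x y hxy
  exact (hPd j x y hxy).trans hj

end Pool.Agent.SobEnt
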