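import Pool.Agent.SobEnt.Targets

/-!
# PHI: the perturbation made of twists (MP_07df6b_an)
-/

open MeasureTheory Filter Topology Set Bundle
open scoped ENNReal NNReal Manifold ContDiff

universe u v w

namespace Pool.Agent.SobEnt

noncomputable section

namespace PHI

/-! ### The path lemma -/

theorem path_lemma {X : Type*} [PseudoMetricSpace X] {ι : Type*} [DecidableEq ι]
    (F : ι → Set ℝ) (g : ℝ → X) (K : ℝ) (hF : ∀ k, IsClosed (F k)) (b : ℝ) (n : ℕ) :
    ∀ (a : ℝ) (s : Finset ι), a ≤ b → s.card = n → ContinuousOn g (Icc a b) →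
    (Icc a b ⊆ ⋃ k ∈ s, F k) →
    (∀ k ∈ s, ∀ x ∈ F k ∩ Icc a b, ∀ y ∈ F k ∩ Icc a b, dist (g x) (g y) ≤ K * |x - y|) →
    dist (g a) (g b) ≤ K * (b - a) := by
  induction n with
  | zero =>
    intro a s hab hs _ hcov _
    have hs' : s = ∅ := Finset.card_eq_zero.1 hs
    subst hs'
    have : a ∈ ⋃ k ∈ (∅ : Finset ι), F k := hcov ⟨le_refl a, hab⟩
    simp at this
  | succ n ih =>
    intro a s hab hs hg hcov hlip
    have ha : a ∈ ⋃ k ∈ s, F k := hcov ⟨le_refl a, hab⟩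
    simp only [mem_iUnion, exists_prop] at ha
    obtain ⟨k, hks, hak⟩ := ha
    have hcomp : IsCompact (F k ∩ Icc a b) := (isCompact_Icc).inter_left (hF k)
    have hne : (F k ∩ Icc a b).Nonempty := ⟨a, hak, le_refl a, hab⟩
    obtain ⟨c, hc, hcmax⟩ := hcomp.exists_isMaxOn hne continuousOn_id
    have hcmax' : ∀ x ∈ F k ∩ Icc a b, x ≤ c := fun x hx => hcmax hx
    have h1 : dist (g a) (g c) ≤ K * (c - a) := by
      have := hlip k hks a ⟨hak, le_refl a, hab⟩ c hc
      rwa [abs_sub_comm, abs_of_nonneg (sub_nonneg.2 hc.2.1)] at this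
    rcases eq_or_lt_of_le hc.2.2 with hcb | hcb
    · rw [← hcb]; exact h1
    · have h2 : ∀ c' ∈ Ioo c b, dist (g c') (g b) ≤ K * (b - c') := by
        intro c' hc'
        refine ih c' (s.erase k) hc'.2.le ?_ (hg.mono (Icc_subset_Icc_left (hc.2.1.trans hc'.1.le)))
          ?_ ?_
        · rw [Finset.card_erase_of_mem hks, hs]; rfl
        · intro x hx
          have hxab : x ∈ Icc a b := ⟨(hc.2.1.trans hc'.1.le).trans hx.1, hx.2⟩
          have := hcov hxab
          simp only [mem_iUnion, exists_prop] at this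
          obtain ⟨k', hk', hxk'⟩ := this
          have hkk : k' ≠ k := by
            rintro rfl
            have := hcmax' x ⟨hxk', hxab⟩
            have h3 := hc'.1
            have h4 := hx.1
            linarith
          simp only [mem_iUnion, exists_prop, Finset.mem_erase]
          exact ⟨k', ⟨hkk, hk'⟩, hxk'⟩
        · intro k' hk' x hx y hy
          have hsub : Icc c' b ⊆ Icc a b := Icc_subset_Icc_left (hc.2.1.trans hc'.1.le)
          exact hlip k' (Finset.mem_of_mem_erase hk') x ⟨hx.1, hsub hx.2⟩ y ⟨hy.1, hsub hy.2⟩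
      have h3 : dist (g c) (g b) ≤ K * (b - c) := by
        have hcont : Tendsto g (𝓝[Ioo c b] c) (𝓝 (g c)) :=
          ((hg c hc.2).mono (fun x hx => ⟨hc.2.1.trans hx.1.le, hx.2.le⟩))
        have hne' : (𝓝[Ioo c b] c).NeBot := by
          rw [← mem_closure_iff_nhdsWithin_neBot, closure_Ioo hcb.ne]
          exact ⟨le_refl c, hcb.le⟩
        have hid : Tendsto (fun c' : ℝ => K * (b - c')) (𝓝[Ioo c b] c) (𝓝 (K * (b - c))) := by
          have : Continuous (fun c' : ℝ => K * (b - c')) := by fun_prop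
          exact (this.tendsto c).mono_left nhdsWithin_le_nhds
        refine le_of_tendsto_of_tendsto (hcont.dist tendsto_const_nhds) hid ?_
        filter_upwards [self_mem_nhdsWithin] with c' hc'
        exact h2 c' hc'
      calc dist (g a) (g b) ≤ dist (g a) (g c) + dist (g c) (g b) := dist_triangle _ _ _
        _ ≤ K * (c - a) + K * (b - c) := add_le_add h1 h3
        _ = K * (b - a) := by ring

/-! ### Charts -/

variable {X : Type u} [MetricSpace X] [MeasurableSpace X] {lam : Measure X} {d : ℕ}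

theorem injOn_c (V : VAtlas X lam d) (i : Fin V.n) : InjOn (V.c i) (V.dom i) := by
  intro x hx y hy hxy
  have := (V.bilip i x hx y hy).1
  rw [hxy, dist_self, mul_zero] at this
  exact dist_le_zero.1 this

theorem inv_c (V : VAtlas X lam d) {i : Fin V.n} {z : EN d} (hz : z ∈ V.dom i) :
    V.inv i (V.c i z) = z :=
  (injOn_c V i).leftInvOn_invFunOn hz

theorem K_pos (V : VAtlas X lam d) : 0 < V.K := lt_of_lt_of_le one_pos V.one_le_K

theorem continuousOn_c (V : VAtlas X lam d) (i : Fin V.n) : ContinuousOn (V.c i) (V.dom i) := by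
  have : LipschitzOnWith (Real.toNNReal V.K) (V.c i) (V.dom i) := by
    refine LipschitzOnWith.of_dist_le_mul fun x hx y hy => ?_
    rw [Real.coe_toNNReal _ (K_pos V).le]
    exact (V.bilip i x hx y hy).2
  exact this.continuousOn

theorem isOpen_dom (V : VAtlas X lam d) (i : Fin V.n) : IsOpen (V.dom i) := Metric.isOpen_ball

theorem isOpen_U (V : VAtlas X lam d) (i : Fin V.n) : IsOpen (V.U i) :=
  V.isOpen_image i _ Subset.rfl Metric.isOpen_ball

theorem convex_dom (V : VAtlas X lam d) (i : Fin V.n) : Convex ℝ (V.dom i) := convex_ball _ _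

theorem inv_mem (V : VAtlas X lam d) {i : Fin V.n} {x : X} (hx : x ∈ V.U i) :
    V.inv i x ∈ V.dom i := by
  obtain ⟨z, hz, rfl⟩ := hx
  rwa [inv_c V hz]

theorem c_inv (V : VAtlas X lam d) {i : Fin V.n} {x : X} (hx : x ∈ V.U i) :
    V.c i (V.inv i x) = x := by
  obtain ⟨z, hz, rfl⟩ := hx
  rw [inv_c V hz]

theorem dist_inv_le (V : VAtlas X lam d) {i : Fin V.n} {x y : X} (hx : x ∈ V.U i)
    (hy : y ∈ V.U i) : dist (V.inv i x) (V.inv i y) ≤ V.K * dist x y := by
  obtain ⟨z, hz, rfl⟩ := hx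
  obtain ⟨w, hw, rfl⟩ := hy
  rw [inv_c V hz, inv_c V hw]
  exact (V.bilip i z hz w hw).1

theorem continuousOn_inv (V : VAtlas X lam d) (i : Fin V.n) :
    ContinuousOn (V.inv i) (V.U i) := by
  have : LipschitzOnWith (Real.toNNReal V.K) (V.inv i) (V.U i) := by
    refine LipschitzOnWith.of_dist_le_mul fun x hx y hy => ?_
    rw [Real.coe_toNNReal _ (K_pos V).le]
    exact dist_inv_le V hx hy
  exact this.continuousOn

/-! ### Scaled twists -/

/-- the scaled twist -/
def sc (p : EN d) (r : ℝ) (t : EN d → EN d) (z : EN d) : EN d := p + r • t (r⁻¹ • (z - p))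

theorem dist_sc {p : EN d} {r : ℝ} (hr : 0 < r) {t : EN d → EN d} (ht : ∀ z, ‖t z‖ = ‖z‖)
    (z : EN d) : dist (sc p r t z) p = dist z p := by
  rw [dist_eq_norm, dist_eq_norm, sc, add_sub_cancel_left, norm_smul, ht, norm_smul, norm_inv,
    ← mul_assoc, mul_inv_cancel₀ (norm_ne_zero_iff.2 hr.ne'), one_mul]

theorem sc_eq_self {p : EN d} {r : ℝ} (hr : 0 < r) {t : EN d → EN d}
    (ht : ∀ z, 1 ≤ ‖z‖ → t z = z) {z : EN d} (hz : r ≤ dist z p) : sc p r t z = z := by
  have h1 : 1 ≤ ‖r⁻¹ • (z - p)‖ := by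
    rw [norm_smul, norm_inv, Real.norm_of_nonneg hr.le, ← dist_eq_norm]
    rw [inv_mul_eq_div, one_le_div hr]
    exact hz
  rw [sc, ht _ h1, smul_smul, mul_inv_cancel₀ hr.ne', one_smul, add_sub_cancel]

theorem sc_inner {p : EN d} {r κ : ℝ} (hr : 0 < r) {t : EN d → EN d} {R : EN d ≃ₗᵢ[ℝ] EN d}
    (ht : ∀ z, ‖z‖ ≤ 1 - κ → t z = R z) {z : EN d} (hz : dist z p ≤ (1 - κ) * r) :
    sc p r t z = p + R (z - p) := by
  have h1 : ‖r⁻¹ • (z - p)‖ ≤ 1 - κ := by
    rw [norm_smul, norm_inv, Real.norm_of_nonneg hr.le, ← dist_eq_norm]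
    rw [inv_mul_eq_div, div_le_iff₀ hr]
    exact hz
  rw [sc, ht _ h1, map_smul, smul_smul, mul_inv_cancel₀ hr.ne', one_smul]

theorem dist_sc_sc {p : EN d} {r L : ℝ} (hr : 0 < r) {t : EN d → EN d}
    (ht : ∀ z w, dist (t z) (t w) ≤ L * dist z w) (z w : EN d) :
    dist (sc p r t z) (sc p r t w) ≤ L * dist z w := by
  have h1 := ht (r⁻¹ • (z - p)) (r⁻¹ • (w - p))
  rw [sc, sc, dist_add_left, dist_smul₀, Real.norm_of_nonneg hr.le]
  rw [dist_smul₀, norm_inv, Real.norm_of_nonneg hr.le, dist_sub_right] at h1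
  calc r * dist (t (r⁻¹ • (z - p))) (t (r⁻¹ • (w - p))) ≤ r * (L * (r⁻¹ * dist z w)) :=
        mul_le_mul_of_nonneg_left h1 hr.le
    _ = L * dist z w * (r * r⁻¹) := by ring
    _ = L * dist z w := by rw [mul_inv_cancel₀ hr.ne', mul_one]

theorem sc_sc {p : EN d} {r : ℝ} (hr : 0 < r) {t t' : EN d → EN d}
    (ht : ∀ z, t' (t z) = z) (z : EN d) : sc p r t' (sc p r t z) = z := by
  have h1 : r⁻¹ • (sc p r t z - p) = t (r⁻¹ • (z - p)) := by
    rw [sc, add_sub_cancel_left, smul_smul, inv_mul_cancel₀ hr.ne', one_smul]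
  rw [sc, h1, ht, smul_smul, mul_inv_cancel₀ hr.ne', one_smul, add_sub_cancel]

theorem continuous_sc {p : EN d} {r : ℝ} {t : EN d → EN d} (ht : Continuous t) :
    Continuous (sc p r t) := by
  unfold sc; fun_prop

theorem measurePreserving_sc {p : EN d} {r : ℝ} (hr : 0 < r) {t : EN d → EN d}
    (hc : Continuous t) (ht : MeasurePreserving t volume volume) :
    MeasurePreserving (sc p r t) volume volume := by
  refine ⟨(continuous_sc hc).measurable, ?_⟩
  ext s hs
  rw [Measure.map_apply (continuous_sc hc).measurable hs]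
  have hmr : Measurable (fun y : EN d => r • y) := (continuous_const_smul r).measurable
  have h1 : sc p r t ⁻¹' s = (fun z : EN d => z + (-p)) ⁻¹' ((fun y : EN d => r⁻¹ • y) ⁻¹' (t ⁻¹'
      ((fun y : EN d => r • y) ⁻¹' ((fun y : EN d => p + y) ⁻¹' s)))) := by
    ext z
    simp only [mem_preimage, sc, sub_eq_add_neg]
  have hms : MeasurableSet ((fun y : EN d => r • y) ⁻¹' ((fun y : EN d => p + y) ⁻¹' s)) :=
    hmr (measurable_const_add p hs)
  rw [h1, measure_preimage_add_right, Measure.addHaar_preimage_smul _ (inv_ne_zero hr.ne'),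
    ht.measure_preimage hms.nullMeasurableSet, Measure.addHaar_preimage_smul _ hr.ne',
    measure_preimage_add, ← mul_assoc, ← ENNReal.ofReal_mul (abs_nonneg _), ← abs_mul]
  rw [inv_pow, inv_inv, mul_inv_cancel₀ (pow_ne_zero _ hr.ne'), abs_one, ENNReal.ofReal_one,
    one_mul]

/-! ### The map -/

section Map

variable {V : VAtlas X lam d} {r : ℕ}

open Classical in
/-- the map made of the twists -/
def phi (b : Fin r → CBall V) (t : Fin r → EN d → EN d) (x : X) : X :=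
  if h : ∃ j, x ∈ (b j).S then
    V.c (b h.choose).i (sc (b h.choose).p (b h.choose).r (t h.choose) (V.inv (b h.choose).i x))
  else x

variable {b : Fin r → CBall V} {t t' : Fin r → EN d → EN d}

theorem phi_c (hdis : ∀ j j', j ≠ j' → Disjoint (b j).S (b j').S) {j : Fin r} {z : EN d}
    (hz : z ∈ Metric.closedBall (b j).p (b j).r) :
    phi b t (V.c (b j).i z) = V.c (b j).i (sc (b j).p (b j).r (t j) z) := by
  have hx : V.c (b j).i z ∈ (b j).S := ⟨z, hz, rfl⟩
  have h : ∃ j', V.c (b j).i z ∈ (b j').S := ⟨j, hx⟩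
  have hj : h.choose = j := by
    by_contra hne
    exact (disjoint_left.1 (hdis _ _ hne) h.choose_spec) hx
  rw [phi, dif_pos h, hj, inv_c V ((b j).sub hz)]

theorem phi_out {x : X} (hx : x ∉ ⋃ j, (b j).S) : phi b t x = x := by
  have h : ¬ ∃ j, x ∈ (b j).S := by
    simpa only [mem_iUnion] using hx
  rw [phi, dif_neg h]

theorem isCompact_S (c : CBall V) : IsCompact c.S :=
  (isCompact_closedBall _ _).image_of_continuousOn ((continuousOn_c V c.i).mono c.sub)

theorem phi_closure (hdis : ∀ j j', j ≠ j' → Disjoint (b j).S (b j').S)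
    (ht2 : ∀ j z, 1 ≤ ‖z‖ → t j z = z)
    {x : X} (hx : x ∈ closure (⋃ j, (b j).S)ᶜ) : phi b t x = x := by
  by_cases h : x ∈ ⋃ j, (b j).S
  · obtain ⟨j, hj⟩ := mem_iUnion.1 h
    obtain ⟨z, hz, rfl⟩ := hj
    rw [phi_c hdis hz]
    rcases lt_or_ge (dist z (b j).p) (b j).r with hlt | hge
    · exfalso
      have hop : IsOpen (V.c (b j).i '' Metric.ball (b j).p (b j).r) :=
        V.isOpen_image _ _ (Metric.ball_subset_closedBall.trans (b j).sub) Metric.isOpen_ball
      have hmem : V.c (b j).i z ∈ V.c (b j).i '' Metric.ball (b j).p (b j).r := ⟨z, hlt, rfl⟩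
      obtain ⟨y, hy, hy'⟩ := mem_closure_iff.1 hx _ hop hmem
      apply hy'
      refine mem_iUnion.2 ⟨j, ?_⟩
      exact image_mono Metric.ball_subset_closedBall hy
    · rw [sc_eq_self (b j).pos (ht2 j) hge]
  · exact phi_out h

theorem sc_mem (ht1 : ∀ j z, ‖t j z‖ = ‖z‖) {j : Fin r} {z : EN d}
    (hz : z ∈ Metric.closedBall (b j).p (b j).r) :
    sc (b j).p (b j).r (t j) z ∈ Metric.closedBall (b j).p (b j).r := by
  rw [Metric.mem_closedBall, dist_sc (b j).pos (ht1 j)]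
  exact hz

theorem phi_mem (hdis : ∀ j j', j ≠ j' → Disjoint (b j).S (b j').S)
    (ht1 : ∀ j z, ‖t j z‖ = ‖z‖) {j : Fin r} {x : X} (hx : x ∈ (b j).S) :
    phi b t x ∈ (b j).S := by
  obtain ⟨z, hz, rfl⟩ := hx
  rw [phi_c hdis hz]
  exact ⟨_, sc_mem ht1 hz, rfl⟩

theorem phi_phi (hdis : ∀ j j', j ≠ j' → Disjoint (b j).S (b j').S)
    (ht1 : ∀ j z, ‖t j z‖ = ‖z‖) (htt : ∀ j z, t' j (t j z) = z) (x : X) :
    phi b t' (phi b t x) = x := by
  by_cases h : x ∈ ⋃ j, (b j).S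
  · obtain ⟨j, hj⟩ := mem_iUnion.1 h
    obtain ⟨z, hz, rfl⟩ := hj
    rw [phi_c hdis hz, phi_c hdis (sc_mem ht1 hz), sc_sc (b j).pos (htt j)]
  · rw [phi_out h, phi_out h]

theorem phi_lip_S (hdis : ∀ j j', j ≠ j' → Disjoint (b j).S (b j').S)
    (ht1 : ∀ j z, ‖t j z‖ = ‖z‖) {L : ℝ} (hL : 0 ≤ L)
    (htL : ∀ j z w, dist (t j z) (t j w) ≤ L * dist z w) {j : Fin r} {x y : X}
    (hx : x ∈ (b j).S) (hy : y ∈ (b j).S) :
    dist (phi b t x) (phi b t y) ≤ V.K ^ 2 * L * dist x y := by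
  obtain ⟨z, hz, rfl⟩ := hx
  obtain ⟨w, hw, rfl⟩ := hy
  rw [phi_c hdis hz, phi_c hdis hw]
  have h1 := (V.bilip _ _ ((b j).sub (sc_mem ht1 hz)) _ ((b j).sub (sc_mem ht1 hw))).2
  have h2 := dist_sc_sc (b j).pos (htL j) (p := (b j).p) z w
  have h3 := (V.bilip _ _ ((b j).sub hz) _ ((b j).sub hw)).1
  have hK := K_pos V
  calc dist (V.c (b j).i (sc (b j).p (b j).r (t j) z)) (V.c (b j).i (sc (b j).p (b j).r (t j) w))
      ≤ V.K * dist (sc (b j).p (b j).r (t j) z) (sc (b j).p (b j).r (t j) w) := h1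
    _ ≤ V.K * (L * dist z w) := mul_le_mul_of_nonneg_left h2 hK.le
    _ ≤ V.K * (L * (V.K * dist (V.c (b j).i z) (V.c (b j).i w))) :=
        mul_le_mul_of_nonneg_left (mul_le_mul_of_nonneg_left h3 hL) hK.le
    _ = V.K ^ 2 * L * dist (V.c (b j).i z) (V.c (b j).i w) := by ring

/-- the closed cover -/
def cov (b : Fin r → CBall V) : Option (Fin r) → Set X
  | none => closure (⋃ j, (b j).S)ᶜ
  | some j => (b j).S

theorem isClosed_cov (k : Option (Fin r)) : IsClosed (cov b k) := by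
  cases k with
  | none => exact isClosed_closure
  | some j => exact (isCompact_S (b j)).isClosed

theorem iUnion_cov : ⋃ k, cov b k = univ := by
  refine eq_univ_of_forall fun x => ?_
  by_cases h : x ∈ ⋃ j, (b j).S
  · obtain ⟨j, hj⟩ := mem_iUnion.1 h
    exact mem_iUnion.2 ⟨some j, hj⟩
  · exact mem_iUnion.2 ⟨none, subset_closure h⟩

theorem phi_lip_cov (hdis : ∀ j j', j ≠ j' → Disjoint (b j).S (b j').S)
    (ht1 : ∀ j z, ‖t j z‖ = ‖z‖) (ht2 : ∀ j z, 1 ≤ ‖z‖ → t j z = z) {L : ℝ} (hL : 1 ≤ L)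
    (htL : ∀ j z w, dist (t j z) (t j w) ≤ L * dist z w) {k : Option (Fin r)} {x y : X}
    (hx : x ∈ cov b k) (hy : y ∈ cov b k) :
    dist (phi b t x) (phi b t y) ≤ V.K ^ 2 * L * dist x y := by
  cases k with
  | none =>
    rw [phi_closure hdis ht2 hx, phi_closure hdis ht2 hy]
    have h1 : 1 ≤ V.K ^ 2 * L := by
      have := one_le_pow₀ V.one_le_K (n := 2)
      nlinarith
    calc dist x y = 1 * dist x y := (one_mul _).symm
      _ ≤ V.K ^ 2 * L * dist x y := mul_le_mul_of_nonneg_right h1 dist_nonneg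
  | some j => exact phi_lip_S hdis ht1 (zero_le_one.trans hL) htL hx hy

theorem continuous_phi (hdis : ∀ j j', j ≠ j' → Disjoint (b j).S (b j').S)
    (ht1 : ∀ j z, ‖t j z‖ = ‖z‖) (ht2 : ∀ j z, 1 ≤ ‖z‖ → t j z = z) {L : ℝ} (hL : 1 ≤ L)
    (htL : ∀ j z w, dist (t j z) (t j w) ≤ L * dist z w) : Continuous (phi b t) := by
  refine (locallyFinite_of_finite (cov b)).continuous iUnion_cov isClosed_cov fun k => ?_
  have hK : 0 ≤ V.K ^ 2 * L := mul_nonneg (sq_nonneg _) (zero_le_one.trans hL)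
  have : LipschitzOnWith (Real.toNNReal (V.K ^ 2 * L)) (phi b t) (cov b k) := by
    refine LipschitzOnWith.of_dist_le_mul fun x hx y hy => ?_
    rw [Real.coe_toNNReal _ hK]
    exact phi_lip_cov hdis ht1 ht2 hL htL hx hy
  exact this.continuousOn

theorem phi_lip_chart (hdis : ∀ j j', j ≠ j' → Disjoint (b j).S (b j').S)
    (ht1 : ∀ j z, ‖t j z‖ = ‖z‖) (ht2 : ∀ j z, 1 ≤ ‖z‖ → t j z = z) {L : ℝ} (hL : 1 ≤ L)
    (htL : ∀ j z w, dist (t j z) (t j w) ≤ L * dist z w) {i : Fin V.n} {x y : X}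
    (hx : x ∈ V.U i) (hy : y ∈ V.U i) :
    dist (phi b t x) (phi b t y) ≤ V.K ^ 4 * L * dist x y := by
  have hK := K_pos V
  have hA : 0 ≤ V.K ^ 2 * L := mul_nonneg (sq_nonneg _) (zero_le_one.trans hL)
  let γ₀ : ℝ → EN d := fun s => AffineMap.lineMap (V.inv i x) (V.inv i y) s
  have hγ₀ : Continuous γ₀ := AffineMap.lineMap_continuous
  have hmem : ∀ s ∈ Icc (0 : ℝ) 1, γ₀ s ∈ V.dom i := by
    intro s hs
    exact (convex_dom V i).lineMap_mem (inv_mem V hx) (inv_mem V hy) hs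
  let γ : ℝ → X := fun s => V.c i (γ₀ s)
  have hγ : ContinuousOn γ (Icc 0 1) := (continuousOn_c V i).comp hγ₀.continuousOn hmem
  have hγd : ∀ s ∈ Icc (0 : ℝ) 1, ∀ s' ∈ Icc (0 : ℝ) 1,
      dist (γ s) (γ s') ≤ V.K ^ 2 * dist x y * |s - s'| := by
    intro s hs s' hs'
    have h1 := (V.bilip i _ (hmem s hs) _ (hmem s' hs')).2
    have h2 : dist (γ₀ s) (γ₀ s') = |s - s'| * dist (V.inv i x) (V.inv i y) := by
      rw [dist_lineMap_lineMap, Real.dist_eq]
    have h3 := dist_inv_le V hx hy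
    calc dist (γ s) (γ s') ≤ V.K * dist (γ₀ s) (γ₀ s') := h1
      _ = V.K * (|s - s'| * dist (V.inv i x) (V.inv i y)) := by rw [h2]
      _ ≤ V.K * (|s - s'| * (V.K * dist x y)) :=
          mul_le_mul_of_nonneg_left (mul_le_mul_of_nonneg_left h3 (abs_nonneg _)) hK.le
      _ = V.K ^ 2 * dist x y * |s - s'| := by ring
  have hmain := path_lemma (fun k : Option (Fin r) => Icc (0 : ℝ) 1 ∩ γ ⁻¹' (cov b k))
    (fun s => phi b t (γ s)) (V.K ^ 4 * L * dist x y)
    (fun k => hγ.preimage_isClosed_of_isClosed isClosed_Icc (isClosed_cov k)) 1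
    (Finset.univ : Finset (Option (Fin r))).card 0 Finset.univ zero_le_one rfl
    ((continuous_phi hdis ht1 ht2 hL htL).comp_continuousOn hγ) ?_ ?_
  · have h0 : γ 0 = x := by
      simp only [γ, γ₀, AffineMap.lineMap_apply_zero]
      exact c_inv V hx
    have h1 : γ 1 = y := by
      simp only [γ, γ₀, AffineMap.lineMap_apply_one]
      exact c_inv V hy
    simp only [h0, h1, sub_zero, mul_one] at hmain
    exact hmain
  · intro s hs
    have : γ s ∈ ⋃ k, cov b k := by rw [iUnion_cov]; exact mem_univ _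
    obtain ⟨k, hk⟩ := mem_iUnion.1 this
    exact mem_iUnion₂.2 ⟨k, Finset.mem_univ _, hs, hk⟩
  · intro k _ s hs s' hs'
    have h1 := phi_lip_cov hdis ht1 ht2 hL htL hs.1.2 hs'.1.2
    calc dist (phi b t (γ s)) (phi b t (γ s')) ≤ V.K ^ 2 * L * dist (γ s) (γ s') := h1
      _ ≤ V.K ^ 2 * L * (V.K ^ 2 * dist x y * |s - s'|) :=
          mul_le_mul_of_nonneg_left (hγd s hs.2 s' hs'.2) hA
      _ = V.K ^ 4 * L * dist x y * |s - s'| := by ring

theorem dist_phi_self (hdis : ∀ j j', j ≠ j' → Disjoint (b j).S (b j').S)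
    (ht1 : ∀ j z, ‖t j z‖ = ‖z‖) (hr : ∀ j, (b j).r ≤ 1) (x : X) :
    dist (phi b t x) x ≤ 2 * V.K := by
  have hK := K_pos V
  by_cases h : x ∈ ⋃ j, (b j).S
  · obtain ⟨j, hj⟩ := mem_iUnion.1 h
    obtain ⟨z, hz, rfl⟩ := hj
    rw [phi_c hdis hz]
    have h1 := (V.bilip _ _ ((b j).sub (sc_mem ht1 hz)) _ ((b j).sub hz)).2
    have h2 : dist (sc (b j).p (b j).r (t j) z) z ≤ 2 := by
      calc dist (sc (b j).p (b j).r (t j) z) z
          ≤ dist (sc (b j).p (b j).r (t j) z) (b j).p + dist z (b j).p := dist_triangle_right _ _ _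
        _ ≤ (b j).r + (b j).r := add_le_add (sc_mem ht1 hz) hz
        _ ≤ 2 := by linarith [hr j]
    calc dist (V.c (b j).i (sc (b j).p (b j).r (t j) z)) (V.c (b j).i z)
        ≤ V.K * dist (sc (b j).p (b j).r (t j) z) z := h1
      _ ≤ V.K * 2 := mul_le_mul_of_nonneg_left h2 hK.le
      _ = 2 * V.K := mul_comm _ _
  · rw [phi_out h, dist_self]
    positivity

theorem phi_lip (hdis : ∀ j j', j ≠ j' → Disjoint (b j).S (b j').S)
    (ht1 : ∀ j z, ‖t j z‖ = ‖z‖) (ht2 : ∀ j z, 1 ≤ ‖z‖ → t j z = z) {L : ℝ} (hL : 1 ≤ L)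
    (htL : ∀ j z w, dist (t j z) (t j w) ≤ L * dist z w) (hr : ∀ j, (b j).r ≤ 1)
    {δ : ℝ} (hδ : 0 < δ) (hcov : ∀ x, ∃ i, Metric.ball x δ ⊆ V.U i) (x y : X) :
    dist (phi b t x) (phi b t y) ≤ (V.K ^ 4 * L + 1 + 4 * V.K / δ) * dist x y := by
  have hK := K_pos V
  have hL0 : 0 ≤ L := zero_le_one.trans hL
  rcases lt_or_ge (dist x y) δ with hlt | hge
  · obtain ⟨i, hi⟩ := hcov x
    have h1 := phi_lip_chart hdis ht1 ht2 hL htL (hi (Metric.mem_ball_self hδ))
      (hi (Metric.mem_ball'.2 hlt))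
    refine h1.trans (mul_le_mul_of_nonneg_right ?_ dist_nonneg)
    have : 0 ≤ 4 * V.K / δ := by positivity
    linarith
  · have h1 : dist (phi b t x) (phi b t y) ≤ dist x y + 4 * V.K := by
      calc dist (phi b t x) (phi b t y) ≤ dist (phi b t x) x + dist x y + dist y (phi b t y) :=
            dist_triangle4 _ _ _ _
        _ ≤ 2 * V.K + dist x y + 2 * V.K := by
            rw [dist_comm y]
            gcongr
            · exact dist_phi_self hdis ht1 hr x
            · exact dist_phi_self hdis ht1 hr y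
        _ = dist x y + 4 * V.K := by ring
    have h2 : 4 * V.K ≤ 4 * V.K / δ * dist x y := by
      rw [div_mul_eq_mul_div, le_div_iff₀ hδ]
      exact mul_le_mul_of_nonneg_left hge (by positivity)
    have h3 : 0 ≤ V.K ^ 4 * L * dist x y := by positivity
    calc dist (phi b t x) (phi b t y) ≤ dist x y + 4 * V.K := h1
      _ ≤ dist x y + 4 * V.K / δ * dist x y := by linarith
      _ ≤ V.K ^ 4 * L * dist x y + (dist x y + 4 * V.K / δ * dist x y) := by linarith
      _ = (V.K ^ 4 * L + 1 + 4 * V.K / δ) * dist x y := by ring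

theorem measurableSet_ball_inter [BorelSpace X] (c : CBall V) {s : Set X} (hs : MeasurableSet s) :
    MeasurableSet (Metric.closedBall c.p c.r ∩ V.c c.i ⁻¹' s) := by
  have h1 : ContinuousOn (V.c c.i) (Metric.closedBall c.p c.r) :=
    (continuousOn_c V c.i).mono c.sub
  have h2 : Measurable ((Metric.closedBall c.p c.r).domRestrict (V.c c.i)) :=
    (continuousOn_iff_continuous_domRestrict.1 h1).measurable
  have h3 := (Metric.isClosed_closedBall (x := c.p) (ε := c.r)).measurableSet.subtype_image (h2 hs)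
  convert h3 using 1
  ext z
  constructor
  · rintro ⟨hz1, hz2⟩
    exact ⟨⟨z, hz1⟩, hz2, rfl⟩
  · rintro ⟨⟨y, hy⟩, hy2, rfl⟩
    exact ⟨hy, hy2⟩

theorem lam_S [BorelSpace X] (hdis : ∀ j j', j ≠ j' → Disjoint (b j).S (b j').S)
    (ht1 : ∀ j z, ‖t j z‖ = ‖z‖) (htc : ∀ j, Continuous (t j))
    (htm : ∀ j, MeasurePreserving (t j) volume volume) (j : Fin r) {s : Set X}
    (hs : MeasurableSet s) :
    lam (phi b t ⁻¹' s ∩ (b j).S) = lam (s ∩ (b j).S) := by
  have hB := measurableSet_ball_inter (b j) hs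
  have hBsub : Metric.closedBall (b j).p (b j).r ∩ V.c (b j).i ⁻¹' s ⊆ V.dom (b j).i :=
    inter_subset_left.trans (b j).sub
  have h1 : s ∩ (b j).S = V.c (b j).i '' (Metric.closedBall (b j).p (b j).r ∩ V.c (b j).i ⁻¹' s) := by
    ext x
    constructor
    · rintro ⟨hx, z, hz, rfl⟩
      exact ⟨z, ⟨hz, hx⟩, rfl⟩
    · rintro ⟨z, ⟨hz, hx⟩, rfl⟩
      exact ⟨hx, z, hz, rfl⟩
  have h2 : phi b t ⁻¹' s ∩ (b j).S = V.c (b j).i '' (sc (b j).p (b j).r (t j) ⁻¹'
      (Metric.closedBall (b j).p (b j).r ∩ V.c (b j).i ⁻¹' s)) := by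
    ext x
    constructor
    · rintro ⟨hx, z, hz, rfl⟩
      rw [mem_preimage, phi_c hdis hz] at hx
      exact ⟨z, ⟨sc_mem ht1 hz, hx⟩, rfl⟩
    · rintro ⟨z, ⟨hz, hx⟩, rfl⟩
      have hz' : z ∈ Metric.closedBall (b j).p (b j).r := by
        rw [Metric.mem_closedBall, dist_sc (b j).pos (ht1 j)] at hz
        exact hz
      refine ⟨?_, z, hz', rfl⟩
      rw [mem_preimage, phi_c hdis hz']
      exact hx
  have h3 : sc (b j).p (b j).r (t j) ⁻¹'
      (Metric.closedBall (b j).p (b j).r ∩ V.c (b j).i ⁻¹' s) ⊆ V.dom (b j).i := by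
    intro z hz
    have hz1 := hz.1
    rw [Metric.mem_closedBall, dist_sc (b j).pos (ht1 j)] at hz1
    exact (b j).sub hz1
  rw [h1, h2, V.vol _ _ hBsub hB, V.vol _ _ h3 ((continuous_sc (htc j)).measurable hB)]
  exact (measurePreserving_sc (b j).pos (htc j) (htm j)).measure_preimage hB.nullMeasurableSet

theorem measurePreserving_phi [BorelSpace X]
    (hdis : ∀ j j', j ≠ j' → Disjoint (b j).S (b j').S)
    (ht1 : ∀ j z, ‖t j z‖ = ‖z‖) (htc : ∀ j, Continuous (t j))
    (htm : ∀ j, MeasurePreserving (t j) volume volume) (hφ : Continuous (phi b t)) :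
    MeasurePreserving (phi b t) lam lam := by
  refine ⟨hφ.measurable, ?_⟩
  ext s hs
  rw [Measure.map_apply hφ.measurable hs]
  have hSj : ∀ j, MeasurableSet (b j).S := fun j => (isCompact_S (b j)).isClosed.measurableSet
  have hS : MeasurableSet (⋃ j, (b j).S) := MeasurableSet.iUnion hSj
  rw [← measure_inter_add_sdiff (phi b t ⁻¹' s) hS, ← measure_inter_add_sdiff s hS]
  congr 1
  · rw [inter_iUnion, inter_iUnion, measure_iUnion, measure_iUnion]
    · exact tsum_congr fun j => lam_S hdis ht1 htc htm j hs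
    · intro j j' hjj'
      exact (hdis j j' hjj').mono inter_subset_right inter_subset_right
    · exact fun j => hs.inter (hSj j)
    · intro j j' hjj'
      exact (hdis j j' hjj').mono inter_subset_right inter_subset_right
    · exact fun j => (hφ.measurable hs).inter (hSj j)
  · congr 1
    ext x
    constructor
    · rintro ⟨hx, hx'⟩
      rw [mem_preimage, phi_out hx'] at hx
      exact ⟨hx, hx'⟩
    · rintro ⟨hx, hx'⟩
      refine ⟨?_, hx'⟩
      rw [mem_preimage, phi_out hx']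
      exact hx

theorem hasCD_phi (hdis : ∀ j j', j ≠ j' → Disjoint (b j).S (b j').S)
    (hφ : Continuous (phi b t)) {κ : ℝ} (hκ : 0 < κ) {R : Fin r → (EN d ≃ₗᵢ[ℝ] EN d)}
    (htR : ∀ j z, ‖z‖ ≤ 1 - κ → t j z = R j z) (j : Fin r) {x : X} (hx : x ∈ (b j).inner κ) :
    V.HasCD (b j).i (b j).i (phi b t) x (isoL (R j)) := by
  obtain ⟨z, hz, rfl⟩ := hx
  have hle : (1 - κ) * (b j).r ≤ (b j).r := by
    have := (b j).pos
    nlinarith
  have hsub : Metric.ball (b j).p ((1 - κ) * (b j).r) ⊆ Metric.closedBall (b j).p (b j).r :=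
    (Metric.ball_subset_ball hle).trans Metric.ball_subset_closedBall
  have key : ∀ y ∈ Metric.ball (b j).p ((1 - κ) * (b j).r),
      phi b t (V.c (b j).i y) = V.c (b j).i ((b j).p + R j (y - (b j).p)) ∧
      (b j).p + R j (y - (b j).p) ∈ V.dom (b j).i := by
    intro y hy
    refine ⟨?_, ?_⟩
    · rw [phi_c hdis (hsub hy), sc_inner (b j).pos (htR j) (le_of_lt hy)]
    · apply (b j).sub
      rw [Metric.mem_closedBall, dist_eq_norm, add_sub_cancel_left, LinearIsometryEquiv.norm_map,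
        ← dist_eq_norm]
      exact hsub hy
  refine ⟨⟨z, (b j).sub (hsub hz), rfl⟩, ?_, hφ.continuousAt, ?_⟩
  · rw [(key z hz).1]
    exact ⟨_, (key z hz).2, rfl⟩
  · rw [inv_c V ((b j).sub (hsub hz))]
    have h1 : HasFDerivAt (fun y : EN d => (b j).p + isoL (R j) (y - (b j).p)) (isoL (R j)) z := by
      have h2 : HasFDerivAt (fun y : EN d => isoL (R j) (y - (b j).p)) (isoL (R j)) z := by
        exact (isoL (R j)).hasFDerivAt.comp z ((hasFDerivAt_id z).sub_const (b j).p)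
      exact h2.const_add (b j).p
    refine h1.congr_of_eventuallyEq ?_
    filter_upwards [Metric.isOpen_ball.mem_nhds hz] with y hy
    rw [(key y hy).1, inv_c V (key y hy).2]
    rfl

end Map

end PHI

/-- PHI: the perturbation made of twists -/
theorem p_PHI (h1 : T_TWIST) (_h2 : T_VBAS.{u}) : T_PHI.{u} := by
  intro X _ _ _ _ lam d V _hd
  obtain ⟨C₀, m, hC₀, hT⟩ := h1 d
  -- the Lebesgue number
  obtain ⟨δ, hδ, hcov⟩ : ∃ δ > 0, ∀ x : X, ∃ i, Metric.ball x δ ⊆ V.U i := by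
    obtain ⟨δ, hδ, h⟩ := lebesgue_number_lemma_of_metric (isCompact_univ (X := X))
      (fun i => PHI.isOpen_U V i) (fun x _ => by
        obtain ⟨i, hi⟩ := V.cover x
        exact mem_iUnion.2 ⟨i, hi⟩)
    exact ⟨δ, hδ, fun x => h x (mem_univ x)⟩
  have hK := PHI.K_pos V
  have hK1 := V.one_le_K
  refine ⟨V.K ^ 4 * C₀ + 1 + 4 * V.K / δ, m, 1, ?_, one_pos, ?_⟩
  · have h2 : 0 ≤ V.K ^ 4 * C₀ := by positivity
    have h3 : 0 ≤ 4 * V.K / δ := by positivity
    linarith
  intro κ hκ hκ2 r b R hr hdis hR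
  have hκm : 0 < κ ^ m := by positivity
  have hκm1 : κ ^ m ≤ 1 := pow_le_one₀ hκ.le (by linarith)
  choose t ht using fun j => hT κ hκ hκ2 (R j) (hR j)
  set L : ℝ := C₀ / κ ^ m with hLdef
  have hL1 : 1 ≤ L := by
    rw [hLdef, le_div_iff₀ hκm, one_mul]
    exact hκm1.trans hC₀
  have hL0 : 0 ≤ L := zero_le_one.trans hL1
  have htL : ∀ j z w, dist (t j z) (t j w) ≤ L * dist z w := by
    intro j z w
    have := (ht j).1.dist_le_mul z w
    rwa [Real.coe_toNNReal _ hL0] at this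
  have htL' : ∀ j z w, dist ((t j).symm z) ((t j).symm w) ≤ L * dist z w := by
    intro j z w
    have := (ht j).2.1.dist_le_mul z w
    rwa [Real.coe_toNNReal _ hL0] at this
  have ht1 : ∀ j z, ‖t j z‖ = ‖z‖ := fun j => (ht j).2.2.1
  have ht1' : ∀ j z, ‖(t j).symm z‖ = ‖z‖ := by
    intro j z
    have := ht1 j ((t j).symm z)
    rw [Homeomorph.apply_symm_apply] at this
    exact this.symm
  have ht2 : ∀ j z, 1 ≤ ‖z‖ → t j z = z := fun j => (ht j).2.2.2.1
  have ht2' : ∀ j z, 1 ≤ ‖z‖ → (t j).symm z = z := by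
    intro j z hz
    rw [Homeomorph.symm_apply_eq]
    exact (ht2 j z hz).symm
  have hφ := PHI.continuous_phi (b := b) hdis ht1 ht2 hL1 htL
  have hφ' := PHI.continuous_phi (b := b) hdis ht1' ht2' hL1 htL'
  let φ : X ≃ₜ X :=
    { toFun := PHI.phi b (fun j => t j)
      invFun := PHI.phi b (fun j => (t j).symm)
      left_inv := fun x => PHI.phi_phi hdis ht1 (fun j z => (t j).symm_apply_apply z) x
      right_inv := fun x => PHI.phi_phi hdis ht1' (fun j z => (t j).apply_symm_apply z) x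
      continuous_toFun := hφ
      continuous_invFun := hφ' }
  have hCle : V.K ^ 4 * L + 1 + 4 * V.K / δ ≤ (V.K ^ 4 * C₀ + 1 + 4 * V.K / δ) / κ ^ m := by
    rw [le_div_iff₀ hκm, add_mul, add_mul]
    have h2 : V.K ^ 4 * L * κ ^ m = V.K ^ 4 * C₀ := by
      rw [hLdef]; field_simp
    have h3 : 4 * V.K / δ * κ ^ m ≤ 4 * V.K / δ :=
      mul_le_of_le_one_right (by positivity) hκm1
    rw [h2]
    linarith
  have hC0 : 0 ≤ (V.K ^ 4 * C₀ + 1 + 4 * V.K / δ) / κ ^ m := by positivity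
  have hlip : ∀ x y, dist (PHI.phi b (fun j => t j) x) (PHI.phi b (fun j => t j) y) ≤
      (V.K ^ 4 * C₀ + 1 + 4 * V.K / δ) / κ ^ m * dist x y := fun x y =>
    (PHI.phi_lip hdis ht1 ht2 hL1 htL hr hδ hcov x y).trans
      (mul_le_mul_of_nonneg_right hCle dist_nonneg)
  have hlip' : ∀ x y, dist (PHI.phi b (fun j => (t j).symm) x)
      (PHI.phi b (fun j => (t j).symm) y) ≤
      (V.K ^ 4 * C₀ + 1 + 4 * V.K / δ) / κ ^ m * dist x y := fun x y =>
    (PHI.phi_lip hdis ht1' ht2' hL1 htL' hr hδ hcov x y).trans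
      (mul_le_mul_of_nonneg_right hCle dist_nonneg)
  refine ⟨φ, ?_, ?_, ?_, ?_, ?_, ?_⟩
  · refine LipschitzWith.of_dist_le_mul fun x y => ?_
    rw [Real.coe_toNNReal _ hC0]
    exact hlip x y
  · refine LipschitzWith.of_dist_le_mul fun x y => ?_
    rw [Real.coe_toNNReal _ hC0]
    exact hlip' x y
  · exact PHI.measurePreserving_phi hdis ht1 (fun j => (t j).continuous)
      (fun j => (ht j).2.2.2.2.2) hφ
  · intro x hx
    exact PHI.phi_out (t := fun j => t j) hx
  · intro j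
    apply Subset.antisymm
    · rintro _ ⟨x, hx, rfl⟩
      exact PHI.phi_mem hdis ht1 hx
    · intro x hx
      refine ⟨φ.symm x, PHI.phi_mem hdis ht1' hx, φ.apply_symm_apply x⟩
  · intro j x hx
    exact PHI.hasCD_phi hdis hφ hκ (fun j => (ht j).2.2.2.2.1) j hx

end

end Pool.Agent.SobEnt
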