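import Pool.Agent.SobEnt.Targets

/-!
# PI: the signed shift can be chosen so that the connecting isometry is a rotation
-/

open MeasureTheory Filter Topology Set

namespace Pool.Agent.SobEnt

namespace PI

variable {d : ℕ}

lemma det_trans (A B : EN d ≃ₗᵢ[ℝ] EN d) :
    (isoL (A.trans B)).det = (isoL B).det * (isoL A).det := by
  have h1 : ((isoL (A.trans B) : EN d →L[ℝ] EN d) : EN d →ₗ[ℝ] EN d) =
      ((isoL B : EN d →L[ℝ] EN d) : EN d →ₗ[ℝ] EN d) ∘ₗ
        ((isoL A : EN d →L[ℝ] EN d) : EN d →ₗ[ℝ] EN d) := by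
    ext x
    rfl
  rw [ContinuousLinearMap.det, ContinuousLinearMap.det, ContinuousLinearMap.det, h1,
    LinearMap.det_comp]

lemma abs_det (A : EN d ≃ₗᵢ[ℝ] EN d) : |(isoL A).det| = 1 := by
  have h1 := A.toLinearIsometry.normDet_eq_one
  have h2 := LinearMap.normDet_eq_abs_det (A.toLinearIsometry.toLinearMap)
  rw [h1] at h2
  exact h2.symm

/-- the reflection changing the sign of the coordinate `j` -/
noncomputable def refl (j : Fin d) : EN d ≃ₗᵢ[ℝ] EN d :=
  ((ℝ ∙ (EuclideanSpace.single j (1 : ℝ) : EN d))ᗮ).reflection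

lemma det_refl (j : Fin d) : (isoL (refl j)).det = -1 := by
  have h1 := Submodule.det_reflection (𝕜 := ℝ)
    ((ℝ ∙ (EuclideanSpace.single j (1 : ℝ) : EN d))ᗮ)
  have h2 : Module.finrank ℝ ((ℝ ∙ (EuclideanSpace.single j (1 : ℝ) : EN d))ᗮᗮ) = 1 := by
    rw [Submodule.orthogonal_orthogonal]
    refine finrank_span_singleton ?_
    intro h
    have := congrArg (fun v : EN d => v j) h
    simp at this
  rw [h2, pow_one] at h1
  exact h1

lemma refl_self (j : Fin d) :
    refl j (EuclideanSpace.single j 1) = -EuclideanSpace.single j 1 :=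
  Submodule.reflection_orthogonalComplement_singleton_eq_neg _

lemma refl_ne {j k : Fin d} (h : k ≠ j) :
    refl j (EuclideanSpace.single k 1) = EuclideanSpace.single k 1 := by
  refine Submodule.reflection_mem_subspace_eq_self ?_
  rw [Submodule.mem_orthogonal_singleton_iff_inner_right]
  simp [EuclideanSpace.inner_single_left, h.symm]

end PI

theorem p_PI : T_PI := by
  intro d U W hd
  set Q0 : EN d ≃ₗᵢ[ℝ] EN d := LinearIsometryEquiv.piLpCongrLeft 2 ℝ ℝ (finRotate d) with hQ0
  have hs : ∀ j : Fin d, Q0 (EuclideanSpace.single j 1) =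
      EuclideanSpace.single (finRotate d j) 1 := by
    intro j
    exact LinearIsometryEquiv.piLpCongrLeft_single (finRotate d) j 1
  have h1 := PI.abs_det ((U.symm.trans Q0).trans W.symm)
  rcases (abs_eq (zero_le_one)).1 h1 with h2 | h2
  · exact ⟨Q0, fun j => Or.inl (hs j), h2⟩
  · let j0 : Fin d := ⟨0, hd⟩
    refine ⟨Q0.trans (PI.refl j0), fun j => ?_, ?_⟩
    · rw [LinearIsometryEquiv.trans_apply, hs]
      by_cases h : finRotate d j = j0
      · right
        rw [h]
        exact PI.refl_self j0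
      · left
        exact PI.refl_ne h
    · rw [PI.det_trans, PI.det_trans] at h2
      rw [PI.det_trans, PI.det_trans, PI.det_trans, PI.det_refl]
      linarith
end Pool.Agent.SobEnt
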