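import Pool.Agent.SobEnt.Targets

/-!
# SUB: Fekete for the entropy of a finite partition (MP_07df6b_an)

Library on the entropy `Hp` of finite partitions: nonnegativity, invariance, subadditivity.
-/

open MeasureTheory Filter Topology Set Bundle
open scoped ENNReal NNReal Manifold ContDiff

universe u v w

namespace Pool.Agent.SobEnt

noncomputable section

namespace SUB

variable {X : Type*} [MeasurableSpace X]

/-- Gibbs: the entropy of a joint distribution is at most the sum of the entropies of the
marginals -/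
theorem gibbs {α β : Type*} [Fintype α] [Fintype β] (r : α → β → ℝ) (hr : ∀ a b, 0 ≤ r a b)
    (h1 : ∑ a, ∑ b, r a b = 1) :
    ∑ a, ∑ b, Real.negMulLog (r a b) ≤
      ∑ a, Real.negMulLog (∑ b, r a b) + ∑ b, Real.negMulLog (∑ a, r a b) := by
  set p : α → ℝ := fun a => ∑ b, r a b with hp
  set q : β → ℝ := fun b => ∑ a, r a b with hq
  have hp0 : ∀ a, 0 ≤ p a := fun a => Finset.sum_nonneg (fun b _ => hr a b)
  have hq0 : ∀ b, 0 ≤ q b := fun b => Finset.sum_nonneg (fun a _ => hr a b)
  have hle1 : ∀ a b, r a b ≤ p a := fun a b =>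
    Finset.single_le_sum (f := fun b => r a b) (fun b _ => hr a b) (Finset.mem_univ b)
  have hle2 : ∀ a b, r a b ≤ q b := fun a b =>
    Finset.single_le_sum (f := fun a => r a b) (fun a _ => hr a b) (Finset.mem_univ a)
  have hP : ∑ a, Real.negMulLog (p a) = ∑ a, ∑ b, -(r a b * Real.log (p a)) := by
    refine Finset.sum_congr rfl (fun a _ => ?_)
    unfold Real.negMulLog
    rw [Finset.sum_neg_distrib, ← Finset.sum_mul]
    ring
  have hQ : ∑ b, Real.negMulLog (q b) = ∑ a, ∑ b, -(r a b * Real.log (q b)) := by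
    rw [Finset.sum_comm]
    refine Finset.sum_congr rfl (fun b _ => ?_)
    unfold Real.negMulLog
    rw [Finset.sum_neg_distrib, ← Finset.sum_mul]
    ring
  have hpt : ∀ a b, Real.negMulLog (r a b) - (-(r a b * Real.log (p a)) +
      -(r a b * Real.log (q b))) ≤ p a * q b - r a b := by
    intro a b
    rcases (hr a b).eq_or_lt with h0 | h0
    · rw [← h0]
      simp only [Real.negMulLog_zero, zero_mul, neg_zero, add_zero, sub_zero]
      exact mul_nonneg (hp0 a) (hq0 b)
    · have hpa : 0 < p a := lt_of_lt_of_le h0 (hle1 a b)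
      have hqb : 0 < q b := lt_of_lt_of_le h0 (hle2 a b)
      have h2 := Real.log_le_sub_one_of_pos (show 0 < p a * q b / r a b by positivity)
      rw [Real.log_div (by positivity) h0.ne', Real.log_mul hpa.ne' hqb.ne'] at h2
      have h3 := mul_le_mul_of_nonneg_left h2 h0.le
      have h4 : r a b * (p a * q b / r a b - 1) = p a * q b - r a b := by
        field_simp
      rw [h4] at h3
      unfold Real.negMulLog
      linarith
  have hpq : ∑ a, ∑ b, p a * q b = 1 := by
    rw [← Finset.sum_mul_sum]
    have e1 : ∑ a, p a = 1 := h1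
    have e2 : ∑ b, q b = 1 := by rw [← h1, Finset.sum_comm]
    rw [e1, e2, one_mul]
  have hsum := Finset.sum_le_sum (fun a (_ : a ∈ (Finset.univ : Finset α)) =>
    Finset.sum_le_sum (fun b (_ : b ∈ (Finset.univ : Finset β)) => hpt a b))
  simp only [Finset.sum_sub_distrib, Finset.sum_add_distrib] at hsum
  rw [hpq, h1] at hsum
  rw [hP, hQ]
  linarith

/-- fibres of a finite valued map have total mass one -/
theorem sum_fibres (μ : Measure X) [IsProbabilityMeasure μ] {α : Type*} [Fintype α] (P : X → α)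
    (hP : ∀ a, MeasurableSet (P ⁻¹' {a})) : ∑ a, μ.real (P ⁻¹' {a}) = 1 := by
  classical
  rw [← measureReal_biUnion_finset]
  · have : (⋃ a ∈ (Finset.univ : Finset α), P ⁻¹' {a}) = univ := by
      ext x; simp
    rw [this, probReal_univ]
  · intro a _ b _ hab
    exact Set.disjoint_left.2 (fun x hx hy => hab (by
      simp only [mem_preimage, mem_singleton_iff] at hx hy
      exact hx.symm.trans hy))
  · intro a _
    exact hP a

/-- a set is the disjoint union of its intersections with the fibres -/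
theorem sum_inter_fibres (μ : Measure X) [IsProbabilityMeasure μ] {α : Type*} [Fintype α]
    (P : X → α) (hP : ∀ a, MeasurableSet (P ⁻¹' {a})) (S : Set X) (hS : MeasurableSet S) :
    ∑ a, μ.real (S ∩ P ⁻¹' {a}) = μ.real S := by
  classical
  rw [← measureReal_biUnion_finset]
  · have : (⋃ a ∈ (Finset.univ : Finset α), S ∩ P ⁻¹' {a}) = S := by
      ext x; simp
    rw [this]
  · intro a _ b _ hab
    exact Set.disjoint_left.2 (fun x hx hy => hab (by
      have h1 := hx.2
      have h2 := hy.2
      simp only [mem_preimage, mem_singleton_iff] at h1 h2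
      exact h1.symm.trans h2))
  · intro a _
    exact hS.inter (hP a)

omit [MeasurableSpace X] in
theorem pair_fibre {α β : Type*} (P : X → α) (Q : X → β) (a : α) (b : β) :
    (fun x => (P x, Q x)) ⁻¹' {(a, b)} = P ⁻¹' {a} ∩ Q ⁻¹' {b} := by
  ext x; simp

theorem Hp_pair (μ : Measure X) {α β : Type*} [Fintype α] [Fintype β] (P : X → α) (Q : X → β) :
    Hp μ (fun x => (P x, Q x)) = ∑ a, ∑ b, Real.negMulLog (μ.real (P ⁻¹' {a} ∩ Q ⁻¹' {b})) := by
  unfold Hp
  rw [Fintype.sum_prod_type]
  simp_rw [pair_fibre]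

theorem Hp_nonneg (μ : Measure X) [IsProbabilityMeasure μ] {α : Type*} [Fintype α] (P : X → α) :
    0 ≤ Hp μ P :=
  Finset.sum_nonneg (fun _ _ => Real.negMulLog_nonneg measureReal_nonneg measureReal_le_one)

/-- the entropy of a pair is at most the sum of the entropies -/
theorem Hp_pair_le (μ : Measure X) [IsProbabilityMeasure μ] {α β : Type*} [Fintype α] [Fintype β]
    (P : X → α) (Q : X → β) (hP : ∀ a, MeasurableSet (P ⁻¹' {a}))
    (hQ : ∀ b, MeasurableSet (Q ⁻¹' {b})) :
    Hp μ (fun x => (P x, Q x)) ≤ Hp μ P + Hp μ Q := by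
  rw [Hp_pair]
  have e1 : ∀ a, ∑ b, μ.real (P ⁻¹' {a} ∩ Q ⁻¹' {b}) = μ.real (P ⁻¹' {a}) := fun a =>
    sum_inter_fibres μ Q hQ _ (hP a)
  have e2 : ∀ b, ∑ a, μ.real (P ⁻¹' {a} ∩ Q ⁻¹' {b}) = μ.real (Q ⁻¹' {b}) := by
    intro b
    simp_rw [inter_comm (P ⁻¹' _)]
    exact sum_inter_fibres μ P hP _ (hQ b)
  have h := gibbs (fun a b => μ.real (P ⁻¹' {a} ∩ Q ⁻¹' {b})) (fun a b => measureReal_nonneg)
    (by simp_rw [e1]; exact sum_fibres μ P hP)
  simp_rw [e1, e2] at h
  exact h

/-- invariance under injective recoding -/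
theorem Hp_equiv (μ : Measure X) {α β : Type*} [Fintype α] [Fintype β] (P : X → α) (φ : α → β)
    (hφ : Function.Injective φ) : Hp μ (fun x => φ (P x)) = Hp μ P := by
  unfold Hp
  symm
  apply Fintype.sum_of_injective φ hφ
  · intro b hb
    have : (fun x => φ (P x)) ⁻¹' {b} = ∅ := by
      ext x
      simp only [mem_preimage, mem_singleton_iff, mem_empty_iff_false, iff_false]
      intro h
      exact hb ⟨P x, h⟩
    rw [this, measureReal_empty, Real.negMulLog_zero]
  · intro a
    congr 2
    ext x
    simp only [mem_preimage, mem_singleton_iff]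
    exact ⟨fun h => by rw [h], fun h => hφ h⟩

/-- invariance under a measure preserving map -/
theorem Hp_comp (μ : Measure X) {T : X → X} (hT : MeasurePreserving T μ μ) {α : Type*} [Fintype α]
    (P : X → α) (hP : ∀ a, MeasurableSet (P ⁻¹' {a})) : Hp μ (fun x => P (T x)) = Hp μ P := by
  unfold Hp
  refine Finset.sum_congr rfl (fun a _ => ?_)
  congr 1
  have := hT.measureReal_preimage (hP a).nullMeasurableSet
  rw [← this]
  rfl

/-- the fibres of the joins are measurable -/
theorem meas_itin {T : X → X} (hT : Measurable T) {α : Type*} (P : X → α)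
    (hP : ∀ a, MeasurableSet (P ⁻¹' {a})) (n : ℕ) (v : Fin n → α) :
    MeasurableSet (itin T P n ⁻¹' {v}) := by
  have : itin T P n ⁻¹' {v} = ⋂ i : Fin n, (T^[i]) ⁻¹' (P ⁻¹' {v i}) := by
    ext x
    simp only [mem_preimage, mem_singleton_iff, mem_iInter]
    constructor
    · intro h i
      rw [← h]; rfl
    · intro h
      funext i
      exact h i
  rw [this]
  exact MeasurableSet.iInter (fun i => hT.iterate _ (hP _))

/-- splitting a word -/
def split {α : Type*} (m n : ℕ) (v : Fin (m + n) → α) : (Fin m → α) × (Fin n → α) :=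
  (fun i => v (Fin.castAdd n i), fun j => v (Fin.natAdd m j))

theorem split_injective {α : Type*} (m n : ℕ) :
    Function.Injective (split m n : (Fin (m + n) → α) → _) := by
  intro v w h
  funext i
  refine Fin.addCases (fun i => ?_) (fun j => ?_) i
  · exact congrFun (congrArg Prod.fst h) i
  · exact congrFun (congrArg Prod.snd h) j

omit [MeasurableSpace X] in
theorem split_itin {α : Type*} (T : X → X) (P : X → α) (m n : ℕ) (x : X) :
    split m n (itin T P (m + n) x) = (itin T P m x, itin T P n (T^[m] x)) := by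
  unfold split itin
  refine Prod.ext ?_ ?_
  · funext i
    simp
  · funext j
    simp only [Fin.val_natAdd]
    rw [Nat.add_comm m, Function.iterate_add_apply]

/-- subadditivity of the entropies of the joins -/
theorem subadd (μ : Measure X) [IsProbabilityMeasure μ] {T : X → X}
    (hT : MeasurePreserving T μ μ) {α : Type*} [Fintype α] (P : X → α)
    (hP : ∀ a, MeasurableSet (P ⁻¹' {a})) : Subadditive (fun n => Hp μ (itin T P n)) := by
  intro m n
  have h1 : Hp μ (itin T P (m + n)) =
      Hp μ (fun x => (itin T P m x, itin T P n (T^[m] x))) := by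
    rw [← Hp_equiv μ (itin T P (m + n)) (split m n) (split_injective m n)]
    simp_rw [split_itin]
  show Hp μ (itin T P (m + n)) ≤ Hp μ (itin T P m) + Hp μ (itin T P n)
  rw [h1]
  have hm := meas_itin hT.measurable P hP m
  have hn := meas_itin hT.measurable P hP n
  refine (Hp_pair_le μ (itin T P m) (fun x => itin T P n (T^[m] x)) hm ?_).trans ?_
  · intro b
    exact hT.measurable.iterate m (hn b)
  · rw [Hp_comp μ (hT.iterate m) (itin T P n) hn]

theorem bddBelow (μ : Measure X) [IsProbabilityMeasure μ] (T : X → X) {α : Type*} [Fintype α]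
    (P : X → α) : BddBelow (range fun n : ℕ => Hp μ (itin T P n) / n) := by
  refine ⟨0, ?_⟩
  rintro _ ⟨n, rfl⟩
  exact div_nonneg (Hp_nonneg μ _) (Nat.cast_nonneg n)

/-- Fekete: the entropies of the joins divided by `n` converge to their infimum -/
theorem tendsto_Hp (μ : Measure X) [IsProbabilityMeasure μ] {T : X → X}
    (hT : MeasurePreserving T μ μ) {α : Type*} [Fintype α] (P : X → α)
    (hP : ∀ a, MeasurableSet (P ⁻¹' {a})) :
    Tendsto (fun n : ℕ => Hp μ (itin T P n) / n) atTop
      (𝓝 (sInf ((fun n : ℕ => Hp μ (itin T P n) / n) '' Ici 1))) := by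
  have h := (subadd μ hT P hP).tendsto_lim (bddBelow μ T P)
  unfold Subadditive.lim at h
  exact h

theorem inf_le (μ : Measure X) [IsProbabilityMeasure μ] {T : X → X}
    (hT : MeasurePreserving T μ μ) {α : Type*} [Fintype α] (P : X → α)
    (hP : ∀ a, MeasurableSet (P ⁻¹' {a})) (n : ℕ) (hn : 1 ≤ n) :
    sInf ((fun n : ℕ => Hp μ (itin T P n) / n) '' Ici 1) ≤ Hp μ (itin T P n) / n := by
  have h := (subadd μ hT P hP).lim_le_div (bddBelow μ T P) (n := n) (by omega)
  unfold Subadditive.lim at h
  exact h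

theorem hPart_eq (μ : Measure X) [IsProbabilityMeasure μ] {T : X → X}
    (hT : MeasurePreserving T μ μ) {α : Type*} [Fintype α] (P : X → α)
    (hP : ∀ a, MeasurableSet (P ⁻¹' {a})) :
    hPart μ T P = ENNReal.ofReal (sInf ((fun n : ℕ => Hp μ (itin T P n) / n) '' Ici 1)) := by
  unfold hPart
  exact (ENNReal.tendsto_ofReal (tendsto_Hp μ hT P hP)).limsup_eq

theorem hPart_le (μ : Measure X) [IsProbabilityMeasure μ] {T : X → X}
    (hT : MeasurePreserving T μ μ) {α : Type*} [Fintype α] (P : X → α)
    (hP : ∀ a, MeasurableSet (P ⁻¹' {a})) (n : ℕ) (hn : 1 ≤ n) :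
    hPart μ T P ≤ ENNReal.ofReal (Hp μ (itin T P n) / n) := by
  rw [hPart_eq μ hT P hP]
  exact ENNReal.ofReal_le_ofReal (inf_le μ hT P hP n hn)

/-- fibres of a measurable map into `Fin k` -/
theorem meas_fibre {k : ℕ} {P : X → Fin k} (hP : Measurable P) (a : Fin k) :
    MeasurableSet (P ⁻¹' {a}) := hP (measurableSet_singleton a)

end SUB

theorem p_SUB : T_SUB.{u} := by
  intro X _ μ _ T hT k P hP n hn
  exact SUB.hPart_le μ hT P (SUB.meas_fibre hP) n hn

end

end Pool.Agent.SobEnt
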