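import Pool.Agent.SobEnt.Targets
import Pool.Agent.SobEnt.SUB

/-!
# POW: entropy of the powers (MP_07df6b_an)
-/

open MeasureTheory Filter Topology Set Bundle
open scoped ENNReal NNReal Manifold ContDiff

universe u v w

namespace Pool.Agent.SobEnt

noncomputable section

namespace POW

variable {X : Type*}

/-- grouping the letters of a word of length `m * n` into `m` words of length `n` -/
def grp {α β : Type*} (m n : ℕ) (e : (Fin n → α) → β) (w : Fin (m * n) → α) : Fin m → β :=
  fun j => e (fun i => w (finProdFinEquiv (j, i)))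

theorem grp_injective {α β : Type*} (m n : ℕ) (e : (Fin n → α) → β) (he : Function.Injective e) :
    Function.Injective (grp m n e) := by
  intro v w h
  funext i
  obtain ⟨⟨j, l⟩, rfl⟩ := finProdFinEquiv.surjective i
  have h1 := he (congrFun h j)
  exact congrFun h1 l

theorem grp_itin {α β : Type*} (T : X → X) (P : X → α) (m n : ℕ) (e : (Fin n → α) → β) (x : X) :
    grp m n e (itin T P (m * n) x) = itin T^[n] (fun x => e (itin T P n x)) m x := by
  unfold grp itin
  funext j
  congr 1
  funext i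
  have : ((finProdFinEquiv (j, i) : Fin (m * n)) : ℕ) = (i : ℕ) + n * (j : ℕ) := rfl
  rw [this, Function.iterate_add_apply, Function.iterate_mul]

variable [MeasurableSpace X]

theorem Hp_grp (μ : Measure X) {α β : Type*} [Fintype α] [Fintype β] (T : X → X) (P : X → α)
    (m n : ℕ) (e : (Fin n → α) → β) (he : Function.Injective e) :
    Hp μ (itin T^[n] (fun x => e (itin T P n x)) m) = Hp μ (itin T P (m * n)) := by
  rw [← SUB.Hp_equiv μ (itin T P (m * n)) (grp m n e) (grp_injective m n e he)]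
  simp_rw [grp_itin]

theorem hPart_pow (μ : Measure X) [IsProbabilityMeasure μ] {T : X → X}
    (hT : MeasurePreserving T μ μ) {α β : Type*} [Fintype α] [Fintype β] (P : X → α)
    (hP : ∀ a, MeasurableSet (P ⁻¹' {a})) (n : ℕ) (hn : 1 ≤ n) (e : (Fin n → α) → β)
    (he : Function.Injective e) :
    hPart μ T^[n] (fun x => e (itin T P n x)) = (n : ℝ≥0∞) * hPart μ T P := by
  set ℓ : ℝ := sInf ((fun n : ℕ => Hp μ (itin T P n) / n) '' Ici 1) with hℓ
  have h1 := SUB.tendsto_Hp μ hT P hP
  have hn0 : (n : ℝ) ≠ 0 := by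
    have : n ≠ 0 := by omega
    exact_mod_cast this
  have h2 : Tendsto (fun m : ℕ => m * n) atTop atTop :=
    tendsto_id.atTop_mul_const' (by omega)
  have h3 : Tendsto (fun m : ℕ => (n : ℝ) * (Hp μ (itin T P (m * n)) / ((m * n : ℕ) : ℝ))) atTop
      (𝓝 ((n : ℝ) * ℓ)) := (h1.comp h2).const_mul (n : ℝ)
  have h4 : Tendsto (fun m : ℕ => Hp μ (itin T^[n] (fun x => e (itin T P n x)) m) / m) atTop
      (𝓝 ((n : ℝ) * ℓ)) := by
    refine h3.congr (fun m => ?_)
    rw [Hp_grp μ T P m n e he]
    push_cast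
    rcases Nat.eq_zero_or_pos m with rfl | hm
    · simp
    · have hm0 : (m : ℝ) ≠ 0 := by exact_mod_cast hm.ne'
      field_simp
  unfold hPart
  rw [(ENNReal.tendsto_ofReal h4).limsup_eq, (ENNReal.tendsto_ofReal h1).limsup_eq,
    ENNReal.ofReal_mul (Nat.cast_nonneg n), ENNReal.ofReal_natCast]

end POW

theorem p_POW (_h : T_SUB.{u}) : T_POW.{u} := by
  intro X _ μ _ T hT n hn
  unfold ksEntropy
  rw [ENNReal.mul_iSup]
  refine iSup_le (fun k => ?_)
  rw [ENNReal.mul_iSup]
  refine iSup_le (fun P => ?_)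
  rw [ENNReal.mul_iSup]
  refine iSup_le (fun hP => ?_)
  set e := Fintype.equivFin (Fin n → Fin k) with he
  rw [← POW.hPart_pow μ hT P (SUB.meas_fibre hP) n hn e e.injective]
  refine le_iSup_of_le (Fintype.card (Fin n → Fin k)) (le_iSup_of_le _ (le_iSup_of_le ?_ le_rfl))
  intro s _
  have : (fun x => e (itin T P n x)) ⁻¹' s = ⋃ v ∈ {v : Fin n → Fin k | e v ∈ s},
      itin T P n ⁻¹' {v} := by
    ext x
    simp
  rw [this]
  exact MeasurableSet.biUnion (Set.to_countable _)
    (fun v _ => SUB.meas_itin hT.measurable P (SUB.meas_fibre hP) n v)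

end

end Pool.Agent.SobEnt
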