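import Pool.Agent.SobEnt.Targets

/-!
# MP_07df6b_an: products of matrices with nearly equal singular values

Matrices `U i * diag (s i) * W i` connected by cyclic shifts of the singular directions.
-/

open MeasureTheory Filter Topology Set Bundle
open scoped ENNReal NNReal Manifold ContDiff

namespace Pool.Agent.SobEnt

noncomputable section

namespace PROD

theorem diagL_apply {d : ℕ} (s : Fin d → ℝ) (x : EN d) (i : Fin d) :
    diagL s x i = s i * x i := by
  unfold diagL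
  rw [LinearMap.coe_toContinuousLinearMap', Matrix.toEuclideanLin, Matrix.toLpLin_apply]
  simp [Matrix.mulVec_diagonal]

/-- bound of the norm by the coordinates -/
theorem norm_le_of_coord {d : ℕ} (σ : Equiv.Perm (Fin d)) (x y : EN d) (K : ℝ) (hK : 0 ≤ K)
    (h : ∀ j, |y (σ j)| ≤ K * |x j|) : ‖y‖ ≤ K * ‖x‖ := by
  have h1 : ‖y‖ ^ 2 ≤ (K * ‖x‖) ^ 2 := by
    rw [mul_pow, EuclideanSpace.norm_sq_eq, EuclideanSpace.norm_sq_eq, Finset.mul_sum,
      ← Equiv.sum_comp σ (fun i => ‖y i‖ ^ 2)]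
    refine Finset.sum_le_sum fun j _ => ?_
    rw [← mul_pow, Real.norm_eq_abs, Real.norm_eq_abs]
    exact pow_le_pow_left₀ (abs_nonneg _) (h j) 2
  exact le_of_sq_le_sq h1 (mul_nonneg hK (norm_nonneg _))

theorem norm_diagL_le {d : ℕ} (s : Fin d → ℝ) (K : ℝ) (hK : 0 ≤ K) (h : ∀ i, |s i| ≤ K) :
    ‖diagL s‖ ≤ K := by
  refine ContinuousLinearMap.opNorm_le_bound _ hK fun x => ?_
  refine norm_le_of_coord (Equiv.refl _) x _ K hK fun j => ?_
  rw [Equiv.refl_apply, diagL_apply, abs_mul]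
  exact mul_le_mul_of_nonneg_right (h j) (abs_nonneg _)

theorem norm_isoL_le {d : ℕ} (U : EN d ≃ₗᵢ[ℝ] EN d) : ‖isoL U‖ ≤ 1 := by
  refine ContinuousLinearMap.opNorm_le_bound _ zero_le_one fun x => ?_
  rw [one_mul]
  exact le_of_eq (U.norm_map x)

theorem norm_usw_le {d : ℕ} (U : EN d ≃ₗᵢ[ℝ] EN d) (s : Fin d → ℝ) (W : EN d ≃ₗᵢ[ℝ] EN d)
    (K : ℝ) (hK : 0 ≤ K) (h : ∀ i, |s i| ≤ K) : ‖usw U s W‖ ≤ K := by
  unfold usw
  have h1 := norm_diagL_le s K hK h
  calc ‖(isoL U).comp ((diagL s).comp (isoL W))‖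
      ≤ ‖isoL U‖ * ‖(diagL s).comp (isoL W)‖ := ContinuousLinearMap.opNorm_comp_le _ _
    _ ≤ 1 * (K * 1) := by
        refine mul_le_mul (norm_isoL_le U) ?_ (norm_nonneg _) zero_le_one
        exact (ContinuousLinearMap.opNorm_comp_le _ _).trans
          (mul_le_mul h1 (norm_isoL_le W) (norm_nonneg _) hK)
    _ = K := by ring

/-- a shift moves the absolute values of the coordinates -/
theorem shift_coord {d : ℕ} (Q : EN d ≃ₗᵢ[ℝ] EN d) (hQ : IsShift Q) (x : EN d) (j : Fin d) :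
    |Q x (finRotate d j)| = |x j| := by
  have h1 : inner ℝ (Q (EuclideanSpace.single j 1)) (Q x) = x j := by
    rw [LinearIsometryEquiv.inner_map_map, EuclideanSpace.inner_single_left]
    simp
  rcases hQ j with h | h
  · rw [h, EuclideanSpace.inner_single_left] at h1
    simp only [map_one, one_mul] at h1
    rw [h1]
  · rw [h, inner_neg_left, EuclideanSpace.inner_single_left] at h1
    simp only [map_one, one_mul] at h1
    rw [← h1, abs_neg]

/-- the middle part of the product -/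
def mid {d : ℕ} (s : ℕ → Fin d → ℝ) (Q : ℕ → (EN d ≃ₗᵢ[ℝ] EN d)) : ℕ → EN d → EN d
  | 0, x => diagL (s 0) x
  | i + 1, x => diagL (s (i + 1)) (Q (i + 1) (mid s Q i x))

theorem mid_coord {d : ℕ} (s : ℕ → Fin d → ℝ) (Q : ℕ → (EN d ≃ₗᵢ[ℝ] EN d))
    (hs : ∀ i < d, ∀ j, 0 < s i j) (hQ : ∀ i < d, IsShift (Q i)) (x : EN d) (j : Fin d) :
    ∀ i < d, |mid s Q i x ((finRotate d ^ i) j)| =
      (∏ t ∈ Finset.range (i + 1), s t ((finRotate d ^ t) j)) * |x j| := by
  intro i
  induction i with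
  | zero =>
    intro h0
    show |diagL (s 0) x _| = _
    rw [diagL_apply, abs_mul, abs_of_pos (hs 0 h0 _)]
    simp
  | succ i ih =>
    intro hi
    show |diagL (s (i + 1)) (Q (i + 1) (mid s Q i x)) _| = _
    rw [diagL_apply, abs_mul, abs_of_pos (hs _ hi _), pow_succ', Equiv.Perm.mul_apply,
      shift_coord (Q (i + 1)) (hQ _ hi), ih (by omega), Finset.prod_range_succ _ (i + 1)]
    rw [pow_succ' (finRotate d) i, Equiv.Perm.mul_apply]
    ring

/-- the connecting isometries -/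
def conn {d : ℕ} (U W Q : ℕ → (EN d ≃ₗᵢ[ℝ] EN d)) (i : ℕ) : EN d →L[ℝ] EN d :=
  isoL (((U (i - 1)).symm.trans (Q i)).trans (W i).symm)

theorem chain_eq {d : ℕ} (U W Q : ℕ → (EN d ≃ₗᵢ[ℝ] EN d)) (s : ℕ → Fin d → ℝ) (x : EN d) :
    ∀ i, chainL (fun i => usw (U i) (s i) (W i)) (conn U W Q) i x = U i (mid s Q i (W 0 x)) := by
  intro i
  induction i with
  | zero => rfl
  | succ i ih =>
    show usw (U (i + 1)) (s (i + 1)) (W (i + 1)) (conn U W Q (i + 1)
      (chainL (fun i => usw (U i) (s i) (W i)) (conn U W Q) i x)) = _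
    rw [ih]
    show U (i + 1) (diagL (s (i + 1)) (W (i + 1) ((W (i + 1)).symm (Q (i + 1)
      ((U (i + 1 - 1)).symm (U i (mid s Q i (W 0 x)))))))) = _
    rw [LinearIsometryEquiv.apply_symm_apply, Nat.add_sub_cancel,
      LinearIsometryEquiv.symm_apply_apply]
    rfl

/-- the product over an orbit of the rotation -/
theorem prod_orbit {d : ℕ} (hd : 1 ≤ d) (f : Fin d → ℝ) (j : Fin d) :
    ∏ t ∈ Finset.range d, f ((finRotate d ^ t) j) = ∏ i, f i := by
  obtain ⟨n, rfl⟩ : ∃ n, d = n + 1 := ⟨d - 1, by omega⟩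
  have h1 : ∀ t : ℕ, (finRotate (n + 1) ^ t) j = j + Fin.ofNat (n + 1) t := by
    intro t
    induction t with
    | zero =>
      apply Fin.ext
      simp
    | succ t ih =>
      rw [pow_succ', Equiv.Perm.mul_apply, ih, finRotate_apply]
      apply Fin.ext
      simp [Fin.val_add, Nat.add_assoc]
  simp only [h1]
  rw [← Fin.prod_univ_eq_prod_range (fun t => f (j + Fin.ofNat (n + 1) t)) (n + 1)]
  have h2 : ∀ t : Fin (n + 1), Fin.ofNat (n + 1) (t : ℕ) = t := fun t => by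
    apply Fin.ext
    simp
  simp only [h2]
  exact Equiv.prod_comp (Equiv.addLeft j) f

theorem exact_bound {d : ℕ} (hd : 1 ≤ d) (γ : ℝ) (U W Q : ℕ → (EN d ≃ₗᵢ[ℝ] EN d))
    (s : ℕ → Fin d → ℝ) (hs : ∀ i < d, ∀ j, 0 < s i j) (h0 : ∏ j, s 0 j = 1)
    (hγ : ∀ i < d, ∀ j, |Real.log (s i j) - Real.log (s 0 j)| ≤ γ)
    (hQ : ∀ i < d, IsShift (Q i)) :
    ‖chainL (fun i => usw (U i) (s i) (W i)) (conn U W Q) (d - 1)‖ ≤ Real.exp (d * γ) := by
  refine ContinuousLinearMap.opNorm_le_bound _ (Real.exp_pos _).le fun x => ?_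
  rw [chain_eq, LinearIsometryEquiv.norm_map, ← (W 0).norm_map x]
  refine norm_le_of_coord (finRotate d ^ (d - 1)) _ _ _ (Real.exp_pos _).le fun j => ?_
  rw [mid_coord s Q hs hQ _ j (d - 1) (by omega), Nat.sub_add_cancel hd]
  refine mul_le_mul_of_nonneg_right ?_ (abs_nonneg _)
  calc ∏ t ∈ Finset.range d, s t ((finRotate d ^ t) j)
      ≤ ∏ t ∈ Finset.range d, (Real.exp γ * s 0 ((finRotate d ^ t) j)) := by
        refine Finset.prod_le_prod (fun t ht => (hs t (Finset.mem_range.1 ht) _).le)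
          fun t ht => ?_
        have ht' := Finset.mem_range.1 ht
        have h1 := (abs_le.1 (hγ t ht' ((finRotate d ^ t) j))).2
        have h2 : Real.log (s t ((finRotate d ^ t) j)) ≤
            γ + Real.log (s 0 ((finRotate d ^ t) j)) := by linarith
        have h3 := Real.exp_le_exp.2 h2
        rw [Real.exp_log (hs t ht' _), Real.exp_add, Real.exp_log (hs 0 (by omega) _)] at h3
        exact h3
    _ = Real.exp (d * γ) := by
        rw [Finset.prod_mul_distrib, prod_orbit hd, h0, mul_one, Finset.prod_const,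
          Finset.card_range, ← Real.exp_nat_mul]

/-- perturbation of a chain -/
theorem perturb {d : ℕ} (D E R : ℕ → (EN d →L[ℝ] EN d)) (Λ η : ℝ) (hΛ : 0 ≤ Λ) (hη : 0 ≤ η)
    (hη1 : η ≤ 1) (n : ℕ) (hE : ∀ i < n, ‖E i‖ ≤ Λ) (hDE : ∀ i < n, ‖D i - E i‖ ≤ η)
    (hR : ∀ i, ‖R i‖ ≤ 1) :
    ∀ i < n, ‖chainL E R i‖ ≤ Λ ^ (i + 1) ∧
      ‖chainL D R i - chainL E R i‖ ≤ (i + 1) * η * (Λ + 1) ^ i := by
  intro i
  induction i with
  | zero =>
    intro h0
    refine ⟨?_, ?_⟩
    · show ‖E 0‖ ≤ _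
      simpa using hE 0 h0
    · show ‖D 0 - E 0‖ ≤ _
      simpa using hDE 0 h0
  | succ i ih =>
    intro hi
    obtain ⟨h1, h2⟩ := ih (by omega)
    have hΛ1 : 0 ≤ Λ + 1 := by linarith
    have hRE : ‖(R (i + 1)).comp (chainL E R i)‖ ≤ Λ ^ (i + 1) := by
      refine (ContinuousLinearMap.opNorm_comp_le _ _).trans ?_
      calc ‖R (i + 1)‖ * ‖chainL E R i‖ ≤ 1 * Λ ^ (i + 1) :=
            mul_le_mul (hR _) h1 (norm_nonneg _) zero_le_one
        _ = Λ ^ (i + 1) := one_mul _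
    refine ⟨?_, ?_⟩
    · show ‖(E (i + 1)).comp ((R (i + 1)).comp (chainL E R i))‖ ≤ _
      refine (ContinuousLinearMap.opNorm_comp_le _ _).trans ?_
      rw [pow_succ' Λ (i + 1)]
      exact mul_le_mul (hE _ hi) hRE (norm_nonneg _) hΛ
    · have hD : ‖D (i + 1)‖ ≤ Λ + 1 := by
        have h3 : D (i + 1) = E (i + 1) + (D (i + 1) - E (i + 1)) := by abel
        rw [h3]
        refine (norm_add_le _ _).trans ?_
        have := hE _ hi
        have := hDE _ hi
        linarith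
      have h4 : chainL D R (i + 1) - chainL E R (i + 1) =
          (D (i + 1)).comp ((R (i + 1)).comp (chainL D R i - chainL E R i)) +
            (D (i + 1) - E (i + 1)).comp ((R (i + 1)).comp (chainL E R i)) := by
        ext x : 1
        show D (i + 1) (R (i + 1) (chainL D R i x)) - E (i + 1) (R (i + 1) (chainL E R i x)) =
          D (i + 1) (R (i + 1) (chainL D R i x - chainL E R i x)) +
            (D (i + 1) (R (i + 1) (chainL E R i x)) - E (i + 1) (R (i + 1) (chainL E R i x)))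
        rw [map_sub, map_sub]
        abel
      rw [h4]
      have h5 : ‖(D (i + 1)).comp ((R (i + 1)).comp (chainL D R i - chainL E R i))‖ ≤
          (Λ + 1) * ((i + 1) * η * (Λ + 1) ^ i) := by
        refine (ContinuousLinearMap.opNorm_comp_le _ _).trans ?_
        refine mul_le_mul hD ?_ (norm_nonneg _) hΛ1
        refine (ContinuousLinearMap.opNorm_comp_le _ _).trans ?_
        calc ‖R (i + 1)‖ * ‖chainL D R i - chainL E R i‖
            ≤ 1 * ((i + 1) * η * (Λ + 1) ^ i) :=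
              mul_le_mul (hR _) h2 (norm_nonneg _) zero_le_one
          _ = _ := one_mul _
      have h6 : ‖(D (i + 1) - E (i + 1)).comp ((R (i + 1)).comp (chainL E R i))‖ ≤
          η * (Λ + 1) ^ (i + 1) := by
        refine (ContinuousLinearMap.opNorm_comp_le _ _).trans ?_
        refine mul_le_mul (hDE _ hi) (hRE.trans ?_) (norm_nonneg _) hη
        exact pow_le_pow_left₀ hΛ (by linarith) _
      refine (norm_add_le _ _).trans ?_
      calc _ ≤ (Λ + 1) * ((i + 1) * η * (Λ + 1) ^ i) + η * (Λ + 1) ^ (i + 1) :=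
            add_le_add h5 h6
        _ = (((i + 1 : ℕ) : ℝ) + 1) * η * (Λ + 1) ^ (i + 1) := by
            push_cast
            ring

end PROD

/-- PROD: the product of `d` matrices with nearly equal singular values, connected by cyclic shifts
of the singular directions, has small norm -/
theorem p_PROD : T_PROD := by
  intro d Λ hd hΛ
  have hΛ1 : 0 < Λ + 1 := by linarith
  have hd0 : (0 : ℝ) < d := by exact_mod_cast hd
  have hpow : 0 < (d : ℝ) * (Λ + 1) ^ d := mul_pos hd0 (pow_pos hΛ1 d)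
  refine ⟨min 1 (1 / ((d : ℝ) * (Λ + 1) ^ d)), lt_min one_pos (one_div_pos.2 hpow), ?_⟩
  intro γ D U W Q s hγ hsv hD hlog hQ
  have hη : 0 ≤ min 1 (1 / ((d : ℝ) * (Λ + 1) ^ d)) :=
    (lt_min one_pos (one_div_pos.2 hpow)).le
  have h1 := PROD.exact_bound hd γ U W Q s (fun i hi j => ((hsv i hi).2.1 j).1)
    (hsv 0 (by omega)).2.2 hlog hQ
  have h2 := (PROD.perturb D (fun i => usw (U i) (s i) (W i)) (PROD.conn U W Q) Λ _
    (by linarith) hη (min_le_left _ _) d (fun i hi => PROD.norm_usw_le _ _ _ _ (by linarith)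
      fun j => by
        rw [abs_of_pos ((hsv i hi).2.1 j).1]
        exact ((hsv i hi).2.1 j).2) hD (fun i => PROD.norm_isoL_le _) (d - 1) (by omega)).2
  have h3 : (((d - 1 : ℕ) : ℝ) + 1) * min 1 (1 / ((d : ℝ) * (Λ + 1) ^ d)) *
      (Λ + 1) ^ (d - 1) ≤ 1 := by
    have e1 : ((d - 1 : ℕ) : ℝ) + 1 = d := by
      rw [Nat.cast_sub hd]
      simp
    rw [e1]
    calc (d : ℝ) * min 1 (1 / ((d : ℝ) * (Λ + 1) ^ d)) * (Λ + 1) ^ (d - 1)
        ≤ (d : ℝ) * (1 / ((d : ℝ) * (Λ + 1) ^ d)) * (Λ + 1) ^ d := by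
          refine mul_le_mul (mul_le_mul_of_nonneg_left (min_le_right _ _) hd0.le) ?_
            (pow_nonneg hΛ1.le _) (mul_nonneg hd0.le (one_div_pos.2 hpow).le)
          exact pow_le_pow_right₀ (by linarith) (Nat.sub_le _ _)
      _ = 1 := by
          have := (pow_pos hΛ1 d).ne'
          field_simp
  have h4 : ‖chainL D (PROD.conn U W Q) (d - 1)‖ ≤ Real.exp (d * γ) + 1 := by
    have h5 : chainL D (PROD.conn U W Q) (d - 1) =
        chainL (fun i => usw (U i) (s i) (W i)) (PROD.conn U W Q) (d - 1) +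
        (chainL D (PROD.conn U W Q) (d - 1) -
          chainL (fun i => usw (U i) (s i) (W i)) (PROD.conn U W Q) (d - 1)) := by abel
    rw [h5]
    exact (norm_add_le _ _).trans (add_le_add h1 (h2.trans h3))
  exact h4

end

end Pool.Agent.SobEnt
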