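import Pool.Agent.SobEnt.EntLib

/-!
# RU: counting bound for the entropy (MP_07df6b_an)
-/

open MeasureTheory Filter Topology Set
open scoped ENNReal NNReal

universe u v w

namespace Pool.Agent.SobEnt

namespace RU

open EntLib

lemma limsup_le_of {a : ℕ → ℝ} {A H : ℝ} (h : ∀ n, 1 ≤ n → a n ≤ A + n * H) :
    limsup (fun n : ℕ => ENNReal.ofReal (a n / n)) atTop ≤ ENNReal.ofReal H := by
  have h1 : Tendsto (fun n : ℕ => ENNReal.ofReal (A / n + H)) atTop (𝓝 (ENNReal.ofReal H)) := by
    have h2 : Tendsto (fun n : ℕ => A / n + H) atTop (𝓝 (0 + H)) :=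
      (tendsto_const_div_atTop_nhds_zero_nat A).add tendsto_const_nhds
    rw [zero_add] at h2
    exact (ENNReal.continuous_ofReal.tendsto _).comp h2
  rw [← h1.limsup_eq]
  have h3 : ∀ᶠ n : ℕ in atTop,
      ENNReal.ofReal (a n / n) ≤ ENNReal.ofReal (A / n + H) := by
    filter_upwards [eventually_ge_atTop 1] with n hn
    apply ENNReal.ofReal_le_ofReal
    have hn' : (0 : ℝ) < n := by exact_mod_cast hn
    rw [div_le_iff₀ hn']
    have := h n hn
    have e : (A / n + H) * n = A + n * H := by field_simp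
    linarith
  exact limsup_le_limsup h3

variable {X : Type*} [MeasurableSpace X] (μ : Measure X) [IsFiniteMeasure μ]

lemma step {α : Type*} [Fintype α] {P : X → α} (hP : FM P) {T : X → X}
    (hT : MeasurePreserving T μ μ) (m : ℕ) :
    Hp μ (itin T P (m + 1 + 1)) ≤ Hp μ (itin T P (m + 1)) +
      (Hp μ (fun x => (P (T x), P x)) - Hp μ P) := by
  have hTm := hT.iterate m
  have hTm1 := hT.iterate (m + 1)
  have h1 := ssa μ (hP.itin hT.measurable (m + 1)) (hP.comp hTm1.measurable)
    (hP.comp hTm.measurable)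
  have h2 := Hp_map_le μ ((hP.itin hT.measurable (m + 1)).pair
    ((hP.comp hTm1.measurable).pair (hP.comp hTm.measurable)))
    (fun v : (Fin (m + 1) → α) × α × α => (v.1, v.2.1))
  have h3 := Hp_inj μ (itin T P (m + 1))
    (fun v : Fin (m + 1) → α => (v, v (Fin.last m))) (fun v w h => (Prod.ext_iff.1 h).1)
  have h4 := Hp_comp μ hP hTm
  have h5 : Hp μ (fun x => (P (T^[m + 1] x), P (T^[m] x))) = Hp μ (fun x => (P (T x), P x)) := by
    rw [← Hp_comp μ ((hP.comp hT.measurable).pair hP) hTm]
    congr 1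
    ext x
    · simp only [Function.iterate_succ_apply']
    · rfl
  rw [Hp_itin_succ μ T P (m + 1)]
  have e3 : Hp μ (fun x => (itin T P (m + 1) x, P (T^[m] x))) = Hp μ (itin T P (m + 1)) := h3
  simp only at h2
  rw [e3, h4, h5] at h1
  linarith

lemma bound {α : Type*} [Fintype α] {P : X → α} (hP : FM P) {T : X → X}
    (hT : MeasurePreserving T μ μ) (n : ℕ) :
    Hp μ (itin T P (n + 1)) ≤ Hp μ (itin T P 1) +
      n * (Hp μ (fun x => (P (T x), P x)) - Hp μ P) := by
  induction n with
  | zero => simp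
  | succ n ih =>
    have := step μ hP hT n
    push_cast
    linarith

end RU

open EntLib RU in
theorem p_RU : T_RU.{u} := by
  intro X _ μ _ T hT k P hPm N hN hcard
  classical
  have hP : FM P := FM.of_measurable hPm
  set H : ℝ := ∑ a, μ.real (P ⁻¹' {a}) * Real.log (N a) with hH
  have h1 : Hp μ (fun x => (P (T x), P x)) - Hp μ P ≤ H := by
    rw [Hp_pair_comm, sub_le_iff_le_add, hH]
    unfold Hp
    rw [Fintype.sum_prod_type, ← Finset.sum_add_distrib]
    refine Finset.sum_le_sum fun a _ => ?_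
    have h2 := card_bound (fun b => μ.real (P ⁻¹' {a} ∩ (fun x => P (T x)) ⁻¹' {b}))
      (fun b => measureReal_nonneg) (N a) (hN a)
      (Finset.univ.filter fun b => ∃ x, P x = a ∧ P (T x) = b) (by
        intro b hb
        have : P ⁻¹' {a} ∩ (fun x => P (T x)) ⁻¹' {b} = ∅ := by
          ext x
          simp only [mem_inter_iff, mem_preimage, mem_singleton_iff, mem_empty_iff_false,
            iff_false]
          intro h
          exact hb (by simpa using ⟨x, h⟩)
        rw [this]
        simp) (by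
        refine le_trans (le_of_eq ?_) (hcard a)
        rw [← Set.ncard_coe_finset]
        congr 1
        ext b
        simp)
    rw [sum_fibre μ (hP.comp hT.measurable) _ (hP a)] at h2
    have h3 : ∀ b, (fun x => (P x, P (T x))) ⁻¹' {(a, b)} =
        P ⁻¹' {a} ∩ (fun x => P (T x)) ⁻¹' {b} := by
      intro b
      ext x
      simp [Prod.ext_iff]
    simp only [h3]
    linarith
  refine limsup_le_of (A := Hp μ (itin T P 1)) ?_
  intro n hn
  obtain ⟨m, rfl⟩ : ∃ m, n = m + 1 := ⟨n - 1, by omega⟩
  have h2 := bound μ hP hT m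
  have h3 : 0 ≤ H := Finset.sum_nonneg fun a _ =>
    mul_nonneg measureReal_nonneg (Real.log_nonneg (by exact_mod_cast hN a))
  have h4 : (m : ℝ) * (Hp μ (fun x => (P (T x), P x)) - Hp μ P) ≤ m * H := by gcongr
  push_cast
  linarith

end Pool.Agent.SobEnt
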