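import Pool.Agent.SobEnt.Targets

/-!
# RUELLE: the metric Ruelle inequality (MP_07df6b_an)
-/

open MeasureTheory Filter Topology Set Bundle
open scoped ENNReal NNReal Manifold ContDiff

universe u v w

namespace Pool.Agent.SobEnt

noncomputable section

namespace RUELLE

variable {X : Type u} [MetricSpace X]

/-- oscillation of `T` on the ball of radius `1/(n+1)` -/
def osc (T : X → X) (n : ℕ) (x : X) : ℝ≥0∞ :=
  ⨆ y ∈ Metric.ball x (1 / ((n : ℝ) + 1)), edist (T x) (T y)

lemma lipAt_eq (T : X → X) (x : X) :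
    lipAt T x = limsup (fun n : ℕ => ((n : ℝ≥0∞) + 1) * osc T n x) atTop := rfl

lemma measurable_osc [MeasurableSpace X] [BorelSpace X] {T : X → X} (hT : Continuous T) (n : ℕ) :
    Measurable (osc T n) := by
  apply LowerSemicontinuous.measurable
  intro x a ha
  unfold osc at ha
  simp only [lt_iSup_iff] at ha
  obtain ⟨y, hy, hya⟩ := ha
  have h1 : ∀ᶠ x' in 𝓝 x, y ∈ Metric.ball x' (1 / ((n : ℝ) + 1)) := by
    have : Tendsto (fun x' => dist y x') (𝓝 x) (𝓝 (dist y x)) :=
      (continuous_const.dist continuous_id).tendsto x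
    exact this.eventually (gt_mem_nhds (Metric.mem_ball.1 hy))
  have h2 : ∀ᶠ x' in 𝓝 x, a < edist (T x') (T y) := by
    have : Tendsto (fun x' => edist (T x') (T y)) (𝓝 x) (𝓝 (edist (T x) (T y))) :=
      ((hT.edist continuous_const)).tendsto x
    exact this.eventually (lt_mem_nhds hya)
  filter_upwards [h1, h2] with x' h1 h2
  unfold osc
  exact h2.trans_le (le_iSup₂ (f := fun y (_ : y ∈ Metric.ball x' (1 / ((n : ℝ) + 1))) =>
    edist (T x') (T y)) y h1)

lemma osc_le {T : X → X} {L : ℝ≥0} (hT : LipschitzWith L T) (n : ℕ) (x : X) :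
    ((n : ℝ≥0∞) + 1) * osc T n x ≤ L := by
  have h1 : osc T n x ≤ L * ((n : ℝ≥0∞) + 1)⁻¹ := by
    unfold osc
    refine iSup₂_le fun y hy => (hT x y).trans ?_
    gcongr
    have hpos : (0 : ℝ) < (n : ℝ) + 1 := by positivity
    have : edist x y ≤ ENNReal.ofReal (1 / ((n : ℝ) + 1)) := by
      rw [edist_dist, dist_comm]
      exact ENNReal.ofReal_le_ofReal (Metric.mem_ball.1 hy).le
    refine this.trans ?_
    rw [one_div, ENNReal.ofReal_inv_of_pos hpos, ENNReal.ofReal_add (by positivity) zero_le_one,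
      ENNReal.ofReal_natCast, ENNReal.ofReal_one]
  have hne : ((n : ℝ≥0∞) + 1) ≠ 0 := by simp
  have hnt : ((n : ℝ≥0∞) + 1) ≠ ⊤ := by simp
  calc ((n : ℝ≥0∞) + 1) * osc T n x ≤ ((n : ℝ≥0∞) + 1) * (L * ((n : ℝ≥0∞) + 1)⁻¹) := by gcongr
    _ = L * (((n : ℝ≥0∞) + 1) * ((n : ℝ≥0∞) + 1)⁻¹) := by ring
    _ = L := by rw [ENNReal.mul_inv_cancel hne hnt, mul_one]

/-- the relative oscillation -/
def psi (T : X → X) (n : ℕ) (x : X) : ℝ := max 1 (3 * (((n : ℝ≥0∞) + 1) * osc T n x).toReal)

lemma one_le_psi (T : X → X) (n : ℕ) (x : X) : 1 ≤ psi T n x := le_max_left _ _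

lemma measurable_psi [MeasurableSpace X] [BorelSpace X] {T : X → X} (hT : Continuous T) (n : ℕ) :
    Measurable (psi T n) := by
  unfold psi
  exact measurable_const.max (((measurable_const.mul (measurable_osc hT n)).ennreal_toReal).const_mul _)

lemma psi_le {T : X → X} {L : ℝ≥0} (hT : LipschitzWith L T) (n : ℕ) (x : X) :
    psi T n x ≤ 3 * L + 1 := by
  unfold psi
  have : (((n : ℝ≥0∞) + 1) * osc T n x).toReal ≤ L := by
    have := ENNReal.toReal_mono (by simp) (osc_le hT n x)
    simpa using this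
  have hL : (0 : ℝ) ≤ L := L.2
  exact max_le (by linarith) (by linarith)

lemma dist_le_psi {T : X → X} {L : ℝ≥0} (hT : LipschitzWith L T) (n : ℕ) (x y : X)
    (h : dist x y < 1 / ((n : ℝ) + 1)) :
    dist (T x) (T y) ≤ (1 / (3 * ((n : ℝ) + 1))) * psi T n x := by
  have hmem : y ∈ Metric.ball x (1 / ((n : ℝ) + 1)) := by
    rw [Metric.mem_ball, dist_comm]; exact h
  have h1 : edist (T x) (T y) ≤ osc T n x :=
    le_iSup₂ (f := fun y (_ : y ∈ Metric.ball x (1 / ((n : ℝ) + 1))) => edist (T x) (T y)) y hmem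
  have h2 : ((n : ℝ≥0∞) + 1) * edist (T x) (T y) ≤ ((n : ℝ≥0∞) + 1) * osc T n x := by gcongr
  have hfin : ((n : ℝ≥0∞) + 1) * osc T n x ≠ ⊤ := ne_top_of_le_ne_top (by simp) (osc_le hT n x)
  have h3 := ENNReal.toReal_mono hfin h2
  rw [ENNReal.toReal_mul, edist_dist, ENNReal.toReal_ofReal dist_nonneg] at h3
  have h4 : ((n : ℝ≥0∞) + 1).toReal = (n : ℝ) + 1 := by
    rw [ENNReal.toReal_add (by simp) (by simp)]; simp
  rw [h4] at h3
  have hpos : (0 : ℝ) < (n : ℝ) + 1 := by positivity
  have h5 : 3 * (((n : ℝ≥0∞) + 1) * osc T n x).toReal ≤ psi T n x := le_max_right _ _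
  rw [div_mul_eq_mul_div, one_mul, le_div_iff₀ (by positivity)]
  nlinarith

lemma lipAt_le {T : X → X} {L : ℝ≥0} (hT : LipschitzWith L T) (x : X) : lipAt T x ≤ L := by
  rw [lipAt_eq]
  exact limsup_le_of_le (h := Eventually.of_forall fun n => osc_le hT n x)

lemma eventually_log_psi {T : X → X} {L : ℝ≥0} (hT : LipschitzWith L T) (x : X) {ε : ℝ}
    (hε : 0 < ε) : ∀ᶠ n : ℕ in atTop, Real.log (psi T n x) ≤ Real.log 3 + logLip T x + ε := by
  have hfin : lipAt T x ≠ ⊤ := ne_top_of_le_ne_top (by simp) (lipAt_le hT x)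
  have h1 : lipAt T x < lipAt T x + ENNReal.ofReal ε :=
    ENNReal.lt_add_right hfin (by simpa using hε)
  rw [lipAt_eq] at h1
  have h2 := eventually_lt_of_limsup_lt h1
  filter_upwards [h2] with n hn
  rw [← lipAt_eq] at hn
  have h3 : (((n : ℝ≥0∞) + 1) * osc T n x).toReal ≤ (lipAt T x).toReal + ε := by
    have := ENNReal.toReal_mono (by simp [hfin]) hn.le
    rwa [ENNReal.toReal_add hfin (by simp), ENNReal.toReal_ofReal hε.le] at this
  set m : ℝ := max 1 (lipAt T x).toReal with hm
  have hm1 : 1 ≤ m := le_max_left _ _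
  have hml : (lipAt T x).toReal ≤ m := le_max_right _ _
  have h4 : psi T n x ≤ 3 * m * (1 + ε) := by
    unfold psi
    refine max_le ?_ ?_
    · nlinarith
    · nlinarith
  have hpos : 0 < psi T n x := lt_of_lt_of_le one_pos (one_le_psi T n x)
  calc Real.log (psi T n x) ≤ Real.log (3 * m * (1 + ε)) := Real.log_le_log hpos h4
    _ = Real.log 3 + Real.log m + Real.log (1 + ε) := by
        rw [Real.log_mul (by positivity) (by positivity), Real.log_mul (by norm_num) (by positivity)]
    _ ≤ Real.log 3 + logLip T x + ε := by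
        have := Real.log_le_sub_one_of_pos (show (0 : ℝ) < 1 + ε by positivity)
        have hl : logLip T x = Real.log m := rfl
        rw [hl]; linarith

lemma logLip_nonneg (T : X → X) (x : X) : 0 ≤ logLip T x := Real.log_nonneg (le_max_left _ _)

lemma logLip_le {T : X → X} {L : ℝ≥0} (hT : LipschitzWith L T) (x : X) :
    logLip T x ≤ Real.log (L + 1) := by
  unfold logLip
  apply Real.log_le_log (lt_of_lt_of_le one_pos (le_max_left _ _))
  have : (lipAt T x).toReal ≤ L := by
    have := ENNReal.toReal_mono (by simp) (lipAt_le hT x)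
    simpa using this
  have hL : (0 : ℝ) ≤ L := L.2
  exact max_le (by linarith) (by linarith)

/-- limit superior of the integrals of `log ψ_n` -/
lemma eventually_integral [MeasurableSpace X] [BorelSpace X] (μ : Measure X)
    [IsProbabilityMeasure μ] {T : X → X} {L : ℝ≥0} (hT : LipschitzWith L T)
    (hm : Measurable (lipAt T)) :
    ∀ᶠ n : ℕ in atTop, ∫ x, Real.log (psi T n x) ∂μ ≤ Real.log 3 + ∫ x, logLip T x ∂μ + 1 := by
  have hmL : Measurable (logLip T) :=
    Real.measurable_log.comp (measurable_const.max hm.ennreal_toReal)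
  have hiL : Integrable (logLip T) μ :=
    Integrable.of_bound hmL.aestronglyMeasurable (Real.log (L + 1))
      (Eventually.of_forall fun x => by
        rw [Real.norm_of_nonneg (logLip_nonneg T x)]; exact logLip_le hT x)
  have hlog0 : ∀ n x, 0 ≤ Real.log (psi T n x) := fun n x => Real.log_nonneg (one_le_psi T n x)
  have hmp : ∀ n, Measurable fun x => Real.log (psi T n x) := fun n =>
    Real.measurable_log.comp (measurable_psi hT.continuous n)
  have hbd : ∀ n x, Real.log (psi T n x) ≤ Real.log (3 * L + 1) := fun n x =>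
    Real.log_le_log (lt_of_lt_of_le one_pos (one_le_psi T n x)) (psi_le hT n x)
  have hip : ∀ n, Integrable (fun x => Real.log (psi T n x)) μ := fun n =>
    Integrable.of_bound (hmp n).aestronglyMeasurable (Real.log (3 * L + 1))
      (Eventually.of_forall fun x => by
        rw [Real.norm_of_nonneg (hlog0 n x)]; exact hbd n x)
  have hlim : limsup (fun n : ℕ => ∫⁻ x, ENNReal.ofReal (Real.log (psi T n x)) ∂μ) atTop ≤
      ∫⁻ x, limsup (fun n : ℕ => ENNReal.ofReal (Real.log (psi T n x))) atTop ∂μ := by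
    apply limsup_lintegral_le (fun _ => ENNReal.ofReal (Real.log (3 * L + 1)))
    · exact fun n => (hmp n).ennreal_ofReal
    · exact fun n => Eventually.of_forall fun x => ENNReal.ofReal_le_ofReal (hbd n x)
    · simp
  have hpt : ∀ x, limsup (fun n : ℕ => ENNReal.ofReal (Real.log (psi T n x))) atTop ≤
      ENNReal.ofReal (Real.log 3 + logLip T x) := by
    intro x
    apply le_of_forall_pos_le_add
    intro ε hε
    by_cases hεt : ε = ⊤
    · rw [hεt]; simp
    have hεr : 0 < ε.toReal := ENNReal.toReal_pos hε.ne' hεt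
    refine limsup_le_of_le (h := ?_)
    filter_upwards [eventually_log_psi hT x hεr] with n hn
    refine (ENNReal.ofReal_le_ofReal hn).trans ?_
    refine ENNReal.ofReal_add_le.trans ?_
    rw [ENNReal.ofReal_toReal hεt]
  have hint : ∫⁻ x, ENNReal.ofReal (Real.log 3 + logLip T x) ∂μ =
      ENNReal.ofReal (Real.log 3 + ∫ x, logLip T x ∂μ) := by
    rw [← ofReal_integral_eq_lintegral_ofReal]
    · congr 1
      rw [integral_add (integrable_const _) hiL]
      simp
    · exact (integrable_const _).add hiL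
    · exact Eventually.of_forall fun x =>
        add_nonneg (Real.log_nonneg (by norm_num)) (logLip_nonneg T x)
  have hI0 : 0 ≤ ∫ x, logLip T x ∂μ := integral_nonneg fun x => logLip_nonneg T x
  have hlog3 : 0 ≤ Real.log 3 := Real.log_nonneg (by norm_num)
  have hlt : limsup (fun n : ℕ => ∫⁻ x, ENNReal.ofReal (Real.log (psi T n x)) ∂μ) atTop <
      ENNReal.ofReal (Real.log 3 + ∫ x, logLip T x ∂μ + 1) := by
    refine lt_of_le_of_lt (hlim.trans (lintegral_mono hpt)) ?_
    rw [hint]
    exact (ENNReal.ofReal_lt_ofReal_iff (by linarith)).2 (by linarith)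
  filter_upwards [eventually_lt_of_limsup_lt hlt] with n hn
  rw [← ofReal_integral_eq_lintegral_ofReal (hip n) (Eventually.of_forall fun x => hlog0 n x)] at hn
  exact (ENNReal.ofReal_le_ofReal_iff (by linarith)).1 hn.le

/-- the counting step -/
lemma count_le {T : X → X} {L : ℝ≥0} (hT : LipschitzWith L T) (n : ℕ) {k : ℕ} {P : X → Fin k}
    {d : ℕ} {C' : ℝ}
    (hmesh : ∀ x y, P x = P y → dist x y ≤ 2 * (1 / (3 * ((n : ℝ) + 1))))
    (hcount : ∀ (x : X) (s : ℝ), 1 / (3 * ((n : ℝ) + 1)) ≤ s →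
      (({a | ∃ y, dist x y ≤ s ∧ P y = a} : Set (Fin k)).ncard : ℝ) ≤
      C' * (s / (1 / (3 * ((n : ℝ) + 1)))) ^ d) (x : X) :
    (({b : Fin k | ∃ z, P z = P x ∧ P (T z) = b} : Set (Fin k)).ncard : ℝ) ≤
      C' * psi T n x ^ d := by
  have hpos : (0 : ℝ) < 1 / (3 * ((n : ℝ) + 1)) := by positivity
  have hs : 1 / (3 * ((n : ℝ) + 1)) ≤ (1 / (3 * ((n : ℝ) + 1))) * psi T n x := by
    nlinarith [one_le_psi T n x]
  have h1 := hcount (T x) _ hs
  rw [mul_div_cancel_left₀ _ hpos.ne'] at h1
  refine le_trans ?_ h1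
  have hsub : ({b : Fin k | ∃ z, P z = P x ∧ P (T z) = b} : Set (Fin k)) ⊆
      {a | ∃ y, dist (T x) y ≤ (1 / (3 * ((n : ℝ) + 1))) * psi T n x ∧ P y = a} := by
    rintro b ⟨z, hz, rfl⟩
    refine ⟨T z, dist_le_psi hT n x z ?_, rfl⟩
    refine (hmesh x z hz.symm).trans_lt ?_
    have hp : (0 : ℝ) < (n : ℝ) + 1 := by positivity
    rw [mul_one_div, div_lt_div_iff₀ (by positivity) hp]
    linarith
  exact_mod_cast Set.ncard_le_ncard hsub (Set.toFinite _)

end RUELLE

open RUELLE in
theorem p_RUELLE (h1 : T_VBAS.{u}) (h2 : T_VORO.{u}) (h3 : T_RU.{u}) (h4 : T_GEN.{u})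
    (h5 : T_LIPM.{u}) : T_RUELLE.{u} := by
  intro X _ _ _ _ lam d V hd hX
  obtain ⟨hfin, hpos, ⟨C₀, r₀, hC₀, hr₀, hball⟩, -⟩ := h1 X lam d V hd
  have hpos := hpos hX
  have : IsFiniteMeasure lam := ⟨hfin⟩
  obtain ⟨C', hC', hpart⟩ := h2 X lam d C₀ r₀ hr₀ hC₀ hball
  have hprob : IsProbabilityMeasure (nrm lam) := by
    refine ⟨?_⟩
    unfold nrm
    rw [Measure.smul_apply, smul_eq_mul, ENNReal.inv_mul_cancel hpos.ne' hfin.ne]
  have hr1 : ∀ j : ℕ, 0 < 1 / (3 * ((j : ℝ) + 1)) := fun j => by positivity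
  have hr2 : ∀ j : ℕ, 1 / (3 * ((j : ℝ) + 1)) ≤ 1 := fun j => by
    rw [div_le_one (by positivity)]
    have : (0 : ℝ) ≤ j := Nat.cast_nonneg j
    linarith
  choose κ P hPm hmesh hcount using fun j : ℕ => hpart (1 / (3 * ((j : ℝ) + 1))) (hr1 j) (hr2 j)
  have hlogC : 0 ≤ Real.log C' := Real.log_nonneg hC'
  have hlog3 : 0 ≤ Real.log 3 := Real.log_nonneg (by norm_num)
  refine ⟨Real.log C' + d * (Real.log 3 + 1), by positivity, fun T L hT hTm => ?_⟩
  have hTn : MeasurePreserving T (nrm lam) (nrm lam) := hTm.smul_measure _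
  refine h4 X (nrm lam) T hTn κ P hPm ?_ _ ?_
  · intro δ hδ
    have ht : Tendsto (fun j : ℕ => 2 * (1 / (3 * ((j : ℝ) + 1)))) atTop (𝓝 0) := by
      have h := (tendsto_one_div_add_atTop_nhds_zero_nat (𝕜 := ℝ)).const_mul (2 / 3)
      rw [mul_zero] at h
      refine h.congr fun j => ?_
      field_simp
    filter_upwards [ht.eventually (gt_mem_nhds hδ)] with j hj x y hxy
    exact (hmesh j x y hxy).trans hj.le
  · apply Eventually.frequently
    have hlm := (h5 X).1 T hT.continuous
    filter_upwards [eventually_integral (nrm lam) hT hlm] with j hj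
    classical
    let N : Fin (κ j) → ℕ := fun a =>
      max 1 ({b : Fin (κ j) | ∃ x, P j x = a ∧ P j (T x) = b}.ncard)
    have hru := h3 X (nrm lam) T hTn (κ j) (P j) (hPm j) N (fun a => le_max_left _ _)
      (fun a => le_max_right _ _)
    refine hru.trans (ENNReal.ofReal_le_ofReal ?_)
    have hNx : ∀ x, Real.log (N (P j x)) ≤ Real.log C' + d * Real.log (psi T j x) := by
      intro x
      have hc := count_le hT j (hmesh j) (hcount j) x
      have hp1 := one_le_psi T j x
      have hpd : (1 : ℝ) ≤ psi T j x ^ d := one_le_pow₀ hp1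
      have hN : (N (P j x) : ℝ) ≤ C' * psi T j x ^ d := by
        simp only [N, Nat.cast_max, Nat.cast_one]
        refine max_le ?_ hc
        nlinarith
      have hN1 : (1 : ℝ) ≤ N (P j x) := by exact_mod_cast le_max_left _ _
      calc Real.log (N (P j x)) ≤ Real.log (C' * psi T j x ^ d) :=
            Real.log_le_log (by linarith) hN
        _ = Real.log C' + d * Real.log (psi T j x) := by
            rw [Real.log_mul (by linarith) (by positivity), Real.log_pow]
    have hsum : ∑ a, (nrm lam).real (P j ⁻¹' {a}) * Real.log (N a) =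
        ∫ x, Real.log (N (P j x)) ∂(nrm lam) := by
      have hmap : ∫ x, Real.log (N (P j x)) ∂(nrm lam) =
          ∫ a, Real.log (N a) ∂((nrm lam).map (P j)) :=
        (integral_map (f := fun a : Fin (κ j) => Real.log (N a)) (hPm j).aemeasurable
          (measurable_of_finite _).aestronglyMeasurable).symm
      have : IsProbabilityMeasure ((nrm lam).map (P j)) :=
        Measure.isProbabilityMeasure_map (hPm j).aemeasurable
      rw [hmap, integral_fintype (μ := (nrm lam).map (P j)) (f := fun a => Real.log (N a))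
        (Integrable.of_finite)]
      refine Finset.sum_congr rfl fun a _ => ?_
      rw [smul_eq_mul, map_measureReal_apply (hPm j) (measurableSet_singleton a)]
    have hmp : Measurable fun x => Real.log (psi T j x) :=
      Real.measurable_log.comp (measurable_psi hT.continuous j)
    have hip : Integrable (fun x => Real.log (psi T j x)) (nrm lam) :=
      Integrable.of_bound hmp.aestronglyMeasurable (Real.log (3 * L + 1))
        (Eventually.of_forall fun x => by
          rw [Real.norm_of_nonneg (Real.log_nonneg (one_le_psi T j x))]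
          exact Real.log_le_log (lt_of_lt_of_le one_pos (one_le_psi T j x)) (psi_le hT j x))
    have hle : ∫ x, Real.log (N (P j x)) ∂(nrm lam) ≤
        ∫ x, (Real.log C' + d * Real.log (psi T j x)) ∂(nrm lam) := by
      apply integral_mono_of_nonneg
      · exact Eventually.of_forall fun x => Real.log_natCast_nonneg _
      · exact (integrable_const _).add (hip.const_mul _)
      · exact Eventually.of_forall hNx
    rw [integral_add (integrable_const _) (hip.const_mul _), integral_const_mul] at hle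
    simp only [integral_const, probReal_univ, smul_eq_mul, one_mul] at hle
    rw [hsum]
    have hdj : (d : ℝ) * ∫ x, Real.log (psi T j x) ∂(nrm lam) ≤
        d * (Real.log 3 + ∫ x, logLip T x ∂(nrm lam) + 1) :=
      mul_le_mul_of_nonneg_left hj (Nat.cast_nonneg d)
    calc _ ≤ _ := hle
      _ ≤ Real.log C' + d * (Real.log 3 + ∫ x, logLip T x ∂(nrm lam) + 1) := by linarith
      _ = _ := by ring

end

end Pool.Agent.SobEnt
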