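import Pool.Agent.SobEnt.Targets2

/-!
# SHIFT: choice of the base of the tower
-/

open MeasureTheory Filter Topology Set
open scoped ENNReal NNReal

universe u

namespace Pool.Agent.SobEnt

namespace SHIFT

variable {X : Type u} [MeasurableSpace X]

lemma image_succ (f : X ≃ᵐ X) (i : ℕ) (S : Set X) :
    (f : X → X)^[i + 1] '' S = f '' ((f : X → X)^[i] '' S) := by
  rw [Set.image_image]
  apply Set.image_congr
  intro a _
  rw [Function.iterate_succ_apply']

lemma img_add (f : X ≃ᵐ X) (i j : ℕ) (S : Set X) :
    (f : X → X)^[i + j] '' S = (f : X → X)^[i] '' ((f : X → X)^[j] '' S) := by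
  rw [Set.image_image]
  apply Set.image_congr
  intro a _
  rw [Function.iterate_add_apply]

lemma meas_image (f : X ≃ᵐ X) (i : ℕ) {S : Set X} (hS : MeasurableSet S) :
    MeasurableSet ((f : X → X)^[i] '' S) := by
  induction i with
  | zero => simpa using hS
  | succ i ih =>
    rw [image_succ]
    exact (f.measurableEmbedding.measurableSet_image).2 ih

lemma measure_image {μ : Measure X} (f : X ≃ᵐ X) (hf : MeasurePreserving f μ μ) (i : ℕ)
    (S : Set X) : μ ((f : X → X)^[i] '' S) = μ S := by
  induction i with
  | zero => simp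
  | succ i ih =>
    rw [image_succ, ← ih, ← hf.measure_preimage_equiv, Set.preimage_image_eq _ f.injective]

lemma inj (f : X ≃ᵐ X) (i : ℕ) : Function.Injective (f : X → X)^[i] := f.injective.iterate i

end SHIFT

open SHIFT in
theorem p_SHIFT : T_SHIFT.{u} := by
  intro X _ μ _ f hf d M Y B Q κ hd hM hY hYi hB hQ hBY hdis hκ
  have hdM : 0 < d * M := Nat.mul_pos hd hM
  -- invariance of the complement of `Y`
  have hYc : ∀ (i : ℕ) (S : Set X), S ⊆ Yᶜ → (f : X → X)^[i] '' S ⊆ Yᶜ := by
    intro i
    induction i with
    | zero => intro S hS; simpa using hS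
    | succ i ih =>
      intro S hS
      rw [image_succ]
      rintro _ ⟨a, ha, rfl⟩ hfa
      apply ih S hS ha
      have : a ∈ f ⁻¹' Y := hfa
      rwa [hYi] at this
  have hreal : ∀ (i : ℕ) (S : Set X), μ.real ((f : X → X)^[i] '' S) = μ.real S := by
    intro i S
    unfold Measure.real
    rw [measure_image f hf]
  -- the choice of the level
  set s : ℕ → ℝ := fun j => ∑ i ∈ Finset.range d,
    μ.real ((f : X → X)^[j] '' B ∩ (f : X → X)^[i * M] ⁻¹' Q) with hs
  have hfm : ∀ k : ℕ, Measurable (f : X → X)^[k] := fun k => f.measurable.iterate k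
  have hsum : ∑ j ∈ Finset.range (d * M), s j ≤ d * μ.real Q := by
    rw [hs, Finset.sum_comm]
    calc ∑ i ∈ Finset.range d, ∑ j ∈ Finset.range (d * M),
          μ.real ((f : X → X)^[j] '' B ∩ (f : X → X)^[i * M] ⁻¹' Q)
        ≤ ∑ _i ∈ Finset.range d, μ.real Q := by
          apply Finset.sum_le_sum
          intro i _
          have h1 : ∑ j ∈ Finset.range (d * M),
              μ.real ((f : X → X)^[j] '' B ∩ (f : X → X)^[i * M] ⁻¹' Q) =
              μ.real (⋃ j ∈ Finset.range (d * M),
                ((f : X → X)^[j] '' B ∩ (f : X → X)^[i * M] ⁻¹' Q)) := by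
            symm
            apply measureReal_biUnion_finset
            · intro j hj k hk hjk
              have hj' := Finset.mem_range.1 (Finset.mem_coe.1 hj)
              have hk' := Finset.mem_range.1 (Finset.mem_coe.1 hk)
              have : Disjoint ((f : X → X)^[j] '' B) ((f : X → X)^[k] '' B) := by
                rcases Nat.lt_or_gt_of_ne hjk with h | h
                · exact hdis j k h hk'
                · exact (hdis k j h hj').symm
              exact this.mono Set.inter_subset_left Set.inter_subset_left
            · intro j _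
              exact (meas_image f j hB).inter (hfm _ hQ)
            · intro j _
              exact measure_ne_top _ _
          have h2 : μ.real ((f : X → X)^[i * M] ⁻¹' Q) = μ.real Q := by
            unfold Measure.real
            rw [(hf.iterate (i * M)).measure_preimage hQ.nullMeasurableSet]
          rw [h1, ← h2]
          refine measureReal_mono ?_ (measure_ne_top _ _)
          intro x hx
          rw [Set.mem_iUnion₂] at hx
          obtain ⟨j, _, hx⟩ := hx
          exact hx.2
      _ = d * μ.real Q := by
          rw [Finset.sum_const, Finset.card_range, nsmul_eq_mul]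
  obtain ⟨j, hj, hjmin⟩ := Finset.exists_min_image (Finset.range (d * M)) s
    ⟨0, Finset.mem_range.2 hdM⟩
  have hj' := Finset.mem_range.1 hj
  have hsj : ((d * M : ℕ) : ℝ) * s j ≤ d * μ.real Q := by
    calc ((d * M : ℕ) : ℝ) * s j = ∑ _k ∈ Finset.range (d * M), s j := by
          rw [Finset.sum_const, Finset.card_range, nsmul_eq_mul]
      _ ≤ ∑ k ∈ Finset.range (d * M), s k := Finset.sum_le_sum fun k hk => hjmin k hk
      _ ≤ _ := hsum
  -- measure of the tower
  have htow : μ.real (⋃ i ∈ Finset.range (d * M), (f : X → X)^[i] '' B) =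
      (d * M : ℕ) * μ.real B := by
    rw [measureReal_biUnion_finset]
    · rw [Finset.sum_congr rfl (fun i _ => hreal i B), Finset.sum_const, Finset.card_range,
        nsmul_eq_mul]
    · intro j hj k hk hjk
      have hj' := Finset.mem_range.1 (Finset.mem_coe.1 hj)
      have hk' := Finset.mem_range.1 (Finset.mem_coe.1 hk)
      rcases Nat.lt_or_gt_of_ne hjk with h | h
      · exact hdis j k h hk'
      · exact (hdis k j h hj').symm
    · intro j _
      exact meas_image f j hB
  refine ⟨(f : X → X)^[j] '' B, meas_image f j hB, hYc j B hBY, ?_, ?_, ?_, ?_, ?_, ?_, ?_⟩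
  · intro i k hik hk
    rw [← img_add, ← img_add, add_comm i j, add_comm k j, img_add, img_add]
    exact Set.disjoint_image_of_injective (inj f j) (hdis i k hik hk)
  · rw [hreal, ← htow]
    have h1 : μ.real Yᶜ ≤ μ.real (⋃ i ∈ Finset.range (d * M), (f : X → X)^[i] '' B) +
        μ.real (Yᶜ \ ⋃ i ∈ Finset.range (d * M), (f : X → X)^[i] '' B) := by
      calc μ.real Yᶜ ≤ μ.real ((⋃ i ∈ Finset.range (d * M), (f : X → X)^[i] '' B) ∪
            (Yᶜ \ ⋃ i ∈ Finset.range (d * M), (f : X → X)^[i] '' B)) := by
            refine measureReal_mono ?_ (measure_ne_top _ _)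
            intro x hx
            by_cases h : x ∈ ⋃ i ∈ Finset.range (d * M), (f : X → X)^[i] '' B
            · exact Or.inl h
            · exact Or.inr ⟨hx, h⟩
        _ ≤ _ := measureReal_union_le _ _
    linarith
  · rw [hreal, ← htow]
    exact measureReal_mono (Set.subset_univ _) (measure_ne_top _ _)
  · intro i
    exact meas_image f i (meas_image f j hB)
  · intro i
    exact hYc i _ (hYc j B hBY)
  · intro i
    exact hreal i _
  · have h1 : ∑ i ∈ Finset.range d,
        μ.real ((f : X → X)^[i * M] '' ((f : X → X)^[j] '' B) ∩ Q) = s j := by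
      apply Finset.sum_congr rfl
      intro i _
      rw [← Set.image_inter_preimage, hreal]
    rw [h1]
    have h2 : (0 : ℝ) ≤ μ.real Q := measureReal_nonneg
    have h3 : (1 : ℝ) ≤ d := by exact_mod_cast hd
    have h4 : (d : ℝ) * μ.real Q ≤ d ^ 2 * μ.real Q := by
      apply mul_le_mul_of_nonneg_right _ h2
      nlinarith
    linarith

end Pool.Agent.SobEnt
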