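import Pool.Agent.SobEnt.Targets

/-!
# STRAIGHT (MP_07df6b_an): local straightening of a positive density
-/

open MeasureTheory Filter Topology Set
open scoped ENNReal NNReal ContDiff

namespace Pool.Agent.SobEnt

noncomputable section

namespace STRAIGHT

/-- parametric integrals of functions of class one -/
lemma contDiff_param {E : Type} [NormedAddCommGroup E] [NormedSpace ℝ E] [FiniteDimensional ℝ E]
    (F : E × ℝ → ℝ) (hF : ContDiff ℝ 1 F) :
    ContDiff ℝ 1 (fun x => ∫ s in (0 : ℝ)..1, F (x, s)) := by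
  have : ProperSpace E := FiniteDimensional.proper ℝ E
  rw [contDiff_one_iff_hasFDerivAt]
  set F' : E × ℝ → E →L[ℝ] ℝ := fun p => (fderiv ℝ F p).comp (ContinuousLinearMap.inl ℝ E ℝ)
    with hF'
  have hc : Continuous F' :=
    (hF.continuous_fderiv (by simp)).clm_comp continuous_const
  refine ⟨fun x => ∫ s in (0 : ℝ)..1, F' (x, s), ?_, ?_⟩
  · exact intervalIntegral.continuous_parametric_intervalIntegral_of_continuous'
      (f := fun x s => F' (x, s)) hc 0 1
  · intro x₀
    obtain ⟨C, hC⟩ := ((isCompact_closedBall x₀ 1).prod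
      (isCompact_Icc (a := (0 : ℝ)) (b := 1))).exists_bound_of_continuousOn (f := F')
      hc.continuousOn
    refine intervalIntegral.hasFDerivAt_integral_of_dominated_of_fderiv_le
      (F := fun x s => F (x, s)) (F' := fun x s => F' (x, s)) (s := Metric.ball x₀ 1)
      (bound := fun _ => C) (Metric.ball_mem_nhds x₀ one_pos) ?_ ?_ ?_ ?_ ?_ ?_
    · refine Eventually.of_forall fun x => ?_
      exact (hF.continuous.comp (by fun_prop : Continuous fun s : ℝ => (x, s))).aestronglyMeasurable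
    · exact (hF.continuous.comp
        (by fun_prop : Continuous fun s : ℝ => (x₀, s))).intervalIntegrable _ _
    · exact (hc.comp (by fun_prop : Continuous fun s : ℝ => (x₀, s))).aestronglyMeasurable
    · refine Eventually.of_forall fun t ht x hx => hC (x, t) ⟨?_, ?_⟩
      · exact Metric.ball_subset_closedBall hx
      · rw [uIoc_of_le zero_le_one] at ht
        exact ⟨ht.1.le, ht.2⟩
    · exact continuous_const.intervalIntegrable _ _
    · refine Eventually.of_forall fun t _ x _ => ?_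
      have h1 : HasFDerivAt F (fderiv ℝ F (x, t)) (x, t) :=
        ((hF.differentiable (by simp)) (x, t)).hasFDerivAt
      have h2 : HasFDerivAt (fun y : E => (y, t)) (ContinuousLinearMap.inl ℝ E ℝ) x :=
        hasFDerivAt_prodMk_left x t
      exact h1.comp x h2

variable {d : ℕ}

/-- the vector `e_j` -/
def ej (j : Fin d) : EN d := EuclideanSpace.single j 1

lemma ej_self (j : Fin d) : (ej j) j = 1 := by simp [ej]

/-- the primitive of `ρ` in the direction of the coordinate `j` -/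
def prim (ρ : EN d → ℝ) (j : Fin d) (a : ℝ) (x : EN d) : ℝ :=
  (x j - a) * ∫ s in (0 : ℝ)..1, ρ (x + ((1 - s) * (a - x j)) • ej j)

lemma prim_eq (ρ : EN d → ℝ) (j : Fin d) (a : ℝ) (x : EN d) :
    prim ρ j a x = ∫ t in a..x j, ρ (x + (t - x j) • ej j) := by
  unfold prim
  have h := intervalIntegral.mul_integral_comp_mul_add (a := 0) (b := 1)
    (f := fun t => ρ (x + (t - x j) • ej j)) (x j - a) a
  have h2 : (x j - a) * 0 + a = a := by ring
  have h3 : (x j - a) * 1 + a = x j := by ring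
  rw [h2, h3] at h
  rw [← h]
  congr 2
  ext s
  congr 3
  ring

lemma prim_contDiff (ρ : EN d → ℝ) (hρ : ContDiff ℝ 1 ρ) (j : Fin d) (a : ℝ) :
    ContDiff ℝ 1 (prim ρ j a) := by
  have hj : ContDiff ℝ 1 (fun x : EN d => x j) := by
    exact (EuclideanSpace.proj (𝕜 := ℝ) j).contDiff
  refine (hj.sub contDiff_const).mul ?_
  refine contDiff_param (fun p : EN d × ℝ => ρ (p.1 + ((1 - p.2) * (a - p.1 j)) • ej j)) ?_
  have h1 : ContDiff ℝ 1 (fun p : EN d × ℝ => (1 - p.2) * (a - p.1 j)) :=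
    (contDiff_const.sub contDiff_snd).mul (contDiff_const.sub (hj.comp contDiff_fst))
  have h2 : ContDiff ℝ 1 (fun p : EN d × ℝ => ((1 - p.2) * (a - p.1 j)) • ej j) :=
    h1.smul contDiff_const
  exact hρ.comp (contDiff_fst.add h2)

lemma prim_fderiv (ρ : EN d → ℝ) (hρ : ContDiff ℝ 1 ρ) (j : Fin d) (a : ℝ) (x : EN d) :
    fderiv ℝ (prim ρ j a) x (ej j) = ρ x := by
  have h1 : HasFDerivAt (prim ρ j a) (fderiv ℝ (prim ρ j a) x) x :=
    ((prim_contDiff ρ hρ j a).differentiable (by simp) x).hasFDerivAt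
  have h2 : HasDerivAt (fun u : ℝ => x + u • ej j) (ej j) 0 := by
    have := ((hasDerivAt_id (0 : ℝ)).smul_const (ej j)).const_add x
    simpa using this
  have h3 : HasDerivAt (fun u : ℝ => prim ρ j a (x + u • ej j))
      (fderiv ℝ (prim ρ j a) x (ej j)) 0 := by
    have h1' : HasFDerivAt (prim ρ j a) (fderiv ℝ (prim ρ j a) x) (x + (0 : ℝ) • ej j) := by
      simpa using h1
    exact h1'.comp_hasDerivAt (0 : ℝ) h2
  have h4 : ∀ u : ℝ, prim ρ j a (x + u • ej j) =
      ∫ t in a..(x j + u), ρ (x + (t - x j) • ej j) := by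
    intro u
    rw [prim_eq]
    have e1 : (x + u • ej j) j = x j + u := by
      simp [ej_self]
    rw [e1]
    congr 1
    ext t
    congr 1
    rw [add_assoc, ← add_smul]
    congr 2
    ring
  have hcont : Continuous fun t : ℝ => ρ (x + (t - x j) • ej j) :=
    hρ.continuous.comp (by fun_prop)
  have h5 : HasDerivAt (fun u : ℝ => ∫ t in a..(x j + u), ρ (x + (t - x j) • ej j)) (ρ x) 0 := by
    have h6 : HasDerivAt (fun b : ℝ => ∫ t in a..b, ρ (x + (t - x j) • ej j))
        (ρ (x + ((x j + 0) - x j) • ej j)) (x j + 0) :=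
      intervalIntegral.integral_hasDerivAt_right (hcont.intervalIntegrable _ _)
        (hcont.stronglyMeasurableAtFilter _ _) hcont.continuousAt
    have h7 : HasDerivAt (fun u : ℝ => x j + u) 1 0 := by
      simpa using (hasDerivAt_id (0 : ℝ)).const_add (x j)
    have h8 := h6.comp (0 : ℝ) h7
    simpa [Function.comp_def] using h8
  have h9 : (fun u : ℝ => prim ρ j a (x + u • ej j)) =
      fun u : ℝ => ∫ t in a..(x j + u), ρ (x + (t - x j) • ej j) := funext h4
  rw [h9] at h3
  exact h3.unique h5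

/-- the straightening map -/
def str (ρ : EN d → ℝ) (j : Fin d) (a : ℝ) (x : EN d) : EN d :=
  x + (prim ρ j a x - x j) • ej j

lemma str_contDiff (ρ : EN d → ℝ) (hρ : ContDiff ℝ 1 ρ) (j : Fin d) (a : ℝ) :
    ContDiff ℝ 1 (str ρ j a) := by
  have hj : ContDiff ℝ 1 (fun x : EN d => x j) := by
    exact (EuclideanSpace.proj (𝕜 := ℝ) j).contDiff
  exact contDiff_id.add (((prim_contDiff ρ hρ j a).sub hj).smul contDiff_const)

lemma str_det (ρ : EN d → ℝ) (hρ : ContDiff ℝ 1 ρ) (j : Fin d) (a : ℝ) (x : EN d) :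
    (fderiv ℝ (str ρ j a) x).det = ρ x := by
  have h1 : HasFDerivAt (prim ρ j a) (fderiv ℝ (prim ρ j a) x) x :=
    ((prim_contDiff ρ hρ j a).differentiable (by simp) x).hasFDerivAt
  have hj : HasFDerivAt (fun x : EN d => x j) (EuclideanSpace.proj (𝕜 := ℝ) j) x :=
    (EuclideanSpace.proj (𝕜 := ℝ) j).hasFDerivAt
  have h2 : HasFDerivAt (str ρ j a) (ContinuousLinearMap.id ℝ (EN d) +
      (fderiv ℝ (prim ρ j a) x - EuclideanSpace.proj (𝕜 := ℝ) j).smulRight (ej j)) x :=
    (hasFDerivAt_id x).add ((h1.sub hj).smul_const (ej j))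
  rw [h2.fderiv]
  have h3 : ((ContinuousLinearMap.id ℝ (EN d) +
      (fderiv ℝ (prim ρ j a) x - EuclideanSpace.proj (𝕜 := ℝ) j).smulRight (ej j) :
        EN d →L[ℝ] EN d) : EN d →ₗ[ℝ] EN d) =
      LinearMap.transvection ((fderiv ℝ (prim ρ j a) x - EuclideanSpace.proj (𝕜 := ℝ) j :
        EN d →L[ℝ] ℝ) : EN d →ₗ[ℝ] ℝ) (ej j) := by
    ext v
    simp [LinearMap.transvection.apply]
  rw [ContinuousLinearMap.det, h3, LinearMap.transvection.det]
  have h4 := prim_fderiv ρ hρ j a x
  have h5 : (EuclideanSpace.proj (𝕜 := ℝ) j : EN d →L[ℝ] ℝ) (ej j) = 1 := by simp [ej]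
  simp only [ContinuousLinearMap.coe_coe, sub_apply, h4, h5]
  ring

/-- extension of `ρ` to a function of class one -/
lemma exists_ext {O : Set (EN d)} {ρ : EN d → ℝ} {y₀ : EN d} (hO : IsOpen O) (hy : y₀ ∈ O)
    (hρ : ContDiffOn ℝ 1 ρ O) : ∃ (ρ' : EN d → ℝ) (r : ℝ), 0 < r ∧ ContDiff ℝ 1 ρ' ∧
      Metric.ball y₀ r ⊆ O ∧ ∀ y ∈ Metric.ball y₀ r, ρ' y = ρ y := by
  obtain ⟨R, hR, hRO⟩ := Metric.isOpen_iff.mp hO y₀ hy
  let f : ContDiffBump y₀ := ⟨R / 4, R / 2, by positivity, by linarith⟩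
  refine ⟨fun y => f y * ρ y, R / 4, by positivity, ?_, ?_, ?_⟩
  · rw [contDiff_iff_contDiffAt]
    intro x
    by_cases hx : x ∈ O
    · exact (f.contDiff.contDiffAt).mul (hρ.contDiffAt (hO.mem_nhds hx))
    · have h1 : (fun y => f y * ρ y) =ᶠ[𝓝 x] fun _ => 0 := by
        have h2 : x ∉ Metric.closedBall y₀ (R / 2) := fun h =>
          hx (hRO (Metric.closedBall_subset_ball (by linarith) h))
        filter_upwards [Metric.isClosed_closedBall.isOpen_compl.mem_nhds h2] with y hy
        have h3 : f y = 0 := f.zero_of_le_dist (by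
          rw [mem_compl_iff, Metric.mem_closedBall, not_le] at hy
          exact hy.le)
        rw [h3, zero_mul]
      exact contDiffAt_const.congr_of_eventuallyEq h1
  · exact (Metric.ball_subset_ball (by linarith)).trans hRO
  · intro y hy
    have h3 : f y = 1 := f.one_of_mem_closedBall (Metric.ball_subset_closedBall hy)
    simp only [h3, one_mul]

end STRAIGHT

open STRAIGHT in
theorem p_STRAIGHT : T_STRAIGHT := by
  intro d O ρ y₀ hd hO hy hρ hpos
  obtain ⟨ρ', r, hr, hρ', hrO, heq⟩ := exists_ext hO hy hρ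
  set j : Fin d := ⟨0, hd⟩
  set f : EN d → EN d := str ρ' j 0 with hf
  have hfc : ContDiff ℝ 1 f := str_contDiff ρ' hρ' j 0
  have hdet : ∀ x ∈ Metric.ball y₀ r, (fderiv ℝ f x).det = ρ x := fun x hx => by
    rw [hf, str_det ρ' hρ' j 0 x, heq x hx]
  have hy0 : y₀ ∈ Metric.ball y₀ r := Metric.mem_ball_self hr
  -- the derivative at the centre as an equivalence
  have hdet0 : IsUnit (fderiv ℝ f y₀).det := by
    rw [hdet y₀ hy0]
    exact (hpos y₀ hy).ne'.isUnit
  set A : EN d ≃L[ℝ] EN d := (fderiv ℝ f y₀).toContinuousLinearEquivOfDetNeZero hdet0.ne_zero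
    with hA
  have hstrict : HasStrictFDerivAt f (A : EN d →L[ℝ] EN d) y₀ := by
    have h1 : HasStrictFDerivAt f (fderiv ℝ f y₀) y₀ :=
      hfc.contDiffAt.hasStrictFDerivAt (by simp)
    convert h1 using 1
    rw [hA, ContinuousLinearMap.coe_toContinuousLinearEquivOfDetNeZero]
  have hN := A.subsingleton_or_nnnorm_symm_pos
  obtain ⟨s, hs0, hs1, hs2⟩ := hstrict.approximates_deriv_on_open_nhds
  set c : ℝ≥0 := ‖(A.symm : EN d →L[ℝ] EN d)‖₊⁻¹ / 2 with hc
  have hcN : Subsingleton (EN d) ∨ c < ‖(A.symm : EN d →L[ℝ] EN d)‖₊⁻¹ :=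
    hN.imp id fun h' => NNReal.half_lt_self (ne_of_gt (inv_pos.2 h'))
  set t : Set (EN d) := s ∩ Metric.ball y₀ r with ht
  have hto : IsOpen t := hs1.inter Metric.isOpen_ball
  have happ : ApproximatesLinearOn f (A : EN d →L[ℝ] EN d) t c := hs2.mono_set inter_subset_left
  have hlip := happ.lipschitz
  have hanti := happ.antilipschitz hcN
  set h := ApproximatesLinearOn.toOpenPartialHomeomorph f t happ hcN hto
  refine ⟨h, max 1 (max (‖(A : EN d →L[ℝ] EN d)‖₊ + c : ℝ≥0)
    ((‖(A.symm : EN d →L[ℝ] EN d)‖₊⁻¹ - c)⁻¹ : ℝ≥0)), ⟨hs0, hy0⟩, ?_, le_max_left _ _, ?_, ?_⟩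
  · exact (inter_subset_right).trans hrO
  · intro x hx y hy
    constructor
    · have h1 := hanti.le_mul_dist ⟨x, hx⟩ ⟨y, hy⟩
      refine h1.trans (mul_le_mul_of_nonneg_right ?_ dist_nonneg)
      exact (le_max_right _ _).trans (le_max_right _ _)
    · have h1 := hlip.dist_le_mul ⟨x, hx⟩ ⟨y, hy⟩
      refine h1.trans (mul_le_mul_of_nonneg_right ?_ dist_nonneg)
      exact (le_max_left _ _).trans (le_max_right _ _)
  · intro u hu hum
    have hinj : InjOn f u := (happ.injOn hcN).mono hu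
    have h1 := lintegral_abs_det_fderiv_eq_addHaar_image volume hum
      (f' := fun x => fderiv ℝ f x) (fun x _ =>
        ((hfc.differentiable (by simp) x).hasFDerivAt).hasFDerivWithinAt) hinj
    have h2 : (h '' u) = f '' u := rfl
    rw [h2, ← h1]
    refine setLIntegral_congr_fun hum fun x hx => ?_
    have hxr : x ∈ Metric.ball y₀ r := (hu hx).2
    rw [hdet x hxr, abs_of_pos (hpos x (hrO hxr))]

end

end Pool.Agent.SobEnt
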