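import Pool.Agent.SobEnt.Targets

/-!
# MP_07df6b_an: singular value decompositions

Exact singular value decomposition of a matrix with determinant `1` or `-1`, and a countable
family of approximate decompositions.
-/

open MeasureTheory Filter Topology Set Bundle
open scoped ENNReal NNReal Manifold ContDiff

namespace Pool.Agent.SobEnt

noncomputable section

namespace SVD

theorem diagL_single {d : ℕ} (s : Fin d → ℝ) (i : Fin d) :
    diagL s (EuclideanSpace.single i 1) = s i • EuclideanSpace.single i (1 : ℝ) := by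
  unfold diagL
  rw [LinearMap.coe_toContinuousLinearMap']
  ext j
  rw [Matrix.toEuclideanLin, Matrix.toLpLin_apply]
  simp only [PiLp.ofLp_single, Matrix.mulVec_single_one, PiLp.smul_apply]
  by_cases h : j = i
  · subst h
    simp
  · simp [h]

theorem isoL_apply {d : ℕ} (U : EN d ≃ₗᵢ[ℝ] EN d) (x : EN d) : isoL U x = U x := rfl

theorem usw_apply {d : ℕ} (U : EN d ≃ₗᵢ[ℝ] EN d) (s : Fin d → ℝ) (W : EN d ≃ₗᵢ[ℝ] EN d)
    (x : EN d) : usw U s W x = U (diagL s (W x)) := rfl

/-- exact singular value decomposition -/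
theorem exact (d : ℕ) (D : EN d →L[ℝ] EN d) (hD : |D.det| = 1) :
    ∃ (U W : EN d ≃ₗᵢ[ℝ] EN d) (s : Fin d → ℝ), D = usw U s W ∧ Antitone s ∧
      (∀ i, 0 < s i ∧ s i ≤ ‖D‖) ∧ ∏ i, s i = 1 := by
  classical
  have hn : Module.finrank ℝ (EN d) = d := finrank_euclideanSpace_fin
  let T : EN d →ₗ[ℝ] EN d := D
  have hT : ∀ x, T x = D x := fun _ => rfl
  have hS := T.isSymmetric_adjoint_comp_self
  let b := hS.eigenvectorBasis hn
  let s : Fin d → ℝ := fun i => T.singularValues i
  have hprod : ∏ i, s i = 1 := by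
    have h1 := T.normDet_eq_prod_singularValues
    rw [hn, LinearMap.normDet_eq_abs_det] at h1
    have h2 : ∏ i, s i = ∏ i ∈ Finset.range d, T.singularValues i :=
      Fin.prod_univ_eq_prod_range (fun i => T.singularValues i) d
    rw [h2, ← h1]
    exact hD
  have hpos : ∀ i, 0 < s i := by
    intro i
    refine lt_of_le_of_ne (T.singularValues_nonneg i) ?_
    intro h
    have h2 : ∏ i, s i ≠ 0 := by
      rw [hprod]
      exact one_ne_zero
    exact (Finset.prod_ne_zero_iff.1 h2) i (Finset.mem_univ i) h.symm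
  have hanti : Antitone s := fun i j hij => T.singularValues_antitone hij
  -- the images of the basis vectors are orthogonal
  have hinner : ∀ i j, inner ℝ (T (b i)) (T (b j)) = if i = j then s j ^ 2 else 0 := by
    intro i j
    have h1 : inner ℝ (T (b i)) (T (b j)) = inner ℝ (b i) (LinearMap.adjoint T (T (b j))) := by
      rw [LinearMap.adjoint_inner_right]
    have h2 : LinearMap.adjoint T (T (b j)) = (hS.eigenvalues hn j : ℝ) • b j := by
      exact hS.apply_eigenvectorBasis hn j
    have h4 := T.sq_singularValues_fin hn j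
    rw [h1, h2, inner_smul_right, ← h4, orthonormal_iff_ite.1 b.orthonormal i j]
    by_cases hij : i = j
    · simp [hij, s]
    · simp [hij]
  have hnorm : ∀ i, ‖T (b i)‖ = s i := by
    intro i
    have h1 := hinner i i
    rw [if_pos rfl, real_inner_self_eq_norm_sq] at h1
    exact (sq_eq_sq₀ (norm_nonneg _) (hpos i).le).1 h1
  have hle : ∀ i, s i ≤ ‖D‖ := by
    intro i
    rw [← hnorm i, hT]
    have h1 := D.le_opNorm (b i)
    rw [b.orthonormal.1 i, mul_one] at h1
    exact h1
  let v : Fin d → EN d := fun i => (s i)⁻¹ • T (b i)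
  have hv : Orthonormal ℝ v := by
    rw [orthonormal_iff_ite]
    intro i j
    simp only [v]
    rw [inner_smul_left, inner_smul_right, hinner i j]
    by_cases hij : i = j
    · subst hij
      have := (hpos i).ne'
      simp only [if_true, conj_trivial]
      field_simp
    · simp [hij]
  have hspan : ⊤ ≤ Submodule.span ℝ (Set.range v) := by
    rcases Nat.eq_zero_or_pos d with h0 | h0
    · subst h0
      intro x _
      have : x = 0 := Subsingleton.elim _ _
      rw [this]
      exact Submodule.zero_mem _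
    · have : Nonempty (Fin d) := ⟨⟨0, h0⟩⟩
      rw [hv.linearIndependent.span_eq_top_of_card_eq_finrank' (by rw [hn, Fintype.card_fin])]
  let u := OrthonormalBasis.mk hv hspan
  have hu : ∀ i, u i = v i := fun i => by simp [u]
  refine ⟨u.repr.symm, b.repr, s, ?_, hanti, fun i => ⟨hpos i, hle i⟩, hprod⟩
  have h5 : (D : EN d →ₗ[ℝ] EN d) = (usw u.repr.symm s b.repr : EN d →L[ℝ] EN d) := by
    refine b.toBasis.ext fun i => ?_
    rw [OrthonormalBasis.coe_toBasis]
    show D (b i) = usw u.repr.symm s b.repr (b i)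
    rw [usw_apply, OrthonormalBasis.repr_self, diagL_single, map_smul,
      OrthonormalBasis.repr_symm_single, hu, smul_smul, mul_inv_cancel₀ (hpos i).ne', one_smul]
    rfl
  exact ContinuousLinearMap.coe_injective h5

/-- the identity is a product of the required form -/
theorem isSV_one {d : ℕ} {Λ : ℝ} (hΛ : 1 ≤ Λ) : IsSV Λ (fun _ : Fin d => (1 : ℝ)) :=
  ⟨fun _ _ _ => le_rfl, fun _ => ⟨one_pos, hΛ⟩, by simp⟩

end SVD

/-- SVD: a countable family of approximate singular value decompositions -/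
theorem p_SVD : T_SVD := by
  intro d Λ η hΛ hη
  let S : Set (EN d →L[ℝ] EN d) := {A | ∃ (U W : EN d ≃ₗᵢ[ℝ] EN d) (s : Fin d → ℝ),
    IsSV Λ s ∧ A = usw U s W}
  have hne : Nonempty S := ⟨⟨usw (LinearIsometryEquiv.refl ℝ _) (fun _ => 1)
    (LinearIsometryEquiv.refl ℝ _), _, _, _, SVD.isSV_one hΛ, rfl⟩⟩
  obtain ⟨a, ha⟩ := TopologicalSpace.exists_dense_seq S
  choose U W s hs ha2 using fun n => (a n).2
  refine ⟨U, W, s, hs, fun D hD hDΛ => ?_⟩
  obtain ⟨U0, W0, s0, hD0, hanti, hpos, hprod⟩ := SVD.exact d D hD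
  have hmem : D ∈ S := ⟨U0, W0, s0, ⟨hanti, fun i => ⟨(hpos i).1, (hpos i).2.trans hDΛ⟩, hprod⟩,
    hD0⟩
  obtain ⟨n, hn⟩ := ha.exists_dist_lt (⟨D, hmem⟩ : S) hη
  refine ⟨n, ?_⟩
  rw [← ha2 n, ← dist_eq_norm]
  exact hn

end

end Pool.Agent.SobEnt
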