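import Pool.Agent.SobEnt.Targets

/-!
# TOWER: Rokhlin towers off the points of small period (MP_07df6b_an)
-/

open MeasureTheory Filter Topology Set
open scoped ENNReal NNReal

universe u

namespace Pool.Agent.SobEnt

namespace TOWER

variable {X : Type u}

/-- no return to `S` before time `n` -/
def NR (f : X → X) (n : ℕ) (S : Set X) : Prop := ∀ z ∈ S, ∀ i, 0 < i → i < n → f^[i] z ∉ S

/-- the points of small period -/
def Y (f : X → X) (n : ℕ) : Set X := {x | ∃ i, 0 < i ∧ i < n ∧ f^[i] x = x}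

/-- the points whose orbit piece meets `S` -/
def W (f : X → X) (n : ℕ) (S : Set X) : Set X :=
  ⋃ i ∈ Finset.range n, (f^[i] '' S ∪ f^[i] ⁻¹' S)

/-- greedy markers -/
noncomputable def mk (f : X → X) (n : ℕ) (u : ℕ → Set X) : ℕ → Set X
  | j => u j \ ⋃ k : Fin j, W f n (mk f n u k)

lemma mk_eq (f : X → X) (n : ℕ) (u : ℕ → Set X) (j : ℕ) :
    mk f n u j = u j \ ⋃ k : Fin j, W f n (mk f n u k) := by
  rw [mk]

lemma mk_sub (f : X → X) (n : ℕ) (u : ℕ → Set X) (j : ℕ) : mk f n u j ⊆ u j := by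
  rw [mk_eq]; exact diff_subset

lemma NR_union (f : X → X) (n : ℕ) (u : ℕ → Set X) (hu : ∀ j, NR f n (u j)) :
    NR f n (⋃ j, mk f n u j) := by
  intro z hz i hi hin hfz
  obtain ⟨j, hj⟩ := mem_iUnion.1 hz
  obtain ⟨k, hk⟩ := mem_iUnion.1 hfz
  rcases lt_trichotomy j k with h | h | h
  · rw [mk_eq] at hk
    apply hk.2
    refine mem_iUnion.2 ⟨⟨j, h⟩, ?_⟩
    refine mem_biUnion (Finset.mem_coe.2 (Finset.mem_range.2 hin)) (Or.inl ?_)
    exact ⟨z, hj, rfl⟩
  · subst h
    exact hu j z (mk_sub f n u j hj) i hi hin (mk_sub f n u j hk)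
  · rw [mk_eq] at hj
    apply hj.2
    refine mem_iUnion.2 ⟨⟨k, h⟩, ?_⟩
    exact mem_biUnion (Finset.mem_coe.2 (Finset.mem_range.2 hin)) (Or.inr hk)

lemma cover (f : X → X) (n : ℕ) (hn : 1 ≤ n) (u : ℕ → Set X) (y' : X) (hy' : y' ∈ ⋃ j, u j) :
    ∃ t, ∃ x ∈ ⋃ j, mk f n u j, f^[t] x = f^[n] y' := by
  obtain ⟨j, hj⟩ := mem_iUnion.1 hy'
  by_cases h : y' ∈ mk f n u j
  · exact ⟨n, y', mem_iUnion.2 ⟨j, h⟩, rfl⟩
  · rw [mk_eq] at h
    have h2 : y' ∈ ⋃ k : Fin j, W f n (mk f n u k) := by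
      by_contra hcon
      exact h ⟨hj, hcon⟩
    obtain ⟨k, hk⟩ := mem_iUnion.1 h2
    obtain ⟨i, hi, hik⟩ := mem_iUnion₂.1 hk
    have hin : i < n := Finset.mem_range.1 hi
    rcases hik with ⟨x, hx, rfl⟩ | hx
    · refine ⟨n + i, x, mem_iUnion.2 ⟨k, hx⟩, ?_⟩
      rw [Function.iterate_add_apply]
    · refine ⟨n - i, f^[i] y', mem_iUnion.2 ⟨k, hx⟩, ?_⟩
      rw [← Function.iterate_add_apply]
      congr 1
      omega

section top

variable [MetricSpace X] [CompactSpace X] [MeasurableSpace X] [BorelSpace X]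

lemma iter_cont (f : X ≃ₜ X) (i : ℕ) : Continuous (f^[i]) := f.continuous.iterate i

lemma iter_inj (f : X ≃ₜ X) (i : ℕ) : Function.Injective (f^[i]) := f.injective.iterate i

lemma meas_image (f : X ≃ₜ X) (i : ℕ) {S : Set X} (hS : MeasurableSet S) :
    MeasurableSet (f^[i] '' S) := by
  have h1 : (f^[i]) '' S = (f.symm^[i]) ⁻¹' S := by
    ext y
    constructor
    · rintro ⟨x, hx, rfl⟩
      have : f.symm^[i] (f^[i] x) = x := (Function.LeftInverse.iterate f.symm_apply_apply i) x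
      rw [mem_preimage, this]
      exact hx
    · intro hy
      exact ⟨_, hy, (Function.LeftInverse.iterate f.apply_symm_apply i) y⟩
  rw [h1]
  exact (f.symm.continuous.iterate i).measurable hS

lemma meas_W (f : X ≃ₜ X) (n : ℕ) {S : Set X} (hS : MeasurableSet S) :
    MeasurableSet (W f n S) := by
  refine Finset.measurableSet_biUnion _ fun i _ => ?_
  exact (meas_image f i hS).union ((iter_cont f i).measurable hS)

lemma meas_mk (f : X ≃ₜ X) (n : ℕ) (u : ℕ → Set X) (hu : ∀ j, MeasurableSet (u j)) (j : ℕ) :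
    MeasurableSet (mk f n u j) := by
  induction j using Nat.strong_induction_on with
  | _ j ih =>
    rw [mk_eq]
    exact (hu j).diff (MeasurableSet.iUnion fun k => meas_W f n (ih k k.2))

/-- countable family of open sets without short returns, covering the points of large period -/
lemma exists_family (f : X ≃ₜ X) (n : ℕ) : ∃ u : ℕ → Set X, (∀ j, IsOpen (u j)) ∧
    (∀ j, NR f n (u j)) ∧ (Y f n)ᶜ ⊆ ⋃ j, u j := by
  set S : Set (Set X) := {b | (b ∈ TopologicalSpace.countableBasis X ∨ b = ∅) ∧ NR f n b} with hS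
  have hSc : S.Countable := by
    apply ((TopologicalSpace.countable_countableBasis X).union (countable_singleton ∅)).mono
    rintro b ⟨hb | hb, -⟩
    · exact Or.inl hb
    · exact Or.inr hb
  have hSn : S.Nonempty := ⟨∅, Or.inr rfl, fun z hz => absurd hz (notMem_empty z)⟩
  obtain ⟨u, hu⟩ := hSc.exists_eq_range hSn
  have hmem : ∀ j, u j ∈ S := fun j => hu ▸ mem_range_self j
  refine ⟨u, fun j => ?_, fun j => (hmem j).2, ?_⟩
  · rcases (hmem j).1 with h | h
    · exact TopologicalSpace.isOpen_of_mem_countableBasis h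
    · rw [h]; exact isOpen_empty
  · intro x hx
    have hx' : ∀ i, 0 < i → i < n → f^[i] x ≠ x := by
      intro i h1 h2 h3
      exact hx ⟨i, h1, h2, h3⟩
    have hV : ∀ i, ∃ V : Set X, IsOpen V ∧ x ∈ V ∧
        (0 < i → i < n → ∀ z ∈ V, f^[i] z ∉ V) := by
      intro i
      by_cases hi : 0 < i ∧ i < n
      · obtain ⟨A, B, hA, hB, hxA, hxB, hAB⟩ := t2_separation (hx' i hi.1 hi.2).symm
        refine ⟨A ∩ (f^[i]) ⁻¹' B, hA.inter (hB.preimage (iter_cont f i)), ⟨hxA, hxB⟩, ?_⟩
        rintro - - z ⟨-, hz⟩ ⟨h, -⟩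
        exact disjoint_left.1 hAB h hz
      · refine ⟨univ, isOpen_univ, mem_univ _, fun h1 h2 => absurd ⟨h1, h2⟩ hi⟩
    choose V hVo hxV hVn using hV
    have hO : IsOpen (⋂ i ∈ Finset.range n, V i) :=
      isOpen_biInter_finset fun i _ => hVo i
    have hxO : x ∈ ⋂ i ∈ Finset.range n, V i := mem_iInter₂.2 fun i _ => hxV i
    obtain ⟨b, hb, hxb, hbO⟩ :=
      (TopologicalSpace.isBasis_countableBasis X).exists_subset_of_mem_open hxO hO
    have hbS : b ∈ S := by
      refine ⟨Or.inl hb, ?_⟩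
      intro z hz i h1 h2 h3
      have h4 := mem_iInter₂.1 (hbO hz) i (Finset.mem_range.2 h2)
      have h5 := mem_iInter₂.1 (hbO h3) i (Finset.mem_range.2 h2)
      exact hVn i h1 h2 z h4 h5
    rw [hu] at hbS
    obtain ⟨j, rfl⟩ := hbS
    exact mem_iUnion.2 ⟨j, hxb⟩

lemma Y_closed (f : X ≃ₜ X) (n : ℕ) : IsClosed (Y f n) := by
  have h1 : Y f n = ⋃ i ∈ (Finset.range n).filter (fun i => 0 < i), {x | f^[i] x = x} := by
    ext x
    simp only [Y, mem_setOf_eq, Finset.mem_filter, Finset.mem_range, mem_iUnion, exists_prop]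
    constructor
    · rintro ⟨i, h1, h2, h3⟩; exact ⟨i, ⟨h2, h1⟩, h3⟩
    · rintro ⟨i, ⟨h2, h1⟩, h3⟩; exact ⟨i, h1, h2, h3⟩
  rw [h1]
  exact isClosed_biUnion_finset fun i _ => isClosed_eq (iter_cont f i) continuous_id

lemma Y_inv (f : X ≃ₜ X) (n : ℕ) (x : X) : f x ∈ Y f n ↔ x ∈ Y f n := by
  constructor
  · rintro ⟨i, h1, h2, h3⟩
    refine ⟨i, h1, h2, ?_⟩
    rw [← Function.iterate_succ_apply, Function.iterate_succ_apply'] at h3
    exact f.injective h3
  · rintro ⟨i, h1, h2, h3⟩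
    refine ⟨i, h1, h2, ?_⟩
    rw [← Function.iterate_succ_apply, Function.iterate_succ_apply', h3]

lemma Y_inv_iter (f : X ≃ₜ X) (n k : ℕ) (x : X) : f^[k] x ∈ Y f n ↔ x ∈ Y f n := by
  induction k with
  | zero => rfl
  | succ k ih => rw [Function.iterate_succ_apply', Y_inv, ih]

/-- the base of the tower -/
def base (f : X → X) (τ : ℕ) (A : Set X) : Set X :=
  ⋃ a : ℕ, f^[a * τ] '' (A ∩ {x | ∀ k, 1 ≤ k → k < (a + 1) * τ → f^[k] x ∉ A})

lemma base_meas (f : X ≃ₜ X) (τ : ℕ) {A : Set X} (hA : MeasurableSet A) :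
    MeasurableSet (base f τ A) := by
  refine MeasurableSet.iUnion fun a => meas_image f _ (hA.inter ?_)
  have : {x | ∀ k, 1 ≤ k → k < (a + 1) * τ → f^[k] x ∉ A} =
      ⋂ k ∈ (Finset.range ((a + 1) * τ)).filter (fun k => 1 ≤ k), (f^[k]) ⁻¹' Aᶜ := by
    ext x
    simp only [mem_setOf_eq, Finset.mem_filter, Finset.mem_range, mem_iInter, mem_preimage,
      mem_compl_iff]
    constructor
    · intro h k hk; exact h k hk.2 hk.1
    · intro h k h1 h2; exact h k ⟨h2, h1⟩
  rw [this]
  exact Finset.measurableSet_biInter _ fun k _ => (iter_cont f k).measurable hA.compl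

lemma base_disj (f : X ≃ₜ X) (τ : ℕ) (A : Set X) (i j : ℕ) (hij : i < j) (hj : j < τ) :
    Disjoint (f^[i] '' base f τ A) (f^[j] '' base f τ A) := by
  rw [disjoint_left]
  rintro z ⟨y, hy, rfl⟩ ⟨y', hy', he⟩
  obtain ⟨a, x, ⟨hx, hxr⟩, rfl⟩ := mem_iUnion.1 hy
  obtain ⟨b, x', ⟨hx', hxr'⟩, rfl⟩ := mem_iUnion.1 hy'
  rw [← Function.iterate_add_apply, ← Function.iterate_add_apply] at he
  rcases lt_trichotomy (i + a * τ) (j + b * τ) with h | h | h
  · have h1 : j + b * τ = (i + a * τ) + (j + b * τ - (i + a * τ)) := by omega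
    rw [h1, Function.iterate_add_apply] at he
    have h2 := iter_inj f _ he
    refine hxr' (j + b * τ - (i + a * τ)) (by omega) ?_ ?_
    · have : (b + 1) * τ = b * τ + τ := by ring
      omega
    · rw [h2]; exact hx
  · have h1 : (i + a * τ) % τ = (j + b * τ) % τ := by rw [h]
    rw [Nat.add_mul_mod_self_right, Nat.add_mul_mod_self_right, Nat.mod_eq_of_lt (by omega),
      Nat.mod_eq_of_lt hj] at h1
    omega
  · have h1 : i + a * τ = (j + b * τ) + (i + a * τ - (j + b * τ)) := by omega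
    have he' : f^[(j + b * τ) + (i + a * τ - (j + b * τ))] x = f^[j + b * τ] x' := by
      rw [← h1]; exact he.symm
    rw [Function.iterate_add_apply f (j + b * τ) (i + a * τ - (j + b * τ))] at he'
    have h2 := iter_inj f _ he'
    refine hxr (i + a * τ - (j + b * τ)) (by omega) ?_ ?_
    · have : (a + 1) * τ = a * τ + τ := by ring
      omega
    · rw [h2]; exact hx'

lemma base_cover (f : X ≃ₜ X) (τ : ℕ) (hτ : 1 ≤ τ) (A : Set X) (z : X)
    (hz : ∃ t, ∃ x ∈ A, f^[t] x = z) (hs : ∀ s, 1 ≤ s → s < τ → f^[s] z ∉ A) :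
    z ∈ ⋃ i ∈ Finset.range τ, f^[i] '' base f τ A := by
  classical
  obtain ⟨x, hx, hxz⟩ := Nat.find_spec hz
  set t := Nat.find hz with ht
  have hmin : ∀ m < t, ¬ ∃ x ∈ A, f^[m] x = z := fun m hm => Nat.find_min hz hm
  have hret : ∀ k, 1 ≤ k → k < t + τ → f^[k] x ∉ A := by
    intro k hk1 hk2 hkA
    rcases Nat.lt_or_ge t k with h | h
    · refine hs (k - t) (by omega) (by omega) ?_
      rw [← hxz, ← Function.iterate_add_apply]
      rwa [show k - t + t = k by omega]
    · refine hmin (t - k) (by omega) ⟨f^[k] x, hkA, ?_⟩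
      rw [← Function.iterate_add_apply, show t - k + k = t by omega, hxz]
  have hdiv : t = t % τ + t / τ * τ := by
    have := Nat.mod_add_div t τ
    rw [mul_comm] at this
    omega
  refine mem_biUnion (Finset.mem_coe.2 (Finset.mem_range.2 (Nat.mod_lt t (by omega)))) ?_
  refine ⟨f^[t / τ * τ] x, mem_iUnion.2 ⟨t / τ, x, ⟨hx, ?_⟩, rfl⟩, ?_⟩
  · intro k hk1 hk2
    refine hret k hk1 ?_
    have : (t / τ + 1) * τ = t / τ * τ + τ := by ring
    omega
  · rw [← Function.iterate_add_apply, ← hdiv, hxz]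

end top

end TOWER

open TOWER in
theorem p_TOWER : T_TOWER.{u} := by
  intro X _ _ _ _ μ _ f hf τ κ hτ hκ
  obtain ⟨n, hn⟩ := exists_nat_gt (τ * μ.real univ / κ)
  have hn0 : (0 : ℝ) ≤ τ * μ.real univ / κ := by positivity
  have hn1 : 1 ≤ n := by
    have : (0 : ℝ) < n := lt_of_le_of_lt hn0 hn
    exact_mod_cast this
  have hnκ : τ * μ.real univ ≤ κ * n := by
    rw [div_lt_iff₀ hκ] at hn
    linarith
  obtain ⟨u, huo, huN, hucov⟩ := exists_family f n
  set A : Set X := ⋃ j, mk f n u j with hA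
  have hAm : MeasurableSet A := MeasurableSet.iUnion fun j => meas_mk f n u (fun j =>
    (huo j).measurableSet) j
  have hAN : NR f n A := NR_union f n u huN
  have hAY : A ⊆ (Y f n)ᶜ := by
    intro x hx hY
    obtain ⟨i, h1, h2, h3⟩ := hY
    apply hAN x hx i h1 h2
    rw [h3]; exact hx
  have hmp : ∀ i, MeasurePreserving (f^[i]) μ μ := fun i => hf.iterate i
  -- measure of A
  have hμA : n * μ.real A ≤ μ.real univ := by
    have h1 : ∑ i ∈ Finset.range n, μ.real ((f^[i]) ⁻¹' A) =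
        μ.real (⋃ i ∈ Finset.range n, (f^[i]) ⁻¹' A) := by
      rw [measureReal_biUnion_finset]
      · intro i hi j hj hij
        simp only [Finset.coe_range, mem_Iio] at hi hj
        rw [Function.onFun, disjoint_left]
        intro z hz1 hz2
        rcases lt_or_gt_of_ne hij with h | h
        · refine hAN (f^[i] z) hz1 (j - i) (by omega) (by omega) ?_
          rw [← Function.iterate_add_apply, show j - i + i = j by omega]
          exact hz2
        · refine hAN (f^[j] z) hz2 (i - j) (by omega) (by omega) ?_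
          rw [← Function.iterate_add_apply, show i - j + j = i by omega]
          exact hz1
      · intro i _
        exact (iter_cont f i).measurable hAm
    have h2 : ∀ i, μ.real ((f^[i]) ⁻¹' A) = μ.real A := by
      intro i
      rw [measureReal_def, measureReal_def, (hmp i).measure_preimage hAm.nullMeasurableSet]
    simp only [h2, Finset.sum_const, Finset.card_range, nsmul_eq_mul] at h1
    rw [h1]
    exact measureReal_mono (subset_univ _)
  refine ⟨Y f n, n.factorial, base f τ A, Y_closed f n, ?_, Nat.factorial_pos n, ?_,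
    base_meas f τ hAm, ?_, fun i j hij hj => base_disj f τ A i j hij hj, ?_⟩
  · ext x; exact Y_inv f n x
  · rintro y ⟨i, h1, h2, h3⟩
    have h4 : Function.IsPeriodicPt f i y := h3
    exact h4.trans_dvd (Nat.dvd_factorial h1 h2.le)
  · intro z hz
    obtain ⟨a, x, ⟨hx, -⟩, rfl⟩ := mem_iUnion.1 hz
    intro hY
    exact hAY hx ((Y_inv_iter f n _ x).1 hY)
  · have hsub : (Y f n)ᶜ \ ⋃ i ∈ Finset.range τ, f^[i] '' base f τ A ⊆
        ⋃ s ∈ Finset.range τ, (f^[s]) ⁻¹' A := by
      rintro z ⟨hz1, hz2⟩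
      by_contra hcon
      apply hz2
      apply base_cover f τ hτ A z
      · -- backward hit
        have h1 : f^[n] (f.symm^[n] z) = z :=
          (Function.LeftInverse.iterate f.apply_symm_apply n) z
        have h2 : f.symm^[n] z ∈ (Y f n)ᶜ := by
          intro hY
          apply hz1
          have := (Y_inv_iter f n n (f.symm^[n] z)).2 hY
          rwa [h1] at this
        obtain ⟨t, x, hx, ht⟩ := cover f n hn1 u _ (hucov h2)
        exact ⟨t, x, hx, by rw [ht, h1]⟩
      · intro s hs1 hs2 hsA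
        apply hcon
        exact mem_biUnion (Finset.mem_coe.2 (Finset.mem_range.2 hs2)) hsA
    calc μ.real ((Y f n)ᶜ \ ⋃ i ∈ Finset.range τ, f^[i] '' base f τ A)
        ≤ μ.real (⋃ s ∈ Finset.range τ, (f^[s]) ⁻¹' A) := measureReal_mono hsub (measure_ne_top _ _)
      _ ≤ ∑ s ∈ Finset.range τ, μ.real ((f^[s]) ⁻¹' A) := measureReal_biUnion_finset_le _ _
      _ = τ * μ.real A := by
          have h2 : ∀ i, μ.real ((f^[i]) ⁻¹' A) = μ.real A := by
            intro i
            rw [measureReal_def, measureReal_def, (hmp i).measure_preimage hAm.nullMeasurableSet]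
          simp only [h2, Finset.sum_const, Finset.card_range, nsmul_eq_mul]
      _ ≤ κ := by
          have hnp : (0 : ℝ) < n := by exact_mod_cast hn1
          have h3 : n * (τ * μ.real A) ≤ n * κ := by
            calc n * (τ * μ.real A) = τ * (n * μ.real A) := by ring
              _ ≤ τ * μ.real univ := by gcongr
              _ ≤ n * κ := by linarith
          exact le_of_mul_le_mul_left h3 hnp

end Pool.Agent.SobEnt
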