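import Pool.Agent.SobEnt.Targets

/-!
# TWIST: rotating a ball inside (MP_07df6b_an)
-/

open MeasureTheory Filter Topology Set
open scoped ENNReal NNReal RealInnerProductSpace

namespace Pool.Agent.SobEnt

namespace TWIST

variable {d : ℕ}

/-! ### Reflections -/

/-- the reflection in the hyperplane orthogonal to `v` -/
noncomputable def rf (v : EN d) : EN d ≃ₗᵢ[ℝ] EN d := Submodule.reflection (ℝ ∙ v)ᗮ

lemma rf_apply (v x : EN d) : rf v x = x - (2 * (⟪v, x⟫ / ‖v‖ ^ 2)) • v := by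
  rw [rf, Submodule.reflection_orthogonal_apply, Submodule.reflection_singleton_apply]
  simp only [neg_sub]
  congr 1
  rw [two_smul, two_mul, add_smul]
  rfl

lemma rf_rf (v x : EN d) : rf v (rf v x) = x := Submodule.reflection_reflection _ x

lemma rf_smul (v : EN d) (c : ℝ) (hc : c ≠ 0) : rf (c • v) = rf v := by
  have h : (ℝ ∙ (c • v)) = (ℝ ∙ v) := Submodule.span_singleton_smul_eq (IsUnit.mk0 c hc) v
  ext1 x
  rw [rf_apply, rf_apply]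
  rw [inner_smul_left, norm_smul, mul_pow, smul_smul]
  congr 2
  simp only [conj_trivial, Real.norm_eq_abs, sq_abs]
  by_cases hv : ‖v‖ = 0
  · simp [hv]
  · field_simp

lemma rf_zero : rf (0 : EN d) = 1 := by
  ext1 x
  rw [rf_apply]
  simp

lemma rf_unit (w : EN d) (hw : w ≠ 0) : rf (‖w‖⁻¹ • w) = rf w :=
  rf_smul w _ (inv_ne_zero (norm_ne_zero_iff.mpr hw))

lemma rf_sub_rf_unit {a b : EN d} (ha : ‖a‖ = 1) (hb : ‖b‖ = 1) (x : EN d) :
    ‖rf a x - rf b x‖ ≤ 4 * ‖a - b‖ * ‖x‖ := by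
  rw [rf_apply, rf_apply, ha, hb]
  have e : x - (2 * (⟪a, x⟫ / 1 ^ 2)) • a - (x - (2 * (⟪b, x⟫ / 1 ^ 2)) • b) =
      (-2 : ℝ) • (⟪a - b, x⟫ • a + ⟪b, x⟫ • (a - b)) := by
    rw [inner_sub_left]
    simp only [one_pow, div_one, smul_add, smul_smul, smul_sub, sub_smul]
    module
  rw [e, norm_smul]
  have h1 : ‖⟪a - b, x⟫ • a‖ ≤ ‖a - b‖ * ‖x‖ := by
    rw [norm_smul, ha, mul_one]
    exact norm_inner_le_norm _ _
  have h2 : ‖⟪b, x⟫ • (a - b)‖ ≤ ‖x‖ * ‖a - b‖ := by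
    rw [norm_smul]
    have := norm_inner_le_norm (𝕜 := ℝ) b x
    rw [hb, one_mul] at this
    exact mul_le_mul_of_nonneg_right this (norm_nonneg _)
  have h3 := norm_add_le (⟪a - b, x⟫ • a) (⟪b, x⟫ • (a - b))
  have h4 : ‖(-2 : ℝ)‖ = 2 := by norm_num
  rw [h4]
  nlinarith [norm_nonneg (a - b), norm_nonneg x]

lemma unit_sub_unit {w w' : EN d} (hw : 1 / 2 ≤ ‖w‖) (hw' : 1 / 2 ≤ ‖w'‖) :
    ‖‖w‖⁻¹ • w - ‖w'‖⁻¹ • w'‖ ≤ 4 * ‖w - w'‖ := by
  have h0 : 0 < ‖w‖ := by linarith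
  have h0' : 0 < ‖w'‖ := by linarith
  have e : ‖w‖⁻¹ • w - ‖w'‖⁻¹ • w' = ‖w‖⁻¹ • (w - w') + (‖w‖⁻¹ - ‖w'‖⁻¹) • w' := by
    rw [smul_sub, sub_smul]; abel
  have h1 : ‖w‖⁻¹ ≤ 2 := by
    rw [inv_le_comm₀ h0 (by norm_num)]; linarith
  have h2 : ‖‖w‖⁻¹ • (w - w')‖ ≤ 2 * ‖w - w'‖ := by
    rw [norm_smul, norm_inv, norm_norm]
    exact mul_le_mul_of_nonneg_right h1 (norm_nonneg _)
  have h3 : ‖(‖w‖⁻¹ - ‖w'‖⁻¹) • w'‖ ≤ 2 * ‖w - w'‖ := by
    rw [norm_smul]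
    have e2 : ‖w‖⁻¹ - ‖w'‖⁻¹ = ‖w‖⁻¹ * ((‖w'‖ - ‖w‖) * ‖w'‖⁻¹) := by
      field_simp
    rw [e2, norm_mul, norm_mul, norm_inv, norm_inv, norm_norm, norm_norm]
    have h4 : ‖‖w'‖ - ‖w‖‖ ≤ ‖w - w'‖ := by
      rw [norm_sub_rev w w']
      exact abs_norm_sub_norm_le _ _
    calc ‖w‖⁻¹ * (‖‖w'‖ - ‖w‖‖ * ‖w'‖⁻¹) * ‖w'‖ = ‖w‖⁻¹ * ‖‖w'‖ - ‖w‖‖ := by
          field_simp
      _ ≤ 2 * ‖w - w'‖ := mul_le_mul h1 h4 (norm_nonneg _) (by norm_num)
  rw [e]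
  calc _ ≤ _ := norm_add_le _ _
    _ ≤ 4 * ‖w - w'‖ := by linarith

lemma det_rf {v : EN d} (hv : v ≠ 0) :
    LinearMap.det ((rf v).toLinearEquiv : EN d →ₗ[ℝ] EN d) = -1 := by
  have h := Submodule.det_reflection (𝕜 := ℝ) (ℝ ∙ v)ᗮ
  have h2 : Module.finrank ℝ ((ℝ ∙ v)ᗮᗮ : Submodule ℝ (EN d)) = 1 := by
    rw [Submodule.orthogonal_orthogonal, finrank_span_singleton hv]
  rw [h2, pow_one] at h
  exact h

/-! ### Paths of isometries -/

/-- `R` is the end of a Lipschitz path of isometries starting at the identity -/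
def PathTo (C : ℝ) (R : EN d ≃ₗᵢ[ℝ] EN d) : Prop :=
  ∃ ρ : ℝ → (EN d ≃ₗᵢ[ℝ] EN d), (∀ x, ρ 0 x = x) ∧ (∀ x, ρ 1 x = R x) ∧
    ∀ s ∈ Icc (0 : ℝ) 1, ∀ s' ∈ Icc (0 : ℝ) 1, ∀ x, ‖ρ s x - ρ s' x‖ ≤ C * |s - s'| * ‖x‖

lemma pathTo_one : PathTo 0 (1 : EN d ≃ₗᵢ[ℝ] EN d) :=
  ⟨fun _ => 1, fun _ => rfl, fun _ => rfl, fun s _ s' _ x => by simp⟩

lemma PathTo.mono {C C' : ℝ} {R : EN d ≃ₗᵢ[ℝ] EN d} (h : PathTo C R) (hC : C ≤ C') :
    PathTo C' R := by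
  obtain ⟨ρ, h0, h1, h2⟩ := h
  refine ⟨ρ, h0, h1, fun s hs s' hs' x => (h2 s hs s' hs' x).trans ?_⟩
  exact mul_le_mul_of_nonneg_right (mul_le_mul_of_nonneg_right hC (abs_nonneg _)) (norm_nonneg _)

lemma PathTo.mul {C C' : ℝ} {R R' : EN d ≃ₗᵢ[ℝ] EN d} (h : PathTo C R) (h' : PathTo C' R') :
    PathTo (C + C') (R * R') := by
  obtain ⟨ρ, h0, h1, h2⟩ := h
  obtain ⟨ρ', h0', h1', h2'⟩ := h'
  refine ⟨fun s => ρ s * ρ' s, fun x => ?_, fun x => ?_, fun s hs s' hs' x => ?_⟩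
  · show ρ 0 (ρ' 0 x) = x
    rw [h0', h0]
  · show ρ 1 (ρ' 1 x) = R (R' x)
    rw [h1', h1]
  · show ‖ρ s (ρ' s x) - ρ s' (ρ' s' x)‖ ≤ _
    have e : ρ s (ρ' s x) - ρ s' (ρ' s' x) =
        ρ s (ρ' s x - ρ' s' x) + (ρ s (ρ' s' x) - ρ s' (ρ' s' x)) := by
      rw [map_sub]; abel
    rw [e]
    refine (norm_add_le _ _).trans ?_
    rw [LinearIsometryEquiv.norm_map]
    have e1 := h2' s hs s' hs' x
    have e2 := h2 s hs s' hs' (ρ' s' x)
    rw [LinearIsometryEquiv.norm_map] at e2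
    linarith

lemma pathTo_aux {u v : EN d} (hu : ‖u‖ = 1) (hv : ‖v‖ = 1) (huv : 0 ≤ ⟪v, u⟫) :
    PathTo 32 (rf u * rf v) := by
  have hw : ∀ s ∈ Icc (0 : ℝ) 1, 1 / 2 ≤ ‖(1 - s) • v + s • u‖ := by
    intro s hs
    have h1 : (1 / 2 : ℝ) ^ 2 ≤ ‖(1 - s) • v + s • u‖ ^ 2 := by
      rw [norm_add_sq_real, norm_smul, norm_smul, hu, hv, inner_smul_left, inner_smul_right]
      simp only [Real.norm_eq_abs, mul_one, sq_abs, conj_trivial]
      have h3 : 0 ≤ (1 - s) * (s * ⟪v, u⟫) :=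
        mul_nonneg (by linarith [hs.2]) (mul_nonneg hs.1 huv)
      nlinarith [sq_nonneg (1 - 2 * s)]
    exact le_of_sq_le_sq h1 (norm_nonneg _)
  refine ⟨fun s => rf ((1 - s) • v + s • u) * rf v, fun x => ?_, fun x => ?_,
    fun s hs s' hs' x => ?_⟩
  · show rf ((1 - (0 : ℝ)) • v + (0 : ℝ) • u) (rf v x) = x
    rw [sub_zero, one_smul, zero_smul, add_zero, rf_rf]
  · show rf ((1 - (1 : ℝ)) • v + (1 : ℝ) • u) (rf v x) = rf u (rf v x)
    rw [sub_self, one_smul, zero_smul, zero_add]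
  · show ‖rf ((1 - s) • v + s • u) (rf v x) - rf ((1 - s') • v + s' • u) (rf v x)‖ ≤ _
    set w := (1 - s) • v + s • u with hwd
    set w' := (1 - s') • v + s' • u with hwd'
    have hn : 1 / 2 ≤ ‖w‖ := hw s hs
    have hn' : 1 / 2 ≤ ‖w'‖ := hw s' hs'
    have h0 : w ≠ 0 := norm_pos_iff.mp (by linarith)
    have h0' : w' ≠ 0 := norm_pos_iff.mp (by linarith)
    rw [← rf_unit w h0, ← rf_unit w' h0']
    have hu1 : ‖‖w‖⁻¹ • w‖ = 1 := by
      rw [norm_smul, norm_inv, norm_norm, inv_mul_cancel₀ (norm_ne_zero_iff.mpr h0)]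
    have hu1' : ‖‖w'‖⁻¹ • w'‖ = 1 := by
      rw [norm_smul, norm_inv, norm_norm, inv_mul_cancel₀ (norm_ne_zero_iff.mpr h0')]
    have e1 := rf_sub_rf_unit hu1 hu1' (rf v x)
    rw [LinearIsometryEquiv.norm_map] at e1
    have e2 := unit_sub_unit hn hn'
    have e3 : ‖w - w'‖ ≤ |s - s'| * 2 := by
      have : w - w' = (s - s') • (u - v) := by
        rw [hwd, hwd']; module
      rw [this, norm_smul, Real.norm_eq_abs]
      refine mul_le_mul_of_nonneg_left ?_ (abs_nonneg _)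
      calc ‖u - v‖ ≤ ‖u‖ + ‖v‖ := norm_sub_le _ _
        _ = 2 := by rw [hu, hv]; norm_num
    refine e1.trans ?_
    have e4 : 4 * ‖‖w‖⁻¹ • w - ‖w'‖⁻¹ • w'‖ ≤ 32 * |s - s'| := by linarith
    exact mul_le_mul_of_nonneg_right e4 (norm_nonneg _)

lemma pathTo_rf_rf {u v : EN d} (hu : ‖u‖ = 1) (hv : ‖v‖ = 1) : PathTo 32 (rf u * rf v) := by
  rcases le_total 0 (⟪v, u⟫ : ℝ) with h | h
  · exact pathTo_aux hu hv h
  · have h1 : rf (-u) = rf u := by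
      have := rf_smul u (-1) (by norm_num)
      rwa [neg_one_smul] at this
    rw [← h1]
    refine pathTo_aux (by rwa [norm_neg]) hv ?_
    rw [inner_neg_right]
    linarith

lemma det_mul (A B : EN d ≃ₗᵢ[ℝ] EN d) :
    LinearMap.det ((A * B).toLinearEquiv : EN d →ₗ[ℝ] EN d) =
      LinearMap.det (A.toLinearEquiv : EN d →ₗ[ℝ] EN d) *
        LinearMap.det (B.toLinearEquiv : EN d →ₗ[ℝ] EN d) := by
  rw [← LinearMap.det_comp]
  rfl

lemma list_path (l : List (EN d)) :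
    (LinearMap.det (((l.map rf).prod).toLinearEquiv : EN d →ₗ[ℝ] EN d) = 1 ∧
      PathTo (32 * l.length) (l.map rf).prod) ∨
    (LinearMap.det (((l.map rf).prod).toLinearEquiv : EN d →ₗ[ℝ] EN d) = -1 ∧
      ∀ w : EN d, ‖w‖ = 1 → PathTo (32 * l.length) (rf w * (l.map rf).prod)) := by
  induction l with
  | nil =>
    left
    refine ⟨?_, ?_⟩
    · exact LinearMap.det_id
    · simpa using pathTo_one
  | cons v l ih =>
    rw [List.map_cons, List.prod_cons, List.length_cons]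
    have hle : (32 * l.length : ℝ) ≤ 32 * ((l.length + 1 : ℕ) : ℝ) := by push_cast; linarith
    by_cases hv : v = 0
    · subst hv
      rw [rf_zero, one_mul]
      rcases ih with ⟨h1, h2⟩ | ⟨h1, h2⟩
      · exact Or.inl ⟨h1, h2.mono hle⟩
      · exact Or.inr ⟨h1, fun w hw => (h2 w hw).mono hle⟩
    · have hu1 : ‖‖v‖⁻¹ • v‖ = 1 := by
        rw [norm_smul, norm_inv, norm_norm, inv_mul_cancel₀ (norm_ne_zero_iff.mpr hv)]
      rcases ih with ⟨h1, h2⟩ | ⟨h1, h2⟩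
      · right
        refine ⟨?_, fun w hw => ?_⟩
        · rw [det_mul, det_rf hv, h1]; norm_num
        · rw [← mul_assoc]
          have := (pathTo_rf_rf hw hu1).mul h2
          rw [rf_unit v hv] at this
          refine this.mono (le_of_eq ?_)
          push_cast; ring
      · left
        refine ⟨?_, ?_⟩
        · rw [det_mul, det_rf hv, h1]; norm_num
        · have := h2 _ hu1
          rw [rf_unit v hv] at this
          exact this.mono hle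

theorem pathTo_of_det (R : EN d ≃ₗᵢ[ℝ] EN d) (hR : (isoL R).det = 1) : PathTo (32 * d) R := by
  obtain ⟨l, hl, hR'⟩ := LinearIsometryEquiv.reflections_generate_dim R
  have hR2 : R = (l.map rf).prod := hR'
  rw [finrank_euclideanSpace_fin] at hl
  have hle : (32 * l.length : ℝ) ≤ 32 * d := by
    have : (l.length : ℝ) ≤ d := by exact_mod_cast hl
    linarith
  have hdet : LinearMap.det (R.toLinearEquiv : EN d →ₗ[ℝ] EN d) = 1 := hR
  rcases list_path l with ⟨h1, h2⟩ | ⟨h1, _⟩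
  · rw [hR2]; exact h2.mono hle
  · rw [← hR2, hdet] at h1
    norm_num at h1

/-! ### The twist -/

/-- the profile -/
noncomputable def hh (κ r : ℝ) : ℝ := max 0 (min 1 ((1 - r) / κ))

lemma hh_mem (κ r : ℝ) : hh κ r ∈ Icc (0 : ℝ) 1 :=
  ⟨le_max_left _ _, max_le zero_le_one (min_le_left _ _)⟩

lemma hh_one {κ r : ℝ} (hκ : 0 < κ) (hr : r ≤ 1 - κ) : hh κ r = 1 := by
  have : 1 ≤ (1 - r) / κ := by rw [le_div_iff₀ hκ]; linarith
  rw [hh, min_eq_left this, max_eq_right zero_le_one]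

lemma hh_zero {κ r : ℝ} (hκ : 0 < κ) (hr : 1 ≤ r) : hh κ r = 0 := by
  have : (1 - r) / κ ≤ 0 := div_nonpos_of_nonpos_of_nonneg (by linarith) hκ.le
  rw [hh, min_eq_right (this.trans zero_le_one), max_eq_left this]

lemma hh_lip {κ : ℝ} (hκ : 0 < κ) (r r' : ℝ) : |hh κ r - hh κ r'| ≤ |r - r'| / κ := by
  have h1 : |hh κ r - hh κ r'| ≤ |min 1 ((1 - r) / κ) - min 1 ((1 - r') / κ)| := by
    rw [hh, hh]
    have := abs_max_sub_max_le_abs (min 1 ((1 - r) / κ)) (min 1 ((1 - r') / κ)) 0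
    rwa [max_comm, max_comm _ (0 : ℝ)] at this
  have h2 : |min 1 ((1 - r) / κ) - min 1 ((1 - r') / κ)| ≤ |(1 - r) / κ - (1 - r') / κ| := by
    have := abs_min_sub_min_le_max 1 ((1 - r) / κ) 1 ((1 - r') / κ)
    rwa [sub_self, abs_zero, max_eq_right (abs_nonneg _)] at this
  refine h1.trans (h2.trans (le_of_eq ?_))
  rw [← sub_div, abs_div, abs_of_pos hκ]
  congr 1
  rw [abs_sub_comm]
  congr 1; ring

lemma hh_continuous (κ : ℝ) : Continuous (hh κ) := by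
  unfold hh
  fun_prop

variable (ρ : ℝ → (EN d ≃ₗᵢ[ℝ] EN d)) (κ C : ℝ)

/-- the twist -/
noncomputable def tw (x : EN d) : EN d := ρ (hh κ ‖x‖) x

lemma norm_tw (x : EN d) : ‖tw ρ κ x‖ = ‖x‖ := LinearIsometryEquiv.norm_map _ _

lemma tw_symm (x : EN d) : tw (fun s => (ρ s).symm) κ (tw ρ κ x) = x := by
  show (ρ (hh κ ‖tw ρ κ x‖)).symm (tw ρ κ x) = x
  rw [norm_tw]
  exact LinearIsometryEquiv.symm_apply_apply _ _

lemma tw_symm' (x : EN d) : tw ρ κ (tw (fun s => (ρ s).symm) κ x) = x := by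
  show ρ (hh κ ‖tw (fun s => (ρ s).symm) κ x‖) (tw (fun s => (ρ s).symm) κ x) = x
  rw [norm_tw]
  exact LinearIsometryEquiv.apply_symm_apply _ _

variable {ρ κ C}

lemma symm_path (h : ∀ s ∈ Icc (0 : ℝ) 1, ∀ s' ∈ Icc (0 : ℝ) 1, ∀ x,
    ‖ρ s x - ρ s' x‖ ≤ C * |s - s'| * ‖x‖) : ∀ s ∈ Icc (0 : ℝ) 1, ∀ s' ∈ Icc (0 : ℝ) 1, ∀ x,
    ‖(ρ s).symm x - (ρ s').symm x‖ ≤ C * |s - s'| * ‖x‖ := by
  intro s hs s' hs' x
  have h1 := h s' hs' s hs ((ρ s).symm x)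
  rw [LinearIsometryEquiv.norm_map, LinearIsometryEquiv.apply_symm_apply] at h1
  rw [abs_sub_comm s s']
  refine le_trans (le_of_eq ?_) h1
  rw [← LinearIsometryEquiv.norm_map (ρ s') ((ρ s).symm x - (ρ s').symm x), map_sub,
    LinearIsometryEquiv.apply_symm_apply]

lemma tw_lip (hC : 0 ≤ C) (hκ : 0 < κ) (h0 : ∀ x, ρ 0 x = x)
    (h : ∀ s ∈ Icc (0 : ℝ) 1, ∀ s' ∈ Icc (0 : ℝ) 1, ∀ x,
      ‖ρ s x - ρ s' x‖ ≤ C * |s - s'| * ‖x‖) (x y : EN d) :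
    ‖tw ρ κ x - tw ρ κ y‖ ≤ (1 + C / κ) * ‖x - y‖ := by
  have main : ∀ x y : EN d, ‖y‖ ≤ 1 → ‖tw ρ κ x - tw ρ κ y‖ ≤ (1 + C / κ) * ‖x - y‖ := by
    intro x y hy
    have e : tw ρ κ x - tw ρ κ y = ρ (hh κ ‖x‖) (x - y) +
        (ρ (hh κ ‖x‖) y - ρ (hh κ ‖y‖) y) := by
      rw [map_sub]; simp only [tw]; abel
    rw [e]
    refine (norm_add_le _ _).trans ?_
    rw [LinearIsometryEquiv.norm_map]
    have e1 := h _ (hh_mem κ ‖x‖) _ (hh_mem κ ‖y‖) y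
    have e2 := hh_lip hκ ‖x‖ ‖y‖
    have e3 : |‖x‖ - ‖y‖| ≤ ‖x - y‖ := abs_norm_sub_norm_le _ _
    have e4 : |‖x‖ - ‖y‖| / κ ≤ ‖x - y‖ / κ := div_le_div_of_nonneg_right e3 hκ.le
    have e5 : C * |hh κ ‖x‖ - hh κ ‖y‖| * ‖y‖ ≤ C * (‖x - y‖ / κ) * 1 := by
      refine mul_le_mul (mul_le_mul_of_nonneg_left (e2.trans e4) hC) hy (norm_nonneg _) ?_
      positivity
    calc _ ≤ ‖x - y‖ + C * (‖x - y‖ / κ) * 1 := by linarith
      _ = (1 + C / κ) * ‖x - y‖ := by field_simp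
  rcases le_total ‖y‖ 1 with hy | hy
  · exact main x y hy
  rcases le_total ‖x‖ 1 with hx | hx
  · rw [norm_sub_rev, norm_sub_rev x y]; exact main y x hx
  · rw [tw, tw, hh_zero hκ hx, hh_zero hκ hy, h0, h0]
    have : 0 ≤ C / κ := by positivity
    nlinarith [norm_nonneg (x - y)]

/-! ### Volume -/

/-- the profile rounded to a multiple of `1/(n+1)` -/
noncomputable def kk (κ : ℝ) (n : ℕ) (x : EN d) : ℕ := ⌊((n : ℝ) + 1) * hh κ ‖x‖⌋₊

/-- the piecewise constant twist -/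
noncomputable def twn (ρ : ℝ → (EN d ≃ₗᵢ[ℝ] EN d)) (κ : ℝ) (n : ℕ) (x : EN d) : EN d :=
  ρ ((kk κ n x : ℝ) / (n + 1)) x

lemma kk_measurable (κ : ℝ) (n : ℕ) : Measurable (kk κ n : EN d → ℕ) := by
  unfold kk
  refine Nat.measurable_floor.comp ?_
  exact (measurable_const.mul ((hh_continuous κ).measurable.comp measurable_norm))

lemma kk_iso (κ : ℝ) (n : ℕ) (R : EN d ≃ₗᵢ[ℝ] EN d) (x : EN d) : kk κ n (R x) = kk κ n x := by
  rw [kk, kk, LinearIsometryEquiv.norm_map]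

lemma twn_le (n : ℕ) (A : Set (EN d)) (hA : MeasurableSet A) :
    volume (twn ρ κ n ⁻¹' A) ≤ volume A := by
  have h1 : twn ρ κ n ⁻¹' A ⊆ ⋃ k : ℕ, (ρ ((k : ℝ) / (n + 1))) ⁻¹' (A ∩ kk κ n ⁻¹' {k}) := by
    intro x hx
    rw [mem_iUnion]
    refine ⟨kk κ n x, hx, ?_⟩
    rw [mem_preimage, kk_iso]
    rfl
  refine (measure_mono h1).trans ((measure_iUnion_le _).trans ?_)
  have h2 : ∀ k : ℕ, volume ((ρ ((k : ℝ) / (n + 1))) ⁻¹' (A ∩ kk κ n ⁻¹' {k})) =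
      volume (A ∩ kk κ n ⁻¹' {k}) := by
    intro k
    exact (LinearIsometryEquiv.measurePreserving (ρ ((k : ℝ) / (n + 1)))).measure_preimage
      (hA.inter (kk_measurable κ n (measurableSet_singleton k))).nullMeasurableSet
  simp_rw [h2]
  rw [← measure_iUnion]
  · exact measure_mono (iUnion_subset (fun k => inter_subset_left))
  · intro i j hij
    refine disjoint_left.mpr ?_
    rintro x ⟨_, hx⟩ ⟨_, hy⟩
    exact hij (hx.symm.trans hy)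
  · intro k
    exact hA.inter (kk_measurable κ n (measurableSet_singleton k))

lemma twn_tendsto (h : ∀ s ∈ Icc (0 : ℝ) 1, ∀ s' ∈ Icc (0 : ℝ) 1, ∀ x,
      ‖ρ s x - ρ s' x‖ ≤ C * |s - s'| * ‖x‖) (x : EN d) :
    Tendsto (fun n => twn ρ κ n x) atTop (𝓝 (tw ρ κ x)) := by
  have hb : ∀ n : ℕ, ‖twn ρ κ n x - tw ρ κ x‖ ≤ |C| * ‖x‖ * (1 / ((n : ℝ) + 1)) := by
    intro n
    have hn : (0 : ℝ) < (n : ℝ) + 1 := by positivity
    have hm := hh_mem κ ‖x‖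
    have h1 : (kk κ n x : ℝ) ≤ ((n : ℝ) + 1) * hh κ ‖x‖ := Nat.floor_le (by
      exact mul_nonneg hn.le hm.1)
    have h2 : ((n : ℝ) + 1) * hh κ ‖x‖ < (kk κ n x : ℝ) + 1 := Nat.lt_floor_add_one _
    have h3 : (kk κ n x : ℝ) / (n + 1) ≤ hh κ ‖x‖ := by
      rw [div_le_iff₀ hn]; linarith
    have h4 : hh κ ‖x‖ - (kk κ n x : ℝ) / (n + 1) ≤ 1 / ((n : ℝ) + 1) := by
      rw [sub_le_iff_le_add, ← add_div, le_div_iff₀ hn]; linarith
    have h5 : (kk κ n x : ℝ) / (n + 1) ∈ Icc (0 : ℝ) 1 := ⟨by positivity, h3.trans hm.2⟩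
    have h6 := h _ h5 _ hm x
    have h7 : |(kk κ n x : ℝ) / (n + 1) - hh κ ‖x‖| ≤ 1 / ((n : ℝ) + 1) := by
      rw [abs_sub_comm, abs_of_nonneg (by linarith)]; exact h4
    calc _ ≤ C * |(kk κ n x : ℝ) / (n + 1) - hh κ ‖x‖| * ‖x‖ := h6
      _ ≤ |C| * |(kk κ n x : ℝ) / (n + 1) - hh κ ‖x‖| * ‖x‖ := by
          gcongr
          exact le_abs_self C
      _ ≤ |C| * (1 / ((n : ℝ) + 1)) * ‖x‖ := by gcongr
      _ = _ := by ring
  rw [tendsto_iff_norm_sub_tendsto_zero]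
  refine squeeze_zero (fun _ => norm_nonneg _) hb ?_
  have := (tendsto_one_div_add_atTop_nhds_zero_nat (𝕜 := ℝ)).const_mul (|C| * ‖x‖)
  rwa [mul_zero] at this

/-- a pointwise limit of volume decreasing maps is volume decreasing -/
lemma limit_le (f : ℕ → EN d → EN d) (g : EN d → EN d)
    (hf : ∀ n, ∀ A : Set (EN d), MeasurableSet A → volume (f n ⁻¹' A) ≤ volume A)
    (hg : ∀ x, Tendsto (fun n => f n x) atTop (𝓝 (g x))) (A : Set (EN d)) :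
    volume (g ⁻¹' A) ≤ volume A := by
  have hopen : ∀ O : Set (EN d), IsOpen O → volume (g ⁻¹' O) ≤ volume O := by
    intro O hO
    have h1 : g ⁻¹' O ⊆ ⋃ N : ℕ, ⋂ n : ℕ, f (N + n) ⁻¹' O := by
      intro x hx
      have := (hg x).eventually (hO.mem_nhds hx)
      obtain ⟨N, hN⟩ := eventually_atTop.mp this
      rw [mem_iUnion]
      exact ⟨N, mem_iInter.mpr (fun n => hN (N + n) (Nat.le_add_right _ _))⟩
    refine (measure_mono h1).trans ?_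
    have hmono : Monotone (fun N : ℕ => ⋂ n : ℕ, f (N + n) ⁻¹' O) := by
      intro N M hNM x hx
      rw [mem_iInter] at hx ⊢
      intro n
      have := hx (M - N + n)
      rwa [show N + (M - N + n) = M + n by omega] at this
    rw [hmono.measure_iUnion]
    refine iSup_le (fun N => ?_)
    refine (measure_mono (iInter_subset _ 0)).trans ?_
    exact hf _ O hO.measurableSet
  rw [A.measure_eq_iInf_isOpen volume]
  refine le_iInf (fun O => le_iInf (fun hAO => le_iInf (fun hO => ?_)))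
  exact (measure_mono (preimage_mono hAO)).trans (hopen O hO)

lemma tw_le (h : ∀ s ∈ Icc (0 : ℝ) 1, ∀ s' ∈ Icc (0 : ℝ) 1, ∀ x,
      ‖ρ s x - ρ s' x‖ ≤ C * |s - s'| * ‖x‖) (A : Set (EN d)) :
    volume (tw ρ κ ⁻¹' A) ≤ volume A :=
  limit_le (fun n => twn ρ κ n) (tw ρ κ) (fun n A hA => twn_le n A hA) (twn_tendsto h) A

end TWIST

open TWIST in
theorem p_TWIST : T_TWIST := by
  intro d
  refine ⟨1 + 32 * d, 1, by
    have : (0 : ℝ) ≤ d := Nat.cast_nonneg d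
    linarith, ?_⟩
  intro κ hκ hκ2 R hR
  obtain ⟨ρ, h0, h1, h2⟩ := pathTo_of_det R hR
  have hC : (0 : ℝ) ≤ 32 * d := by positivity
  have h2' := symm_path h2
  have h0' : ∀ x, (ρ 0).symm x = x := by
    intro x
    rw [LinearIsometryEquiv.symm_apply_eq, h0]
  have hb : 1 + (32 * d : ℝ) / κ ≤ (1 + 32 * d) / κ ^ 1 := by
    rw [pow_one, add_div]
    have : 1 ≤ 1 / κ := by rw [le_div_iff₀ hκ]; linarith
    linarith
  have hlip : ∀ ρ' : ℝ → (EN d ≃ₗᵢ[ℝ] EN d), (∀ x, ρ' 0 x = x) →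
      (∀ s ∈ Icc (0 : ℝ) 1, ∀ s' ∈ Icc (0 : ℝ) 1, ∀ x,
        ‖ρ' s x - ρ' s' x‖ ≤ 32 * d * |s - s'| * ‖x‖) →
      LipschitzWith (Real.toNNReal ((1 + 32 * d) / κ ^ 1)) (tw ρ' κ) := by
    intro ρ' h0 h2
    refine LipschitzWith.of_dist_le_mul (fun x y => ?_)
    rw [dist_eq_norm, dist_eq_norm, Real.coe_toNNReal _ (by positivity)]
    exact (tw_lip hC hκ h0 h2 x y).trans (mul_le_mul_of_nonneg_right hb (norm_nonneg _))
  have hl1 := hlip ρ h0 h2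
  have hl2 := hlip (fun s => (ρ s).symm) h0' h2'
  let t : EN d ≃ₜ EN d :=
    { toFun := tw ρ κ
      invFun := tw (fun s => (ρ s).symm) κ
      left_inv := tw_symm ρ κ
      right_inv := tw_symm' ρ κ
      continuous_toFun := hl1.continuous
      continuous_invFun := hl2.continuous }
  refine ⟨t, hl1, hl2, norm_tw ρ κ, ?_, ?_, ?_⟩
  · intro x hx
    show ρ (hh κ ‖x‖) x = x
    rw [hh_zero hκ hx, h0]
  · intro x hx
    show ρ (hh κ ‖x‖) x = R x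
    rw [hh_one hκ hx, h1]
  · refine ⟨hl1.continuous.measurable, ?_⟩
    ext A hA
    rw [Measure.map_apply t.continuous.measurable hA]
    show volume (tw ρ κ ⁻¹' A) = volume A
    apply le_antisymm
    · exact tw_le h2 A
    · have := tw_le (κ := κ) h2' (tw ρ κ ⁻¹' A)
      refine le_trans (le_of_eq ?_) this
      congr 1
      ext x
      rw [mem_preimage, mem_preimage, tw_symm']

end Pool.Agent.SobEnt
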