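import Pool.Agent.SobEnt.PHI

/-!
# VBAS: basic consequences of an atlas (MP_07df6b_an)
-/

open MeasureTheory Filter Topology Set Bundle
open scoped ENNReal NNReal Manifold ContDiff

universe u v w

namespace Pool.Agent.SobEnt

noncomputable section

namespace VBAS

open PHI

variable {X : Type u} [MetricSpace X] [MeasurableSpace X] {lam : Measure X} {d : ℕ}

theorem image_eq (V : VAtlas X lam d) {i : Fin V.n} {s : Set (EN d)} (hs : s ⊆ V.dom i) :
    V.c i '' s = Subtype.val '' ((V.U i).domRestrict (V.inv i) ⁻¹' s) := by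
  ext x
  constructor
  · rintro ⟨z, hz, rfl⟩
    refine ⟨⟨V.c i z, z, hs hz, rfl⟩, ?_, rfl⟩
    change V.inv i (V.c i z) ∈ s
    rw [inv_c V (hs hz)]
    exact hz
  · rintro ⟨⟨y, hy⟩, hy', rfl⟩
    exact ⟨V.inv i y, hy', c_inv V hy⟩

theorem measurableSet_image [BorelSpace X] (V : VAtlas X lam d) {i : Fin V.n} {s : Set (EN d)}
    (hs : s ⊆ V.dom i) (hm : MeasurableSet s) : MeasurableSet (V.c i '' s) := by
  rw [image_eq V hs]
  have h2 : Measurable ((V.U i).domRestrict (V.inv i)) :=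
    (continuousOn_iff_continuous_domRestrict.1 (continuousOn_inv V i)).measurable
  exact (isOpen_U V i).measurableSet.subtype_image (h2 hm)

theorem lam_U_lt_top (V : VAtlas X lam d) (i : Fin V.n) : lam (V.U i) < ⊤ := by
  have h := V.vol i (V.dom i) Subset.rfl Metric.isOpen_ball.measurableSet
  rw [VAtlas.U, h]
  exact measure_ball_lt_top

theorem lam_univ_lt_top (V : VAtlas X lam d) : lam univ < ⊤ := by
  have h1 : (univ : Set X) ⊆ ⋃ i, V.U i := fun x _ => by
    obtain ⟨i, hi⟩ := V.cover x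
    exact mem_iUnion.2 ⟨i, hi⟩
  calc lam univ ≤ lam (⋃ i, V.U i) := measure_mono h1
    _ ≤ ∑ i, lam (V.U i) := measure_iUnion_fintype_le _ _
    _ < ⊤ := ENNReal.sum_lt_top.2 fun i _ => lam_U_lt_top V i

theorem lam_univ_pos (V : VAtlas X lam d) (hX : Nonempty X) : 0 < lam univ := by
  obtain ⟨x⟩ := hX
  obtain ⟨i, _⟩ := V.cover x
  calc (0 : ℝ≥0∞) < volume (V.dom i) := Metric.measure_ball_pos _ _ (V.rad_pos i)
    _ = lam (V.c i '' V.dom i) := (V.vol i _ Subset.rfl Metric.isOpen_ball.measurableSet).symm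
    _ ≤ lam univ := measure_mono (subset_univ _)

/-- least index -/
theorem exists_idx [BorelSpace X] (V : VAtlas X lam d) :
    ∃ idx : X → Fin V.n, Measurable idx ∧ ∀ x, x ∈ V.U (idx x) := by
  classical
  have hne : ∀ x : X, (Finset.univ.filter fun i => x ∈ V.U i).Nonempty := by
    intro x
    obtain ⟨i, hi⟩ := V.cover x
    exact ⟨i, Finset.mem_filter.2 ⟨Finset.mem_univ _, hi⟩⟩
  refine ⟨fun x => (Finset.univ.filter fun i => x ∈ V.U i).min' (hne x), ?_, ?_⟩
  · refine measurable_to_countable' fun i => ?_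
    have h1 : (fun x => (Finset.univ.filter fun i => x ∈ V.U i).min' (hne x)) ⁻¹' {i} =
        V.U i \ ⋃ j ∈ {j : Fin V.n | j < i}, V.U j := by
      ext x
      simp only [mem_preimage, mem_singleton_iff, Set.mem_sdiff, mem_iUnion, not_exists,
        mem_ofPred_eq]
      constructor
      · intro h
        have h2 := Finset.min'_mem _ (hne x)
        rw [h] at h2
        refine ⟨(Finset.mem_filter.1 h2).2, fun j hj hxj => ?_⟩
        have h3 := Finset.min'_le (Finset.univ.filter fun i => x ∈ V.U i) j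
          (Finset.mem_filter.2 ⟨Finset.mem_univ _, hxj⟩)
        rw [h] at h3
        exact absurd hj (not_lt.2 h3)
      · rintro ⟨h2, h3⟩
        apply le_antisymm
        · exact Finset.min'_le _ i (Finset.mem_filter.2 ⟨Finset.mem_univ _, h2⟩)
        · refine Finset.le_min' _ _ _ fun j hj => ?_
          by_contra hlt
          exact h3 j (not_le.1 hlt) (Finset.mem_filter.1 hj).2
    rw [h1]
    refine (isOpen_U V i).measurableSet.diff ?_
    exact MeasurableSet.iUnion fun j => MeasurableSet.iUnion fun _ => (isOpen_U V j).measurableSet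
  · intro x
    exact (Finset.mem_filter.1 (Finset.min'_mem _ (hne x))).2

theorem exists_rad_lb (V : VAtlas X lam d) : ∃ ρ : ℝ, 0 < ρ ∧ ∀ i, ρ ≤ V.rad i := by
  refine ⟨(∑ i, (V.rad i)⁻¹ + 1)⁻¹, ?_, fun i => ?_⟩
  · have : 0 ≤ ∑ i, (V.rad i)⁻¹ := Finset.sum_nonneg fun i _ => inv_nonneg.2 (V.rad_pos i).le
    positivity
  · have h1 : (V.rad i)⁻¹ ≤ ∑ i, (V.rad i)⁻¹ + 1 := by
      have := Finset.single_le_sum (f := fun i => (V.rad i)⁻¹)
        (fun i _ => inv_nonneg.2 (V.rad_pos i).le) (Finset.mem_univ i)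
      linarith
    have h2 : 0 < (V.rad i)⁻¹ := inv_pos.2 (V.rad_pos i)
    calc (∑ i, (V.rad i)⁻¹ + 1)⁻¹ ≤ ((V.rad i)⁻¹)⁻¹ := inv_anti₀ h2 h1
      _ = V.rad i := inv_inv _

theorem exists_lebesgue [CompactSpace X] (V : VAtlas X lam d) :
    ∃ δ > 0, ∀ x : X, ∃ i, Metric.ball x δ ⊆ V.U i := by
  obtain ⟨δ, hδ, h⟩ := lebesgue_number_lemma_of_metric (isCompact_univ (X := X))
    (fun i => isOpen_U V i) (fun x _ => by
      obtain ⟨i, hi⟩ := V.cover x
      exact mem_iUnion.2 ⟨i, hi⟩)
  exact ⟨δ, hδ, fun x => h x (mem_univ x)⟩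

/-- the volume of the unit ball -/
def om (d : ℕ) : ℝ := (volume : Measure (EN d)).real (Metric.ball 0 1)

theorem om_pos (d : ℕ) : 0 < om d :=
  ENNReal.toReal_pos (Metric.measure_ball_pos _ _ one_pos).ne' measure_ball_lt_top.ne

theorem real_ball (p : EN d) {r : ℝ} (hr : 0 < r) :
    (volume : Measure (EN d)).real (Metric.ball p r) = r ^ d * om d := by
  rw [om, measureReal_def, measureReal_def, Measure.addHaar_ball_of_pos _ _ hr,
    ENNReal.toReal_mul, ENNReal.toReal_ofReal (by positivity), finrank_euclideanSpace,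
    Fintype.card_fin]

theorem upper (V : VAtlas X lam d) {i : Fin V.n} {x : X} {r : ℝ} (hr : 0 < r)
    (hx : Metric.ball x r ⊆ V.U i) : lam.real (Metric.ball x r) ≤ (V.K * r) ^ d * om d := by
  have hK := K_pos V
  have hxU : x ∈ V.U i := hx (Metric.mem_ball_self hr)
  have h1 : Metric.ball x r ⊆ V.c i '' (Metric.ball (V.inv i x) (V.K * r) ∩ V.dom i) := by
    intro y hy
    refine ⟨V.inv i y, ⟨?_, inv_mem V (hx hy)⟩, c_inv V (hx hy)⟩
    rw [Metric.mem_ball]
    calc dist (V.inv i y) (V.inv i x) ≤ V.K * dist y x := dist_inv_le V (hx hy) hxU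
      _ < V.K * r := mul_lt_mul_of_pos_left hy hK
  have h2 : lam (Metric.ball x r) ≤ volume (Metric.ball (V.inv i x) (V.K * r)) := by
    calc lam (Metric.ball x r) ≤ lam (V.c i '' (Metric.ball (V.inv i x) (V.K * r) ∩ V.dom i)) :=
          measure_mono h1
      _ = volume (Metric.ball (V.inv i x) (V.K * r) ∩ V.dom i) :=
          V.vol i _ inter_subset_right
            (Metric.isOpen_ball.measurableSet.inter Metric.isOpen_ball.measurableSet)
      _ ≤ volume (Metric.ball (V.inv i x) (V.K * r)) := measure_mono inter_subset_left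
  calc lam.real (Metric.ball x r) ≤ (volume : Measure (EN d)).real
        (Metric.ball (V.inv i x) (V.K * r)) := ENNReal.toReal_mono measure_ball_lt_top.ne h2
    _ = (V.K * r) ^ d * om d := real_ball _ (mul_pos hK hr)

theorem lower (V : VAtlas X lam d) {i : Fin V.n} {x : X} {r : ℝ} (hr : 0 < r)
    (hrad : r / V.K ≤ V.rad i) (hfin : lam univ < ⊤)
    (hx : x ∈ V.U i) : (r / (2 * V.K)) ^ d * om d ≤ lam.real (Metric.ball x r) := by
  have hK := K_pos V
  set p := V.inv i x with hp
  have hpd : p ∈ V.dom i := inv_mem V hx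
  have hpd' : dist p (V.ctr i) < V.rad i := hpd
  set ρ := r / V.K with hρ
  have hρ0 : 0 < ρ := div_pos hr hK
  have hR := V.rad_pos i
  set θ := ρ / (2 * V.rad i) with hθ
  have hθ0 : 0 < θ := by positivity
  have hθ1 : θ ≤ 1 / 2 := by
    rw [hθ, div_le_div_iff₀ (by positivity) two_pos]
    linarith
  have hθR : θ * V.rad i = ρ / 2 := by
    rw [hθ]; field_simp
  set q : EN d := AffineMap.lineMap p (V.ctr i) θ with hq
  have hqp : dist q p < ρ / 2 := by
    rw [hq, dist_lineMap_left, Real.norm_of_nonneg hθ0.le, ← hθR]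
    exact mul_lt_mul_of_pos_left hpd' hθ0
  have hqc : dist q (V.ctr i) < V.rad i - ρ / 2 := by
    rw [hq, dist_lineMap_right, Real.norm_of_nonneg (by linarith), ← hθR]
    have : (1 - θ) * dist p (V.ctr i) < (1 - θ) * V.rad i :=
      mul_lt_mul_of_pos_left hpd' (by linarith)
    linarith
  have hsub : Metric.ball q (ρ / 2) ⊆ V.dom i := by
    intro z hz
    have hz' : dist z q < ρ / 2 := hz
    change dist z (V.ctr i) < V.rad i
    linarith [dist_triangle z q (V.ctr i)]
  have hsub2 : V.c i '' Metric.ball q (ρ / 2) ⊆ Metric.ball x r := by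
    rintro _ ⟨z, hz, rfl⟩
    have hz' : dist z q < ρ / 2 := hz
    have h1 : dist z p < ρ := by linarith [dist_triangle z q p]
    have h2 := (V.bilip i z (hsub hz) p hpd).2
    rw [hp, c_inv V hx] at h2
    calc dist (V.c i z) x ≤ V.K * dist z (V.inv i x) := h2
      _ < V.K * ρ := mul_lt_mul_of_pos_left h1 hK
      _ = r := by rw [hρ]; field_simp
  have h3 : volume (Metric.ball q (ρ / 2)) ≤ lam (Metric.ball x r) := by
    rw [← V.vol i _ hsub Metric.isOpen_ball.measurableSet]
    exact measure_mono hsub2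
  calc (r / (2 * V.K)) ^ d * om d = (ρ / 2) ^ d * om d := by
        congr 2
        rw [hρ]; field_simp
    _ = (volume : Measure (EN d)).real (Metric.ball q (ρ / 2)) := (real_ball _ (by positivity)).symm
    _ ≤ lam.real (Metric.ball x r) :=
        ENNReal.toReal_mono ((measure_mono (subset_univ _)).trans_lt hfin).ne h3

end VBAS

/-- VBAS: basic consequences of an atlas -/
theorem p_VBAS : T_VBAS.{u} := by
  intro X _ _ _ _ lam d V _hd
  have hfin := VBAS.lam_univ_lt_top V
  refine ⟨hfin, VBAS.lam_univ_pos V, ?_, VBAS.exists_idx V,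
    fun i s hs hm => VBAS.measurableSet_image V hs hm, fun i x hx => PHI.inv_c V hx,
    fun i => PHI.isOpen_U V i, fun i => PHI.continuousOn_inv V i⟩
  obtain ⟨δ, hδ, hleb⟩ := VBAS.exists_lebesgue V
  obtain ⟨ρ, hρ, hrad⟩ := VBAS.exists_rad_lb V
  have hK := PHI.K_pos V
  have hom := VBAS.om_pos d
  set C : ℝ := 1 + V.K ^ d * VBAS.om d + (2 * V.K) ^ d / VBAS.om d with hC
  have h1 : 0 ≤ V.K ^ d * VBAS.om d := by positivity
  have h2 : 0 ≤ (2 * V.K) ^ d / VBAS.om d := by positivity
  have hC1 : 1 ≤ C := by linarith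
  have hC0 : 0 < C := by linarith
  refine ⟨C, min δ (V.K * ρ), hC1, lt_min hδ (mul_pos hK hρ), fun x r hr hr₀ => ⟨?_, ?_⟩⟩
  · obtain ⟨i, hi⟩ := V.cover x
    have h3 : r / V.K ≤ V.rad i := by
      rw [div_le_iff₀ hK]
      calc r ≤ V.K * ρ := hr₀.trans (min_le_right _ _)
        _ = ρ * V.K := mul_comm _ _
        _ ≤ V.rad i * V.K := mul_le_mul_of_nonneg_right (hrad i) hK.le
    refine le_trans ?_ (VBAS.lower V hr h3 hfin hi)
    rw [inv_mul_le_iff₀ hC0, div_pow]
    have h4 : (2 * V.K) ^ d / VBAS.om d * (r ^ d / (2 * V.K) ^ d * VBAS.om d) = r ^ d := by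
      field_simp
    have h5 : (2 * V.K) ^ d / VBAS.om d * (r ^ d / (2 * V.K) ^ d * VBAS.om d) ≤
        C * (r ^ d / (2 * V.K) ^ d * VBAS.om d) :=
      mul_le_mul_of_nonneg_right (by linarith) (by positivity)
    linarith
  · obtain ⟨i, hi⟩ := hleb x
    refine (VBAS.upper V hr ((Metric.ball_subset_ball (hr₀.trans (min_le_left _ _))).trans
      hi)).trans ?_
    rw [mul_pow]
    calc V.K ^ d * r ^ d * VBAS.om d = V.K ^ d * VBAS.om d * r ^ d := by ring
      _ ≤ C * r ^ d := mul_le_mul_of_nonneg_right (by linarith) (by positivity)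

end

end Pool.Agent.SobEnt
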