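import Pool.Agent.SobEnt.Targets

/-!
# VK: existence of the gauges (MP_07df6b_an)

`V k D` is the sum of the absolute values of all `k × k` minors (indexed by functions) of the
matrix of `D` in the standard basis.
-/

open MeasureTheory Filter Topology Set Matrix
open scoped ENNReal NNReal

namespace Pool.Agent.SobEnt

namespace VK

/-- the matrix of `D` -/
noncomputable def mt {d : ℕ} (D : EN d →L[ℝ] EN d) : Matrix (Fin d) (Fin d) ℝ :=
  Matrix.of fun i j => D (EuclideanSpace.single j 1) i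

/-- sum of the absolute values of the minors -/
noncomputable def mn {d : ℕ} (k : ℕ) (M : Matrix (Fin d) (Fin d) ℝ) : ℝ :=
  ∑ f : Fin k → Fin d, ∑ g : Fin k → Fin d, |(M.submatrix f g).det|

lemma mt_comp {d : ℕ} (A B : EN d →L[ℝ] EN d) : mt (A.comp B) = mt A * mt B := by
  ext i j
  rw [Matrix.mul_apply]
  simp only [mt, Matrix.of_apply, ContinuousLinearMap.comp_apply]
  set x : EN d := B (EuclideanSpace.single j 1) with hx
  have h1 : x = ∑ l, x l • EuclideanSpace.single l (1 : ℝ) := by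
    ext m
    simp [Pi.single_apply]
  conv_lhs => rw [h1, map_sum]
  simp only [map_smul]
  simp [mul_comm]

/-- expansion of a minor of a product along the rows -/
lemma det_mul_expand {d k : ℕ} (A B : Matrix (Fin d) (Fin d) ℝ) (f g : Fin k → Fin d) :
    ((A * B).submatrix f g).det =
      ∑ h : Fin k → Fin d, (∏ i, A (f i) (h i)) * (B.submatrix h g).det := by
  have h1 : ((A * B).submatrix f g).det = (detRowAlternating : (Fin k → ℝ) [⋀^(Fin k)]→ₗ[ℝ] ℝ)
      (fun i => ∑ l : Fin d, A (f i) l • fun j => B l (g j)) := by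
    show _ = Matrix.det _
    congr 1
    ext i j
    simp [Matrix.mul_apply]
  rw [h1]
  have h2 := MultilinearMap.map_sum
    ((detRowAlternating : (Fin k → ℝ) [⋀^(Fin k)]→ₗ[ℝ] ℝ).toMultilinearMap)
    (fun (i : Fin k) (l : Fin d) => A (f i) l • fun j => B l (g j))
  refine h2.trans ?_
  refine Finset.sum_congr rfl fun h _ => ?_
  have h3 := MultilinearMap.map_smul_univ
    ((detRowAlternating : (Fin k → ℝ) [⋀^(Fin k)]→ₗ[ℝ] ℝ).toMultilinearMap)
    (fun i => A (f i) (h i)) (fun i j => B (h i) (g j))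
  refine h3.trans ?_
  rfl

/-- the Cauchy-Binet formula, over all functions -/
lemma cauchyBinet {d k : ℕ} (A B : Matrix (Fin d) (Fin d) ℝ) (f g : Fin k → Fin d) :
    ∑ h : Fin k → Fin d, (A.submatrix f h).det * (B.submatrix h g).det =
      (k.factorial : ℝ) * ((A * B).submatrix f g).det := by
  have h1 : ∀ h : Fin k → Fin d, (A.submatrix f h).det * (B.submatrix h g).det =
      ∑ σ : Equiv.Perm (Fin k), ((Equiv.Perm.sign σ : ℤ) : ℝ) *
        ((∏ i, A (f (σ i)) (h i)) * (B.submatrix h g).det) := by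
    intro h
    rw [Matrix.det_apply' (A.submatrix f h), Finset.sum_mul]
    refine Finset.sum_congr rfl fun σ _ => ?_
    simp only [Matrix.submatrix_apply]
    ring
  simp_rw [h1]
  rw [Finset.sum_comm]
  have h2 : ∀ σ : Equiv.Perm (Fin k), ∑ h : Fin k → Fin d, ((Equiv.Perm.sign σ : ℤ) : ℝ) *
      ((∏ i, A (f (σ i)) (h i)) * (B.submatrix h g).det) = ((A * B).submatrix f g).det := by
    intro σ
    rw [← Finset.mul_sum, ← det_mul_expand A B (fun i => f (σ i)) g]
    have h3 : ((A * B).submatrix (fun i => f (σ i)) g) =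
        (((A * B).submatrix f g).submatrix σ id) := by
      ext i j; rfl
    rw [h3, Matrix.det_permute, ← mul_assoc]
    have h4 : ((Equiv.Perm.sign σ : ℤ) : ℝ) * ((Equiv.Perm.sign σ : ℤ) : ℝ) = 1 := by
      rw [← Int.cast_mul, ← Units.val_mul, Int.units_mul_self]
      simp
    rw [h4, one_mul]
  simp_rw [h2]
  rw [Finset.sum_const, Finset.card_univ, Fintype.card_perm, Fintype.card_fin, nsmul_eq_mul]

lemma mn_nonneg {d : ℕ} (k : ℕ) (M : Matrix (Fin d) (Fin d) ℝ) : 0 ≤ mn k M :=
  Finset.sum_nonneg fun _ _ => Finset.sum_nonneg fun _ _ => abs_nonneg _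

lemma mn_mul {d : ℕ} (k : ℕ) (A B : Matrix (Fin d) (Fin d) ℝ) :
    mn k (A * B) ≤ mn k A * mn k B := by
  have h1 : ∀ f g : Fin k → Fin d, |((A * B).submatrix f g).det| ≤
      ∑ h : Fin k → Fin d, |(A.submatrix f h).det| * |(B.submatrix h g).det| := by
    intro f g
    have h2 := cauchyBinet A B f g
    have h3 : (1 : ℝ) ≤ (k.factorial : ℝ) := by
      exact_mod_cast Nat.factorial_pos k
    calc |((A * B).submatrix f g).det| ≤ (k.factorial : ℝ) * |((A * B).submatrix f g).det| :=
          le_mul_of_one_le_left (abs_nonneg _) h3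
      _ = |∑ h : Fin k → Fin d, (A.submatrix f h).det * (B.submatrix h g).det| := by
          rw [h2, abs_mul, Nat.abs_cast]
      _ ≤ ∑ h : Fin k → Fin d, |(A.submatrix f h).det * (B.submatrix h g).det| :=
          Finset.abs_sum_le_sum_abs _ _
      _ = _ := by simp_rw [abs_mul]
  calc mn k (A * B) ≤ ∑ f : Fin k → Fin d, ∑ g : Fin k → Fin d, ∑ h : Fin k → Fin d,
        |(A.submatrix f h).det| * |(B.submatrix h g).det| :=
        Finset.sum_le_sum fun f _ => Finset.sum_le_sum fun g _ => h1 f g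
    _ = ∑ f : Fin k → Fin d, ∑ h : Fin k → Fin d, ∑ g : Fin k → Fin d,
        |(A.submatrix f h).det| * |(B.submatrix h g).det| :=
        Finset.sum_congr rfl fun f _ => Finset.sum_comm
    _ = ∑ f : Fin k → Fin d, ∑ h : Fin k → Fin d,
        |(A.submatrix f h).det| * ∑ g : Fin k → Fin d, |(B.submatrix h g).det| := by
        simp_rw [Finset.mul_sum]
    _ ≤ ∑ f : Fin k → Fin d, ∑ h : Fin k → Fin d, |(A.submatrix f h).det| * mn k B := by
        refine Finset.sum_le_sum fun f _ => Finset.sum_le_sum fun h _ => ?_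
        refine mul_le_mul_of_nonneg_left ?_ (abs_nonneg _)
        exact Finset.single_le_sum (f := fun h : Fin k → Fin d =>
          ∑ g : Fin k → Fin d, |(B.submatrix h g).det|)
          (fun _ _ => Finset.sum_nonneg fun _ _ => abs_nonneg _) (Finset.mem_univ h)
    _ = mn k A * mn k B := by
        simp_rw [← Finset.sum_mul]
        rfl

/-- bound of the minors of matrices with entries bounded by `1` -/
noncomputable def NN (d k : ℕ) : ℝ := ((d : ℝ) ^ k) ^ 2 * (k.factorial : ℝ)

lemma NN_nonneg (d k : ℕ) : 0 ≤ NN d k := by unfold NN; positivity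

lemma sum_const_bound {d k : ℕ} (F : (Fin k → Fin d) → (Fin k → Fin d) → ℝ) (c : ℝ)
    (h : ∀ f g, F f g ≤ (k.factorial : ℝ) * c) :
    ∑ f : Fin k → Fin d, ∑ g : Fin k → Fin d, F f g ≤ NN d k * c := by
  calc ∑ f : Fin k → Fin d, ∑ g : Fin k → Fin d, F f g
      ≤ ∑ _f : Fin k → Fin d, ∑ _g : Fin k → Fin d, (k.factorial : ℝ) * c :=
        Finset.sum_le_sum fun f _ => Finset.sum_le_sum fun g _ => h f g
    _ = NN d k * c := by
        simp only [Finset.sum_const, Finset.card_univ, Fintype.card_fun, Fintype.card_fin,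
          nsmul_eq_mul]
        unfold NN
        push_cast
        ring

lemma abs_det_le {k : ℕ} (M : Matrix (Fin k) (Fin k) ℝ) (h : ∀ i j, |M i j| ≤ 1) :
    |M.det| ≤ (k.factorial : ℝ) := by
  have := Matrix.det_le (A := M) (abv := AbsoluteValue.abs) (x := (1 : ℝ)) h
  simpa using this

lemma mn_le {d : ℕ} (k : ℕ) (M : Matrix (Fin d) (Fin d) ℝ) (h : ∀ i j, |M i j| ≤ 1) :
    mn k M ≤ NN d k := by
  have := sum_const_bound (d := d) (k := k) (fun f g => |(M.submatrix f g).det|) 1 (fun f g => by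
    rw [mul_one]
    exact abs_det_le _ fun i j => h _ _)
  rw [mul_one] at this
  exact this

lemma mt_iso_le {d : ℕ} (U : EN d ≃ₗᵢ[ℝ] EN d) (i j : Fin d) : |mt (isoL U) i j| ≤ 1 := by
  have h1 : mt (isoL U) i j = (U (EuclideanSpace.single j (1 : ℝ))) i := rfl
  have h2 : ‖U (EuclideanSpace.single j (1 : ℝ))‖ = 1 := by
    rw [U.norm_map]; simp
  have h3 := PiLp.norm_apply_le (U (EuclideanSpace.single j (1 : ℝ))) i
  rw [h2, Real.norm_eq_abs] at h3
  rw [h1]
  exact h3

lemma mt_diag {d : ℕ} (s : Fin d → ℝ) : mt (diagL s) = Matrix.diagonal s := by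
  ext i j
  simp only [mt, diagL, Matrix.of_apply]
  simp [Matrix.toEuclideanLin, Matrix.diagonal_apply, Matrix.mulVec_diagonal, Pi.single_apply]

/-- the product of the `k` largest entries -/
lemma prod_le {d k : ℕ} (hk : k ≤ d) (s : Fin d → ℝ) (hs : Antitone s) (hp : ∀ i, 0 < s i)
    (f : Fin k → Fin d) (hf : Function.Injective f) :
    ∏ i, s (f i) ≤ ∏ i : Fin k, s (Fin.castLE hk i) := by
  classical
  set T : Finset (Fin d) := Finset.univ.image f with hT
  have hc : T.card = k := by
    rw [hT, Finset.card_image_of_injective _ hf, Finset.card_univ, Fintype.card_fin]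
  have h1 : ∏ i, s (f i) = ∏ j ∈ T, s j := by
    rw [hT, Finset.prod_image fun a _ b _ h => hf h]
  have h2 : ∏ j ∈ T, s j = ∏ i, s (T.orderEmbOfFin hc i) := by
    conv_lhs => rw [← T.image_orderEmbOfFin_univ hc]
    rw [Finset.prod_image fun a _ b _ h => (T.orderEmbOfFin hc).injective h]
  rw [h1, h2]
  refine Finset.prod_le_prod (fun i _ => (hp _).le) fun i _ => hs ?_
  have h3 : ∀ (m : ℕ) (hm : m < k), m ≤ ((T.orderEmbOfFin hc ⟨m, hm⟩ : Fin d) : ℕ) := by
    intro m
    induction m with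
    | zero => intro _; exact Nat.zero_le _
    | succ m ih =>
      intro hm
      have h4 := ih (by omega)
      have h5 : T.orderEmbOfFin hc ⟨m, by omega⟩ < T.orderEmbOfFin hc ⟨m + 1, hm⟩ :=
        (T.orderEmbOfFin hc).strictMono (by simp [Fin.lt_def])
      have h6 : ((T.orderEmbOfFin hc ⟨m, by omega⟩ : Fin d) : ℕ) <
          ((T.orderEmbOfFin hc ⟨m + 1, hm⟩ : Fin d) : ℕ) := h5
      omega
  exact h3 i i.2

lemma prod_filter {d k : ℕ} (hk : k ≤ d) (s : Fin d → ℝ) :
    ∏ j ∈ Finset.univ.filter (fun j : Fin d => (j : ℕ) < k), s j =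
      ∏ i : Fin k, s (Fin.castLE hk i) := by
  classical
  have h1 : Finset.univ.filter (fun j : Fin d => (j : ℕ) < k) =
      Finset.univ.image (Fin.castLE hk) := by
    ext j
    simp only [Finset.mem_filter, Finset.mem_univ, true_and, Finset.mem_image]
    constructor
    · intro h
      exact ⟨⟨j, h⟩, by ext; simp⟩
    · rintro ⟨i, rfl⟩
      simp
  rw [h1, Finset.prod_image fun a _ b _ h => Fin.castLE_injective hk h]

lemma det_diag_sub {d k : ℕ} (s : Fin d → ℝ) (f g : Fin k → Fin d) :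
    ((Matrix.diagonal s).submatrix f g).det =
      (∏ i, s (f i)) * (((1 : Matrix (Fin d) (Fin d) ℝ)).submatrix f g).det := by
  rw [← Matrix.det_mul_column]
  congr 1
  ext i j
  simp only [Matrix.submatrix_apply, Matrix.of_apply, Matrix.diagonal_apply, Matrix.one_apply]
  split_ifs with h <;> simp

lemma mn_diag_le {d k : ℕ} (hk : k ≤ d) (s : Fin d → ℝ) (hs : Antitone s) (hp : ∀ i, 0 < s i) :
    mn k (Matrix.diagonal s) ≤ NN d k * ∏ i : Fin k, s (Fin.castLE hk i) := by
  refine sum_const_bound _ _ fun f g => ?_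
  rw [det_diag_sub, abs_mul]
  have hpr : 0 < ∏ i : Fin k, s (Fin.castLE hk i) := Finset.prod_pos fun i _ => hp _
  by_cases hf : Function.Injective f
  · have h1 : |(((1 : Matrix (Fin d) (Fin d) ℝ)).submatrix f g).det| ≤ (k.factorial : ℝ) :=
      abs_det_le _ fun i j => by
        simp only [Matrix.submatrix_apply, Matrix.one_apply]
        split_ifs <;> simp
    have h2 : |∏ i, s (f i)| ≤ ∏ i : Fin k, s (Fin.castLE hk i) := by
      rw [abs_of_pos (Finset.prod_pos fun i _ => hp _)]
      exact prod_le hk s hs hp f hf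
    calc |∏ i, s (f i)| * |(((1 : Matrix (Fin d) (Fin d) ℝ)).submatrix f g).det|
        ≤ (∏ i : Fin k, s (Fin.castLE hk i)) * (k.factorial : ℝ) :=
          mul_le_mul h2 h1 (abs_nonneg _) hpr.le
      _ = _ := mul_comm _ _
  · have h3 : (((1 : Matrix (Fin d) (Fin d) ℝ)).submatrix f g).det = 0 := by
      unfold Function.Injective at hf
      push Not at hf
      obtain ⟨a, b, hab, hne⟩ := hf
      refine Matrix.det_zero_of_row_eq hne ?_
      ext j
      show (1 : Matrix (Fin d) (Fin d) ℝ) (f a) (g j) = (1 : Matrix (Fin d) (Fin d) ℝ) (f b) (g j)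
      rw [hab]
    rw [h3]
    simp only [abs_zero, mul_zero]
    positivity

lemma le_mn_diag {d k : ℕ} (hk : k ≤ d) (s : Fin d → ℝ) (hp : ∀ i, 0 < s i) :
    ∏ i : Fin k, s (Fin.castLE hk i) ≤ mn k (Matrix.diagonal s) := by
  have h1 : |((Matrix.diagonal s).submatrix (Fin.castLE hk) (Fin.castLE hk)).det| ≤
      mn k (Matrix.diagonal s) := by
    have h2 : |((Matrix.diagonal s).submatrix (Fin.castLE hk) (Fin.castLE hk)).det| ≤
        ∑ g : Fin k → Fin d, |((Matrix.diagonal s).submatrix (Fin.castLE hk) g).det| :=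
      Finset.single_le_sum (f := fun g : Fin k → Fin d =>
        |((Matrix.diagonal s).submatrix (Fin.castLE hk) g).det|) (fun _ _ => abs_nonneg _)
        (Finset.mem_univ _)
    refine h2.trans ?_
    exact Finset.single_le_sum (f := fun f : Fin k → Fin d =>
      ∑ g : Fin k → Fin d, |((Matrix.diagonal s).submatrix f g).det|)
      (fun _ _ => Finset.sum_nonneg fun _ _ => abs_nonneg _) (Finset.mem_univ (Fin.castLE hk))
  refine le_trans (le_of_eq ?_) h1
  have h3 : (((1 : Matrix (Fin d) (Fin d) ℝ)).submatrix (Fin.castLE hk) (Fin.castLE hk)) = 1 := by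
    ext i j
    simp only [Matrix.submatrix_apply, Matrix.one_apply, (Fin.castLE_injective hk).eq_iff]
  rw [det_diag_sub, h3, Matrix.det_one, mul_one, abs_of_pos (Finset.prod_pos fun i _ => hp _)]

lemma continuous_mn {d : ℕ} (k : ℕ) : Continuous fun D : EN d →L[ℝ] EN d => mn k (mt D) := by
  unfold mn
  refine continuous_finsetSum _ fun f _ => continuous_finsetSum _ fun g _ => ?_
  refine Continuous.abs (Continuous.matrix_det ?_)
  refine continuous_matrix fun i j => ?_
  simp only [Matrix.submatrix_apply, mt, Matrix.of_apply]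
  have h1 : Continuous fun D : EN d →L[ℝ] EN d => D (EuclideanSpace.single (g j) (1 : ℝ)) :=
    (ContinuousLinearMap.apply ℝ (EN d) (EuclideanSpace.single (g j) (1 : ℝ))).continuous
  exact (EuclideanSpace.proj (𝕜 := ℝ) (f i)).continuous.comp h1

end VK

open VK in
/-- existence of the gauges -/
theorem p_VK : T_VK := by
  intro d
  set N : ℝ := 1 + ∑ k ∈ Finset.range (d + 1), NN d k with hN
  have hN1 : 1 ≤ N := by
    have : 0 ≤ ∑ k ∈ Finset.range (d + 1), NN d k := Finset.sum_nonneg fun k _ => NN_nonneg d k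
    linarith
  have hNk : ∀ k ≤ d, NN d k ≤ N := by
    intro k hk
    have h1 : NN d k ≤ ∑ k ∈ Finset.range (d + 1), NN d k :=
      Finset.single_le_sum (f := fun k => NN d k) (fun k _ => NN_nonneg d k)
        (Finset.mem_range.2 (Nat.lt_succ_of_le hk))
    linarith
  have hN0 : 0 ≤ N := by linarith
  refine ⟨fun k D => mn k (mt D), N ^ 3, one_le_pow₀ hN1, fun k => continuous_mn k,
    fun k D => mn_nonneg k _, ?_, ?_⟩
  · intro k A B
    show mn k (VK.mt (A.comp B)) ≤ N ^ 3 * mn k (VK.mt A) * mn k (VK.mt B)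
    rw [mt_comp]
    have h1 := mn_mul k (mt A) (mt B)
    have h2 : 0 ≤ mn k (mt A) * mn k (mt B) := mul_nonneg (mn_nonneg _ _) (mn_nonneg _ _)
    calc mn k (mt A * mt B) ≤ mn k (mt A) * mn k (mt B) := h1
      _ ≤ N ^ 3 * (mn k (mt A) * mn k (mt B)) := le_mul_of_one_le_left h2 (one_le_pow₀ hN1)
      _ = N ^ 3 * mn k (mt A) * mn k (mt B) := by ring
  · intro k hk U W s hs hp
    rw [prod_filter hk]
    show (N ^ 3)⁻¹ * ∏ i : Fin k, s (Fin.castLE hk i) ≤ mn k (VK.mt (usw U s W)) ∧
      mn k (VK.mt (usw U s W)) ≤ N ^ 3 * ∏ i : Fin k, s (Fin.castLE hk i)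
    set P : ℝ := ∏ i : Fin k, s (Fin.castLE hk i) with hP
    have hP0 : 0 < P := Finset.prod_pos fun i _ => hp _
    have hiso : ∀ U : EN d ≃ₗᵢ[ℝ] EN d, mn k (mt (isoL U)) ≤ N := fun U =>
      (mn_le k _ (mt_iso_le U)).trans (hNk k hk)
    have hup : ∀ (U W : EN d ≃ₗᵢ[ℝ] EN d) (D : EN d →L[ℝ] EN d),
        mn k (mt ((isoL U).comp (D.comp (isoL W)))) ≤ N ^ 2 * mn k (mt D) := by
      intro U W D
      rw [mt_comp, mt_comp]
      calc mn k (mt (isoL U) * (mt D * mt (isoL W)))
          ≤ mn k (mt (isoL U)) * mn k (mt D * mt (isoL W)) := mn_mul _ _ _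
        _ ≤ mn k (mt (isoL U)) * (mn k (mt D) * mn k (mt (isoL W))) :=
            mul_le_mul_of_nonneg_left (mn_mul _ _ _) (mn_nonneg _ _)
        _ ≤ N * (mn k (mt D) * N) := by
            refine mul_le_mul (hiso U) ?_ (mul_nonneg (mn_nonneg _ _) (mn_nonneg _ _)) hN0
            exact mul_le_mul_of_nonneg_left (hiso W) (mn_nonneg _ _)
        _ = N ^ 2 * mn k (mt D) := by ring
    have hd1 : mn k (mt (diagL s)) ≤ N * P := by
      rw [mt_diag]
      exact (mn_diag_le hk s hs hp).trans (mul_le_mul_of_nonneg_right (hNk k hk) hP0.le)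
    have hd2 : P ≤ mn k (mt (diagL s)) := by
      rw [mt_diag]
      exact le_mn_diag hk s hp
    have hback : (isoL U.symm).comp ((usw U s W).comp (isoL W.symm)) = diagL s := by
      ext x
      simp [usw, isoL]
    constructor
    · have h1 := hup U.symm W.symm (usw U s W)
      rw [hback] at h1
      have h2 : P ≤ N ^ 3 * mn k (mt (usw U s W)) := by
        calc P ≤ mn k (mt (diagL s)) := hd2
          _ ≤ N ^ 2 * mn k (mt (usw U s W)) := h1
          _ ≤ N ^ 3 * mn k (mt (usw U s W)) :=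
            mul_le_mul_of_nonneg_right (pow_le_pow_right₀ hN1 (by norm_num)) (mn_nonneg _ _)
      rw [inv_mul_le_iff₀ (by positivity)]
      exact h2
    · calc mn k (mt (usw U s W)) ≤ N ^ 2 * mn k (mt (diagL s)) := hup U W (diagL s)
        _ ≤ N ^ 2 * (N * P) := mul_le_mul_of_nonneg_left hd1 (by positivity)
        _ = N ^ 3 * P := by ring

end Pool.Agent.SobEnt
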