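import Pool.Agent.SobEnt.Targets

/-!
# VORO: partitions into small cells
-/

open MeasureTheory Filter Topology Set
open scoped ENNReal NNReal

universe u

namespace Pool.Agent.SobEnt

namespace VORO

/-- Disjoint small balls around separated points: their number is bounded by the volume. -/
theorem count {X : Type u} [MetricSpace X] [MeasurableSpace X] [BorelSpace X] (lam : Measure X)
    [IsFiniteMeasure lam] {ι : Type*} (A : Finset ι) (p : ι → X) (ρ : ℝ)
    (hsep : ∀ i ∈ A, ∀ j ∈ A, i ≠ j → 2 * ρ ≤ dist (p i) (p j)) (U : Set X)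
    (hU : ∀ i ∈ A, Metric.ball (p i) ρ ⊆ U) (c : ℝ)
    (hc : ∀ i ∈ A, c ≤ lam.real (Metric.ball (p i) ρ)) : (A.card : ℝ) * c ≤ lam.real U := by
  have h1 : (A.card : ℝ) * c ≤ ∑ i ∈ A, lam.real (Metric.ball (p i) ρ) := by
    rw [← nsmul_eq_mul]
    exact Finset.card_nsmul_le_sum _ _ _ hc
  have hd : (A : Set ι).PairwiseDisjoint (fun i => Metric.ball (p i) ρ) := by
    intro i hi j hj hij
    exact Metric.ball_disjoint_ball (by linarith [hsep i hi j hj hij])
  rw [← measureReal_biUnion_finset hd (fun i _ => measurableSet_ball)] at h1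
  refine h1.trans (measureReal_mono ?_)
  exact iUnion₂_subset hU

end VORO

open VORO in
theorem p_VORO : T_VORO.{u} := by
  intro X _ _ _ _ lam _ d C r₀ hr₀ hC hA
  have hC0 : 0 < C := by linarith
  set m : ℝ := min (1 / 2) r₀ with hm
  have hm0 : 0 < m := lt_min (by norm_num) hr₀
  set Λ : ℝ := lam.real univ with hΛ
  have hΛ0 : 0 ≤ Λ := measureReal_nonneg
  -- the radius of the small balls
  have hρ : ∀ r : ℝ, 0 < r → r ≤ 1 → 0 < m * r ∧ m * r ≤ r₀ ∧ 2 * (m * r) ≤ r := by
    intro r hr hr1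
    refine ⟨mul_pos hm0 hr, ?_, ?_⟩
    · have h1 : m ≤ r₀ := min_le_right _ _
      nlinarith
    · have h1 : m ≤ 1 / 2 := min_le_left _ _
      nlinarith
  refine ⟨1 + C ^ 2 * (3 / m) ^ d + C * Λ * (3 / (r₀ * m)) ^ d, ?_, ?_⟩
  · have h1 : 0 ≤ C ^ 2 * (3 / m) ^ d := by positivity
    have h2 : 0 ≤ C * Λ * (3 / (r₀ * m)) ^ d := by positivity
    linarith
  intro r hr hr1
  obtain ⟨hρ0, hρr₀, hρr⟩ := hρ r hr hr1
  have hball : ∀ x : X, C⁻¹ * (m * r) ^ d ≤ lam.real (Metric.ball x (m * r)) :=
    fun x => (hA x (m * r) hρ0 hρr₀).1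
  have hc0 : 0 < C⁻¹ * (m * r) ^ d := by positivity
  -- a maximal separated set
  obtain ⟨F, hF, hFmax⟩ : ∃ F : Finset X, (∀ x ∈ F, ∀ y ∈ F, x ≠ y → r ≤ dist x y) ∧
      ∀ x : X, ∃ y ∈ F, dist x y ≤ r := by
    have hbdd : ∀ F : Finset X, (∀ x ∈ F, ∀ y ∈ F, x ≠ y → r ≤ dist x y) →
        F.card ≤ ⌊Λ / (C⁻¹ * (m * r) ^ d)⌋₊ := by
      intro F hF
      have h1 := count lam F (fun x => x) (m * r)
        (fun i hi j hj hij => hρr.trans (hF i hi j hj hij)) univ (fun _ _ => subset_univ _)
        (C⁻¹ * (m * r) ^ d) (fun i _ => hball i)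
      apply Nat.le_floor
      rw [le_div_iff₀ hc0]
      exact h1
    set Q : ℕ → Prop := fun n => ∃ F : Finset X, (∀ x ∈ F, ∀ y ∈ F, x ≠ y → r ≤ dist x y) ∧
      F.card = n with hQ
    classical
    have hQ0 : Q 0 := ⟨∅, by simp, by simp⟩
    obtain ⟨F, hF, hFc⟩ := Nat.findGreatest_spec (P := Q) (Nat.zero_le
      ⌊Λ / (C⁻¹ * (m * r) ^ d)⌋₊) hQ0
    refine ⟨F, hF, fun x => ?_⟩
    by_contra hx
    push Not at hx
    have hxF : x ∉ F := by
      intro hxF
      have := hx x hxF
      rw [dist_self] at this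
      linarith
    have hF' : ∀ y ∈ insert x F, ∀ z ∈ insert x F, y ≠ z → r ≤ dist y z := by
      intro y hy z hz hyz
      rcases Finset.mem_insert.1 hy with hy1 | hy1
      · rcases Finset.mem_insert.1 hz with hz1 | hz1
        · exact absurd (hy1.trans hz1.symm) hyz
        · rw [hy1]
          exact (hx z hz1).le
      · rcases Finset.mem_insert.1 hz with hz1 | hz1
        · rw [hz1, dist_comm]
          exact (hx y hy1).le
        · exact hF y hy1 z hz1 hyz
    have h1 := Nat.le_findGreatest (P := Q) (hbdd _ hF') ⟨insert x F, hF', rfl⟩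
    rw [Finset.card_insert_of_notMem hxF, hFc] at h1
    omega
  -- the cells
  set k : ℕ := F.card with hk
  set c : Fin k → X := fun i => (F.equivFin.symm i : X) with hc
  have hcF : ∀ i, c i ∈ F := fun i => (F.equivFin.symm i).2
  have hcinj : ∀ i j, i ≠ j → c i ≠ c j := by
    intro i j hij h
    exact hij (F.equivFin.symm.injective (Subtype.ext h))
  have hex : ∀ x : X, ∃ i : Fin k, dist x (c i) ≤ r ∧ ∀ j < i, ¬ dist x (c j) ≤ r := by
    intro x
    obtain ⟨y, hy, hxy⟩ := hFmax x
    have hne : {i : Fin k | dist x (c i) ≤ r}.Nonempty := by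
      refine ⟨F.equivFin ⟨y, hy⟩, ?_⟩
      show dist x (c _) ≤ r
      simpa [hc] using hxy
    obtain ⟨i, hi, hmin⟩ := WellFounded.has_min (wellFounded_lt : WellFounded
      (fun a b : Fin k => a < b)) _ hne
    exact ⟨i, hi, fun j hj hj' => hmin j hj' hj⟩
  choose P hP1 hP2 using hex
  have hPiff : ∀ x i, P x = i ↔ dist x (c i) ≤ r ∧ ∀ j < i, ¬ dist x (c j) ≤ r := by
    intro x i
    constructor
    · rintro rfl
      exact ⟨hP1 x, hP2 x⟩
    · rintro ⟨h1, h2⟩
      rcases lt_trichotomy (P x) i with h | h | h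
      · exact absurd (hP1 x) (h2 _ h)
      · exact h
      · exact absurd h1 (hP2 x _ h)
  refine ⟨k, P, ?_, ?_, ?_⟩
  · apply measurable_to_countable'
    intro i
    have : P ⁻¹' {i} = Metric.closedBall (c i) r ∩ ⋂ j : {j : Fin k // j < i},
        (Metric.closedBall (c j) r)ᶜ := by
      ext x
      simp only [mem_preimage, mem_singleton_iff, hPiff, mem_inter_iff, Metric.mem_closedBall,
        mem_iInter, mem_compl_iff, Subtype.forall]
    rw [this]
    exact measurableSet_closedBall.inter (MeasurableSet.iInter fun j =>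
      measurableSet_closedBall.compl)
  · intro x y hxy
    have h1 := hP1 x
    have h2 := hP1 y
    rw [← hxy] at h2
    calc dist x y ≤ dist x (c (P x)) + dist (c (P x)) y := dist_triangle _ _ _
      _ = dist x (c (P x)) + dist y (c (P x)) := by rw [dist_comm y]
      _ ≤ 2 * r := by linarith
  · intro x s hs
    have hs0 : 0 < s := by linarith
    set A : Finset (Fin k) := Finset.univ.filter (fun a => dist x (c a) ≤ s + r) with hAdef
    have hsub : ({a | ∃ y, dist x y ≤ s ∧ P y = a} : Set (Fin k)) ⊆ (A : Set (Fin k)) := by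
      rintro a ⟨y, hy, rfl⟩
      simp only [hAdef, Finset.coe_filter, Finset.mem_univ, true_and, Set.mem_ofPred_eq]
      calc dist x (c (P y)) ≤ dist x y + dist y (c (P y)) := dist_triangle _ _ _
        _ ≤ s + r := add_le_add hy (hP1 y)
    have hcard : ((({a | ∃ y, dist x y ≤ s ∧ P y = a} : Set (Fin k)).ncard : ℕ) : ℝ) ≤ A.card := by
      have := Set.ncard_le_ncard hsub (Finset.finite_toSet A)
      rw [Set.ncard_coe_finset] at this
      exact_mod_cast this
    refine hcard.trans ?_
    have hcount := count lam A c (m * r) (fun i _ j _ hij => hρr.trans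
      (hF _ (hcF i) _ (hcF j) (hcinj i j hij))) (Metric.ball x (3 * s)) (by
        intro i hi
        simp only [hAdef, Finset.mem_filter, Finset.mem_univ, true_and] at hi
        apply Metric.ball_subset_ball'
        rw [dist_comm]
        linarith) (C⁻¹ * (m * r) ^ d) (fun i _ => hball _)
    have hsr : 0 < (s / r) ^ d := by positivity
    have hkey : (A.card : ℝ) ≤ C * lam.real (Metric.ball x (3 * s)) / (m * r) ^ d := by
      rw [le_div_iff₀ (by positivity)]
      have h2 : C * ((A.card : ℝ) * (C⁻¹ * (m * r) ^ d)) ≤ C * lam.real (Metric.ball x (3 * s)) :=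
        mul_le_mul_of_nonneg_left hcount hC0.le
      have h3 : C * ((A.card : ℝ) * (C⁻¹ * (m * r) ^ d)) = A.card * (m * r) ^ d := by
        field_simp
      linarith
    have hx1 : 0 ≤ C ^ 2 * (3 / m) ^ d := by positivity
    have hx2 : 0 ≤ C * Λ * (3 / (r₀ * m)) ^ d := by positivity
    by_cases h3 : 3 * s ≤ r₀
    · have h4 := (hA x (3 * s) (by positivity) h3).2
      calc (A.card : ℝ) ≤ C * lam.real (Metric.ball x (3 * s)) / (m * r) ^ d := hkey
        _ ≤ C * (C * (3 * s) ^ d) / (m * r) ^ d := by gcongr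
        _ = C ^ 2 * (3 / m) ^ d * (s / r) ^ d := by
          rw [div_pow, div_pow, mul_pow, mul_pow]
          field_simp
        _ ≤ _ := by
          apply mul_le_mul_of_nonneg_right _ hsr.le
          linarith
    · push Not at h3
      have h4 : lam.real (Metric.ball x (3 * s)) ≤ Λ * (3 * s / r₀) ^ d := by
        have h5 : lam.real (Metric.ball x (3 * s)) ≤ Λ := measureReal_mono (subset_univ _)
        have h6 : 1 ≤ (3 * s / r₀) ^ d := by
          apply one_le_pow₀
          rw [le_div_iff₀ hr₀]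
          linarith
        nlinarith
      calc (A.card : ℝ) ≤ C * lam.real (Metric.ball x (3 * s)) / (m * r) ^ d := hkey
        _ ≤ C * (Λ * (3 * s / r₀) ^ d) / (m * r) ^ d := by gcongr
        _ = C * Λ * (3 / (r₀ * m)) ^ d * (s / r) ^ d := by
          rw [div_pow, div_pow, div_pow, mul_pow, mul_pow, mul_pow]
          field_simp
        _ ≤ _ := by
          apply mul_le_mul_of_nonneg_right _ hsr.le
          linarith

end Pool.Agent.SobEnt
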