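import Mathlib

/-!
# Zero metric entropy is generic among Sobolev conservative homeomorphisms (MP_07df6b_an)

Definitions used in the final statement.
-/

open MeasureTheory Filter Topology Set Bundle
open scoped ENNReal NNReal Manifold ContDiff

namespace Pool.Agent.SobEnt

noncomputable section

/-! ### Kolmogorov–Sinai entropy -/

section Entropy

variable {X : Type*} [MeasurableSpace X]

/-- The entropy `-∑ μ(P = a) log μ(P = a)` of the finite partition of `X` into the fibres of
`P`. -/
def Hp (μ : Measure X) {α : Type*} [Fintype α] (P : X → α) : ℝ :=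
  ∑ a, Real.negMulLog (μ.real (P ⁻¹' {a}))

/-- The `n`-th join `x ↦ (P x, P (T x), …, P (T^(n-1) x))`. -/
def itin (T : X → X) {α : Type*} (P : X → α) (n : ℕ) : X → (Fin n → α) :=
  fun x i => P (T^[i] x)

/-- The entropy of `T` with respect to the finite partition `P`: the limit (superior) of
`H(P ∨ T⁻¹P ∨ … ∨ T^(-(n-1))P) / n`. -/
def hPart (μ : Measure X) (T : X → X) {α : Type*} [Fintype α] (P : X → α) : ℝ≥0∞ :=
  limsup (fun n : ℕ => ENNReal.ofReal (Hp μ (itin T P n) / n)) atTop

/-- The Kolmogorov–Sinai entropy: the supremum over all finite measurable partitions. -/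
def ksEntropy (μ : Measure X) (T : X → X) : ℝ≥0∞ :=
  ⨆ (k : ℕ) (P : X → Fin k) (_ : Measurable P), hPart μ T P

/-- The normalisation of a finite measure to a probability measure. -/
def nrm (lam : Measure X) : Measure X := (lam univ)⁻¹ • lam

end Entropy

/-! ### Riemannian volume and the Sobolev class -/

section Manifold

variable (E : Type*) [NormedAddCommGroup E] [InnerProductSpace ℝ E]
  {X : Type*} [TopologicalSpace X] [ChartedSpace E X]

/-- The derivative of a map `h : X → F` at `x`, as a linear map on `E = T_x X` (zero if `h` is not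
differentiable at `x`). -/
def dX {F : Type*} [NormedAddCommGroup F] [InnerProductSpace ℝ F] (h : X → F) (x : X) :
    E →L[ℝ] F :=
  mfderiv 𝓘(ℝ, E) 𝓘(ℝ, F) h x

/-- The Riemannian inner product of two tangent vectors at `x`. -/
def innerAt [RiemannianBundle (fun x : X => TangentSpace 𝓘(ℝ, E) x)] (x : X)
    (v w : TangentSpace 𝓘(ℝ, E) x) : ℝ :=
  inner ℝ v w

/-- The derivative of the inverse of the chart at `x₀`, at the point with coordinates `y`: it maps
`v` to the tangent vector with coordinates `v`. -/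
def dSymm (x₀ : X) (y : E) : E →L[ℝ] TangentSpace 𝓘(ℝ, E) ((chartAt E x₀).symm y) :=
  mfderiv 𝓘(ℝ, E) 𝓘(ℝ, E) (chartAt E x₀).symm y

/-- The determinant `det (g_ij)` of the metric in the chart at `x₀`, at the point with
coordinates `y` (with respect to an orthonormal basis of the model space). -/
def gramDet [FiniteDimensional ℝ E] [RiemannianBundle (fun x : X => TangentSpace 𝓘(ℝ, E) x)]
    (x₀ : X) (y : E) : ℝ :=
  Matrix.det (Matrix.of fun i j =>
    innerAt E ((chartAt E x₀).symm y) (dSymm E x₀ y (stdOrthonormalBasis ℝ E i))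
      (dSymm E x₀ y (stdOrthonormalBasis ℝ E j)))

/-- `lam` is the Riemannian volume: in every chart it has density `√(det g_ij)`. -/
def IsRiemannianVolume [FiniteDimensional ℝ E] [MeasurableSpace E] [BorelSpace E]
    [RiemannianBundle (fun x : X => TangentSpace 𝓘(ℝ, E) x)]
    [MeasurableSpace X] (lam : Measure X) : Prop :=
  ∀ (x₀ : X) (s : Set X), MeasurableSet s → s ⊆ (chartAt E x₀).source →
    lam s = ∫⁻ y in (chartAt E x₀) '' s, ENNReal.ofReal (Real.sqrt (gramDet E x₀ y))

/-- `G` is the derivative of `f : X → X` in ambient coordinates, for a smooth embedding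
`ι : X → F`: the linear map `G x : F → F` extends `Dι(x) v ↦ D(ι ∘ f)(x) v` by zero on the
orthogonal complement of the tangent space `Dι(x)(T_x X)`. -/
def IsAmbDer {F : Type*} [NormedAddCommGroup F] [InnerProductSpace ℝ F]
    (ι : X → F) (f : X → X) (G : X → F →L[ℝ] F) : Prop :=
  ∀ x, (∀ v : E, G x (dX E ι x v) = dX E (ι ∘ f) x v) ∧
    ∀ w : F, (∀ v : E, inner ℝ w (dX E ι x v) = (0 : ℝ)) → G x w = 0

end Manifold

/-- The topology in which a set is open if with every point `u` it contains a ball
`{v | D u v < ε}`. -/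
@[reducible] def ballTopology {Y : Type*} (D : Y → Y → ℝ≥0∞) : TopologicalSpace Y where
  IsOpen U := ∀ u ∈ U, ∃ ε > 0, ∀ v : Y, D u v < ε → v ∈ U
  isOpen_univ := fun _ _ => ⟨1, one_pos, fun _ _ => mem_univ _⟩
  isOpen_inter := fun U V hU hV u hu => by
    obtain ⟨a, ha, ha'⟩ := hU u hu.1
    obtain ⟨b, hb, hb'⟩ := hV u hu.2
    exact ⟨min a b, lt_min ha hb, fun v hv =>
      ⟨ha' v (hv.trans_le (min_le_left _ _)), hb' v (hv.trans_le (min_le_right _ _))⟩⟩
  isOpen_sUnion := fun S hS u hu => by
    obtain ⟨U, hU, hu⟩ := hu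
    obtain ⟨a, ha, ha'⟩ := hS U hU u hu
    exact ⟨a, ha, fun v hv => ⟨U, hU, ha' v hv⟩⟩

section Sobolev

variable {X : Type*} [MetricSpace X] [MeasurableSpace X]

/-- `f` is a conservative Lipschitz homeomorphism. -/
def IsLipCons (lam : Measure X) (f : X ≃ₜ X) : Prop :=
  (∃ K : ℝ≥0, LipschitzWith K f) ∧ MeasurePreserving f lam lam

variable {F : Type*} [NormedAddCommGroup F] [InnerProductSpace ℝ F]

/-- Distance of the pairs `(f, G)` and `(f', G')`: the maximum of the uniform distance of `f` and
`f'` and of `∫ ‖G - G'‖^p`. -/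
def sobDist (lam : Measure X) (p : ℝ) (f : X ≃ₜ X) (G : X → F →L[ℝ] F)
    (f' : X ≃ₜ X) (G' : X → F →L[ℝ] F) : ℝ≥0∞ :=
  max (⨆ x, edist (f x) (f' x)) (∫⁻ x, ‖G x - G' x‖ₑ ^ p ∂lam)

/-- The space `M^p_lam(X)`: pairs `(f, G)`, where `f` is a homeomorphism of `X` and `G` is a
matrix-valued measurable function (up to null sets), which are limits of pairs
`(g, Dg)` with `g` a conservative Lipschitz homeomorphism. -/
def SobClass (E : Type*) [NormedAddCommGroup E] [InnerProductSpace ℝ E] [ChartedSpace E X]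
    (lam : Measure X) (p : ℝ) (ι : X → F) : Type _ :=
  {u : (X ≃ₜ X) × (X →ₘ[lam] (F →L[ℝ] F)) //
    ∀ ε > 0, ∃ (g : X ≃ₜ X) (G : X → F →L[ℝ] F), IsLipCons lam g ∧ IsAmbDer E ι g G ∧
      sobDist lam p u.1 u.2 g G < ε}

/-- The topology of `M^p_lam(X)`: a set is open if with every point it contains a ball for
`sobDist`. -/
instance (E : Type*) [NormedAddCommGroup E] [InnerProductSpace ℝ E] [ChartedSpace E X]
    (lam : Measure X) (p : ℝ) (ι : X → F) : TopologicalSpace (SobClass E lam p ι) :=
  ballTopology fun u v => sobDist lam p u.1.1 u.1.2 v.1.1 v.1.2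

end Sobolev

end

end Pool.Agent.SobEnt
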