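import Pool.Agent.SobEnt.Targets2

/-!
# The final theorem from the targets (MP_07df6b_an)
-/

open MeasureTheory Filter Topology Set Bundle
open scoped ENNReal NNReal Manifold ContDiff BoundedContinuousFunction

universe u v w

namespace Pool.Agent.SobEnt

namespace FINAL

theorem add_rpow_le (p : ℝ) (hp : 0 < p) (a b : ℝ≥0∞) :
    (a + b) ^ p ≤ 2 ^ p * (a ^ p + b ^ p) := by
  have h1 : a + b ≤ 2 * max a b := by
    rw [two_mul]; exact add_le_add (le_max_left _ _) (le_max_right _ _)
  calc (a + b) ^ p ≤ (2 * max a b) ^ p := ENNReal.rpow_le_rpow h1 hp.le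
    _ = 2 ^ p * (max a b) ^ p := ENNReal.mul_rpow_of_nonneg _ _ hp.le
    _ ≤ 2 ^ p * (a ^ p + b ^ p) := by
        gcongr
        rcases le_total a b with h | h
        · rw [max_eq_right h]; exact le_add_self
        · rw [max_eq_left h]; exact le_self_add

theorem enorm0 {F : Type w} [NormedAddCommGroup F] [InnerProductSpace ℝ F] :
    ‖(0 : F →L[ℝ] F)‖ₑ = 0 := by
  rw [← ofReal_norm, norm_zero, ENNReal.ofReal_zero]

/-- uniform limits of measure preserving maps are measure preserving -/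
theorem mp_of_limit {X : Type u} [MetricSpace X] [CompactSpace X] [MeasurableSpace X]
    [BorelSpace X] {lam : Measure X} [IsFiniteMeasure lam] (f : X → X) (hf : Continuous f)
    (h : ∀ ε : ℝ≥0∞, 0 < ε → ∃ g : X → X, MeasurePreserving g lam lam ∧
      ∀ x, edist (f x) (g x) ≤ ε) : MeasurePreserving f lam lam := by
  refine ⟨hf.measurable, ?_⟩
  have hε : ∀ n : ℕ, (0 : ℝ≥0∞) < ((n : ℝ≥0∞) + 1)⁻¹ := fun n =>
    ENNReal.inv_pos.2 (by finiteness)
  choose g hg hgd using fun n : ℕ => h _ (hε n)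
  have : IsFiniteMeasure (Measure.map f lam) := inferInstance
  refine ext_of_forall_integral_eq_of_IsFiniteMeasure fun ψ => ?_
  rw [integral_map hf.measurable.aemeasurable ψ.continuous.aestronglyMeasurable]
  have hlim : Tendsto (fun n => ∫ x, ψ (g n x) ∂lam) atTop (𝓝 (∫ x, ψ (f x) ∂lam)) := by
    refine tendsto_integral_of_dominated_convergence (fun _ => ‖ψ‖) ?_ ?_ ?_ ?_
    · intro n
      exact (ψ.continuous.measurable.comp (hg n).measurable).aestronglyMeasurable
    · exact integrable_const _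
    · intro n
      exact Eventually.of_forall fun x => ψ.norm_coe_le_norm _
    · refine Eventually.of_forall fun x => ?_
      refine (ψ.continuous.tendsto _).comp ?_
      rw [tendsto_iff_edist_tendsto_0]
      have h0 : Tendsto (fun n : ℕ => ((n : ℝ≥0∞) + 1)⁻¹) atTop (𝓝 0) := by
        have := ENNReal.tendsto_inv_nat_nhds_zero.comp (tendsto_add_atTop_nat 1)
        refine this.congr fun n => ?_
        simp
      refine tendsto_of_tendsto_of_tendsto_of_le_of_le tendsto_const_nhds h0
        (fun n => zero_le) (fun n => ?_)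
      simp only
      rw [edist_comm]
      exact hgd n x
  have hconst : ∀ n, ∫ x, ψ (g n x) ∂lam = ∫ x, ψ x ∂lam := by
    intro n
    have h1 := integral_map (μ := lam) (hg n).measurable.aemeasurable
      (f := fun x => ψ x) ψ.continuous.aestronglyMeasurable
    rw [(hg n).map_eq] at h1
    exact h1.symm
  simp_rw [hconst] at hlim
  exact tendsto_nhds_unique hlim tendsto_const_nhds ▸ rfl

variable {E : Type v} [NormedAddCommGroup E] [InnerProductSpace ℝ E]
  {X : Type u} [MetricSpace X] [CompactSpace X] [ChartedSpace E X] [MeasurableSpace X]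
  [BorelSpace X] {F : Type w} [NormedAddCommGroup F] [InnerProductSpace ℝ F]

/-- the homeomorphism underlying an element of the Sobolev class preserves the volume -/
theorem mp_of_mem {lam : Measure X} [IsFiniteMeasure lam] {p : ℝ} {ι : X → F}
    (u : SobClass E lam p ι) : MeasurePreserving u.1.1 lam lam := by
  refine mp_of_limit _ u.1.1.continuous fun ε hε => ?_
  obtain ⟨g, G, hg, -, hd⟩ := u.2 ε hε
  refine ⟨g, hg.2, fun x => ?_⟩
  exact ((le_iSup (fun x => edist (u.1.1 x) (g x)) x).trans (le_max_left _ _)).trans hd.le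

omit [CompactSpace X] [BorelSpace X] in
theorem edist_le_sobDist {lam : Measure X} {p : ℝ} (f : X ≃ₜ X) (G : X → F →L[ℝ] F)
    (f' : X ≃ₜ X) (G' : X → F →L[ℝ] F) (x : X) : edist (f x) (f' x) ≤ sobDist lam p f G f' G' :=
  (le_iSup (fun x => edist (f x) (f' x)) x).trans (le_max_left _ _)

end FINAL

open FINAL in
theorem p_FINAL (hME : T_MESH.{u}) (hSU : T_SUB.{u}) (hGE : T_GEN.{u}) (hCO : T_CONT.{u})
    (hMA : T_MAIN.{u}) (hVB : T_VBAS.{u}) {E : Type v} [NormedAddCommGroup E]
    [InnerProductSpace ℝ E] [FiniteDimensional ℝ E] (hE : 2 ≤ Module.finrank ℝ E)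
    {X : Type u} [MetricSpace X] [CompactSpace X] [Nonempty X]
    [ChartedSpace E X] [MeasurableSpace X] [BorelSpace X]
    (lam : Measure X) (V : VAtlas X lam (Module.finrank ℝ E))
    {F : Type w} [NormedAddCommGroup F] [InnerProductSpace ℝ F] [FiniteDimensional ℝ F]
    (ι : X → F)
    (hAMBU : ∀ (g g' : X → X) (G G' : X → F →L[ℝ] F) (x : X), IsAmbDer E ι g G →
      IsAmbDer E ι g' G' → (∀ᶠ y in 𝓝 x, g y = g' y) → G x = G' x)
    (hAMB : ∃ C : ℝ, ∀ (g : X → X) (K : ℝ≥0), LipschitzWith K g →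
      ∃ G : X → F →L[ℝ] F, Measurable G ∧ (∀ x, ‖G x‖ ≤ C * K) ∧ IsAmbDer E ι g G)
    (p : ℝ) (hp : 0 < p) :
    {u : SobClass E lam p ι | ksEntropy (nrm lam) u.1.1 = 0} ∈ residual (SobClass E lam p ι) := by
  classical
  obtain ⟨hfin, hpos, -⟩ := hVB X lam _ V (by omega)
  have hpos := hpos inferInstance
  have : IsFiniteMeasure lam := ⟨hfin⟩
  have hprob : IsProbabilityMeasure (nrm lam) := by
    refine ⟨?_⟩
    simp only [nrm, Measure.smul_apply, smul_eq_mul]
    exact ENNReal.inv_mul_cancel hpos.ne' hfin.ne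
  have hnrm : ∀ {g : X → X}, MeasurePreserving g lam lam →
      MeasurePreserving g (nrm lam) (nrm lam) := fun hg => hg.smul_measure _
  obtain ⟨κ, P, hPm, hPmesh⟩ := hME X
  obtain ⟨C, hAMB⟩ := hAMB
  set O : ℕ × ℕ → Set (SobClass E lam p ι) := fun q => {u | ∃ n : ℕ, 1 ≤ n ∧
    Hp (nrm lam) (itin u.1.1 (P q.1) n) / n < 1 / ((q.2 : ℝ) + 1)} with hO
  rw [mem_residual_iff]
  refine ⟨range O, ?_, ?_, countable_range O, ?_⟩
  · -- open
    rintro _ ⟨q, rfl⟩
    intro u hu
    obtain ⟨n, hn, hu⟩ := hu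
    have hn0 : (0 : ℝ) < n := by exact_mod_cast hn
    rw [div_lt_iff₀ hn0] at hu
    obtain ⟨δ, hδ, hδ'⟩ := hCO X (nrm lam) u.1.1 u.1.1.continuous (hnrm (mp_of_mem u)) _ (P q.1)
      (hPm q.1) n (1 / ((q.2 : ℝ) + 1) * n - Hp (nrm lam) (itin u.1.1 (P q.1) n)) (by linarith)
    refine ⟨ENNReal.ofReal δ, ENNReal.ofReal_pos.2 hδ, fun v hv => ⟨n, hn, ?_⟩⟩
    have h1 := hδ' v.1.1 (hnrm (mp_of_mem v)) (fun x => by
      have h2 := (edist_le_sobDist (lam := lam) (p := p) u.1.1 u.1.2 v.1.1 v.1.2 x).trans_lt hv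
      rw [edist_dist, ENNReal.ofReal_lt_ofReal_iff hδ] at h2
      rwa [dist_comm])
    rw [div_lt_iff₀ hn0]
    have := (abs_lt.1 h1).2
    linarith
  · -- dense
    rintro _ ⟨q, rfl⟩
    rw [dense_iff_inter_open]
    rintro U hU ⟨u, hu⟩
    obtain ⟨ε, hε, hεU⟩ := hU u hu
    suffices h : ∃ v ∈ O q, sobDist lam p u.1.1 u.1.2 v.1.1 v.1.2 < ε by
      obtain ⟨v, hv, hd⟩ := h
      exact ⟨v, hεU v hd, hv⟩
    -- a real number below ε
    obtain ⟨e, he, heε⟩ : ∃ e : ℝ, 0 < e ∧ ENNReal.ofReal e < ε := by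
      obtain ⟨r, hr, hrε⟩ := ENNReal.lt_iff_exists_nnreal_btwn.1 hε
      refine ⟨r, by exact_mod_cast hr, ?_⟩
      rwa [ENNReal.ofReal_coe_nnreal]
    -- approximation by a Lipschitz homeomorphism
    set c : ℝ := (2 : ℝ) ^ p with hc
    have hc0 : 0 < c := by positivity
    obtain ⟨f, Gf, ⟨⟨L, hfL⟩, hfm⟩, hGf, hfd⟩ := u.2 (ENNReal.ofReal (min (e / 2) (e / (2 * c))))
      (ENNReal.ofReal_pos.2 (by positivity))
    obtain ⟨Gf', hGf'm, hGf'b, hGf'⟩ := hAMB f L hfL
    have hGG : Gf = Gf' := funext fun x => hAMBU f f Gf Gf' x hGf hGf'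
      (Eventually.of_forall fun _ => rfl)
    subst hGG
    obtain ⟨K, hK⟩ := hMA X lam _ V hE inferInstance f L hfL hfm (1 / (2 * ((q.2 : ℝ) + 1)))
      (by positivity)
    -- the size of the derivatives
    set R : ℝ := |C| * (L : ℝ) + |C| * ((L : ℝ) * K) + 1 with hR
    have hR0 : 0 < R := by positivity
    obtain ⟨φ, W, hφL, hφm, hφρ, hWc, hWδ, hφid, hent⟩ := hK (e / (2 * ((L : ℝ) + 1)))
      (e / (4 * c * R ^ p)) (by positivity) (by positivity)
    set g : X ≃ₜ X := φ.trans f with hg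
    have hgc : (g : X → X) = fun z => f (φ z) := rfl
    have hgL : LipschitzWith (L * K) g := hfL.comp hφL
    have hgm : MeasurePreserving g lam lam := hfm.comp hφm
    obtain ⟨Gg, hGgm, hGgb, hGg⟩ := hAMB g (L * K) hgL
    have hae : AEStronglyMeasurable Gg lam := hGgm.aestronglyMeasurable
    -- the element of the Sobolev class
    have hmk : (AEEqFun.mk Gg hae : X →ₘ[lam] (F →L[ℝ] F)) =ᵐ[lam] Gg := AEEqFun.coeFn_mk _ _
    have hmem : ∀ ε' > 0, ∃ (g' : X ≃ₜ X) (G : X → F →L[ℝ] F), IsLipCons lam g' ∧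
        IsAmbDer E ι g' G ∧
        sobDist lam p g ((AEEqFun.mk Gg hae : X →ₘ[lam] (F →L[ℝ] F)) : X → F →L[ℝ] F) g' G < ε' := by
      intro ε' hε'
      refine ⟨g, Gg, ⟨⟨_, hgL⟩, hgm⟩, hGg, ?_⟩
      have h1 : sobDist lam p g ((AEEqFun.mk Gg hae : X →ₘ[lam] (F →L[ℝ] F)) : X → F →L[ℝ] F)
          g Gg = 0 := by
        unfold sobDist
        have h2 : ∫⁻ x, ‖(AEEqFun.mk Gg hae : X →ₘ[lam] (F →L[ℝ] F)) x - Gg x‖ₑ ^ p ∂lam = 0 := by
          rw [lintegral_eq_zero_of_ae_eq_zero]
          filter_upwards [hmk] with x hx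
          rw [hx, sub_self]
          simp only [Pi.zero_apply]
          rw [enorm0, ENNReal.zero_rpow_of_pos hp]
        rw [h2]
        simp
      rw [h1]; exact hε'
    refine ⟨⟨(g, AEEqFun.mk Gg hae), hmem⟩, ?_, ?_⟩
    · -- small entropy
      have h1 : hPart (nrm lam) g (P q.1) ≤ ksEntropy (nrm lam) g := by
        unfold ksEntropy
        exact le_iSup_of_le (κ q.1) (le_iSup_of_le (P q.1) (le_iSup_of_le (hPm q.1) le_rfl))
      have h2 : hPart (nrm lam) g (P q.1) < ENNReal.ofReal (1 / ((q.2 : ℝ) + 1)) := by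
        refine (h1.trans hent).trans_lt ?_
        rw [ENNReal.ofReal_lt_ofReal_iff (by positivity)]
        exact one_div_lt_one_div_of_lt (by positivity) (by
          have : (0 : ℝ) ≤ q.2 := by positivity
          linarith)
      unfold hPart at h2
      have h3 := eventually_lt_of_limsup_lt h2
      obtain ⟨n, hn, hn1⟩ := (h3.and (eventually_ge_atTop 1)).exists
      refine ⟨n, hn1, ?_⟩
      rwa [ENNReal.ofReal_lt_ofReal_iff (by positivity)] at hn
    · -- the distance
      refine lt_of_le_of_lt ?_ heε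
      refine max_le (iSup_le fun x => ?_) ?_
      · have h1 : edist (u.1.1 x) (f x) ≤ ENNReal.ofReal (e / 2) :=
          ((edist_le_sobDist (lam := lam) (p := p) u.1.1 u.1.2 f Gf x).trans hfd.le).trans
            (ENNReal.ofReal_le_ofReal (min_le_left _ _))
        have h2 : edist (f x) (g x) ≤ ENNReal.ofReal (e / 2) := by
          rw [edist_dist]
          refine ENNReal.ofReal_le_ofReal ?_
          have h3 := hfL.dist_le_mul x (φ x)
          have h4 := hφρ x
          rw [dist_comm] at h4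
          calc dist (f x) (g x) ≤ L * dist x (φ x) := h3
            _ ≤ L * (e / (2 * ((L : ℝ) + 1))) := by gcongr
            _ = e / 2 * (L / (L + 1)) := by field_simp
            _ ≤ e / 2 * 1 := by
                gcongr
                rw [div_le_one (by positivity)]; linarith
            _ = e / 2 := mul_one _
        calc edist (u.1.1 x) (g x) ≤ edist (u.1.1 x) (f x) + edist (f x) (g x) :=
              edist_triangle _ _ _
          _ ≤ ENNReal.ofReal (e / 2) + ENNReal.ofReal (e / 2) := add_le_add h1 h2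
          _ = ENNReal.ofReal e := by
              rw [← ENNReal.ofReal_add (by positivity) (by positivity)]; congr 1; ring
      · have h0 : ∫⁻ x, ‖u.1.2 x - (AEEqFun.mk Gg hae : X →ₘ[lam] (F →L[ℝ] F)) x‖ₑ ^ p ∂lam =
            ∫⁻ x, ‖u.1.2 x - Gg x‖ₑ ^ p ∂lam := by
          refine lintegral_congr_ae ?_
          filter_upwards [hmk] with x hx
          rw [hx]
        change ∫⁻ x, ‖u.1.2 x - (AEEqFun.mk Gg hae : X →ₘ[lam] (F →L[ℝ] F)) x‖ₑ ^ p ∂lam ≤ _
        rw [h0]
        have hpt : ∀ x, ‖u.1.2 x - Gg x‖ₑ ^ p ≤ ENNReal.ofReal c *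
            (‖u.1.2 x - Gf x‖ₑ ^ p + W.indicator (fun _ => ENNReal.ofReal (R ^ p)) x) := by
          intro x
          have h1 : ‖u.1.2 x - Gg x‖ₑ ≤ ‖u.1.2 x - Gf x‖ₑ + ‖Gf x - Gg x‖ₑ := by
            have h0 : u.1.2 x - Gg x = (u.1.2 x - Gf x) + (Gf x - Gg x) := by abel
            rw [h0]
            exact enorm_add_le (u.1.2 x - Gf x) (Gf x - Gg x)
          have h2 : ‖Gf x - Gg x‖ₑ ^ p ≤ W.indicator (fun _ => ENNReal.ofReal (R ^ p)) x := by
            by_cases hx : x ∈ W
            · rw [indicator_of_mem hx]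
              have h3 : ‖Gf x - Gg x‖ ≤ R := by
                have b1 := hGf'b x
                have b2 := hGgb x
                have b3 : C * (L : ℝ) ≤ |C| * L := by gcongr; exact le_abs_self C
                have b4 : C * ((L * K : ℝ≥0) : ℝ) ≤ |C| * (L * K) := by
                  push_cast; gcongr; exact le_abs_self C
                calc ‖Gf x - Gg x‖ ≤ ‖Gf x‖ + ‖Gg x‖ := norm_sub_le _ _
                  _ ≤ R := by rw [hR]; linarith
              rw [← ofReal_norm, ENNReal.ofReal_rpow_of_nonneg (norm_nonneg _) hp.le]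
              exact ENNReal.ofReal_le_ofReal (Real.rpow_le_rpow (norm_nonneg _) h3 hp.le)
            · rw [indicator_of_notMem hx]
              have h3 : Gf x = Gg x := by
                refine hAMBU f g Gf Gg x hGf hGg ?_
                filter_upwards [hWc.isOpen_compl.mem_nhds hx] with y hy
                change f y = f (φ y)
                rw [hφid y hy]
              rw [h3, sub_self]
              rw [enorm0, ENNReal.zero_rpow_of_pos hp]
          calc ‖u.1.2 x - Gg x‖ₑ ^ p ≤ (‖u.1.2 x - Gf x‖ₑ + ‖Gf x - Gg x‖ₑ) ^ p :=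
                ENNReal.rpow_le_rpow h1 hp.le
            _ ≤ 2 ^ p * (‖u.1.2 x - Gf x‖ₑ ^ p + ‖Gf x - Gg x‖ₑ ^ p) := add_rpow_le p hp _ _
            _ ≤ _ := by
                have h5 : (2 : ℝ≥0∞) ^ p = ENNReal.ofReal c := by
                  rw [hc, ← ENNReal.ofReal_rpow_of_pos (by norm_num)]; simp
                rw [h5]; gcongr
        have hI1 : ∫⁻ x, ‖u.1.2 x - Gf x‖ₑ ^ p ∂lam ≤ ENNReal.ofReal (e / (2 * c)) :=
          ((le_max_right _ _).trans hfd.le).trans (ENNReal.ofReal_le_ofReal (min_le_right _ _))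
        have hI2 : ∫⁻ x, W.indicator (fun _ => ENNReal.ofReal (R ^ p)) x ∂lam ≤
            ENNReal.ofReal (e / (4 * c)) := by
          rw [lintegral_indicator_const hWc.measurableSet]
          have h1 : lam W = ENNReal.ofReal (lam.real W) := (ofReal_measureReal).symm
          rw [h1, ← ENNReal.ofReal_mul (by positivity)]
          refine ENNReal.ofReal_le_ofReal ?_
          calc R ^ p * lam.real W ≤ R ^ p * (e / (4 * c * R ^ p)) := by gcongr
            _ = e / (4 * c) := by
                have : 0 < R ^ p := by positivity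
                field_simp
        calc ∫⁻ x, ‖u.1.2 x - Gg x‖ₑ ^ p ∂lam
            ≤ ∫⁻ x, ENNReal.ofReal c *
              (‖u.1.2 x - Gf x‖ₑ ^ p + W.indicator (fun _ => ENNReal.ofReal (R ^ p)) x) ∂lam :=
              lintegral_mono hpt
          _ = ENNReal.ofReal c * (∫⁻ x, ‖u.1.2 x - Gf x‖ₑ ^ p ∂lam +
              ∫⁻ x, W.indicator (fun _ => ENNReal.ofReal (R ^ p)) x ∂lam) := by
              rw [lintegral_const_mul' _ _ ENNReal.ofReal_ne_top, lintegral_add_right]
              exact measurable_const.indicator hWc.measurableSet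
          _ ≤ ENNReal.ofReal c * (ENNReal.ofReal (e / (2 * c)) + ENNReal.ofReal (e / (4 * c))) := by
              gcongr
          _ = ENNReal.ofReal (c * (e / (2 * c) + e / (4 * c))) := by
              rw [← ENNReal.ofReal_add (by positivity) (by positivity),
                ← ENNReal.ofReal_mul (by positivity)]
          _ ≤ ENNReal.ofReal e := by
              refine ENNReal.ofReal_le_ofReal ?_
              have : c * (e / (2 * c) + e / (4 * c)) = 3 / 4 * e := by
                field_simp; ring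
              rw [this]; linarith
  · -- the intersection
    intro u hu
    have hu' : ∀ q, u ∈ O q := fun q => hu _ ⟨q, rfl⟩
    have h0 : ∀ j, hPart (nrm lam) u.1.1 (P j) = 0 := by
      intro j
      refine le_antisymm ?_ zero_le
      refine ENNReal.le_of_forall_pos_le_add fun r hr _ => ?_
      rw [zero_add]
      obtain ⟨k, hk⟩ := exists_nat_one_div_lt (show (0 : ℝ) < r from hr)
      obtain ⟨n, hn, hn'⟩ := hu' (j, k)
      refine (hSU X (nrm lam) u.1.1 (hnrm (mp_of_mem u)) _ (P j) (hPm j) n hn).trans ?_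
      rw [← ENNReal.ofReal_coe_nnreal]
      exact ENNReal.ofReal_le_ofReal (hn'.trans hk).le
    have h1 := hGE X (nrm lam) u.1.1 (hnrm (mp_of_mem u)) κ P hPm hPmesh 0
      (Frequently.of_forall fun j => (h0 j).le)
    exact le_antisymm h1 zero_le

end Pool.Agent.SobEnt
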