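import Pool.Agent.SobEnt.Targets

/-!
# GRAM: the density of the Riemannian volume is positive and smooth (MP_07df6b_an)
-/

open MeasureTheory Filter Topology Set Bundle
open scoped ENNReal NNReal Manifold ContDiff

universe u v

namespace Pool.Agent.SobEnt

namespace GRAM

section

variable {E : Type v} [NormedAddCommGroup E] [InnerProductSpace ℝ E]
  {X : Type u} [MetricSpace X] [ChartedSpace E X] [IsManifold 𝓘(ℝ, E) ∞ X]

theorem smooth_sec (x₀ : X) (w : E) :
    ContMDiffOn 𝓘(ℝ, E) (𝓘(ℝ, E).prod 𝓘(ℝ, E)) 1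
      (fun y : E => (⟨(chartAt E x₀).symm y, dSymm E x₀ y w⟩ : TangentBundle 𝓘(ℝ, E) X))
      (chartAt E x₀).target := by
  have h1 : ContMDiffOn 𝓘(ℝ, E) 𝓘(ℝ, E) 2 (chartAt E x₀).symm (chartAt E x₀).target :=
    contMDiffOn_chart_symm
  have hu : UniqueMDiffOn 𝓘(ℝ, E) (chartAt E x₀).target :=
    (chartAt E x₀).open_target.uniqueMDiffOn
  have h2 := h1.contMDiffOn_tangentMapWithin (m := 1) one_add_one_eq_two.le hu
  have h3 : ContMDiff 𝓘(ℝ, E) (𝓘(ℝ, E).tangent) 1
      (fun y : E => (⟨y, w⟩ : TangentBundle 𝓘(ℝ, E) E)) := by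
    intro y
    have := (contMDiffAt_vectorSpace_iff_contDiffAt (𝕜 := ℝ) (E := E) (n := 1)
      (V := fun _ : E => w) (x := y)).2 contDiffAt_const
    exact this
  have h4 := h2.comp h3.contMDiffOn (s := (chartAt E x₀).target) (fun y hy => hy)
  refine h4.congr fun y hy => ?_
  have h5 : mfderivWithin 𝓘(ℝ, E) 𝓘(ℝ, E) (chartAt E x₀).symm (chartAt E x₀).target y =
      mfderiv 𝓘(ℝ, E) 𝓘(ℝ, E) (chartAt E x₀).symm y :=
    mfderivWithin_of_mem_nhds ((chartAt E x₀).open_target.mem_nhds hy)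
  simp only [Function.comp, tangentMapWithin, dSymm, h5]
  rfl

theorem injective_dSymm (x₀ : X) {y : E} (hy : y ∈ (chartAt E x₀).target) :
    Function.Injective (dSymm E x₀ y) := by
  have he : MDifferentiableAt 𝓘(ℝ, E) 𝓘(ℝ, E) (chartAt E x₀) ((chartAt E x₀).symm y) :=
    mdifferentiableAt_atlas (chart_mem_atlas E x₀) ((chartAt E x₀).map_target hy)
  have hes : MDifferentiableAt 𝓘(ℝ, E) 𝓘(ℝ, E) (chartAt E x₀).symm y :=
    mdifferentiableAt_atlas_symm (chart_mem_atlas E x₀) hy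
  have hcomp := mfderiv_comp y he hes
  have hid : ((chartAt E x₀) ∘ (chartAt E x₀).symm) =ᶠ[𝓝 y] id := by
    filter_upwards [(chartAt E x₀).open_target.mem_nhds hy] with z hz
    simp [(chartAt E x₀).right_inv hz]
  rw [hid.mfderiv_eq, mfderiv_id] at hcomp
  intro a b hab
  have h1 := congrArg (fun T : E →L[ℝ] E => T a) hcomp
  have h2 := congrArg (fun T : E →L[ℝ] E => T b) hcomp
  have h3 : (mfderiv 𝓘(ℝ, E) 𝓘(ℝ, E) (chartAt E x₀) ((chartAt E x₀).symm y))
      (dSymm E x₀ y a) = (mfderiv 𝓘(ℝ, E) 𝓘(ℝ, E) (chartAt E x₀) ((chartAt E x₀).symm y))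
      (dSymm E x₀ y b) := by rw [hab]
  have h1' : a = (mfderiv 𝓘(ℝ, E) 𝓘(ℝ, E) (chartAt E x₀) ((chartAt E x₀).symm y))
      (dSymm E x₀ y a) := h1
  have h2' : b = (mfderiv 𝓘(ℝ, E) 𝓘(ℝ, E) (chartAt E x₀) ((chartAt E x₀).symm y))
      (dSymm E x₀ y b) := h2
  rw [h1', h2', h3]

end

end GRAM

open GRAM

theorem p_GRAM : T_GRAM.{u, v} := by
  intro E _ _ _ X _ _ _ hG x₀
  have hM : IsManifold 𝓘(ℝ, E) ∞ X := hG.isManifold
  have hC : IsContMDiffRiemannianBundle 𝓘(ℝ, E) ∞ E (fun x : X => TangentSpace 𝓘(ℝ, E) x) :=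
    hG.isCont
  have hC1 : IsContMDiffRiemannianBundle 𝓘(ℝ, E) 1 E (fun x : X => TangentSpace 𝓘(ℝ, E) x) :=
    hC.of_le (by norm_num)
  refine ⟨?_, fun y hy => ?_⟩
  · have hent : ∀ i j, ContDiffOn ℝ 1 (fun y => innerAt E ((chartAt E x₀).symm y)
        (dSymm E x₀ y (stdOrthonormalBasis ℝ E i)) (dSymm E x₀ y (stdOrthonormalBasis ℝ E j)))
        (chartAt E x₀).target := by
      intro i j
      have h := ContMDiffOn.inner_bundle (E := fun x : X => TangentSpace 𝓘(ℝ, E) x)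
        (IB := 𝓘(ℝ, E)) (b := fun y : E => (chartAt E x₀).symm y)
        (v := fun y => dSymm E x₀ y (stdOrthonormalBasis ℝ E i))
        (w := fun y => dSymm E x₀ y (stdOrthonormalBasis ℝ E j))
        (smooth_sec x₀ (stdOrthonormalBasis ℝ E i))
        (smooth_sec x₀ (stdOrthonormalBasis ℝ E j))
      exact h.contDiffOn
    unfold gramDet
    simp only [Matrix.det_apply]
    refine ContDiffOn.sum fun σ _ => ?_
    refine ContDiffOn.const_smul _ ?_
    exact contDiffOn_prod fun i _ => hent _ _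
  · have hli : LinearIndependent ℝ
        (fun i => (dSymm E x₀ y (stdOrthonormalBasis ℝ E i) :
          TangentSpace 𝓘(ℝ, E) ((chartAt E x₀).symm y))) := by
      have h1 := (stdOrthonormalBasis ℝ E).toBasis.linearIndependent
      have h2 := h1.map' (dSymm E x₀ y).toLinearMap
        (LinearMap.ker_eq_bot.2 (injective_dSymm x₀ hy))
      simpa [Function.comp_def] using h2
    have := Matrix.posDef_gram_of_linearIndependent (𝕜 := ℝ) hli
    exact this.det_pos

end Pool.Agent.SobEnt
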