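import Pool.Agent.SobEnt.Targets

/-!
# MP_07df6b_an, part LAB: gauges and approximate singular values
-/

set_option autoImplicit false

open Filter Topology Set

namespace Pool.Agent.SobEnt

namespace LAB

lemma diagL_apply {d : ℕ} (t : Fin d → ℝ) (x : EN d) (i : Fin d) : diagL t x i = t i * x i := by
  simp [diagL, Matrix.toEuclideanLin, Matrix.mulVec_diagonal]

lemma diagL_norm {d : ℕ} (t : Fin d → ℝ) (M : ℝ) (hM : 0 ≤ M) (h : ∀ i, |t i| ≤ M) :
    ‖diagL t‖ ≤ M := by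
  refine ContinuousLinearMap.opNorm_le_bound _ hM fun x => ?_
  rw [EuclideanSpace.norm_eq, EuclideanSpace.norm_eq]
  have h1 : ∑ i, ‖diagL t x i‖ ^ 2 ≤ M ^ 2 * ∑ i, ‖x i‖ ^ 2 := by
    rw [Finset.mul_sum]
    refine Finset.sum_le_sum fun i _ => ?_
    rw [diagL_apply, norm_mul, mul_pow]
    have : ‖t i‖ ^ 2 ≤ M ^ 2 := pow_le_pow_left₀ (norm_nonneg _) (h i) 2
    gcongr
  calc Real.sqrt (∑ i, ‖diagL t x i‖ ^ 2) ≤ Real.sqrt (M ^ 2 * ∑ i, ‖x i‖ ^ 2) :=
        Real.sqrt_le_sqrt h1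
    _ = M * Real.sqrt (∑ i, ‖x i‖ ^ 2) := by
        rw [Real.sqrt_mul (sq_nonneg M), Real.sqrt_sq hM]

/-- inverse of `usw` -/
noncomputable def inv {d : ℕ} (U : EN d ≃ₗᵢ[ℝ] EN d) (s : Fin d → ℝ) (W : EN d ≃ₗᵢ[ℝ] EN d) :
    EN d →L[ℝ] EN d :=
  (isoL W.symm).comp ((diagL fun i => (s i)⁻¹).comp (isoL U.symm))

lemma usw_inv {d : ℕ} (U : EN d ≃ₗᵢ[ℝ] EN d) (s : Fin d → ℝ) (W : EN d ≃ₗᵢ[ℝ] EN d)
    (hs : ∀ i, 0 < s i) : (usw U s W).comp (inv U s W) = ContinuousLinearMap.id ℝ (EN d) := by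
  ext x : 1
  change U (diagL s (W (W.symm (diagL (fun i => (s i)⁻¹) (U.symm x))))) = x
  rw [LinearIsometryEquiv.apply_symm_apply]
  have h1 : diagL s (diagL (fun i => (s i)⁻¹) (U.symm x)) = U.symm x := by
    ext i
    rw [diagL_apply, diagL_apply, ← mul_assoc, mul_inv_cancel₀ (hs i).ne', one_mul]
  rw [h1, LinearIsometryEquiv.apply_symm_apply]

lemma isoL_norm {d : ℕ} (U : EN d ≃ₗᵢ[ℝ] EN d) : ‖isoL U‖ ≤ 1 :=
  ContinuousLinearMap.opNorm_le_bound _ zero_le_one fun x => by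
    change ‖U x‖ ≤ 1 * ‖x‖
    rw [U.norm_map, one_mul]

lemma inv_norm {d : ℕ} (U : EN d ≃ₗᵢ[ℝ] EN d) (s : Fin d → ℝ) (W : EN d ≃ₗᵢ[ℝ] EN d)
    (Λ : ℝ) (hΛ : 1 ≤ Λ) (hs : IsSV Λ s) : ‖inv U s W‖ ≤ Λ ^ d := by
  have hb : ∀ i, |(s i)⁻¹| ≤ Λ ^ d := by
    intro i
    have h0 := (hs.2.1 i).1
    rw [abs_of_pos (inv_pos.2 h0)]
    have h1 : (s i)⁻¹ = ∏ j ∈ Finset.univ.erase i, s j := by
      have h2 := Finset.mul_prod_erase Finset.univ s (Finset.mem_univ i)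
      rw [hs.2.2] at h2
      exact (eq_inv_of_mul_eq_one_right h2).symm
    rw [h1]
    calc ∏ j ∈ Finset.univ.erase i, s j ≤ ∏ _j ∈ Finset.univ.erase i, Λ :=
          Finset.prod_le_prod (fun j _ => (hs.2.1 j).1.le) fun j _ => (hs.2.1 j).2
      _ = Λ ^ (Finset.univ.erase i).card := by rw [Finset.prod_const]
      _ ≤ Λ ^ d := by
          refine pow_le_pow_right₀ hΛ ?_
          have := Finset.card_le_univ (Finset.univ.erase i)
          simpa using this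
  have hd := diagL_norm (fun i => (s i)⁻¹) (Λ ^ d) (by positivity) hb
  calc ‖inv U s W‖ ≤ ‖isoL W.symm‖ * ‖(diagL fun i => (s i)⁻¹).comp (isoL U.symm)‖ :=
        ContinuousLinearMap.opNorm_comp_le _ _
    _ ≤ 1 * (Λ ^ d * 1) := by
        refine mul_le_mul (isoL_norm _) ?_ (norm_nonneg _) zero_le_one
        refine (ContinuousLinearMap.opNorm_comp_le _ _).trans ?_
        exact mul_le_mul hd (isoL_norm _) (norm_nonneg _) (by positivity)
    _ = Λ ^ d := by ring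

/-- a perturbation of the identity has a right inverse of norm at most two -/
lemma exists_inv {d : ℕ} (F : EN d →L[ℝ] EN d) (hF : ‖F‖ ≤ 1 / 2) :
    ∃ G : EN d →L[ℝ] EN d, ‖G‖ ≤ 2 ∧ (ContinuousLinearMap.id ℝ (EN d) + F).comp G =
      ContinuousLinearMap.id ℝ (EN d) := by
  have h1 : ‖-F‖ < 1 := by rw [norm_neg]; linarith
  refine ⟨∑' n : ℕ, (-F) ^ n, ?_, ?_⟩
  · have h2 := tsum_geometric_le_of_norm_lt_one (-F) h1
    have h3 : ‖(1 : EN d →L[ℝ] EN d)‖ ≤ 1 := ContinuousLinearMap.norm_id_le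
    have h4 : (1 - ‖-F‖)⁻¹ ≤ 2 := by
      rw [norm_neg]
      calc (1 - ‖F‖)⁻¹ ≤ (1 / 2 : ℝ)⁻¹ := by
            apply inv_anti₀ (by norm_num); linarith
        _ = 2 := by norm_num
    linarith
  · have h2 := mul_neg_geom_series (-F) h1
    rw [sub_neg_eq_add] at h2
    exact h2

end LAB

open LAB

theorem p_LAB : T_LAB := by
  intro d V C hd hV
  obtain ⟨hC, hVc, hV0, hVs, hVu⟩ := hV
  have hfin : FiniteDimensional ℝ (EN d →L[ℝ] EN d) := inferInstance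
  have hprop : ProperSpace (EN d →L[ℝ] EN d) := FiniteDimensional.proper ℝ _
  have hM : ∀ k : ℕ, ∃ M : ℝ, ∀ B : EN d →L[ℝ] EN d, ‖B‖ ≤ 2 → V k B ≤ M := by
    intro k
    obtain ⟨M, hM⟩ := ((isCompact_closedBall (0 : EN d →L[ℝ] EN d) 2).image (hVc k)).bddAbove
    exact ⟨M, fun B hB => hM ⟨B, by simpa using hB, rfl⟩⟩
  choose M hM using hM
  set M₀ : ℝ := 1 + ∑ k ∈ Finset.range (d + 1), |M k| with hM₀
  have hM₀1 : 1 ≤ M₀ := by
    have : 0 ≤ ∑ k ∈ Finset.range (d + 1), |M k| := Finset.sum_nonneg fun k _ => abs_nonneg _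
    linarith
  have hMk : ∀ k ≤ d, ∀ B : EN d →L[ℝ] EN d, ‖B‖ ≤ 2 → V k B ≤ M₀ := by
    intro k hk B hB
    have h1 : |M k| ≤ ∑ k ∈ Finset.range (d + 1), |M k| :=
      Finset.single_le_sum (f := fun k => |M k|) (fun k _ => abs_nonneg _)
        (Finset.mem_range.2 (by omega))
    have h2 := hM k B hB
    have h3 := le_abs_self (M k)
    linarith
  have hX : 1 ≤ C ^ 2 * M₀ := by
    have : 1 ≤ C ^ 2 := one_le_pow₀ hC
    nlinarith
  have hXp : 0 < C ^ 2 * M₀ := by linarith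
  have hlog : 0 ≤ Real.log (C ^ 2 * M₀) := Real.log_nonneg hX
  refine ⟨Real.log (C ^ 2 * M₀) + 1, by linarith, fun Λ hΛ => ?_⟩
  have hΛd : 0 < Λ ^ d := by positivity
  refine ⟨1 / (2 * Λ ^ d), by positivity, fun D U W s hs hD k hk => ?_⟩
  have hsp : ∀ i, 0 < s i := fun i => (hs.2.1 i).1
  set A := usw U s W with hA
  set B := inv U s W with hB
  have hAB : A.comp B = ContinuousLinearMap.id ℝ (EN d) := usw_inv U s W hsp
  have hBn : ‖B‖ ≤ Λ ^ d := inv_norm U s W Λ hΛ hs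
  set F := B.comp (D - A) with hF
  have hFn : ‖F‖ ≤ 1 / 2 := by
    calc ‖F‖ ≤ ‖B‖ * ‖D - A‖ := ContinuousLinearMap.opNorm_comp_le _ _
      _ ≤ Λ ^ d * (1 / (2 * Λ ^ d)) := mul_le_mul hBn hD (norm_nonneg _) hΛd.le
      _ = 1 / 2 := by field_simp
  obtain ⟨G, hG1, hG2⟩ := exists_inv F hFn
  have hDA : D = A.comp (ContinuousLinearMap.id ℝ (EN d) + F) := by
    have h1 : A.comp F = D - A := by
      rw [hF, ← ContinuousLinearMap.comp_assoc, hAB, ContinuousLinearMap.id_comp]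
    rw [ContinuousLinearMap.comp_add, h1, ContinuousLinearMap.comp_id]
    abel
  have hAD : A = D.comp G := by
    rw [hDA, ContinuousLinearMap.comp_assoc, hG2, ContinuousLinearMap.comp_id]
  have hIF : ‖ContinuousLinearMap.id ℝ (EN d) + F‖ ≤ 2 := by
    calc _ ≤ ‖ContinuousLinearMap.id ℝ (EN d)‖ + ‖F‖ := norm_add_le _ _
      _ ≤ 1 + 1 / 2 := add_le_add ContinuousLinearMap.norm_id_le hFn
      _ ≤ 2 := by norm_num
  set P : ℝ := ∏ j ∈ Finset.univ.filter (fun j : Fin d => (j : ℕ) < k), s j with hP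
  have hPp : 0 < P := Finset.prod_pos fun j _ => hsp j
  obtain ⟨hl, hu⟩ := hVu k hk U W s hs.1 hsp
  have hCp : 0 < C := by linarith
  have h1 : V k D ≤ C ^ 2 * M₀ * P := by
    rw [hDA]
    calc V k (A.comp (ContinuousLinearMap.id ℝ (EN d) + F)) ≤
          C * V k A * V k (ContinuousLinearMap.id ℝ (EN d) + F) := hVs k _ _
      _ ≤ C * (C * P) * M₀ := by
          have := hMk k hk _ hIF
          have h0 := hV0 k A
          have h0' := hV0 k (ContinuousLinearMap.id ℝ (EN d) + F)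
          gcongr
      _ = C ^ 2 * M₀ * P := by ring
  have h2 : P ≤ C ^ 2 * M₀ * V k D := by
    have h3 : V k A ≤ C * V k D * M₀ := by
      rw [hAD]
      calc V k (D.comp G) ≤ C * V k D * V k G := hVs k _ _
        _ ≤ C * V k D * M₀ := by
            have := hMk k hk G hG1
            have h0 := hV0 k D
            gcongr
    have h4 : P ≤ C * V k A := by
      rw [inv_mul_le_iff₀ hCp] at hl
      exact hl
    calc P ≤ C * V k A := h4
      _ ≤ C * (C * V k D * M₀) := by gcongr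
      _ = C ^ 2 * M₀ * V k D := by ring
  have hVp : 0 < V k D := by
    by_contra hcon
    have h5 : V k D = 0 := le_antisymm (not_lt.1 hcon) (hV0 k D)
    rw [h5, mul_zero] at h2
    linarith
  refine ⟨hVp, ?_⟩
  have hlP : Real.log P = ∑ j ∈ Finset.univ.filter (fun j : Fin d => (j : ℕ) < k),
      Real.log (s j) := Real.log_prod fun j _ => (hsp j).ne'
  rw [← hlP, abs_le]
  constructor
  · have h5 := Real.log_le_log hPp h2
    rw [Real.log_mul hXp.ne' hVp.ne'] at h5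
    linarith
  · have h5 := Real.log_le_log hVp h1
    rw [Real.log_mul hXp.ne' hPp.ne'] at h5
    linarith

end Pool.Agent.SobEnt
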