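import Pool.Agent.SobEnt.Targets2

/-!
# MAIN, first part: good itineraries (MP_07df6b_an)
-/

open MeasureTheory Filter Topology Set
open scoped ENNReal NNReal

universe u

namespace Pool.Agent.SobEnt

namespace MAIN

theorem image_iterate_eq {X : Type u} [TopologicalSpace X] (f : X ≃ₜ X) (n : ℕ) (B : Set X) :
    f^[n] '' B = (f.symm^[n]) ⁻¹' B :=
  congrFun (Set.image_eq_preimage_of_inverse
    (Function.LeftInverse.iterate (fun x => f.symm_apply_apply x) n)
    (Function.RightInverse.iterate (fun x => f.apply_symm_apply x) n)) B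

theorem symm_mp {X : Type u} [TopologicalSpace X] [MeasurableSpace X] [BorelSpace X]
    {lam : Measure X} (f : X ≃ₜ X) (hf : MeasurePreserving f lam lam) :
    MeasurePreserving f.symm lam lam :=
  MeasurePreserving.symm f.toMeasurableEquiv hf

theorem level_meas {X : Type u} [TopologicalSpace X] [MeasurableSpace X] [BorelSpace X]
    (f : X ≃ₜ X) (n : ℕ) {B : Set X} (hB : MeasurableSet B) : MeasurableSet (f^[n] '' B) := by
  rw [image_iterate_eq]
  exact (f.symm.continuous.iterate n).measurable hB

theorem level_real {X : Type u} [TopologicalSpace X] [MeasurableSpace X] [BorelSpace X]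
    {lam : Measure X} (f : X ≃ₜ X) (hf : MeasurePreserving f lam lam) (n : ℕ) {B : Set X}
    (hB : MeasurableSet B) : lam.real (f^[n] '' B) = lam.real B := by
  rw [image_iterate_eq]
  exact ((symm_mp f hf).iterate n).measureReal_preimage hB.nullMeasurableSet

/-- Good itineraries. -/
theorem goodItin (hDY : T_DYN.{u}) {X : Type u} [MetricSpace X] [CompactSpace X] [MeasurableSpace X]
    [BorelSpace X] {lam : Measure X} [IsFiniteMeasure lam] {d : ℕ} (f φ : X ≃ₜ X)
    (hf : MeasurePreserving f lam lam) (hφ : MeasurePreserving φ lam lam) (M : ℕ) (hd : 1 ≤ d)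
    (hM : 1 ≤ M) (B : Set X) (hBm : MeasurableSet B)
    (hBd : ∀ i j : ℕ, i < j → j < d * M → Disjoint (f^[i] '' B) (f^[j] '' B)) {m : ℕ}
    (S G I : Fin m → Set X) (ℓ : Fin m → Fin (d - 1)) (hSm : ∀ j, MeasurableSet (S j))
    (hGm : ∀ j, MeasurableSet (G j)) (hIm : ∀ j, MeasurableSet (I j))
    (hSd : ∀ j j', j ≠ j' → Disjoint (S j) (S j')) (hφS : ∀ j, φ '' S j = S j)
    (hφid : ∀ x, x ∉ ⋃ j, S j → φ x = x) (N Zb : Set X) (hN : MeasurableSet N)
    (hN0 : lam Nᶜ = 0) (hZ : MeasurableSet Zb) (κ c : ℝ) (hκ : 0 ≤ κ) (hc : 0 ≤ c)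
    (h1 : ∀ T, MeasurableSet T → (∀ l : Fin (d - 1), Disjoint T (f^[(l + 1) * M] '' B)) →
      lam.real (T ∩ ⋃ j, S j) ≤ κ * lam.real univ)
    (h2 : ∀ l : Fin (d - 1), lam.real (f^[(l + 1) * M] '' B \ ⋃ j ∈ {j | ℓ j = l}, (S j ∩ G j)) ≤
      κ * (1 + lam.real univ))
    (h3 : lam.real (⋃ j, (S j \ G j)) ≤ κ * lam.real univ)
    (h4 : ∀ l : Fin (d - 1), lam.real (⋃ j ∈ {j | ℓ j = l}, (S j \ I j)) ≤ c)
    (hG : ∀ j, G j ⊆ f^[((ℓ j : ℕ) + 1) * M] '' B) :
    ∃ A : Set X, MeasurableSet A ∧ A ⊆ B ∧
      (∀ j < d * M, (fun z => f (φ z))^[j] '' A ⊆ f^[j] '' B) ∧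
      lam.real (B \ A) ≤ ∑ i ∈ Finset.range d, lam.real (f^[i * M] '' B ∩ Zb) + d * c +
        d * (κ * (M + 4) * (1 + lam.real univ)) ∧
      ∀ x ∈ A, x ∉ ⋃ j, S j ∧ ∀ i < d,
        (fun z => φ (f^[M] z))^[i] x ∈ N ∧ (fun z => φ (f^[M] z))^[i] x ∉ Zb ∧
        (∀ n : ℕ, 0 < n → n < M → f^[n] ((fun z => φ (f^[M] z))^[i] x) ∉ ⋃ j, S j) ∧
        (i + 1 < d → ∃ j : Fin m, (ℓ j : ℕ) = i ∧
          f^[M] ((fun z => φ (f^[M] z))^[i] x) ∈ S j ∩ G j ∩ I j ∧
          (fun z => φ (f^[M] z))^[i + 1] x ∈ S j ∩ G j) := by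
  classical
  set W : Set X := ⋃ j, S j with hW
  have hWm : MeasurableSet W := MeasurableSet.iUnion hSm
  set Λ0 : ℝ := lam.real univ with hΛ0
  have hΛ0n : 0 ≤ Λ0 := measureReal_nonneg
  -- good parts
  set Gd : ℕ → Set X := fun i => ⋃ j ∈ {j : Fin m | (ℓ j : ℕ) = i}, (S j ∩ G j) with hGd
  set Hd : ℕ → Set X := fun i => ⋃ j ∈ {j : Fin m | (ℓ j : ℕ) = i}, (S j ∩ G j ∩ I j) with hHd
  have hGdm : ∀ i, MeasurableSet (Gd i) := fun i =>
    MeasurableSet.biUnion (Set.to_countable _) fun j _ => (hSm j).inter (hGm j)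
  have hHdm : ∀ i, MeasurableSet (Hd i) := fun i =>
    MeasurableSet.biUnion (Set.to_countable _) fun j _ => ((hSm j).inter (hGm j)).inter (hIm j)
  have hcf : ∀ n : ℕ, Continuous f^[n] := fun n => f.continuous.iterate n
  set P : ℕ → Set X := fun i => {y | y ∈ f^[i * M] '' B ∧ y ∈ N ∧ y ∉ Zb ∧ (i = 0 → y ∉ W) ∧
    (∀ n : ℕ, 0 < n → n < M → f^[n] y ∉ W) ∧
    (i + 1 < d → f^[M] y ∈ Hd i ∧ φ (f^[M] y) ∈ Gd i)} with hP
  have hPm : ∀ i, MeasurableSet (P i) := by
    intro i
    have e : P i = (f^[i * M] '' B) ∩ N ∩ Zbᶜ ∩ {y | i = 0 → y ∉ W} ∩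
        (⋂ n : ℕ, {y | 0 < n → n < M → f^[n] y ∉ W}) ∩
        {y | i + 1 < d → f^[M] y ∈ Hd i ∧ φ (f^[M] y) ∈ Gd i} := by
      ext y
      simp only [hP, mem_ofPred_eq, mem_inter_iff, mem_compl_iff, mem_iInter]
      tauto
    rw [e]
    refine (((((level_meas f _ hBm).inter hN).inter hZ.compl).inter ?_).inter ?_).inter ?_
    · by_cases h : i = 0
      · have : {y : X | i = 0 → y ∉ W} = Wᶜ := by ext y; simp [h]
        rw [this]; exact hWm.compl
      · have : {y : X | i = 0 → y ∉ W} = univ := by ext y; simp [h]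
        rw [this]; exact MeasurableSet.univ
    · refine MeasurableSet.iInter fun n => ?_
      by_cases h : 0 < n ∧ n < M
      · have : {y : X | 0 < n → n < M → f^[n] y ∉ W} = (f^[n] ⁻¹' W)ᶜ := by
          ext y; simp [h.1, h.2]
        rw [this]; exact ((hcf n).measurable hWm).compl
      · have : {y : X | 0 < n → n < M → f^[n] y ∉ W} = univ := by
          ext y
          simp only [mem_ofPred_eq, mem_univ, iff_true]
          intro a b
          exact absurd ⟨a, b⟩ h
        rw [this]; exact MeasurableSet.univ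
    · by_cases h : i + 1 < d
      · have : {y : X | i + 1 < d → f^[M] y ∈ Hd i ∧ φ (f^[M] y) ∈ Gd i} =
            (f^[M] ⁻¹' Hd i) ∩ (f^[M] ⁻¹' (φ ⁻¹' Gd i)) := by
          ext y; simp [h]
        rw [this]
        exact ((hcf M).measurable (hHdm i)).inter
          ((hcf M).measurable (φ.continuous.measurable (hGdm i)))
      · have : {y : X | i + 1 < d → f^[M] y ∈ Hd i ∧ φ (f^[M] y) ∈ Gd i} = univ := by
          ext y
          simp only [mem_ofPred_eq, mem_univ, iff_true]
          intro a
          exact absurd a h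
        rw [this]; exact MeasurableSet.univ
  have hGsub : ∀ i, Gd i ⊆ f^[(i + 1) * M] '' B := by
    intro i y hy
    simp only [hGd, mem_iUnion, mem_ofPred_eq, exists_prop] at hy
    obtain ⟨j, hj, hy⟩ := hy
    have := hG j hy.2
    rwa [hj] at this
  obtain ⟨hA1, -, hA3, hA4⟩ := hDY X lam f.toMeasurableEquiv φ.toMeasurableEquiv hf hφ d M B W P
    hd hM hBm hPm hBd hφid (fun i _ y hy => hy.1) (fun y hy => hy.2.2.2.1 rfl)
    (fun i _ y hy n hn hn' => hy.2.2.2.2.1 n hn hn')
    (fun i hi y hy => hGsub i (hy.2.2.2.2.2 hi).2)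
  refine ⟨_, hA1, fun x hx => hx.1, hA3, ?_, ?_⟩
  · refine hA4.trans ?_
    -- the bound for each i
    have key : ∀ i ∈ Finset.range d, lam.real ((f^[i * M] '' B) \ P i) ≤
        lam.real (f^[i * M] '' B ∩ Zb) + c + κ * (M + 4) * (1 + Λ0) := by
      intro i hi
      rw [Finset.mem_range] at hi
      -- pieces
      set T3 : Set X := {y | y ∈ B ∧ y ∈ W} with hT3
      set T4 : Set X := ⋃ n ∈ Finset.Ioo 0 M, (f^[i * M] '' B ∩ f^[n] ⁻¹' W) with hT4
      set T6 : Set X := {y | i + 1 < d ∧ f^[M] y ∈ (f^[(i + 1) * M] '' B) \ Gd i} with hT6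
      set T7 : Set X := {y | i + 1 < d ∧ f^[M] y ∈ ⋃ j ∈ {j : Fin m | (ℓ j : ℕ) = i}, (S j \ I j)}
        with hT7
      set T8 : Set X := {y | φ (f^[M] y) ∈ ⋃ j, (S j \ G j)} with hT8
      have hsub : (f^[i * M] '' B) \ P i ⊆
          Nᶜ ∪ ((f^[i * M] '' B ∩ Zb) ∪ (T3 ∪ (T4 ∪ (T6 ∪ (T7 ∪ T8))))) := by
        rintro y ⟨hy, hyP⟩
        by_contra hcon
        simp only [mem_union, mem_compl_iff, not_or, not_not] at hcon
        obtain ⟨c1, c2, c3, c4, c6, c7, c8⟩ := hcon
        apply hyP
        refine ⟨hy, c1, fun h => c2 ⟨hy, h⟩, ?_, ?_, ?_⟩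
        · rintro rfl hW'
          apply c3
          refine ⟨?_, hW'⟩
          simpa using hy
        · intro n hn hn' hW'
          apply c4
          simp only [hT4, mem_iUnion, exists_prop]
          exact ⟨n, Finset.mem_Ioo.2 ⟨hn, hn'⟩, hy, hW'⟩
        · intro hid
          have hG' : f^[M] y ∈ Gd i := by
            by_contra h
            apply c6
            refine ⟨hid, ?_, h⟩
            obtain ⟨z, hz, rfl⟩ := hy
            refine ⟨z, hz, ?_⟩
            rw [← Function.iterate_add_apply]
            congr 1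
            ring
          simp only [hGd, mem_iUnion, mem_ofPred_eq, exists_prop] at hG'
          obtain ⟨j, hj, hjS, hjG⟩ := hG'
          have hI : f^[M] y ∈ I j := by
            by_contra h
            apply c7
            refine ⟨hid, ?_⟩
            simp only [mem_iUnion, mem_ofPred_eq, exists_prop]
            exact ⟨j, hj, hjS, h⟩
          have hφS' : φ (f^[M] y) ∈ S j := by
            rw [← hφS j]; exact mem_image_of_mem _ hjS
          have hφG : φ (f^[M] y) ∈ G j := by
            by_contra h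
            apply c8
            simp only [hT8, mem_ofPred_eq, mem_iUnion]
            exact ⟨j, hφS', h⟩
          refine ⟨?_, ?_⟩
          · simp only [hHd, mem_iUnion, mem_ofPred_eq, exists_prop]
            exact ⟨j, hj, ⟨hjS, hjG⟩, hI⟩
          · simp only [hGd, mem_iUnion, mem_ofPred_eq, exists_prop]
            exact ⟨j, hj, hφS', hφG⟩
      have m3 : lam.real T3 ≤ κ * Λ0 := by
        have := h1 B hBm (fun l => by
          have h0 := hBd 0 ((l + 1) * M) (by positivity) (by
            have := l.2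
            have h2 : (l : ℕ) + 1 < d := by omega
            exact Nat.mul_lt_mul_of_pos_right h2 (by omega))
          simpa using h0)
        exact this
      have m4 : lam.real T4 ≤ M * (κ * Λ0) := by
        calc lam.real T4 ≤ ∑ n ∈ Finset.Ioo 0 M, lam.real (f^[i * M] '' B ∩ f^[n] ⁻¹' W) :=
              measureReal_biUnion_finset_le _ _
          _ ≤ ∑ n ∈ Finset.Ioo 0 M, κ * Λ0 := by
              refine Finset.sum_le_sum fun n hn => ?_
              rw [Finset.mem_Ioo] at hn
              have e : f^[i * M] '' B ∩ f^[n] ⁻¹' W = f^[n] ⁻¹' (f^[n + i * M] '' B ∩ W) := by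
                ext y
                simp only [mem_inter_iff, mem_preimage]
                have : y ∈ f^[i * M] '' B ↔ f^[n] y ∈ f^[n + i * M] '' B := by
                  rw [Function.iterate_add, Set.image_comp]
                  exact ((f.injective.iterate n).mem_set_image).symm
                rw [this]
              rw [e, (hf.iterate n).measureReal_preimage
                ((level_meas f _ hBm).inter hWm).nullMeasurableSet]
              refine h1 _ (level_meas f _ hBm) (fun l => ?_)
              have hl : (l : ℕ) + 1 < d := by have := l.2; omega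
              have hne : n + i * M ≠ (l + 1) * M := by
                intro h
                have h' := congrArg (· % M) h
                simp only [Nat.add_mul_mod_self_right, Nat.mul_mod_left] at h'
                rw [Nat.mod_eq_of_lt hn.2] at h'
                omega
              have hlt1 : n + i * M < d * M := by
                calc n + i * M < M + i * M := by omega
                  _ = (i + 1) * M := by ring
                  _ ≤ d * M := Nat.mul_le_mul_right _ hi
              have hlt2 : (l + 1) * M < d * M := Nat.mul_lt_mul_of_pos_right hl (by omega)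
              rcases lt_or_gt_of_ne hne with h | h
              · exact hBd _ _ h hlt2
              · exact (hBd _ _ h hlt1).symm
          _ = ((Finset.Ioo 0 M).card : ℝ) * (κ * Λ0) := by
              rw [Finset.sum_const, nsmul_eq_mul]
          _ ≤ M * (κ * Λ0) := by
              gcongr
              rw [Nat.card_Ioo]
              omega
      have m6 : lam.real T6 ≤ κ * (1 + Λ0) := by
        by_cases hid : i + 1 < d
        · have e : T6 = f^[M] ⁻¹' ((f^[(i + 1) * M] '' B) \ Gd i) := by
            ext y; simp [hT6, hid]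
          rw [e, (hf.iterate M).measureReal_preimage
            ((level_meas f _ hBm).diff (hGdm i)).nullMeasurableSet]
          have := h2 ⟨i, by omega⟩
          refine le_trans (le_of_eq ?_) this
          congr 2
          ext y
          simp [hGd, Fin.ext_iff]
        · have e : T6 = ∅ := by ext y; simp [hT6, hid]
          rw [e]; simp only [measureReal_empty]; positivity
      have m7 : lam.real T7 ≤ c := by
        by_cases hid : i + 1 < d
        · have e : T7 = f^[M] ⁻¹' (⋃ j ∈ {j : Fin m | (ℓ j : ℕ) = i}, (S j \ I j)) := by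
            ext y; simp [hT7, hid]
          rw [e, (hf.iterate M).measureReal_preimage (MeasurableSet.biUnion (Set.to_countable _)
            fun j _ => (hSm j).diff (hIm j)).nullMeasurableSet]
          have := h4 ⟨i, by omega⟩
          refine le_trans (le_of_eq ?_) this
          congr 1
          ext y
          simp [Fin.ext_iff]
        · have e : T7 = ∅ := by ext y; simp [hT7, hid]
          rw [e]; simp only [measureReal_empty]; exact hc
      have m8 : lam.real T8 ≤ κ * Λ0 := by
        have e : T8 = (φ ∘ f^[M]) ⁻¹' (⋃ j, (S j \ G j)) := rfl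
        rw [e, (hφ.comp (hf.iterate M)).measureReal_preimage
          (MeasurableSet.iUnion fun j => (hSm j).diff (hGm j)).nullMeasurableSet]
        exact h3
      have m0 : lam.real Nᶜ = 0 := by
        rw [Measure.real, hN0]; rfl
      calc lam.real ((f^[i * M] '' B) \ P i)
          ≤ lam.real (Nᶜ ∪ ((f^[i * M] '' B ∩ Zb) ∪ (T3 ∪ (T4 ∪ (T6 ∪ (T7 ∪ T8)))))) :=
            measureReal_mono hsub
        _ ≤ lam.real Nᶜ + (lam.real (f^[i * M] '' B ∩ Zb) + (lam.real T3 + (lam.real T4 +
              (lam.real T6 + (lam.real T7 + lam.real T8))))) := by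
            refine (measureReal_union_le _ _).trans (add_le_add le_rfl ?_)
            refine (measureReal_union_le _ _).trans (add_le_add le_rfl ?_)
            refine (measureReal_union_le _ _).trans (add_le_add le_rfl ?_)
            refine (measureReal_union_le _ _).trans (add_le_add le_rfl ?_)
            refine (measureReal_union_le _ _).trans (add_le_add le_rfl ?_)
            exact measureReal_union_le _ _
        _ ≤ 0 + (lam.real (f^[i * M] '' B ∩ Zb) + (κ * Λ0 + (M * (κ * Λ0) +
              (κ * (1 + Λ0) + (c + κ * Λ0))))) := by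
            rw [m0]; gcongr
        _ ≤ lam.real (f^[i * M] '' B ∩ Zb) + c + κ * (M + 4) * (1 + Λ0) := by
            have : (0 : ℝ) ≤ κ * M := by positivity
            nlinarith [mul_nonneg hκ hΛ0n, mul_nonneg this hΛ0n]
    calc ∑ i ∈ Finset.range d, lam.real ((f.toMeasurableEquiv^[i * M] '' B) \ P i)
        ≤ ∑ i ∈ Finset.range d,
          (lam.real (f^[i * M] '' B ∩ Zb) + c + κ * (M + 4) * (1 + Λ0)) :=
          Finset.sum_le_sum key
      _ = _ := by
          rw [Finset.sum_add_distrib, Finset.sum_add_distrib, Finset.sum_const, Finset.sum_const,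
            Finset.card_range, nsmul_eq_mul, nsmul_eq_mul]
  · rintro x ⟨hxB, hx⟩
    have hx' : ∀ i < d, (fun z => φ (f^[M] z))^[i] x ∈ P i := hx
    refine ⟨(hx' 0 (by omega)).2.2.2.1 rfl, fun i hi => ?_⟩
    obtain ⟨q1, q2, q3, q4, q5, q6⟩ := hx' i hi
    refine ⟨q2, q3, q5, fun hid => ?_⟩
    obtain ⟨r1, r2⟩ := q6 hid
    simp only [hHd, hGd, mem_iUnion, mem_ofPred_eq, exists_prop] at r1 r2
    obtain ⟨j, hj, hj'⟩ := r1
    obtain ⟨j₂, hj₂, hj₂'⟩ := r2
    have hφS' : φ (f^[M] ((fun z => φ (f^[M] z))^[i] x)) ∈ S j := by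
      rw [← hφS j]; exact mem_image_of_mem _ hj'.1.1
    have hjj : j = j₂ := by
      by_contra hne
      exact (Set.disjoint_left.1 (hSd j j₂ hne)) hφS' hj₂'.1
    refine ⟨j, hj, hj', ?_⟩
    rw [Function.iterate_succ_apply', hjj]
    exact hj₂'

end MAIN

end Pool.Agent.SobEnt
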