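import Pool.Agent.SobEnt.Defs

/-!
# Targets (MP_07df6b_an)

Exact statements of the parts of the proof. The proofs are in `Blueprint.lean.txt`.
Part `X` is proved in `Pool/Agent/SobEnt/X.lean` as `theorem p_X : T_X` (with the universe variable
`u` where the target has one).
-/

open MeasureTheory Filter Topology Set Bundle
open scoped ENNReal NNReal Manifold ContDiff

universe u v w

namespace Pool.Agent.SobEnt

noncomputable section

/-! ## Part A: entropy -/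

/-- SUB: Fekete -/
def T_SUB : Prop := ∀ (X : Type u) [MeasurableSpace X] (μ : Measure X) [IsProbabilityMeasure μ]
  (T : X → X), MeasurePreserving T μ μ → ∀ (k : ℕ) (P : X → Fin k), Measurable P →
  ∀ n : ℕ, 1 ≤ n → hPart μ T P ≤ ENNReal.ofReal (Hp μ (itin T P n) / n)

/-- POW: entropy of the powers -/
def T_POW : Prop := ∀ (X : Type u) [MeasurableSpace X] (μ : Measure X) [IsProbabilityMeasure μ]
  (T : X → X), MeasurePreserving T μ μ → ∀ n : ℕ, 1 ≤ n →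
  (n : ℝ≥0∞) * ksEntropy μ T ≤ ksEntropy μ T^[n]

/-- RU: counting bound -/
def T_RU : Prop := ∀ (X : Type u) [MeasurableSpace X] (μ : Measure X) [IsProbabilityMeasure μ]
  (T : X → X), MeasurePreserving T μ μ → ∀ (k : ℕ) (P : X → Fin k), Measurable P →
  ∀ N : Fin k → ℕ, (∀ a, 1 ≤ N a) →
  (∀ a, {b : Fin k | ∃ x, P x = a ∧ P (T x) = b}.ncard ≤ N a) →
  hPart μ T P ≤ ENNReal.ofReal (∑ a, μ.real (P ⁻¹' {a}) * Real.log (N a))

/-- GEN: partitions with small mesh give the entropy -/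
def T_GEN : Prop := ∀ (X : Type u) [MetricSpace X] [CompactSpace X] [MeasurableSpace X]
  [BorelSpace X] (μ : Measure X) [IsProbabilityMeasure μ] (T : X → X), MeasurePreserving T μ μ →
  ∀ (κ : ℕ → ℕ) (P : ∀ j, X → Fin (κ j)), (∀ j, Measurable (P j)) →
  (∀ δ : ℝ, 0 < δ → ∀ᶠ j in atTop, ∀ x y, P j x = P j y → dist x y ≤ δ) →
  ∀ c : ℝ≥0∞, (∃ᶠ j in atTop, hPart μ T (P j) ≤ c) → ksEntropy μ T ≤ c

/-- CONT: continuity of the entropy of finite joins -/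
def T_CONT : Prop := ∀ (X : Type u) [MetricSpace X] [CompactSpace X] [MeasurableSpace X]
  [BorelSpace X] (μ : Measure X) [IsProbabilityMeasure μ] (f : X → X), Continuous f →
  MeasurePreserving f μ μ → ∀ (k : ℕ) (P : X → Fin k), Measurable P → ∀ (n : ℕ) (ε : ℝ), 0 < ε →
  ∃ δ : ℝ, 0 < δ ∧ ∀ g : X → X, MeasurePreserving g μ μ → (∀ x, dist (g x) (f x) < δ) →
    |Hp μ (itin g P n) - Hp μ (itin f P n)| < ε

/-! ## Part B: measure preserving dynamics -/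

/-- COMP: for large `M` a subadditive process takes nearly the same value on consecutive blocks of
length `M` -/
def T_COMP : Prop := ∀ (X : Type u) [MeasurableSpace X] (μ : Measure X) [IsFiniteMeasure μ]
  (f : X → X), MeasurePreserving f μ μ → ∀ (r : ℕ) (w : Fin r → ℕ → X → ℝ) (C : ℝ),
  (∀ i n, Measurable (w i n)) → (∀ i n, ∀ᵐ x ∂μ, |w i n x| ≤ C * (n + 1)) →
  (∀ i m n, ∀ᵐ x ∂μ, w i (n + m) x ≤ w i n x + w i m (f^[n] x)) →
  ∀ (δ : ℝ) (N₀ : ℕ), 0 < δ → ∃ M : ℕ, N₀ ≤ M ∧ 1 ≤ M ∧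
    ∀ i, ∫ x, |w i M x - w i M (f^[M] x)| ∂μ ≤ δ * M

/-- TOWER: Rokhlin tower off a closed set of periodic points -/
def T_TOWER : Prop := ∀ (X : Type u) [MetricSpace X] [CompactSpace X] [MeasurableSpace X]
  [BorelSpace X] (μ : Measure X) [IsFiniteMeasure μ] (f : X ≃ₜ X), MeasurePreserving f μ μ →
  ∀ (τ : ℕ) (κ : ℝ), 1 ≤ τ → 0 < κ → ∃ (Y : Set X) (q : ℕ) (B : Set X),
    IsClosed Y ∧ f ⁻¹' Y = Y ∧ 1 ≤ q ∧ (∀ y ∈ Y, f^[q] y = y) ∧
    MeasurableSet B ∧ B ⊆ Yᶜ ∧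
    (∀ i j : ℕ, i < j → j < τ → Disjoint (f^[i] '' B) (f^[j] '' B)) ∧
    μ.real (Yᶜ \ ⋃ i ∈ Finset.range τ, f^[i] '' B) ≤ κ

/-- BLOCK: a subadditive process and a tower -/
def T_BLOCK : Prop := ∀ (X : Type u) [MeasurableSpace X] (μ : Measure X) [IsFiniteMeasure μ]
  (g : X ≃ᵐ X), MeasurePreserving g μ μ → ∀ (β : ℕ → X → ℝ) (C : ℝ) (τ : ℕ) (A X' : Set X),
  (∀ n, Measurable (β n)) → (∀ n x, 0 ≤ β n x) → (∀ x, β 0 x = 0) →
  (∀ m n x, β (n + m) x ≤ β n x + β m (g^[n] x)) → (∀ x, β 1 x ≤ C) →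
  1 ≤ τ → MeasurableSet A → MeasurableSet X' → A ⊆ X' → g ⁻¹' X' = X' →
  (∀ i j : ℕ, i < j → j < τ → Disjoint (g^[i] '' A) (g^[j] '' A)) →
  ∀ n : ℕ, ∫ x in X', β n x ∂μ ≤
    n * (∫ x in A, β τ x ∂μ + C * μ.real (X' \ ⋃ i ∈ Finset.range τ, g^[i] '' A)) +
      2 * τ * C * μ.real X'

/-- DYN: the orbits of `f ∘ φ` -/
def T_DYN : Prop := ∀ (X : Type u) [MeasurableSpace X] (μ : Measure X) [IsFiniteMeasure μ]
  (f φ : X ≃ᵐ X), MeasurePreserving f μ μ → MeasurePreserving φ μ μ →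
  ∀ (d M : ℕ) (B W : Set X) (P : ℕ → Set X), 1 ≤ d → 1 ≤ M →
  MeasurableSet B → (∀ i, MeasurableSet (P i)) →
  (∀ i j : ℕ, i < j → j < d * M → Disjoint (f^[i] '' B) (f^[j] '' B)) →
  (∀ x, x ∉ W → φ x = x) →
  (∀ i < d, P i ⊆ f^[i * M] '' B) →
  (∀ y ∈ P 0, y ∉ W) →
  (∀ i < d, ∀ y ∈ P i, ∀ m : ℕ, 0 < m → m < M → f^[m] y ∉ W) →
  (∀ i, i + 1 < d → ∀ y ∈ P i, φ (f^[M] y) ∈ f^[(i + 1) * M] '' B) →
  MeasurableSet {x | x ∈ B ∧ ∀ i < d, (fun z => φ (f^[M] z))^[i] x ∈ P i} ∧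
  (∀ x ∈ {x | x ∈ B ∧ ∀ i < d, (fun z => φ (f^[M] z))^[i] x ∈ P i}, ∀ i < d, ∀ m : ℕ,
    1 ≤ m → m ≤ M →
    (fun z => f (φ z))^[i * M + m] x = f^[m] ((fun z => φ (f^[M] z))^[i] x)) ∧
  (∀ j < d * M, (fun z => f (φ z))^[j] ''
    {x | x ∈ B ∧ ∀ i < d, (fun z => φ (f^[M] z))^[i] x ∈ P i} ⊆ f^[j] '' B) ∧
  μ.real (B \ {x | x ∈ B ∧ ∀ i < d, (fun z => φ (f^[M] z))^[i] x ∈ P i}) ≤
    ∑ i ∈ Finset.range d, μ.real ((f^[i * M] '' B) \ P i)

/-- LOC: the same identity in a neighbourhood -/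
def T_LOC : Prop := ∀ (X : Type u) [TopologicalSpace X] (f φ : X → X), Continuous f →
  Continuous φ → ∀ (d M : ℕ) (W : Set X) (x : X), 1 ≤ d → 1 ≤ M → IsClosed W →
  (∀ z, z ∉ W → φ z = z) → x ∉ W →
  (∀ i < d, ∀ m : ℕ, 0 < m → m < M → f^[m] ((fun z => φ (f^[M] z))^[i] x) ∉ W) →
  ∀ᶠ x' in 𝓝 x, (fun z => f (φ z))^[d * M] x' = f^[M] ((fun z => φ (f^[M] z))^[d - 1] x')

/-! ## Part C: linear algebra -/

/-- the Euclidean space `ℝ^d` -/
abbrev EN (d : ℕ) : Type := EuclideanSpace ℝ (Fin d)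

/-- the diagonal map with entries `s` -/
def diagL {d : ℕ} (s : Fin d → ℝ) : EN d →L[ℝ] EN d :=
  LinearMap.toContinuousLinearMap (Matrix.toEuclideanLin (Matrix.diagonal s))

/-- a linear isometry as a continuous linear map -/
def isoL {d : ℕ} (U : EN d ≃ₗᵢ[ℝ] EN d) : EN d →L[ℝ] EN d :=
  (U.toContinuousLinearEquiv : EN d →L[ℝ] EN d)

/-- `U * diag s * W` -/
def usw {d : ℕ} (U : EN d ≃ₗᵢ[ℝ] EN d) (s : Fin d → ℝ) (W : EN d ≃ₗᵢ[ℝ] EN d) :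
    EN d →L[ℝ] EN d :=
  (isoL U).comp ((diagL s).comp (isoL W))

/-- `s` is a vector of singular values of a matrix of norm `≤ Λ` and determinant `± 1` -/
def IsSV {d : ℕ} (Λ : ℝ) (s : Fin d → ℝ) : Prop :=
  Antitone s ∧ (∀ i, 0 < s i ∧ s i ≤ Λ) ∧ ∏ i, s i = 1

/-- SVD: a countable family of approximate singular value decompositions -/
def T_SVD : Prop := ∀ (d : ℕ) (Λ η : ℝ), 1 ≤ Λ → 0 < η →
  ∃ (U W : ℕ → (EN d ≃ₗᵢ[ℝ] EN d)) (s : ℕ → Fin d → ℝ), (∀ n, IsSV Λ (s n)) ∧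
    ∀ D : EN d →L[ℝ] EN d, |D.det| = 1 → ‖D‖ ≤ Λ → ∃ n, ‖D - usw (U n) (s n) (W n)‖ < η

/-- the properties of the gauges `V k` (`k`-dimensional volume growth) -/
def IsGauge (d : ℕ) (V : ℕ → (EN d →L[ℝ] EN d) → ℝ) (C : ℝ) : Prop :=
  1 ≤ C ∧ (∀ k, Continuous (V k)) ∧ (∀ k D, 0 ≤ V k D) ∧
  (∀ k, ∀ A B : EN d →L[ℝ] EN d, V k (A.comp B) ≤ C * V k A * V k B) ∧
  ∀ k ≤ d, ∀ (U W : EN d ≃ₗᵢ[ℝ] EN d) (s : Fin d → ℝ), Antitone s → (∀ i, 0 < s i) →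
    C⁻¹ * ∏ j ∈ Finset.univ.filter (fun j : Fin d => (j : ℕ) < k), s j ≤ V k (usw U s W) ∧
    V k (usw U s W) ≤ C * ∏ j ∈ Finset.univ.filter (fun j : Fin d => (j : ℕ) < k), s j

/-- VK: existence of the gauges -/
def T_VK : Prop := ∀ d : ℕ, ∃ (V : ℕ → (EN d →L[ℝ] EN d) → ℝ) (C : ℝ), IsGauge d V C

/-- LAB: the gauges of a matrix and the entries of an approximate singular value decomposition -/
def T_LAB : Prop := ∀ (d : ℕ) (V : ℕ → (EN d →L[ℝ] EN d) → ℝ) (C : ℝ), 1 ≤ d → IsGauge d V C →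
  ∃ C' : ℝ, 0 < C' ∧ ∀ Λ : ℝ, 1 ≤ Λ → ∃ η : ℝ, 0 < η ∧
    ∀ (D : EN d →L[ℝ] EN d) (U W : EN d ≃ₗᵢ[ℝ] EN d) (s : Fin d → ℝ), IsSV Λ s →
    ‖D - usw U s W‖ ≤ η → ∀ k ≤ d, 0 < V k D ∧
    |Real.log (V k D) -
      ∑ j ∈ Finset.univ.filter (fun j : Fin d => (j : ℕ) < k), Real.log (s j)| ≤ C'

/-- a signed cyclic shift of the coordinates -/
def IsShift {d : ℕ} (Q : EN d ≃ₗᵢ[ℝ] EN d) : Prop :=
  ∀ j : Fin d, Q (EuclideanSpace.single j 1) = EuclideanSpace.single (finRotate d j) 1 ∨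
    Q (EuclideanSpace.single j 1) = -EuclideanSpace.single (finRotate d j) 1

/-- the composition of a matrix with connecting isometries:
`G 0 = D 0`, `G (i+1) = D (i+1) ∘ R (i+1) ∘ G i` -/
def chainL {d : ℕ} (D R : ℕ → (EN d →L[ℝ] EN d)) : ℕ → (EN d →L[ℝ] EN d)
  | 0 => D 0
  | i + 1 => (D (i + 1)).comp ((R (i + 1)).comp (chainL D R i))

/-- PROD: the product of `d` matrices with nearly equal singular values, connected by cyclic shifts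
of the singular directions, has small norm -/
def T_PROD : Prop := ∀ (d : ℕ) (Λ : ℝ), 1 ≤ d → 1 ≤ Λ → ∃ η : ℝ, 0 < η ∧
  ∀ (γ : ℝ) (D : ℕ → (EN d →L[ℝ] EN d)) (U W Q : ℕ → (EN d ≃ₗᵢ[ℝ] EN d))
    (s : ℕ → Fin d → ℝ), 0 ≤ γ → (∀ i < d, IsSV Λ (s i)) →
    (∀ i < d, ‖D i - usw (U i) (s i) (W i)‖ ≤ η) →
    (∀ i < d, ∀ j, |Real.log (s i j) - Real.log (s 0 j)| ≤ γ) → (∀ i < d, IsShift (Q i)) →
    ‖chainL D (fun i => isoL (((U (i - 1)).symm.trans (Q i)).trans (W i).symm)) (d - 1)‖ ≤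
      Real.exp (d * γ) + 1

/-- PI: the signed shift can be chosen so that the connecting isometry is a rotation -/
def T_PI : Prop := ∀ (d : ℕ) (U W : EN d ≃ₗᵢ[ℝ] EN d), 1 ≤ d →
  ∃ Q : EN d ≃ₗᵢ[ℝ] EN d, IsShift Q ∧ (isoL ((U.symm.trans Q).trans W.symm)).det = 1

/-- TWIST: rotating a ball inside -/
def T_TWIST : Prop := ∀ d : ℕ, ∃ (C : ℝ) (m : ℕ), 1 ≤ C ∧ ∀ κ : ℝ, 0 < κ → κ < 1 / 2 →
  ∀ R : EN d ≃ₗᵢ[ℝ] EN d, (isoL R).det = 1 → ∃ t : EN d ≃ₜ EN d,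
    LipschitzWith (Real.toNNReal (C / κ ^ m)) t ∧
    LipschitzWith (Real.toNNReal (C / κ ^ m)) t.symm ∧
    (∀ x, ‖t x‖ = ‖x‖) ∧ (∀ x, 1 ≤ ‖x‖ → t x = x) ∧ (∀ x, ‖x‖ ≤ 1 - κ → t x = R x) ∧
    MeasurePreserving t volume volume

/-! ## Part D: compact spaces with volume preserving bi-Lipschitz charts -/

/-- A finite atlas of volume preserving bi-Lipschitz charts, each of them defined on a ball. -/
structure VAtlas (X : Type u) [MetricSpace X] [MeasurableSpace X] (lam : Measure X) (d : ℕ) where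
  /-- number of charts -/
  n : ℕ
  /-- centres of the balls -/
  ctr : Fin n → EN d
  /-- radii of the balls -/
  rad : Fin n → ℝ
  /-- parametrisations -/
  c : Fin n → EN d → X
  /-- bi-Lipschitz constant -/
  K : ℝ
  one_le_K : 1 ≤ K
  rad_pos : ∀ i, 0 < rad i
  bilip : ∀ i, ∀ x ∈ Metric.ball (ctr i) (rad i), ∀ y ∈ Metric.ball (ctr i) (rad i),
    dist x y ≤ K * dist (c i x) (c i y) ∧ dist (c i x) (c i y) ≤ K * dist x y
  isOpen_image : ∀ i, ∀ s ⊆ Metric.ball (ctr i) (rad i), IsOpen s → IsOpen (c i '' s)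
  vol : ∀ i, ∀ s ⊆ Metric.ball (ctr i) (rad i), MeasurableSet s → lam (c i '' s) = volume s
  cover : ∀ x, ∃ i, x ∈ c i '' Metric.ball (ctr i) (rad i)

namespace VAtlas

variable {X : Type u} [MetricSpace X] [MeasurableSpace X] {lam : Measure X} {d : ℕ}

/-- the domain of the `i`-th chart -/
def dom (V : VAtlas X lam d) (i : Fin V.n) : Set (EN d) := Metric.ball (V.ctr i) (V.rad i)

/-- the image of the `i`-th chart -/
def U (V : VAtlas X lam d) (i : Fin V.n) : Set X := V.c i '' V.dom i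

/-- the inverse of the `i`-th chart -/
def inv (V : VAtlas X lam d) (i : Fin V.n) : X → EN d := Function.invFunOn (V.c i) (V.dom i)

/-- `T` has derivative `D` at `x`, read in the charts `i` (at `x`) and `j` (at `T x`). -/
def HasCD (V : VAtlas X lam d) (i j : Fin V.n) (T : X → X) (x : X) (D : EN d →L[ℝ] EN d) : Prop :=
  x ∈ V.U i ∧ T x ∈ V.U j ∧ ContinuousAt T x ∧
    HasFDerivAt (fun y => V.inv j (T (V.c i y))) D (V.inv i x)

end VAtlas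

/-- a small closed ball in a chart -/
structure CBall {X : Type u} [MetricSpace X] [MeasurableSpace X] {lam : Measure X} {d : ℕ}
    (V : VAtlas X lam d) where
  /-- index of the chart -/
  i : Fin V.n
  /-- centre -/
  p : EN d
  /-- radius -/
  r : ℝ
  pos : 0 < r
  sub : Metric.closedBall p r ⊆ V.dom i

/-- the closed ball in `X` -/
def CBall.S {X : Type u} [MetricSpace X] [MeasurableSpace X] {lam : Measure X} {d : ℕ}
    {V : VAtlas X lam d} (b : CBall V) : Set X := V.c b.i '' Metric.closedBall b.p b.r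

/-- the inner open ball of relative radius `1 - κ` -/
def CBall.inner {X : Type u} [MetricSpace X] [MeasurableSpace X] {lam : Measure X} {d : ℕ}
    {V : VAtlas X lam d} (b : CBall V) (κ : ℝ) : Set X :=
  V.c b.i '' Metric.ball b.p ((1 - κ) * b.r)

/-- the local dilation of `T` at `x` -/
def lipAt {X : Type u} [MetricSpace X] (T : X → X) (x : X) : ℝ≥0∞ :=
  limsup (fun n : ℕ => ((n : ℝ≥0∞) + 1) *
    ⨆ y ∈ Metric.ball x (1 / ((n : ℝ) + 1)), edist (T x) (T y)) atTop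

/-- `log max(1, lipAt T x)` -/
def logLip {X : Type u} [MetricSpace X] (T : X → X) (x : X) : ℝ :=
  Real.log (max 1 (lipAt T x).toReal)

/-- LIPM: elementary properties of the local dilation -/
def T_LIPM : Prop := ∀ (X : Type u) [MetricSpace X] [MeasurableSpace X] [BorelSpace X],
  (∀ T : X → X, Continuous T → Measurable (lipAt T)) ∧
  (∀ (T : X → X) (K : ℝ≥0), LipschitzWith K T → ∀ x, lipAt T x ≤ K) ∧
  (∀ (S T : X → X) (K L : ℝ≥0), LipschitzWith K S → LipschitzWith L T → ∀ x,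
    lipAt (S ∘ T) x ≤ lipAt S (T x) * lipAt T x) ∧
  (∀ (S T : X → X) (x : X), (∀ᶠ y in 𝓝 x, S y = T y) → lipAt S x = lipAt T x) ∧
  (∀ x : X, lipAt id x ≤ 1)

/-- VBAS: basic consequences of an atlas -/
def T_VBAS : Prop := ∀ (X : Type u) [MetricSpace X] [CompactSpace X] [MeasurableSpace X]
  [BorelSpace X] (lam : Measure X) (d : ℕ) (V : VAtlas X lam d), 1 ≤ d →
  lam univ < ⊤ ∧ (Nonempty X → 0 < lam univ) ∧
  (∃ C r₀ : ℝ, 1 ≤ C ∧ 0 < r₀ ∧ (∀ (x : X) (r : ℝ), 0 < r → r ≤ r₀ →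
    C⁻¹ * r ^ d ≤ lam.real (Metric.ball x r) ∧ lam.real (Metric.ball x r) ≤ C * r ^ d)) ∧
  (∃ idx : X → Fin V.n, Measurable idx ∧ ∀ x, x ∈ V.U (idx x)) ∧
  (∀ i, ∀ s ⊆ V.dom i, MeasurableSet s → MeasurableSet (V.c i '' s)) ∧
  (∀ i, ∀ x ∈ V.dom i, V.inv i (V.c i x) = x) ∧ (∀ i, IsOpen (V.U i)) ∧
  (∀ i, ContinuousOn (V.inv i) (V.U i))

/-- VORO: partitions into small cells -/
def T_VORO : Prop := ∀ (X : Type u) [MetricSpace X] [CompactSpace X] [MeasurableSpace X]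
  [BorelSpace X] (lam : Measure X) [IsFiniteMeasure lam] (d : ℕ) (C r₀ : ℝ), 0 < r₀ → 1 ≤ C →
  (∀ (x : X) (r : ℝ), 0 < r → r ≤ r₀ →
    C⁻¹ * r ^ d ≤ lam.real (Metric.ball x r) ∧ lam.real (Metric.ball x r) ≤ C * r ^ d) →
  ∃ C' : ℝ, 1 ≤ C' ∧ ∀ r : ℝ, 0 < r → r ≤ 1 → ∃ (k : ℕ) (P : X → Fin k), Measurable P ∧
    (∀ x y, P x = P y → dist x y ≤ 2 * r) ∧
    ∀ (x : X) (s : ℝ), r ≤ s → (({a | ∃ y, dist x y ≤ s ∧ P y = a} : Set (Fin k)).ncard : ℝ) ≤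
      C' * (s / r) ^ d

/-- RUELLE: the entropy is at most the integral of the logarithm of the local dilation, up to a
constant -/
def T_RUELLE : Prop := ∀ (X : Type u) [MetricSpace X] [CompactSpace X] [MeasurableSpace X]
  [BorelSpace X] (lam : Measure X) (d : ℕ) (_ : VAtlas X lam d), 1 ≤ d → Nonempty X →
  ∃ C : ℝ, 0 ≤ C ∧ ∀ (T : X → X) (L : ℝ≥0), LipschitzWith L T → MeasurePreserving T lam lam →
    ksEntropy (nrm lam) T ≤ ENNReal.ofReal (C + d * ∫ x, logLip T x ∂(nrm lam))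

/-- FIX: a Lipschitz map which is the identity on `Y` has local dilation `≤ 1` a.e. on `Y` -/
def T_FIX : Prop := ∀ (X : Type u) [MetricSpace X] [CompactSpace X] [MeasurableSpace X]
  [BorelSpace X] (lam : Measure X) (d : ℕ) (_ : VAtlas X lam d), 1 ≤ d →
  ∀ (T : X → X) (L : ℝ≥0) (Y : Set X), LipschitzWith L T → IsClosed Y → (∀ y ∈ Y, T y = y) →
    ∀ᵐ x ∂lam, x ∈ Y → lipAt T x ≤ 1

/-- CD: chain rule and dilation for derivatives in charts -/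
def T_CD : Prop := ∀ (X : Type u) [MetricSpace X] [MeasurableSpace X] [BorelSpace X]
  (lam : Measure X) (d : ℕ) (V : VAtlas X lam d),
  (∀ (i j k : Fin V.n) (S T : X → X) (x : X) (D D' : EN d →L[ℝ] EN d),
    V.HasCD i j T x D → V.HasCD j k S (T x) D' → V.HasCD i k (S ∘ T) x (D'.comp D)) ∧
  (∀ (i j : Fin V.n) (S T : X → X) (x : X) (D : EN d →L[ℝ] EN d),
    (∀ᶠ y in 𝓝 x, S y = T y) → V.HasCD i j T x D → V.HasCD i j S x D) ∧
  (∀ (i j : Fin V.n) (T : X → X) (x : X) (D D' : EN d →L[ℝ] EN d),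
    V.HasCD i j T x D → V.HasCD i j T x D' → D = D') ∧
  (∀ (i j : Fin V.n) (T : X → X) (x : X) (D : EN d →L[ℝ] EN d),
    V.HasCD i j T x D → lipAt T x ≤ ENNReal.ofReal (V.K ^ 2 * ‖D‖))

/-- CDAE: Lipschitz measure preserving injections are differentiable a.e. in the charts -/
def T_CDAE : Prop := ∀ (X : Type u) [MetricSpace X] [CompactSpace X] [MeasurableSpace X]
  [BorelSpace X] (lam : Measure X) (d : ℕ) (V : VAtlas X lam d) (idx : X → Fin V.n),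
  1 ≤ d → Measurable idx → (∀ x, x ∈ V.U (idx x)) →
  ∀ (T : X → X) (L : ℝ≥0), LipschitzWith L T → Function.Injective T →
    MeasurePreserving T lam lam →
    ∃ D : X → (EN d →L[ℝ] EN d), Measurable D ∧
      ∀ᵐ x ∂lam, V.HasCD (idx x) (idx (T x)) T x (D x) ∧ |(D x).det| = 1 ∧
        ‖D x‖ ≤ V.K ^ 2 * L

/-- COCY: the derivative cocycle and its volume growth on consecutive blocks -/
def T_COCY : Prop := ∀ (X : Type u) [MetricSpace X] [CompactSpace X] [MeasurableSpace X]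
  [BorelSpace X] (lam : Measure X) (d : ℕ) (V : VAtlas X lam d) (idx : X → Fin V.n),
  1 ≤ d → Measurable idx → (∀ x, x ∈ V.U (idx x)) →
  ∀ (f : X → X) (L : ℝ≥0), LipschitzWith L f → Function.Injective f →
    MeasurePreserving f lam lam → 1 ≤ L →
    ∃ D : ℕ → X → (EN d →L[ℝ] EN d), (∀ M, Measurable (D M)) ∧
      (∀ M, ∀ᵐ x ∂lam, V.HasCD (idx x) (idx (f^[M] x)) f^[M] x (D M x) ∧ |(D M x).det| = 1 ∧
        ‖D M x‖ ≤ V.K ^ 2 * L ^ M) ∧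
      ∀ (Vk : ℕ → (EN d →L[ℝ] EN d) → ℝ) (C : ℝ), IsGauge d Vk C →
        ∀ (δ : ℝ) (N₀ : ℕ), 0 < δ → ∃ M : ℕ, N₀ ≤ M ∧ 1 ≤ M ∧ ∀ k ≤ d,
          Integrable (fun x => Real.log (Vk k (D M x)) - Real.log (Vk k (D M (f^[M] x)))) lam ∧
          ∫ x, |Real.log (Vk k (D M x)) - Real.log (Vk k (D M (f^[M] x)))| ∂lam ≤ δ * M

/-- COV: covering most of the sets `Z l` by small chart balls -/
def T_COV : Prop := ∀ (X : Type u) [MetricSpace X] [CompactSpace X] [MeasurableSpace X]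
  [BorelSpace X] (lam : Measure X) (d : ℕ) (V : VAtlas X lam d) (idx : X → Fin V.n),
  1 ≤ d → Measurable idx → (∀ x, x ∈ V.U (idx x)) →
  ∀ (r : ℕ) (Z : Fin r → Set X) (Θ : X → ℕ) (O : Set X) (κ ρ : ℝ), Measurable Θ →
    (∀ l, MeasurableSet (Z l)) → (∀ l, Z l ⊆ O) → IsOpen O →
    (∀ l l', l ≠ l' → Disjoint (Z l) (Z l')) → 0 < κ → 0 < ρ →
    ∃ (m : ℕ) (b : Fin m → CBall V) (ℓ : Fin m → Fin r) (θ : Fin m → ℕ),
      (∀ j, (b j).S ⊆ O ∧ (b j).r ≤ ρ) ∧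
      (∀ j j', j ≠ j' → Disjoint (b j).S (b j').S) ∧
      (∀ j, lam.real ((b j).S \ (Z (ℓ j) ∩ Θ ⁻¹' {θ j} ∩ idx ⁻¹' {(b j).i})) ≤
        κ * lam.real (b j).S) ∧
      ∀ l, lam.real (Z l \ ⋃ j ∈ {j | ℓ j = l}, (b j).S) ≤ κ

/-- PHI: the perturbation made of twists -/
def T_PHI : Prop := ∀ (X : Type u) [MetricSpace X] [CompactSpace X] [MeasurableSpace X]
  [BorelSpace X] (lam : Measure X) (d : ℕ) (V : VAtlas X lam d), 1 ≤ d →
  ∃ (C : ℝ) (m : ℕ) (ρ₀ : ℝ), 1 ≤ C ∧ 0 < ρ₀ ∧ ∀ κ : ℝ, 0 < κ → κ < 1 / 2 →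
    ∀ (r : ℕ) (b : Fin r → CBall V) (R : Fin r → (EN d ≃ₗᵢ[ℝ] EN d)),
      (∀ j, (b j).r ≤ ρ₀) → (∀ j j', j ≠ j' → Disjoint (b j).S (b j').S) →
      (∀ j, (isoL (R j)).det = 1) →
      ∃ φ : X ≃ₜ X, LipschitzWith (Real.toNNReal (C / κ ^ m)) φ ∧
        LipschitzWith (Real.toNNReal (C / κ ^ m)) φ.symm ∧
        MeasurePreserving φ lam lam ∧ (∀ x, x ∉ ⋃ j, (b j).S → φ x = x) ∧
        (∀ j, φ '' (b j).S = (b j).S) ∧
        ∀ j, ∀ x ∈ (b j).inner κ, V.HasCD (b j).i (b j).i φ x (isoL (R j))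

/-- MAIN: the dynamical part of the theorem -/
def T_MAIN : Prop := ∀ (X : Type u) [MetricSpace X] [CompactSpace X] [MeasurableSpace X]
  [BorelSpace X] (lam : Measure X) (d : ℕ) (_ : VAtlas X lam d), 2 ≤ d → Nonempty X →
  ∀ (f : X ≃ₜ X) (L : ℝ≥0), LipschitzWith L f → MeasurePreserving f lam lam →
  ∀ ε : ℝ, 0 < ε → ∃ K : ℝ≥0, ∀ ρ δ : ℝ, 0 < ρ → 0 < δ →
    ∃ (φ : X ≃ₜ X) (W : Set X), LipschitzWith K φ ∧ MeasurePreserving φ lam lam ∧
      (∀ x, dist (φ x) x ≤ ρ) ∧ IsClosed W ∧ lam.real W ≤ δ ∧ (∀ x, x ∉ W → φ x = x) ∧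
      ksEntropy (nrm lam) (fun x => f (φ x)) ≤ ENNReal.ofReal ε

/-! ## Part E: the manifold -/

/-- STRAIGHT: straightening a `C^1` density in `ℝ^d` -/
def T_STRAIGHT : Prop := ∀ (d : ℕ) (O : Set (EN d)) (ρ : EN d → ℝ) (y₀ : EN d), 1 ≤ d → IsOpen O →
  y₀ ∈ O → ContDiffOn ℝ 1 ρ O → (∀ y ∈ O, 0 < ρ y) →
  ∃ (h : OpenPartialHomeomorph (EN d) (EN d)) (C : ℝ), y₀ ∈ h.source ∧ h.source ⊆ O ∧ 1 ≤ C ∧
    (∀ x ∈ h.source, ∀ y ∈ h.source, dist x y ≤ C * dist (h x) (h y) ∧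
      dist (h x) (h y) ≤ C * dist x y) ∧
    ∀ s ⊆ h.source, MeasurableSet s → volume (h '' s) = ∫⁻ y in s, ENNReal.ofReal (ρ y)

section Manifold

/-- the hypotheses on the manifold, bundled for the targets -/
class GoodManifold (E : Type v) [NormedAddCommGroup E] [InnerProductSpace ℝ E] (X : Type u)
    [MetricSpace X] [ChartedSpace E X]
    [RiemannianBundle (fun x : X => TangentSpace 𝓘(ℝ, E) x)] : Prop where
  isManifold : IsManifold 𝓘(ℝ, E) ∞ X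
  isCont : IsContMDiffRiemannianBundle 𝓘(ℝ, E) ∞ E (fun x : X => TangentSpace 𝓘(ℝ, E) x)
  isRiem : IsRiemannianManifold 𝓘(ℝ, E) X

/-- BILIP: charts are locally bi-Lipschitz -/
def T_BILIP : Prop := ∀ (E : Type v) [NormedAddCommGroup E] [InnerProductSpace ℝ E]
  [FiniteDimensional ℝ E] (X : Type u) [MetricSpace X] [ChartedSpace E X]
  [RiemannianBundle (fun x : X => TangentSpace 𝓘(ℝ, E) x)] [GoodManifold E X], ∀ x₀ : X,
  ∃ C : ℝ, 1 ≤ C ∧ ∀ᶠ p in 𝓝 (x₀, x₀),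
    dist p.1 p.2 ≤ C * dist (chartAt E x₀ p.1) (chartAt E x₀ p.2) ∧
    dist (chartAt E x₀ p.1) (chartAt E x₀ p.2) ≤ C * dist p.1 p.2

/-- GRAM: the density of the Riemannian volume is positive and smooth -/
def T_GRAM : Prop := ∀ (E : Type v) [NormedAddCommGroup E] [InnerProductSpace ℝ E]
  [FiniteDimensional ℝ E] (X : Type u) [MetricSpace X] [ChartedSpace E X]
  [RiemannianBundle (fun x : X => TangentSpace 𝓘(ℝ, E) x)] [GoodManifold E X], ∀ x₀ : X,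
  ContDiffOn ℝ 1 (fun y => gramDet E x₀ y) (chartAt E x₀).target ∧
  ∀ y ∈ (chartAt E x₀).target, 0 < gramDet E x₀ y

/-- ATLAS: a compact Riemannian manifold has a finite atlas of volume preserving bi-Lipschitz
charts -/
def T_ATLAS : Prop := ∀ (E : Type v) [NormedAddCommGroup E] [InnerProductSpace ℝ E]
  [FiniteDimensional ℝ E] [MeasurableSpace E] [BorelSpace E] (X : Type u) [MetricSpace X]
  [CompactSpace X] [ChartedSpace E X]
  [RiemannianBundle (fun x : X => TangentSpace 𝓘(ℝ, E) x)] [GoodManifold E X]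
  [MeasurableSpace X] [BorelSpace X] (lam : Measure X), 1 ≤ Module.finrank ℝ E →
  IsRiemannianVolume E lam → Nonempty (VAtlas X lam (Module.finrank ℝ E))

/-- AMB: the ambient derivative of a Lipschitz map exists, is bounded and measurable -/
def T_AMB : Prop := ∀ (E : Type v) [NormedAddCommGroup E] [InnerProductSpace ℝ E]
  [FiniteDimensional ℝ E] (X : Type u) [MetricSpace X] [CompactSpace X] [ChartedSpace E X]
  [RiemannianBundle (fun x : X => TangentSpace 𝓘(ℝ, E) x)] [GoodManifold E X]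
  [MeasurableSpace X] [BorelSpace X] (F : Type w) [NormedAddCommGroup F] [InnerProductSpace ℝ F]
  [FiniteDimensional ℝ F] (ι : X → F), ContMDiff 𝓘(ℝ, E) 𝓘(ℝ, F) ∞ ι →
  (∀ x, Function.Injective (mfderiv 𝓘(ℝ, E) 𝓘(ℝ, F) ι x)) →
  ∃ C : ℝ, ∀ (g : X → X) (K : ℝ≥0), LipschitzWith K g →
    ∃ G : X → F →L[ℝ] F, Measurable G ∧ (∀ x, ‖G x‖ ≤ C * K) ∧
      IsAmbDer E ι g G

/-- AMBU: the ambient derivative is determined locally -/
def T_AMBU : Prop := ∀ (E : Type v) [NormedAddCommGroup E] [InnerProductSpace ℝ E]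
  [FiniteDimensional ℝ E] (X : Type u) [MetricSpace X] [ChartedSpace E X]
  (F : Type w) [NormedAddCommGroup F] [InnerProductSpace ℝ F] [FiniteDimensional ℝ F]
  (ι : X → F) (g g' : X → X) (G G' : X → F →L[ℝ] F) (x : X), IsAmbDer E ι g G →
  IsAmbDer E ι g' G' → (∀ᶠ y in 𝓝 x, g y = g' y) → G x = G' x

end Manifold

end

end Pool.Agent.SobEnt
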