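import Pool.Agent.SobEnt.Targets

/-!
# Targets, second part: pieces of MAIN and of the final theorem (MP_07df6b_an)
-/

open MeasureTheory Filter Topology Set Bundle
open scoped ENNReal NNReal Manifold ContDiff

universe u v w

namespace Pool.Agent.SobEnt

noncomputable section

/-- ENTB: entropy bound from a tower for `g` off a closed set of periodic points -/
def T_ENTB : Prop := ∀ (X : Type u) [MetricSpace X] [CompactSpace X] [MeasurableSpace X]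
  [BorelSpace X] (lam : Measure X) (d : ℕ) (_ : VAtlas X lam d), 1 ≤ d → Nonempty X →
  ∀ (g : X ≃ₜ X) (L : ℝ≥0), LipschitzWith L g → MeasurePreserving g lam lam →
  ∀ (Y : Set X) (q : ℕ), IsClosed Y → g ⁻¹' Y = Y → 1 ≤ q → (∀ y ∈ Y, g^[q] y = y) →
  ∀ (C : ℝ) (τ : ℕ) (A : Set X), (∀ x, logLip g x ≤ C) → 1 ≤ τ → MeasurableSet A → A ⊆ Yᶜ →
  (∀ i j : ℕ, i < j → j < τ → Disjoint (g^[i] '' A) (g^[j] '' A)) →
  ksEntropy (nrm lam) g ≤ ENNReal.ofReal (d / lam.real univ *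
    (∫ x in A, logLip g^[τ] x ∂lam + C * lam.real (Yᶜ \ ⋃ i ∈ Finset.range τ, g^[i] '' A)))

/-- CHAIN: the dilation of `(f ∘ φ)^(dM)` at a point with a good itinerary -/
def T_CHAIN : Prop := ∀ (X : Type u) [MetricSpace X] [MeasurableSpace X] [BorelSpace X]
  (lam : Measure X) (d : ℕ) (V : VAtlas X lam d) (idx : X → Fin V.n) (f φ : X → X) (M : ℕ)
  (W : Set X) (x : X) (D : ℕ → (EN d →L[ℝ] EN d)) (R : ℕ → (EN d →L[ℝ] EN d)),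
  Continuous f → Continuous φ → 1 ≤ d → 1 ≤ M → IsClosed W → (∀ z, z ∉ W → φ z = z) → x ∉ W →
  (∀ i < d, ∀ m : ℕ, 0 < m → m < M → f^[m] ((fun z => φ (f^[M] z))^[i] x) ∉ W) →
  (∀ i < d, V.HasCD (idx ((fun z => φ (f^[M] z))^[i] x))
    (idx (f^[M] ((fun z => φ (f^[M] z))^[i] x))) f^[M] ((fun z => φ (f^[M] z))^[i] x) (D i)) →
  (∀ i, i + 1 < d → V.HasCD (idx (f^[M] ((fun z => φ (f^[M] z))^[i] x)))
    (idx ((fun z => φ (f^[M] z))^[i + 1] x)) φ (f^[M] ((fun z => φ (f^[M] z))^[i] x)) (R (i + 1))) →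
  lipAt ((fun z => f (φ z))^[d * M]) x ≤ ENNReal.ofReal (V.K ^ 2 * ‖chainL D R (d - 1)‖)

/-- LABX: the entries of the labels along a good itinerary differ by at most
`d (2 δ₁ M + 4 C')` -/
def T_LABX : Prop := ∀ (d : ℕ) (v v' : ℕ → ℕ → ℝ) (s : ℕ → Fin d → ℝ) (a C' : ℝ),
  0 ≤ a → 0 ≤ C' →
  (∀ i < d, ∀ k ≤ d, |v i k -
    ∑ j ∈ Finset.univ.filter (fun j : Fin d => (j : ℕ) < k), Real.log (s i j)| ≤ C') →
  (∀ i, i + 1 < d → ∀ k ≤ d, |v' i k -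
    ∑ j ∈ Finset.univ.filter (fun j : Fin d => (j : ℕ) < k), Real.log (s (i + 1) j)| ≤ C') →
  (∀ i, i + 1 < d → ∀ k ≤ d, |v i k - v' i k| ≤ a) →
  ∀ i < d, ∀ j, |Real.log (s i j) - Real.log (s 0 j)| ≤ d * (2 * a + 4 * C')

/-- CFACT: measure estimates for the covering by chart balls -/
def T_CFACT : Prop := ∀ (X : Type u) [MetricSpace X] [CompactSpace X] [MeasurableSpace X]
  [BorelSpace X] (lam : Measure X) (d : ℕ) (V : VAtlas X lam d), 1 ≤ d →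
  ∀ (m : ℕ) (b : Fin m → CBall V) (r : ℕ) (ℓ : Fin m → Fin r) (Z : Fin r → Set X)
    (G : Fin m → Set X) (κ κ₁ : ℝ),
    (∀ j j', j ≠ j' → Disjoint (b j).S (b j').S) → (∀ l, MeasurableSet (Z l)) →
    (∀ l l', l ≠ l' → Disjoint (Z l) (Z l')) → (∀ j, MeasurableSet (G j)) →
    (∀ j, G j ⊆ Z (ℓ j)) → 0 < κ → κ ≤ 1 / 2 → 0 < κ₁ → κ₁ < 1 / 2 →
    (∀ j, lam.real ((b j).S \ G j) ≤ κ * lam.real (b j).S) →
    (∀ l, lam.real (Z l \ ⋃ j ∈ {j | ℓ j = l}, (b j).S) ≤ κ) →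
    IsClosed (⋃ j, (b j).S) ∧ (∀ j, MeasurableSet (b j).S) ∧
    (∀ j, MeasurableSet ((b j).inner κ₁)) ∧ (∀ j, (b j).inner κ₁ ⊆ (b j).S) ∧
    lam.real (⋃ j, (b j).S) ≤ 2 * ∑ l, lam.real (Z l) ∧
    (∀ T : Set X, MeasurableSet T → (∀ l, Disjoint T (Z l)) →
      lam.real (T ∩ ⋃ j, (b j).S) ≤ κ * lam.real univ) ∧
    (∀ l, lam.real (Z l \ ⋃ j ∈ {j | ℓ j = l}, ((b j).S ∩ G j)) ≤ κ * (1 + lam.real univ)) ∧
    lam.real (⋃ j, ((b j).S \ G j)) ≤ κ * lam.real univ ∧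
    (∀ l, lam.real (⋃ j ∈ {j | ℓ j = l}, ((b j).S \ (b j).inner κ₁)) ≤
      2 * d * κ₁ * lam.real (Z l)) ∧
    (∀ j, ∀ x ∈ (b j).S, ∀ y ∈ (b j).S, dist x y ≤ 2 * V.K * (b j).r)

/-- KLOG: a choice of `κ` -/
def T_KLOG : Prop := ∀ (a c ε : ℝ) (m : ℕ), 1 ≤ a → 0 ≤ c → 0 < ε →
  ∃ κ : ℝ, 0 < κ ∧ κ < 1 / 2 ∧ c * κ * Real.log (a / κ ^ m) ≤ ε

/-- SHIFT: choice of the base of the tower -/
def T_SHIFT : Prop := ∀ (X : Type u) [MeasurableSpace X] (μ : Measure X) [IsFiniteMeasure μ]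
  (f : X ≃ᵐ X), MeasurePreserving f μ μ → ∀ (d M : ℕ) (Y B Q : Set X) (κ : ℝ), 1 ≤ d → 1 ≤ M →
  MeasurableSet Y → f ⁻¹' Y = Y → MeasurableSet B → MeasurableSet Q → B ⊆ Yᶜ →
  (∀ i j : ℕ, i < j → j < d * M → Disjoint (f^[i] '' B) (f^[j] '' B)) →
  μ.real (Yᶜ \ ⋃ i ∈ Finset.range (d * M), f^[i] '' B) ≤ κ →
  ∃ B' : Set X, MeasurableSet B' ∧ B' ⊆ Yᶜ ∧
    (∀ i j : ℕ, i < j → j < d * M → Disjoint (f^[i] '' B') (f^[j] '' B')) ∧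
    μ.real Yᶜ - (d * M : ℕ) * μ.real B' ≤ κ ∧ (d * M : ℕ) * μ.real B' ≤ μ.real univ ∧
    (∀ i, MeasurableSet (f^[i] '' B')) ∧ (∀ i, f^[i] '' B' ⊆ Yᶜ) ∧
    (∀ i, μ.real (f^[i] '' B') = μ.real B') ∧
    (d * M : ℕ) * ∑ i ∈ Finset.range d, μ.real (f^[i * M] '' B' ∩ Q) ≤ d ^ 2 * μ.real Q

/-- MESH: finite partitions with small mesh -/
def T_MESH : Prop := ∀ (X : Type u) [MetricSpace X] [CompactSpace X] [MeasurableSpace X]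
  [BorelSpace X], ∃ (κ : ℕ → ℕ) (P : ∀ j, X → Fin (κ j)), (∀ j, Measurable (P j)) ∧
    ∀ δ : ℝ, 0 < δ → ∀ᶠ j in atTop, ∀ x y, P j x = P j y → dist x y ≤ δ

end

end Pool.Agent.SobEnt
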